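import Mathlib

/-!
Definitions for the countable partition theorem on projections of sets built from zero sets of
entire functions.
-/

open MeasureTheory

namespace Pool.Agent.Helper23.EE

/-- The zero sets of entire functions on `ℂ^n`. -/
def zeroSets (n : ℕ) : Set (Set (Fin n → ℂ)) :=
  {V | ∃ f : (Fin n → ℂ) → ℂ, AnalyticOnNhd ℂ f Set.univ ∧ V = {z | f z = 0}}

/-- A subset of `ℂ` is *entire-existential* if it is a countable union of sets `p i '' Z i`
where `p i` is an entire function on some `ℂ^(n i)` and `Z i` belongs to the σ-algebra on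
`ℂ^(n i)` generated by the zero sets of entire functions. -/
def EntireExistential (S : Set ℂ) : Prop :=
  ∃ (n : ℕ → ℕ) (p : ∀ i, (Fin (n i) → ℂ) → ℂ) (Z : ∀ i, Set (Fin (n i) → ℂ)),
    (∀ i, AnalyticOnNhd ℂ (p i) Set.univ) ∧
    (∀ i, MeasurableSet[MeasurableSpace.generateFrom (zeroSets (n i))] (Z i)) ∧
    S = ⋃ i, p i '' Z i

end Pool.Agent.Helper23.EE
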