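import Mathlib
import Pool.Agent.Helper23.EEDefs

set_option autoImplicit false

open Set Metric Filter Topology MeasureTheory

namespace Pool.Agent.Helper23.EE

/-- Analytic inverse function theorem. -/
lemma analyticAt_symm {E F : Type*} [NormedAddCommGroup E] [NormedSpace ℂ E] [CompleteSpace E]
    [NormedAddCommGroup F] [NormedSpace ℂ F] {f : E → F} {i : E ≃L[ℂ] F} {a : E}
    (hf : AnalyticAt ℂ f a) (hfd : HasStrictFDerivAt f (i : E →L[ℂ] F) a) :
    AnalyticAt ℂ (hfd.toOpenPartialHomeomorph f).symm (f a) := by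
  have hx : a ∈ (hfd.toOpenPartialHomeomorph f).source :=
    HasStrictFDerivAt.mem_toOpenPartialHomeomorph_source _
  obtain ⟨p, hp⟩ := hf
  refine ((hfd.toOpenPartialHomeomorph f).hasFPowerSeriesAt_symm hx (p := p) (i := i) hp ?_).analyticAt
  have h1 : HasFDerivAt f (continuousMultilinearCurryFin1 ℂ E F (p 1)) a := hp.hasFDerivAt
  have h2 := h1.unique hfd.hasFDerivAt
  rw [← h2]
  simp

/-- Local parametrization of a smooth hypersurface. -/
lemma local_param {d : ℕ} {G : (Fin (d+1) → ℂ) → ℂ} {z : Fin (d+1) → ℂ}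
    (hG : AnalyticAt ℂ G z) (hz : G z = 0) (hd : fderiv ℂ G z ≠ 0)
    {O : Set (Fin (d+1) → ℂ)} (hO : O ∈ 𝓝 z) :
    ∃ (ψ : (Fin d → ℂ) → (Fin (d+1) → ℂ)) (r : ℝ), 0 < r ∧ AnalyticOnNhd ℂ ψ (ball 0 r) ∧
      ψ '' ball 0 r ⊆ O ∧ ∀ᶠ w in 𝓝 z, G w = 0 → w ∈ ψ '' ball 0 r := by
  -- a coordinate direction in which the derivative is nonzero
  obtain ⟨j, hj⟩ : ∃ j, fderiv ℂ G z (Pi.single j 1) ≠ 0 := by
    by_contra hcon
    push Not at hcon
    apply hd
    ext w
    have : w = ∑ j, w j • (Pi.single j (1 : ℂ) : Fin (d+1) → ℂ) := by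
      ext k
      simp [Finset.sum_apply, Pi.single_apply]
    rw [this, map_sum]
    simp [hcon]
  let L : (Fin (d+1) → ℂ) →L[ℂ] (Fin d → ℂ) :=
    ContinuousLinearMap.pi (fun i => ContinuousLinearMap.proj (j.succAbove i))
  let A : (Fin (d+1) → ℂ) → ℂ × (Fin d → ℂ) := fun w => (G w, L (w - z))
  let A' : (Fin (d+1) → ℂ) →L[ℂ] ℂ × (Fin d → ℂ) := (fderiv ℂ G z).prod L
  have hA' : HasStrictFDerivAt A A' z := by
    have h1 : HasStrictFDerivAt G (fderiv ℂ G z) z := hG.hasStrictFDerivAt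
    have h2 : HasStrictFDerivAt (fun w => L (w - z)) L z := by
      have h3 : HasStrictFDerivAt (fun w : Fin (d+1) → ℂ => w - z) (ContinuousLinearMap.id ℂ _) z :=
        (hasStrictFDerivAt_id z).sub_const z
      have := HasStrictFDerivAt.comp (g := L) (f := fun w : Fin (d+1) → ℂ => w - z) z
        (L.hasStrictFDerivAt (x := z - z)) h3
      simpa using! this
    exact h1.prodMk h2
  have hinj : Function.Injective A' := by
    rw [injective_iff_map_eq_zero]
    intro w hw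
    have hw1 : fderiv ℂ G z w = 0 := congrArg Prod.fst hw
    have hw2 : L w = 0 := congrArg Prod.snd hw
    have hw3 : w = w j • (Pi.single j (1 : ℂ) : Fin (d+1) → ℂ) := by
      ext k
      by_cases hk : k = j
      · subst hk; simp
      · obtain ⟨i, hi⟩ := Fin.exists_succAbove_eq hk
        have := congrFun hw2 i
        simp only [L, ContinuousLinearMap.coe_pi', ContinuousLinearMap.proj_apply, hi, Pi.zero_apply] at this
        simp [this, hk]
    rw [hw3, map_smul, smul_eq_mul, mul_eq_zero] at hw1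
    have hw4 : w j = 0 := hw1.resolve_right hj
    rw [hw3, hw4, zero_smul]
  have hfin : Module.finrank ℂ (Fin (d+1) → ℂ) = Module.finrank ℂ (ℂ × (Fin d → ℂ)) := by
    simp [add_comm]
  have hsurj : Function.Surjective A' :=
    (LinearMap.injective_iff_surjective_of_finrank_eq_finrank (f := (A' : (Fin (d+1) → ℂ) →ₗ[ℂ] ℂ × (Fin d → ℂ))) hfin).1 hinj
  let e : (Fin (d+1) → ℂ) ≃L[ℂ] ℂ × (Fin d → ℂ) :=
    ContinuousLinearEquiv.ofBijective A' (LinearMap.ker_eq_bot.2 hinj) (LinearMap.range_eq_top.2 hsurj)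
  have he : (e : (Fin (d+1) → ℂ) →L[ℂ] ℂ × (Fin d → ℂ)) = A' := by
    ext1 w; rfl
  have hAe : HasStrictFDerivAt A (e : (Fin (d+1) → ℂ) →L[ℂ] ℂ × (Fin d → ℂ)) z := by rw [he]; exact hA'
  have hAan : AnalyticAt ℂ A z := by
    refine hG.prod ?_
    exact (L.analyticAt _).comp (analyticAt_id.sub analyticAt_const)
  have hAz : A z = (0, 0) := by simp [A, hz]
  have hsymm := analyticAt_symm hAan hAe
  rw [hAz] at hsymm
  let ψ : (Fin d → ℂ) → (Fin (d+1) → ℂ) := fun s => (hAe.toOpenPartialHomeomorph A).symm (0, s)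
  have hψ : AnalyticAt ℂ ψ 0 := by
    have : AnalyticAt ℂ (fun s : Fin d → ℂ => ((0 : ℂ), s)) 0 := analyticAt_const.prod analyticAt_id
    exact AnalyticAt.comp (g := (hAe.toOpenPartialHomeomorph A).symm) hsymm this
  have hleft : ∀ᶠ w in 𝓝 z, (hAe.toOpenPartialHomeomorph A).symm (A w) = w := hAe.eventually_left_inverse
  have hψ0 : ψ 0 = z := by
    have := hleft.self_of_nhds
    rw [hAz] at this
    exact this
  have hψO : ∀ᶠ s in 𝓝 (0 : Fin d → ℂ), ψ s ∈ O := by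
    apply hψ.continuousAt.eventually_mem
    rw [hψ0]; exact hO
  obtain ⟨r, hr, hball⟩ := Metric.eventually_nhds_iff_ball.1 (hψ.eventually_analyticAt.and hψO)
  refine ⟨ψ, r, hr, fun s hs => (hball s hs).1, ?_, ?_⟩
  · rintro _ ⟨s, hs, rfl⟩
    exact (hball s hs).2
  · have hL : ∀ᶠ w in 𝓝 z, L (w - z) ∈ ball (0 : Fin d → ℂ) r := by
      have hc : Continuous (fun w => L (w - z)) := L.continuous.comp (continuous_id.sub continuous_const)
      apply hc.continuousAt.eventually_mem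
      simp only [sub_self, map_zero]
      exact ball_mem_nhds _ hr
    filter_upwards [hleft, hL] with w h1 h2 h3
    refine ⟨L (w - z), h2, ?_⟩
    have : A w = (0, L (w - z)) := by simp [A, h3]
    rw [this] at h1
    exact h1


/-- The zeros of a nonzero analytic function of one variable on a preconnected set are countable. -/
lemma countable_zeros {f : ℂ → ℂ} {D : Set ℂ} (hf : AnalyticOnNhd ℂ f D) (hD : IsPreconnected D)
    (hne : ∃ t ∈ D, f t ≠ 0) : {t | t ∈ D ∧ f t = 0}.Countable := by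
  obtain ⟨t₁, ht₁, hft₁⟩ := hne
  have key : ∀ x, ∃ O : Set ℂ, x ∈ {t | t ∈ D ∧ f t = 0} →
      (O ∈ 𝓝[{t | t ∈ D ∧ f t = 0}] x ∧ O ∩ {t | t ∈ D ∧ f t = 0} ⊆ {x}) := by
    intro x
    by_cases hx : x ∈ {t | t ∈ D ∧ f t = 0}
    · rcases (hf x hx.1).eventually_eq_zero_or_eventually_ne_zero with h | h
      · exact absurd (hf.eqOn_zero_of_preconnected_of_eventuallyEq_zero hD hx.1 h ht₁) hft₁
      · rw [eventually_nhdsWithin_iff] at h
        refine ⟨{z | z ∈ ({x}ᶜ : Set ℂ) → f z ≠ 0}, fun _ => ⟨mem_nhdsWithin_of_mem_nhds h, ?_⟩⟩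
        rintro z ⟨hz1, hz2⟩
        by_contra hzx
        exact hz1 hzx hz2.2
    · exact ⟨∅, fun h => absurd h hx⟩
  choose O hO using key
  obtain ⟨t, ht1, ht2, ht3⟩ := TopologicalSpace.countable_cover_nhdsWithin (fun x hx => (hO x hx).1)
  refine ht2.mono ?_
  intro x hx
  obtain ⟨y, hy, hxy⟩ := mem_iUnion₂.1 (ht3 hx)
  have := (hO y (ht1 hy)).2 ⟨hxy, hx⟩
  rw [mem_singleton_iff] at this
  rw [this]; exact hy

/-- directional derivative operator -/
noncomputable def DV {n : ℕ} (v : Fin n → ℂ) (F : (Fin n → ℂ) → ℂ) : (Fin n → ℂ) → ℂ :=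
  fun z => fderiv ℂ F z v

lemma DV_analytic {n : ℕ} (v : Fin n → ℂ) {F : (Fin n → ℂ) → ℂ} {Ω : Set (Fin n → ℂ)}
    (hF : AnalyticOnNhd ℂ F Ω) : AnalyticOnNhd ℂ (DV v F) Ω := by
  intro z hz
  exact AnalyticAt.comp (g := fun L : (Fin n → ℂ) →L[ℂ] ℂ => ContinuousLinearMap.apply ℂ ℂ v L)
    ((ContinuousLinearMap.apply ℂ ℂ v).analyticAt _) (hF z hz).fderiv

lemma DV_iter_analytic {n : ℕ} (v : Fin n → ℂ) {F : (Fin n → ℂ) → ℂ} {Ω : Set (Fin n → ℂ)}
    (hF : AnalyticOnNhd ℂ F Ω) (k : ℕ) : AnalyticOnNhd ℂ ((DV v)^[k] F) Ω := by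
  induction k with
  | zero => exact hF
  | succ k ih => rw [Function.iterate_succ_apply']; exact DV_analytic v ih

lemma iteratedDeriv_line {n : ℕ} (v z : Fin n → ℂ) {F : (Fin n → ℂ) → ℂ} {Ω : Set (Fin n → ℂ)}
    (hΩ : IsOpen Ω) (hF : AnalyticOnNhd ℂ F Ω) (k : ℕ) (t : ℂ) (ht : z + t • v ∈ Ω) :
    iteratedDeriv k (fun s => F (z + s • v)) t = ((DV v)^[k] F) (z + t • v) := by
  induction k generalizing t with
  | zero => simp
  | succ k ih =>
    rw [iteratedDeriv_succ, Function.iterate_succ_apply']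
    have hc : Continuous (fun s : ℂ => z + s • v) := by fun_prop
    have h1 : iteratedDeriv k (fun s => F (z + s • v)) =ᶠ[𝓝 t] fun s => ((DV v)^[k] F) (z + s • v) := by
      filter_upwards [hc.continuousAt.eventually_mem (hΩ.mem_nhds ht)] with s hs
      exact ih s hs
    rw [h1.deriv_eq]
    have h2 : HasFDerivAt ((DV v)^[k] F) (fderiv ℂ ((DV v)^[k] F) (z + t • v)) (z + t • v) :=
      ((DV_iter_analytic v hF k) _ ht).differentiableAt.hasFDerivAt
    have h3 : HasDerivAt (fun s : ℂ => z + s • v) v t := by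
      simpa using! ((hasDerivAt_id t).smul_const v).const_add z
    have h4 := h2.comp_hasDerivAt t h3
    exact h4.deriv

/-- The predicate: some plaque of dimension `d` meets `T` in a set with uncountable image. -/
def Big {N : ℕ} (p : (Fin N → ℂ) → ℂ) (T : Set (Fin N → ℂ)) (d : ℕ) : Prop :=
  ∃ (φ : (Fin d → ℂ) → (Fin N → ℂ)) (c : Fin d → ℂ) (r : ℝ), AnalyticOnNhd ℂ φ (ball c r) ∧
    ¬ (p '' (T ∩ φ '' ball c r)).Countable

/-- If no `d`-plaque is big, then the zero set of a nonzero analytic function inside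
a `(d+1)`-plaque is not big. -/
lemma drop {N : ℕ} (p : (Fin N → ℂ) → ℂ) (T : Set (Fin N → ℂ)) {d : ℕ} (hnb : ¬ Big p T d)
    {φ : (Fin (d+1) → ℂ) → (Fin N → ℂ)} {c : Fin (d+1) → ℂ} {r : ℝ}
    (hφ : AnalyticOnNhd ℂ φ (ball c r)) {F : (Fin (d+1) → ℂ) → ℂ}
    (hF : AnalyticOnNhd ℂ F (ball c r)) (hne : ∃ z ∈ ball c r, F z ≠ 0) :
    (p '' (T ∩ φ '' {z | z ∈ ball c r ∧ F z = 0})).Countable := by
  -- smooth pieces
  have smooth : ∀ G : (Fin (d+1) → ℂ) → ℂ, AnalyticOnNhd ℂ G (ball c r) →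
      (p '' (T ∩ φ '' {z | z ∈ ball c r ∧ G z = 0 ∧ fderiv ℂ G z ≠ 0})).Countable := by
    intro G hG
    have key : ∀ z, ∃ (ψ : (Fin d → ℂ) → (Fin (d+1) → ℂ)) (ρ : ℝ),
        z ∈ {z | z ∈ ball c r ∧ G z = 0 ∧ fderiv ℂ G z ≠ 0} →
        (AnalyticOnNhd ℂ ψ (ball 0 ρ) ∧ ψ '' ball 0 ρ ⊆ ball c r ∧
        ({w | G w = 0 → w ∈ ψ '' ball 0 ρ} ∈ 𝓝 z)) := by
      intro z
      by_cases hz : z ∈ {z | z ∈ ball c r ∧ G z = 0 ∧ fderiv ℂ G z ≠ 0}
      · obtain ⟨ψ, ρ, _, h2, h3, h4⟩ := local_param (hG z hz.1) hz.2.1 hz.2.2 (isOpen_ball.mem_nhds hz.1)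
        exact ⟨ψ, ρ, fun _ => ⟨h2, h3, h4⟩⟩
      · exact ⟨0, 0, fun h => absurd h hz⟩
    choose ψ ρ hψ using key
    obtain ⟨S, hS1, hS2, hS3⟩ := TopologicalSpace.countable_cover_nhdsWithin
      (f := fun z => {w | G w = 0 → w ∈ ψ z '' ball 0 (ρ z)})
      (s := {z | z ∈ ball c r ∧ G z = 0 ∧ fderiv ℂ G z ≠ 0})
      (fun z hz => mem_nhdsWithin_of_mem_nhds (hψ z hz).2.2)
    have hcov : p '' (T ∩ φ '' {z | z ∈ ball c r ∧ G z = 0 ∧ fderiv ℂ G z ≠ 0}) ⊆
        ⋃ s ∈ S, p '' (T ∩ (φ ∘ ψ s) '' ball 0 (ρ s)) := by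
      rintro _ ⟨y, ⟨hyT, z, hz, rfl⟩, rfl⟩
      obtain ⟨s, hs, hzs⟩ := mem_iUnion₂.1 (hS3 hz)
      obtain ⟨w, hw, hwz⟩ := hzs hz.2.1
      exact mem_iUnion₂.2 ⟨s, hs, φ z, ⟨hyT, w, hw, by simp [hwz]⟩, rfl⟩
    refine Countable.mono hcov (hS2.biUnion fun s hs => ?_)
    by_contra hcon
    refine hnb ⟨φ ∘ ψ s, 0, ρ s, ?_, hcon⟩
    intro w hw
    have h := hψ s (hS1 hs)
    exact (hφ _ (h.2.1 ⟨w, hw, rfl⟩)).comp (h.1 w hw)
  -- cover by smooth pieces
  obtain ⟨Q, hQc, hQd⟩ := TopologicalSpace.exists_countable_dense (Fin (d+1) → ℂ)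
  have hcov : p '' (T ∩ φ '' {z | z ∈ ball c r ∧ F z = 0}) ⊆
      ⋃ v ∈ Q, ⋃ k : ℕ, p '' (T ∩ φ '' {z | z ∈ ball c r ∧ ((DV v)^[k] F) z = 0 ∧
        fderiv ℂ ((DV v)^[k] F) z ≠ 0}) := by
    rintro _ ⟨y, ⟨hyT, z, hz, rfl⟩, rfl⟩
    suffices h : ∃ v ∈ Q, ∃ k : ℕ, ((DV v)^[k] F) z = 0 ∧ fderiv ℂ ((DV v)^[k] F) z ≠ 0 by
      obtain ⟨v, hv, k, hk1, hk2⟩ := h
      exact mem_iUnion₂.2 ⟨v, hv, mem_iUnion.2 ⟨k, φ z, ⟨hyT, z, ⟨hz.1, hk1, hk2⟩, rfl⟩, rfl⟩⟩
    obtain ⟨z₁, hz₁, hFz₁⟩ := hne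
    -- open set of good directions
    have hopen : IsOpen {v : Fin (d+1) → ℂ | z + v ∈ ball c r ∧ F (z + v) ≠ 0} := by
      have h1 : IsOpen {w | w ∈ ball c r ∧ F w ≠ 0} := by
        have := hF.continuousOn.isOpen_inter_preimage isOpen_ball (isOpen_compl_singleton (x := (0:ℂ)))
        exact this
      exact h1.preimage (by fun_prop : Continuous (fun v : Fin (d+1) → ℂ => z + v))
    obtain ⟨v, hvQ, hv1, hv2⟩ := hQd.exists_mem_open hopen ⟨z₁ - z, by simpa using hz₁, by simpa using hFz₁⟩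
    refine ⟨v, hvQ, ?_⟩
    set f : ℂ → ℂ := fun s => F (z + s • v) with hf
    set D : Set ℂ := {s | z + s • v ∈ ball c r} with hD
    have hDconv : Convex ℝ D := by
      intro s hs t ht a b ha hb hab
      simp only [hD, mem_ofPred_eq] at hs ht ⊢
      have := (convex_ball c r) hs ht ha hb hab
      convert this using 1
      rw [smul_add, smul_add]
      have e1 : z = a • z + b • z := by rw [← add_smul, hab, one_smul]
      have e2 : (a • s + b • t) • v = a • s • v + b • t • v := by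
        rw [add_smul, smul_assoc, smul_assoc]
      rw [e2]
      nth_rewrite 1 [e1]
      abel
    have hfan : AnalyticOnNhd ℂ f D := by
      intro s hs
      have : AnalyticAt ℂ (fun s : ℂ => z + s • v) s :=
        analyticAt_const.add (analyticAt_id.smul analyticAt_const)
      exact AnalyticAt.comp (g := F) (hF _ hs) this
    have h0D : (0 : ℂ) ∈ D := by simpa [hD] using hz.1
    have h1D : (1 : ℂ) ∈ D := by simpa [hD] using hv1
    have hord : analyticOrderAt f 0 ≠ ⊤ := by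
      intro htop
      rw [analyticOrderAt_eq_top] at htop
      have := hfan.eqOn_zero_of_preconnected_of_eventuallyEq_zero hDconv.isPreconnected h0D htop h1D
      simp [hf, hv2] at this
    have hex : ∃ n, iteratedDeriv n f 0 ≠ 0 := by
      by_contra hcon
      push Not at hcon
      apply hord
      rw [ENat.eq_top_iff_forall_ge]
      intro n
      exact (natCast_le_analyticOrderAt_iff_iteratedDeriv_eq_zero (hfan 0 h0D)).2 fun i _ => hcon i
    classical
    have hn := Nat.find_spec hex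
    have hmin : ∀ m < Nat.find hex, iteratedDeriv m f 0 = 0 := fun m hm => by
      simpa using Nat.find_min hex hm
    have h0 : Nat.find hex ≠ 0 := by
      intro h
      rw [h] at hn
      apply hn
      simp [hf, hz.2]
    obtain ⟨k, hk⟩ := Nat.exists_eq_succ_of_ne_zero h0
    refine ⟨k, ?_, ?_⟩
    · have := hmin k (by omega)
      rw [hf, iteratedDeriv_line v z isOpen_ball hF k 0 (by simpa using hz.1)] at this
      simpa using this
    · intro hcon
      rw [hk, hf, iteratedDeriv_line v z isOpen_ball hF _ 0 (by simpa using hz.1)] at hn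
      apply hn
      rw [Function.iterate_succ_apply']
      simp [DV, hcon]
  exact Countable.mono hcov (hQc.biUnion fun v _ => countable_iUnion fun k =>
    smooth _ (DV_iter_analytic v hF k))


/-- A set `Z` which is saturated with respect to the zero patterns of countably many entire
functions has image (under any entire function) equal to an open set up to a countable set. -/
theorem almost_open {N : ℕ} {p : (Fin N → ℂ) → ℂ} (hp : AnalyticOnNhd ℂ p univ)
    {Z : Set (Fin N → ℂ)} {M : Set ((Fin N → ℂ) → ℂ)} (hM : M.Countable)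
    (hMa : ∀ h ∈ M, AnalyticOnNhd ℂ h univ)
    (hZ : ∀ z w, (∀ h ∈ M, (h z = 0 ↔ h w = 0)) → (z ∈ Z ↔ w ∈ Z)) :
    ∃ U : Set ℂ, IsOpen U ∧ (p '' Z \ U).Countable ∧ (U \ p '' Z).Countable := by
  classical
  let 𝒱 : Set (Set ℂ) := {V | IsOpen V ∧ (V \ p '' Z).Countable}
  refine ⟨⋃₀ 𝒱, isOpen_sUnion fun V hV => hV.1, ?_, ?_⟩
  swap
  · obtain ⟨𝒯, h𝒯c, h𝒯s, h𝒯u⟩ := TopologicalSpace.isOpen_sUnion_countable 𝒱 (fun V hV => hV.1)
    rw [← h𝒯u]
    have : ⋃₀ 𝒯 \ p '' Z ⊆ ⋃ V ∈ 𝒯, (V \ p '' Z) := by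
      rintro x ⟨⟨V, hV, hxV⟩, hx⟩
      exact mem_iUnion₂.2 ⟨V, hV, hxV, hx⟩
    exact Countable.mono this (h𝒯c.biUnion fun V hV => (h𝒯s hV).2)
  by_contra hcount
  set U := ⋃₀ 𝒱 with hU
  set T : Set (Fin N → ℂ) := {z | z ∈ Z ∧ p z ∉ U} with hT
  have hpT : ¬ (p '' T).Countable := by
    intro h
    apply hcount
    refine h.mono ?_
    rintro _ ⟨⟨z, hz, rfl⟩, hzU⟩
    exact ⟨z, ⟨hz, hzU⟩, rfl⟩
  have hbigN : Big p T N := by
    by_contra hnb
    apply hpT
    have : p '' T ⊆ ⋃ k : ℕ, p '' (T ∩ (fun z => z) '' ball (0 : Fin N → ℂ) k) := by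
      rintro _ ⟨z, hz, rfl⟩
      obtain ⟨k, hk⟩ := exists_nat_gt ‖z‖
      exact mem_iUnion.2 ⟨k, z, ⟨hz, z, by simpa using hk, rfl⟩, rfl⟩
    refine Countable.mono this (countable_iUnion fun k => ?_)
    by_contra hcon
    exact hnb ⟨fun z => z, 0, k, fun z _ => analyticAt_id, hcon⟩
  have hex : ∃ d, Big p T d := ⟨N, hbigN⟩
  have hfind := Nat.find_spec hex
  have hmin : ∀ d < Nat.find hex, ¬ Big p T d := fun d hd => Nat.find_min hex hd
  rcases Nat.eq_zero_or_pos (Nat.find hex) with h0 | hpos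
  · rw [h0] at hfind
    obtain ⟨φ, c, r, _, hbig⟩ := hfind
    apply hbig
    refine Countable.mono (image_mono inter_subset_right) ?_
    rw [image_image]
    exact (Set.to_countable _).image _
  obtain ⟨d, hd⟩ := Nat.exists_eq_succ_of_ne_zero hpos.ne'
  rw [hd] at hfind hmin
  have hnb : ¬ Big p T d := hmin d (Nat.lt_succ_self d)
  obtain ⟨φ, c, r, hφ, hbig⟩ := hfind
  -- generic point
  set M' : Set ((Fin N → ℂ) → ℂ) := {h | h ∈ M ∧ ∃ z ∈ ball c r, h (φ z) ≠ 0} with hM'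
  have hM'c : M'.Countable := hM.mono fun h hh => hh.1
  obtain ⟨z₀, hz₀, hz₀T, hz₀g⟩ : ∃ z₀ ∈ ball c r, φ z₀ ∈ T ∧ ∀ h ∈ M', h (φ z₀) ≠ 0 := by
    by_contra hcon
    push Not at hcon
    apply hbig
    have : p '' (T ∩ φ '' ball c r) ⊆
        ⋃ h ∈ M', p '' (T ∩ φ '' {z | z ∈ ball c r ∧ (h ∘ φ) z = 0}) := by
      rintro _ ⟨_, ⟨hyT, z, hz, rfl⟩, rfl⟩
      obtain ⟨h, hh, hh0⟩ := hcon z hz hyT
      exact mem_iUnion₂.2 ⟨h, hh, φ z, ⟨hyT, z, ⟨hz, hh0⟩, rfl⟩, rfl⟩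
    refine Countable.mono this (hM'c.biUnion fun h hh => ?_)
    refine drop p T hnb hφ ?_ hh.2
    intro z hz
    exact AnalyticAt.comp (g := h) (hMa h hh.1 _ (mem_univ _)) (hφ z hz)
  -- `p ∘ φ` is not constant
  obtain ⟨z₁, hz₁, hne⟩ : ∃ z₁ ∈ ball c r, p (φ z₁) ≠ p (φ z₀) := by
    by_contra hcon
    push Not at hcon
    apply hbig
    refine Countable.mono ?_ (countable_singleton (p (φ z₀)))
    rintro _ ⟨_, ⟨_, z, hz, rfl⟩, rfl⟩
    exact hcon z hz
  -- the complex line through `z₀` and `z₁`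
  set v := z₁ - z₀ with hv
  set D : Set ℂ := {s | z₀ + s • v ∈ ball c r} with hD
  have hDconv : Convex ℝ D := by
    intro s hs t ht a b ha hb hab
    simp only [hD, mem_ofPred_eq] at hs ht ⊢
    have := (convex_ball c r) hs ht ha hb hab
    convert this using 1
    rw [smul_add, smul_add]
    have e1 : z₀ = a • z₀ + b • z₀ := by rw [← add_smul, hab, one_smul]
    have e2 : (a • s + b • t) • v = a • s • v + b • t • v := by
      rw [add_smul, smul_assoc, smul_assoc]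
    rw [e2]
    nth_rewrite 1 [e1]
    abel
  have hDopen : IsOpen D := isOpen_ball.preimage (by fun_prop : Continuous (fun s : ℂ => z₀ + s • v))
  have h0D : (0 : ℂ) ∈ D := by simpa [hD] using hz₀
  have h1D : (1 : ℂ) ∈ D := by simpa [hD, hv] using hz₁
  have hline : ∀ s ∈ D, AnalyticAt ℂ (fun s : ℂ => φ (z₀ + s • v)) s := by
    intro s hs
    have : AnalyticAt ℂ (fun s : ℂ => z₀ + s • v) s :=
      analyticAt_const.add (analyticAt_id.smul analyticAt_const)
    exact AnalyticAt.comp (g := φ) (hφ _ hs) this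
  set u : ℂ → ℂ := fun s => p (φ (z₀ + s • v)) with hu
  have huan : AnalyticOnNhd ℂ u D := fun s hs =>
    AnalyticAt.comp (g := p) (hp _ (mem_univ _)) (hline s hs)
  have huopen : IsOpen (u '' D) := by
    rcases huan.is_constant_or_isOpen hDconv.isPreconnected with ⟨w, hw⟩ | h
    · exfalso
      apply hne
      have h1 := hw 1 h1D
      have h0 := hw 0 h0D
      simp only [hu, hv, one_smul, zero_smul, add_zero, add_sub_cancel] at h1 h0
      rw [h1, h0]
    · exact h D subset_rfl hDopen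
  have hVmem : u '' D ∈ 𝒱 := by
    refine ⟨huopen, ?_⟩
    have hsub : u '' D \ p '' Z ⊆ ⋃ h ∈ M', u '' {s | s ∈ D ∧ h (φ (z₀ + s • v)) = 0} := by
      rintro _ ⟨⟨s, hs, rfl⟩, hsZ⟩
      by_contra hcon
      simp only [mem_iUnion, not_exists] at hcon
      apply hsZ
      refine ⟨φ (z₀ + s • v), ?_, rfl⟩
      refine (hZ (φ z₀) _ ?_).1 hz₀T.1
      intro h hh
      by_cases hh' : h ∈ M'
      · have h1 : h (φ z₀) ≠ 0 := hz₀g h hh'
        have h2 : h (φ (z₀ + s • v)) ≠ 0 := fun h0 => hcon h hh' ⟨s, ⟨hs, h0⟩, rfl⟩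
        simp [h1, h2]
      · have hz : ∀ z ∈ ball c r, h (φ z) = 0 := by
          intro z hz
          by_contra hne
          exact hh' ⟨hh, z, hz, hne⟩
        simp [hz z₀ hz₀, hz _ hs]
    refine Countable.mono hsub (hM'c.biUnion fun h hh => ?_)
    refine Countable.image ?_ _
    refine countable_zeros (f := fun s => h (φ (z₀ + s • v))) (fun s hs =>
      AnalyticAt.comp (g := h) (hMa h hh.1 _ (mem_univ _)) (hline s hs)) hDconv.isPreconnected ?_
    exact ⟨0, h0D, by simpa using hz₀g h hh⟩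
  apply hz₀T.2
  refine mem_sUnion.2 ⟨u '' D, hVmem, 0, h0D, ?_⟩
  simp [hu]


/-- Members of the σ-algebra generated by zero sets of entire functions are saturated with
respect to the zero pattern of countably many entire functions. -/
lemma saturated {n : ℕ} {Z : Set (Fin n → ℂ)}
    (hZ : MeasurableSet[MeasurableSpace.generateFrom (zeroSets n)] Z) :
    ∃ M : Set ((Fin n → ℂ) → ℂ), M.Countable ∧ (∀ h ∈ M, AnalyticOnNhd ℂ h univ) ∧
      ∀ z w, (∀ h ∈ M, (h z = 0 ↔ h w = 0)) → (z ∈ Z ↔ w ∈ Z) := by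
  induction Z, hZ using MeasurableSpace.generateFrom_induction with
  | hC t ht _ =>
    obtain ⟨f, hf, rfl⟩ := ht
    exact ⟨{f}, countable_singleton f, by simpa using hf, fun z w h => h f rfl⟩
  | empty => exact ⟨∅, countable_empty, by simp, fun z w _ => by simp⟩
  | compl t _ ih =>
    obtain ⟨M, h1, h2, h3⟩ := ih
    exact ⟨M, h1, h2, fun z w h => not_congr (h3 z w h)⟩
  | iUnion s _ ih =>
    choose M h1 h2 h3 using ih
    refine ⟨⋃ i, M i, countable_iUnion h1, ?_, ?_⟩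
    · intro h hh
      obtain ⟨i, hi⟩ := mem_iUnion.1 hh
      exact h2 i h hi
    · intro z w h
      simp only [mem_iUnion]
      exact exists_congr fun i => h3 i z w fun g hg => h g (mem_iUnion.2 ⟨i, hg⟩)

lemma EntireExistential.almost_open {S : Set ℂ} (hS : EntireExistential S) :
    ∃ U : Set ℂ, IsOpen U ∧ (S \ U).Countable ∧ (U \ S).Countable := by
  obtain ⟨n, p, Z, hp, hZ, rfl⟩ := hS
  have : ∀ i, ∃ U : Set ℂ, IsOpen U ∧ (p i '' Z i \ U).Countable ∧ (U \ p i '' Z i).Countable := by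
    intro i
    obtain ⟨M, h1, h2, h3⟩ := saturated (hZ i)
    exact EE.almost_open (hp i) h1 h2 h3
  choose U h1 h2 h3 using this
  refine ⟨⋃ i, U i, isOpen_iUnion h1, ?_, ?_⟩
  · refine (countable_iUnion h2).mono ?_
    rintro x ⟨hx, hxU⟩
    obtain ⟨i, hi⟩ := mem_iUnion.1 hx
    exact mem_iUnion.2 ⟨i, hi, fun h => hxU (mem_iUnion.2 ⟨i, h⟩)⟩
  · refine (countable_iUnion h3).mono ?_
    rintro x ⟨hx, hxU⟩
    obtain ⟨i, hi⟩ := mem_iUnion.1 hx
    exact mem_iUnion.2 ⟨i, hi, fun h => hxU (mem_iUnion.2 ⟨i, h⟩)⟩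

lemma open_countable_empty {U : Set ℂ} (hU : IsOpen U) (hc : U.Countable) : U = ∅ := by
  have := (hc.isConnected_compl_of_one_lt_rank (by simp)).nonempty
  by_contra hne
  obtain ⟨x, hx⟩ := nonempty_iff_ne_empty.2 hne
  have h1 : U ∈ 𝓝 x := hU.mem_nhds hx
  have h2 : (U ∩ Uᶜ).Nonempty := by
    have hd : Dense (Uᶜ) := hc.dense_compl ℝ
    exact hd.inter_open_nonempty U hU ⟨x, hx⟩
  simp at h2


end Pool.Agent.Helper23.EE
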