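import Mathlib

set_option autoImplicit false

open Set Metric Filter Topology

namespace Pool.Agent.Helper23.QM


/-- Analytic inverse function theorem. -/
lemma analyticAt_symm {E F : Type*} [NormedAddCommGroup E] [NormedSpace ℂ E] [CompleteSpace E]
    [NormedAddCommGroup F] [NormedSpace ℂ F] {f : E → F} {i : E ≃L[ℂ] F} {a : E}
    (hf : AnalyticAt ℂ f a) (hfd : HasStrictFDerivAt f (i : E →L[ℂ] F) a) :
    AnalyticAt ℂ (hfd.toOpenPartialHomeomorph f).symm (f a) := by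
  have hx : a ∈ (hfd.toOpenPartialHomeomorph f).source :=
    HasStrictFDerivAt.mem_toOpenPartialHomeomorph_source _
  obtain ⟨p, hp⟩ := hf
  refine ((hfd.toOpenPartialHomeomorph f).hasFPowerSeriesAt_symm hx (p := p) (i := i) hp ?_).analyticAt
  have h1 : HasFDerivAt f (continuousMultilinearCurryFin1 ℂ E F (p 1)) a := hp.hasFDerivAt
  have h2 := h1.unique hfd.hasFDerivAt
  rw [← h2]
  simp

/-- Partial derivative in the second variable. -/
noncomputable def Dy (F : ℂ × ℂ → ℂ) : ℂ × ℂ → ℂ := fun p => fderiv ℂ F p (0, 1)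

lemma Dy_analyticAt {F : ℂ × ℂ → ℂ} {p : ℂ × ℂ} (hF : AnalyticAt ℂ F p) : AnalyticAt ℂ (Dy F) p :=
  AnalyticAt.comp (g := fun L : (ℂ × ℂ) →L[ℂ] ℂ => ContinuousLinearMap.apply ℂ ℂ ((0, 1) : ℂ × ℂ) L)
    ((ContinuousLinearMap.apply ℂ ℂ ((0, 1) : ℂ × ℂ)).analyticAt _) hF.fderiv

lemma Dy_iter_analytic {F : ℂ × ℂ → ℂ} {Ω : Set (ℂ × ℂ)}
    (hF : AnalyticOnNhd ℂ F Ω) (k : ℕ) : AnalyticOnNhd ℂ (Dy^[k] F) Ω := by
  induction k with
  | zero => exact hF
  | succ k ih => rw [Function.iterate_succ_apply']; exact fun p hp => Dy_analyticAt (ih p hp)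

lemma hasDerivAt_slice {F : ℂ × ℂ → ℂ} {x y : ℂ} (hF : AnalyticAt ℂ F (x, y)) :
    HasDerivAt (fun y => F (x, y)) (Dy F (x, y)) y := by
  have h1 : HasFDerivAt F (fderiv ℂ F (x, y)) (x, y) := hF.differentiableAt.hasFDerivAt
  have h2 : HasDerivAt (fun y : ℂ => (x, y)) ((0 : ℂ), (1 : ℂ)) y :=
    (hasDerivAt_const y x).prodMk (hasDerivAt_id y)
  exact h1.comp_hasDerivAt y h2

lemma iteratedDeriv_slice {U₀ : Set ℂ} {F : ℂ × ℂ → ℂ} (hF : AnalyticOnNhd ℂ F (U₀ ×ˢ univ)) (k : ℕ)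
    {x : ℂ} (hx : x ∈ U₀) (y : ℂ) :
    iteratedDeriv k (fun y => F (x, y)) y = (Dy^[k] F) (x, y) := by
  induction k generalizing y with
  | zero => simp
  | succ k ih =>
    rw [iteratedDeriv_succ, Function.iterate_succ_apply']
    have h1 : iteratedDeriv k (fun y => F (x, y)) = fun y => (Dy^[k] F) (x, y) := funext ih
    rw [h1]
    exact (hasDerivAt_slice ((Dy_iter_analytic hF k) _ ⟨hx, mem_univ _⟩)).deriv

/-- Implicit function theorem for analytic `G(x,y)=0`. -/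
lemma implicit2 {G : ℂ × ℂ → ℂ} {x₁ y₁ : ℂ} (hG : AnalyticAt ℂ G (x₁, y₁)) (h0 : G (x₁, y₁) = 0)
    (hd : Dy G (x₁, y₁) ≠ 0) {ε : ℝ} (hε : 0 < ε) :
    ∃ (g : ℂ → ℂ) (δ η : ℝ), 0 < δ ∧ 0 < η ∧ δ < ε ∧ η < ε ∧ AnalyticOnNhd ℂ g (ball x₁ δ) ∧ g x₁ = y₁ ∧
      (∀ x ∈ ball x₁ δ, g x ∈ ball y₁ η) ∧
      ∀ x ∈ ball x₁ δ, ∀ y ∈ ball y₁ η, (G (x, y) = 0 ↔ y = g x) := by
  let A : ℂ × ℂ → ℂ × ℂ := fun p => (p.1, G p)
  let A' : (ℂ × ℂ) →L[ℂ] (ℂ × ℂ) := (ContinuousLinearMap.fst ℂ ℂ ℂ).prod (fderiv ℂ G (x₁, y₁))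
  have hA' : HasStrictFDerivAt A A' (x₁, y₁) := hasStrictFDerivAt_fst.prodMk hG.hasStrictFDerivAt
  have hinj : Function.Injective A' := by
    rw [injective_iff_map_eq_zero]
    rintro ⟨u, v⟩ hw
    have hw1 : u = 0 := congrArg Prod.fst hw
    have hw2 : fderiv ℂ G (x₁, y₁) (u, v) = 0 := congrArg Prod.snd hw
    subst hw1
    have : ((0 : ℂ), v) = v • ((0 : ℂ), (1 : ℂ)) := by simp
    rw [this, map_smul, smul_eq_mul, mul_eq_zero] at hw2
    have : v = 0 := hw2.resolve_right hd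
    simp [this]
  have hsurj : Function.Surjective A' :=
    (LinearMap.injective_iff_surjective (f := (A' : (ℂ × ℂ) →ₗ[ℂ] ℂ × ℂ))).1 hinj
  let e : (ℂ × ℂ) ≃L[ℂ] ℂ × ℂ :=
    ContinuousLinearEquiv.ofBijective A' (LinearMap.ker_eq_bot.2 hinj) (LinearMap.range_eq_top.2 hsurj)
  have he : (e : (ℂ × ℂ) →L[ℂ] ℂ × ℂ) = A' := by
    ext1 <;> rfl
  have hAe : HasStrictFDerivAt A (e : (ℂ × ℂ) →L[ℂ] ℂ × ℂ) (x₁, y₁) := by rw [he]; exact hA'
  have hAan : AnalyticAt ℂ A (x₁, y₁) := analyticAt_fst.prod hG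
  have hAz : A (x₁, y₁) = (x₁, 0) := by simp [A, h0]
  have hsymm := analyticAt_symm hAan hAe
  rw [hAz] at hsymm
  set Φ := hAe.toOpenPartialHomeomorph A with hΦ
  have hΦA : ∀ p, Φ p = A p := fun p => rfl
  have hsrc : (x₁, y₁) ∈ Φ.source := HasStrictFDerivAt.mem_toOpenPartialHomeomorph_source _
  have htgt : (x₁, (0 : ℂ)) ∈ Φ.target := by
    have := Φ.map_source hsrc
    rwa [hΦA, hAz] at this
  let g : ℂ → ℂ := fun x => (Φ.symm (x, 0)).2
  have hgan : AnalyticAt ℂ g x₁ := by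
    have h1 : AnalyticAt ℂ (fun x : ℂ => (x, (0 : ℂ))) x₁ := analyticAt_id.prod analyticAt_const
    have h2 : AnalyticAt ℂ (fun x : ℂ => Φ.symm (x, 0)) x₁ := AnalyticAt.comp (g := Φ.symm) hsymm h1
    exact analyticAt_snd.comp h2
  have hgx₁ : g x₁ = y₁ := by
    have : Φ.symm (Φ (x₁, y₁)) = (x₁, y₁) := Φ.left_inv hsrc
    rw [hΦA, hAz] at this
    simp [g, this]
  -- choose η first
  obtain ⟨η₀, hη₀, hη₀s⟩ : ∃ η₀ > 0, ball x₁ η₀ ×ˢ ball y₁ η₀ ⊆ Φ.source := by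
    obtain ⟨r, hr, hrs⟩ := Metric.isOpen_iff.1 Φ.open_source _ hsrc
    refine ⟨r, hr, ?_⟩
    rintro ⟨x, y⟩ ⟨hx, hy⟩
    apply hrs
    rw [mem_ball, Prod.dist_eq]
    exact max_lt hx hy
  set η := min η₀ (ε / 2) with hη
  have hηpos : 0 < η := lt_min hη₀ (by linarith)
  have hcond : ∀ᶠ x in 𝓝 x₁, AnalyticAt ℂ g x ∧ g x ∈ ball y₁ η ∧ (x, (0 : ℂ)) ∈ Φ.target ∧
      Φ.symm (x, 0) ∈ Φ.source := by
    have h1 := hgan.eventually_analyticAt
    have h2 : ∀ᶠ x in 𝓝 x₁, g x ∈ ball y₁ η :=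
      hgan.continuousAt.eventually_mem (by rw [hgx₁]; exact ball_mem_nhds _ hηpos)
    have h3 : ∀ᶠ x in 𝓝 x₁, (x, (0 : ℂ)) ∈ Φ.target := by
      have hc : Continuous (fun x : ℂ => (x, (0 : ℂ))) := by fun_prop
      exact hc.continuousAt.eventually_mem (Φ.open_target.mem_nhds htgt)
    filter_upwards [h1, h2, h3] with x a1 a2 a3
    exact ⟨a1, a2, a3, Φ.map_target a3⟩
  obtain ⟨δ₀, hδ₀, hδ₀s⟩ := Metric.eventually_nhds_iff_ball.1 hcond
  refine ⟨g, min δ₀ (min η₀ (ε / 2)), η, lt_min hδ₀ hηpos, hηpos, ?_, ?_, ?_, hgx₁, ?_, ?_⟩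
  · exact lt_of_le_of_lt ((min_le_right _ _).trans (min_le_right _ _)) (by linarith)
  · exact lt_of_le_of_lt (min_le_right _ _) (by linarith)
  · intro x hx
    exact (hδ₀s x (ball_subset_ball (min_le_left _ _) hx)).1
  · intro x hx
    exact (hδ₀s x (ball_subset_ball (min_le_left _ _) hx)).2.1
  · intro x hx y hy
    have hx' := hδ₀s x (ball_subset_ball (min_le_left _ _) hx)
    have hAx : A (Φ.symm (x, 0)) = (x, 0) := by
      rw [← hΦA]; exact Φ.right_inv hx'.2.2.1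
    have hfst : (Φ.symm (x, 0)).1 = x := congrArg Prod.fst hAx
    have hsnd : G (Φ.symm (x, 0)) = 0 := congrArg Prod.snd hAx
    have heq : Φ.symm (x, 0) = (x, g x) := Prod.ext hfst rfl
    constructor
    · intro hGxy
      have hsrc' : (x, y) ∈ Φ.source := hη₀s ⟨ball_subset_ball
        ((min_le_right _ _).trans (min_le_left _ _)) hx, ball_subset_ball (min_le_left _ _) hy⟩
      have h5 : Φ.symm (Φ (x, y)) = (x, y) := Φ.left_inv hsrc'
      rw [hΦA] at h5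
      have h6 : A (x, y) = (x, 0) := by simp [A, hGxy]
      rw [h6, heq] at h5
      exact (congrArg Prod.snd h5).symm
    · rintro rfl
      rw [← heq]; exact hsnd

/-- Iterated mean value estimate (Taylor-type bound). -/
lemma iter_mvt {k : ℕ} {ψ : ℂ → ℂ} {c g a : ℂ} {η ε : ℝ} (hg : g ∈ ball c η)
    (hψ : AnalyticOnNhd ℂ ψ (ball c η)) (h0 : ∀ j < k, iteratedDeriv j ψ g = 0)
    (hk : ∀ y ∈ ball c η, ‖iteratedDeriv k ψ y - a‖ ≤ ε) :
    ∀ y ∈ ball c η, ‖ψ y - a * (y - g) ^ k / (k.factorial : ℂ)‖ ≤ ε * ‖y - g‖ ^ k := by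
  induction k generalizing ψ with
  | zero => intro y hy; simpa using hk y hy
  | succ k ih =>
    have hε : 0 ≤ ε := (norm_nonneg _).trans (hk g hg)
    have hd := ih (ψ := deriv ψ) hψ.deriv (fun j hj => by
      have := h0 (j+1) (by omega)
      rwa [iteratedDeriv_succ'] at this) (fun y hy => by
      have := hk y hy
      rwa [iteratedDeriv_succ'] at this)
    intro y hy
    have hψg : ψ g = 0 := by simpa using h0 0 (by omega)
    have hseg : segment ℝ g y ⊆ ball c η := (convex_ball c η).segment_subset hg hy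
    set Ψ : ℂ → ℂ := fun y => ψ y - a * (y - g) ^ (k+1) / ((k+1).factorial : ℂ) with hΨ
    have hder : ∀ z ∈ ball c η, HasDerivAt Ψ (deriv ψ z - a * (z - g) ^ k / (k.factorial : ℂ)) z := by
      intro z hz
      have h1 : HasDerivAt ψ (deriv ψ z) z := (hψ z hz).differentiableAt.hasDerivAt
      have h2 : HasDerivAt (fun y : ℂ => a * (y - g) ^ (k+1) / ((k+1).factorial : ℂ))
          (a * (z - g) ^ k / (k.factorial : ℂ)) z := by
        have h3 : HasDerivAt (fun y : ℂ => (y - g) ^ (k+1)) (((k+1 : ℕ) : ℂ) * (z - g) ^ k * 1) z := by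
          simpa using! ((hasDerivAt_id z).sub_const g).pow (k+1)
        have h4 := (h3.const_mul a).div_const ((k+1).factorial : ℂ)
        have e : a * (z - g) ^ k / (k.factorial : ℂ) =
            a * (((k+1 : ℕ) : ℂ) * (z - g) ^ k * 1) / ((k+1).factorial : ℂ) := by
          have : ((k+1).factorial : ℂ) = ((k+1 : ℕ) : ℂ) * (k.factorial : ℂ) := by
            rw [Nat.factorial_succ]; push_cast; ring
          rw [this]
          have h5 : (k.factorial : ℂ) ≠ 0 := by exact_mod_cast k.factorial_ne_zero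
          have h6 : ((k+1 : ℕ) : ℂ) ≠ 0 := by exact_mod_cast (Nat.succ_ne_zero k)
          field_simp
        rw [e]; exact h4
      exact h1.sub h2
    have hb : ∀ z ∈ segment ℝ g y, ‖deriv Ψ z‖ ≤ ε * ‖y - g‖ ^ k := by
      intro z hz
      rw [(hder z (hseg hz)).deriv]
      refine (hd z (hseg hz)).trans ?_
      have : ‖z - g‖ ≤ ‖y - g‖ := by
        obtain ⟨a, b, ha, hb, hab, rfl⟩ := hz
        have : a • g + b • y - g = b • (y - g) := by
          have : a = 1 - b := by linarith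
          subst this
          module
        rw [this, norm_smul, Real.norm_of_nonneg hb]
        have hb1 : b ≤ 1 := by linarith
        nlinarith [norm_nonneg (y - g)]
      gcongr
    have := Convex.norm_image_sub_le_of_norm_deriv_le (f := Ψ) (s := segment ℝ g y)
      (C := ε * ‖y - g‖ ^ k) (x := g) (y := y) (fun z hz => (hder z (hseg hz)).differentiableAt)
      hb (convex_segment g y) (left_mem_segment ℝ g y) (right_mem_segment ℝ g y)
    have hΨg : Ψ g = 0 := by simp [hΨ, hψg]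
    rw [hΨg, sub_zero] at this
    rw [pow_succ ‖y - g‖ k, ← mul_assoc]
    exact this

/-- Near `(x, y)` the zero set of `F` is the graph of the analytic function `g`. -/
structure IsChart (U₀ : Set ℂ) (F : ℂ × ℂ → ℂ) (x y : ℂ) (g : ℂ → ℂ) (δ η : ℝ) : Prop where
  sub : ball x δ ⊆ U₀
  δpos : 0 < δ
  ηpos : 0 < η
  an : AnalyticOnNhd ℂ g (ball x δ)
  gx : g x = y
  maps : ∀ x' ∈ ball x δ, g x' ∈ ball y η
  iff : ∀ x' ∈ ball x δ, ∀ y' ∈ ball y η, (F (x', y') = 0 ↔ y' = g x')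

/-- `(x, y)` is a regular point of the zero set of `F`. -/
def Reg (U₀ : Set ℂ) (F : ℂ × ℂ → ℂ) (x y : ℂ) : Prop := ∃ g δ η, IsChart U₀ F x y g δ η

/-- Regularity criterion. -/
lemma reg_of {U₀ : Set ℂ} (hU₀ : IsOpen U₀) {F : ℂ × ℂ → ℂ} (hF : AnalyticOnNhd ℂ F (U₀ ×ˢ univ))
    {k : ℕ} {x₁ y₁ : ℂ} (hx₁ : x₁ ∈ U₀) {g : ℂ → ℂ} {δ η : ℝ} (hδ : 0 < δ) (hη : 0 < η) (hg : AnalyticOnNhd ℂ g (ball x₁ δ)) (hgx : g x₁ = y₁)
    (hk : (Dy^[k+1] F) (x₁, y₁) ≠ 0)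
    (hz : ∀ j < k + 1, ∀ᶠ x in 𝓝 x₁, (Dy^[j] F) (x, g x) = 0) : Reg U₀ F x₁ y₁ := by
  set a := (Dy^[k+1] F) (x₁, y₁) with ha
  set ε₀ : ℝ := ‖a‖ / (2 * ((k+1).factorial : ℝ)) with hε₀
  have hfac : (0 : ℝ) < ((k+1).factorial : ℝ) := by exact_mod_cast (k+1).factorial_pos
  have hapos : 0 < ‖a‖ := norm_pos_iff.2 hk
  have hε₀pos : 0 < ε₀ := by positivity
  have hcont : ContinuousAt (Dy^[k+1] F) (x₁, y₁) :=
    ((Dy_iter_analytic hF (k+1)) _ ⟨hx₁, mem_univ _⟩).continuousAt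
  obtain ⟨r, hr, hrs⟩ := Metric.continuousAt_iff.1 hcont ε₀ hε₀pos
  have hall : ∀ᶠ x in 𝓝 x₁, ∀ j < k + 1, (Dy^[j] F) (x, g x) = 0 := by
    have : ∀ᶠ x in 𝓝 x₁, ∀ j ∈ Finset.range (k+1), (Dy^[j] F) (x, g x) = 0 := by
      rw [Filter.eventually_all_finset]
      intro j hj
      exact hz j (Finset.mem_range.1 hj)
    filter_upwards [this] with x hx j hj
    exact hx j (Finset.mem_range.2 hj)
  set η' := min r η with hη'
  have hη'pos : 0 < η' := lt_min hr hη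
  have hgc : ∀ᶠ x in 𝓝 x₁, g x ∈ ball y₁ η' := by
    have : ContinuousAt g x₁ := (hg x₁ (mem_ball_self hδ)).continuousAt
    exact this.eventually_mem (by rw [hgx]; exact ball_mem_nhds _ hη'pos)
  obtain ⟨δ', hδ', hδ's⟩ := Metric.eventually_nhds_iff_ball.1 ((hall.and hgc).and (hU₀.eventually_mem hx₁))
  refine ⟨g, min δ' (min δ r), η', ?_, lt_min hδ' (lt_min hδ hr), hη'pos, ?_, hgx, ?_, ?_⟩
  · intro x hx
    exact (hδ's x (ball_subset_ball (min_le_left _ _) hx)).2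
  · exact hg.mono (ball_subset_ball ((min_le_right _ _).trans (min_le_left _ _)))
  · intro x hx
    exact (hδ's x (ball_subset_ball (min_le_left _ _) hx)).1.2
  · intro x hx y hy
    obtain ⟨⟨hx1, hx2⟩, hxU⟩ := hδ's x (ball_subset_ball (min_le_left _ _) hx)
    have hFx : AnalyticOnNhd ℂ (fun y => F (x, y)) (ball y₁ η') := by
      intro y _
      have : AnalyticAt ℂ (fun y : ℂ => (x, y)) y := analyticAt_const.prod analyticAt_id
      exact AnalyticAt.comp (g := F) (hF _ ⟨hxU, mem_univ _⟩) this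
    constructor
    · intro hFxy
      by_contra hne
      have hest := iter_mvt (k := k+1) (ψ := fun y => F (x, y)) (c := y₁) (g := g x) (a := a)
        (η := η') (ε := ε₀) hx2 hFx (fun j hj => by rw [iteratedDeriv_slice hF _ hxU]; exact hx1 j hj)
        (fun y hy => by
          rw [iteratedDeriv_slice hF _ hxU, ← dist_eq_norm]
          refine le_of_lt (hrs ?_)
          rw [Prod.dist_eq]
          refine max_lt ?_ ?_
          · exact (mem_ball.1 (ball_subset_ball ((min_le_right _ _).trans (min_le_right _ _)) hx))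
          · exact (mem_ball.1 (ball_subset_ball (min_le_left _ _) hy))) y hy
      simp only [hFxy, zero_sub, norm_neg, norm_div, norm_mul, norm_pow, Complex.norm_natCast] at hest
      have hpos : 0 < ‖y - g x‖ ^ (k+1) := by
        have : 0 < ‖y - g x‖ := norm_pos_iff.2 (sub_ne_zero.2 hne)
        positivity
      have h7 : ‖a‖ * ‖y - g x‖ ^ (k+1) / ((k+1).factorial : ℝ) =
          (2 * ε₀) * ‖y - g x‖ ^ (k+1) := by
        rw [hε₀]; field_simp
      rw [h7] at hest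
      nlinarith
    · rintro rfl
      exact hx1 0 (by omega)


lemma countable_of_isolated {X : Type*} [TopologicalSpace X] [SecondCountableTopology X] {s : Set X}
    (h : ∀ p ∈ s, ∃ O ∈ 𝓝 p, O ∩ s ⊆ {p}) : s.Countable := by
  have key : ∀ x, ∃ O : Set X, x ∈ s → (O ∈ 𝓝 x ∧ O ∩ s ⊆ {x}) := by
    intro x
    by_cases hx : x ∈ s
    · obtain ⟨O, h1, h2⟩ := h x hx
      exact ⟨O, fun _ => ⟨h1, h2⟩⟩
    · exact ⟨∅, fun h => absurd h hx⟩
  choose O hO using key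
  obtain ⟨t, ht1, ht2, ht3⟩ := TopologicalSpace.countable_cover_nhdsWithin
    (f := O) (s := s) (fun x hx => mem_nhdsWithin_of_mem_nhds (hO x hx).1)
  refine ht2.mono ?_
  intro x hx
  obtain ⟨y, hy, hxy⟩ := mem_iUnion₂.1 (ht3 hx)
  have := (hO y (ht1 hy)).2 ⟨hxy, hx⟩
  rw [mem_singleton_iff] at this
  rw [this]; exact hy

/-- The zeros of a nonzero analytic function of one variable on a preconnected set are countable. -/
lemma countable_zeros {f : ℂ → ℂ} {D : Set ℂ} (hf : AnalyticOnNhd ℂ f D) (hD : IsPreconnected D)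
    (hne : ∃ t ∈ D, f t ≠ 0) : {t | t ∈ D ∧ f t = 0}.Countable := by
  obtain ⟨t₁, ht₁, hft₁⟩ := hne
  apply countable_of_isolated
  rintro x ⟨hxD, hfx⟩
  rcases (hf x hxD).eventually_eq_zero_or_eventually_ne_zero with h | h
  · exact absurd (hf.eqOn_zero_of_preconnected_of_eventuallyEq_zero hD hxD h ht₁) hft₁
  · rw [eventually_nhdsWithin_iff] at h
    refine ⟨_, h, ?_⟩
    rintro z ⟨hz1, hz2⟩
    by_contra hzx
    exact hz1 hzx hz2.2

lemma slice_analytic {U₀ : Set ℂ} {F : ℂ × ℂ → ℂ} (hF : AnalyticOnNhd ℂ F (U₀ ×ˢ univ)) {x : ℂ}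
    (hx : x ∈ U₀) : AnalyticOnNhd ℂ (fun y => F (x, y)) univ := by
  intro y _
  have : AnalyticAt ℂ (fun y : ℂ => (x, y)) y := analyticAt_const.prod analyticAt_id
  exact AnalyticAt.comp (g := F) (hF _ ⟨hx, mem_univ _⟩) this

lemma exists_order {U₀ : Set ℂ} {F : ℂ × ℂ → ℂ} (hF : AnalyticOnNhd ℂ F (U₀ ×ˢ univ)) {x y : ℂ}
    (hxU : x ∈ U₀) (h0 : F (x, y) = 0)
    (hne : ∃ y', F (x, y') ≠ 0) :
    ∃ k, (∀ j < k + 1, (Dy^[j] F) (x, y) = 0) ∧ (Dy^[k+1] F) (x, y) ≠ 0 := by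
  classical
  set f : ℂ → ℂ := fun y => F (x, y) with hf
  have hfan := slice_analytic hF hxU
  have hord : analyticOrderAt f y ≠ ⊤ := by
    intro htop
    rw [analyticOrderAt_eq_top] at htop
    obtain ⟨y', hy'⟩ := hne
    have := hfan.eqOn_zero_of_preconnected_of_eventuallyEq_zero isPreconnected_univ (mem_univ y) htop
      (mem_univ y')
    exact hy' this
  have hex : ∃ n, iteratedDeriv n f y ≠ 0 := by
    by_contra hcon
    push Not at hcon
    apply hord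
    rw [ENat.eq_top_iff_forall_ge]
    intro n
    exact (natCast_le_analyticOrderAt_iff_iteratedDeriv_eq_zero (hfan y (mem_univ y))).2 fun i _ => hcon i
  have hn := Nat.find_spec hex
  have hmin : ∀ m < Nat.find hex, iteratedDeriv m f y = 0 := fun m hm => by
    simpa using Nat.find_min hex hm
  have hn0 : Nat.find hex ≠ 0 := by
    intro h
    rw [h] at hn
    apply hn
    simp [hf, h0]
  obtain ⟨k, hk⟩ := Nat.exists_eq_succ_of_ne_zero hn0
  refine ⟨k, ?_, ?_⟩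
  · intro j hj
    rw [← iteratedDeriv_slice hF _ hxU]
    exact hmin j (by omega)
  · rw [← iteratedDeriv_slice hF _ hxU]
    rw [hk] at hn
    exact hn

/-- The singular points of the zero set are countably many. -/
lemma sing_countable {U₀ : Set ℂ} (hU₀ : IsOpen U₀) {F : ℂ × ℂ → ℂ}
    (hF : AnalyticOnNhd ℂ F (U₀ ×ˢ univ)) :
    {p : ℂ × ℂ | p.1 ∈ U₀ ∧ F p = 0 ∧ (∃ y', F (p.1, y') ≠ 0) ∧ ¬ Reg U₀ F p.1 p.2}.Countable := by
  have hsub : {p : ℂ × ℂ | p.1 ∈ U₀ ∧ F p = 0 ∧ (∃ y', F (p.1, y') ≠ 0) ∧ ¬ Reg U₀ F p.1 p.2} ⊆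
      ⋃ k : ℕ, {p : ℂ × ℂ | p.1 ∈ U₀ ∧ (∀ j < k + 1, (Dy^[j] F) p = 0) ∧ (Dy^[k+1] F) p ≠ 0 ∧
        ¬ Reg U₀ F p.1 p.2} := by
    rintro ⟨x, y⟩ ⟨hxU, h0, hne, hreg⟩
    obtain ⟨k, h1, h2⟩ := exists_order hF hxU h0 hne
    exact mem_iUnion.2 ⟨k, hxU, h1, h2, hreg⟩
  refine Countable.mono hsub (countable_iUnion fun k => countable_of_isolated ?_)
  rintro ⟨x₁, y₁⟩ ⟨hxU, h1, h2, h3⟩
  have hmem : (x₁, y₁) ∈ U₀ ×ˢ (univ : Set ℂ) := ⟨hxU, mem_univ _⟩
  have hGan : AnalyticOnNhd ℂ (Dy^[k] F) (U₀ ×ˢ univ) := Dy_iter_analytic hF k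
  have h2' : Dy (Dy^[k] F) (x₁, y₁) ≠ 0 := by
    rw [← Function.iterate_succ_apply' Dy k F]; exact h2
  obtain ⟨g, δ, η, hδ, hη, _, _, hgan, hgx, hmaps, hiff⟩ :=
    implicit2 (hGan _ hmem) (h1 k (by omega)) h2' one_pos
  have hex : ∃ j < k + 1, ¬ ∀ᶠ x in 𝓝 x₁, (Dy^[j] F) (x, g x) = 0 := by
    by_contra hcon
    push Not at hcon
    exact h3 (reg_of hU₀ hF hxU hδ hη hgan hgx h2 hcon)
  obtain ⟨j, hj, hjne⟩ := hex
  have hfj : AnalyticAt ℂ (fun x => (Dy^[j] F) (x, g x)) x₁ := by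
    have : AnalyticAt ℂ (fun x : ℂ => (x, g x)) x₁ := analyticAt_id.prod (hgan x₁ (mem_ball_self hδ))
    exact AnalyticAt.comp (g := Dy^[j] F) (Dy_iter_analytic hF j _ ⟨hxU, mem_univ _⟩) this
  have hne := hfj.eventually_eq_zero_or_eventually_ne_zero.resolve_left hjne
  rw [eventually_nhdsWithin_iff] at hne
  refine ⟨({x | x ∈ ({x₁}ᶜ : Set ℂ) → (Dy^[j] F) (x, g x) ≠ 0} ∩ ball x₁ δ) ×ˢ ball y₁ η,
    prod_mem_nhds (inter_mem hne (ball_mem_nhds _ hδ)) (ball_mem_nhds _ hη), ?_⟩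
  rintro ⟨x, y⟩ ⟨⟨⟨hx1, hx2⟩, hy⟩, ⟨_, h1', _, _⟩⟩
  have hyg : y = g x := (hiff x hx2 y hy).1 (h1' k (by omega))
  have hxx : x = x₁ := by
    by_contra hcon
    apply hx1 hcon
    have := h1' j hj
    rwa [hyg] at this
  rw [mem_singleton_iff, hyg, hxx, hgx]



/-- A nonempty countable locally closed subset of `ℂ` has an isolated point. -/
lemma exists_isolated {K : Set ℂ} (hK : IsLocallyClosed K) (hc : K.Countable) (hne : K.Nonempty) :
    ∃ x ∈ K, ∃ ρ > 0, ball x ρ ∩ K ⊆ {x} := by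
  have : LocallyCompactSpace K := hK.locallyCompactSpace
  have : Countable K := hc.to_subtype
  have : Nonempty K := hne.to_subtype
  have : BaireSpace K := BaireSpace.of_t2Space_locallyCompactSpace
  obtain ⟨x, hx⟩ := nonempty_interior_of_iUnion_of_closed (X := K) (f := fun x : K => ({x} : Set K))
    (fun x => isClosed_singleton) (by ext y; simp)
  obtain ⟨y, hy⟩ := hx
  have hyx : y ∈ ({x} : Set K) := interior_subset hy
  rw [mem_singleton_iff] at hyx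
  subst hyx
  obtain ⟨V, hV, hVs⟩ := mem_nhds_subtype K y _ |>.1 (mem_interior_iff_mem_nhds.1 hy)
  obtain ⟨ρ, hρ, hρs⟩ := Metric.mem_nhds_iff.1 hV
  refine ⟨y, y.2, ρ, hρ, ?_⟩
  rintro z ⟨hz1, hz2⟩
  have : (⟨z, hz2⟩ : K) ∈ ({y} : Set K) := hVs (hρs hz1)
  exact congrArg Subtype.val this

/-- Countable relatively closed sets are removable for bounded holomorphic functions. -/
lemma removable_countable {B K : Set ℂ} (hB : IsOpen B) (hK : K.Countable)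
    (hKc : IsOpen (B \ K)) {f : ℂ → ℂ} (hf : DifferentiableOn ℂ f (B \ K)) {M : ℝ}
    (hM : ∀ x ∈ B \ K, ‖f x‖ ≤ M) :
    ∃ H : ℂ → ℂ, AnalyticOnNhd ℂ H B ∧ ∀ x ∈ B \ K, H x = f x := by
  classical
  -- local extensions
  let P : ℂ → Prop := fun x => ∃ (ρ : ℝ) (h : ℂ → ℂ), 0 < ρ ∧ ball x ρ ⊆ B ∧ DifferentiableOn ℂ h (ball x ρ) ∧
    ∀ y ∈ ball x ρ \ K, h y = f y
  -- uniqueness of the value
  have hdense : ∀ (x : ℂ) (ρ : ℝ) , 0 < ρ → x ∈ closure (ball x ρ \ K) := by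
    intro x ρ hρ
    rw [Metric.mem_closure_iff]
    intro ε hε
    have hd : Dense (Kᶜ) := hK.dense_compl ℝ
    obtain ⟨y, hy1, hy2⟩ := hd.exists_mem_open (isOpen_ball (x := x) (ε := min ρ ε))
      ⟨x, mem_ball_self (lt_min hρ hε)⟩
    refine ⟨y, ⟨ball_subset_ball (min_le_left _ _) hy2, hy1⟩, ?_⟩
    have := ball_subset_ball (min_le_right _ _) hy2
    rw [dist_comm]; exact this
  have hP : ∀ x ∈ B, P x := by
    by_contra hcon
    push Not at hcon
    set K' : Set ℂ := {x | x ∈ B ∧ ¬ P x} with hK'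
    have hK'K : K' ⊆ K := by
      rintro x ⟨hxB, hxP⟩
      by_contra hxK
      apply hxP
      obtain ⟨ρ, hρ, hρs⟩ := Metric.isOpen_iff.1 hKc x ⟨hxB, hxK⟩
      exact ⟨ρ, f, hρ, fun y hy => (hρs hy).1, hf.mono hρs, fun y _ => rfl⟩
    have hPopen : IsOpen {x | P x} := by
      rw [Metric.isOpen_iff]
      rintro x ⟨ρ, h, hρ, hb, hd, he⟩
      refine ⟨ρ, hρ, fun y hy => ?_⟩
      obtain ⟨ρ', hρ', hs⟩ := Metric.isOpen_iff.1 isOpen_ball y hy
      exact ⟨ρ', h, hρ', hs.trans hb, hd.mono hs, fun z hz => he z ⟨hs hz.1, hz.2⟩⟩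
    have hlc : IsLocallyClosed K' := by
      have : K' = B ∩ {x | P x}ᶜ := by ext x; simp [hK']
      rw [this]
      exact hB.isLocallyClosed.inter hPopen.isClosed_compl.isLocallyClosed
    obtain ⟨x, hxB, hxP⟩ := hcon
    obtain ⟨x₀, hx₀, ρ₀, hρ₀, hiso⟩ := exists_isolated hlc (hK.mono hK'K) ⟨x, hxB, hxP⟩
    obtain ⟨ρ₁, hρ₁, hρ₁s⟩ := Metric.isOpen_iff.1 hB x₀ hx₀.1
    set ρ := min ρ₀ ρ₁ with hρdef
    have hρ : 0 < ρ := lt_min hρ₀ hρ₁
    have hPn : ∀ y ∈ ball x₀ ρ \ {x₀}, P y := by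
      rintro y ⟨hy1, hy2⟩
      by_contra hyP
      exact hy2 (hiso ⟨ball_subset_ball (min_le_left _ _) hy1,
        hρ₁s (ball_subset_ball (min_le_right _ _) hy1), hyP⟩)
    -- glue
    choose! r h hr hb hd he using hPn
    have hval : ∀ y ∈ ball x₀ ρ \ {x₀}, ∀ z ∈ (ball x₀ ρ \ {x₀}) ∩ ball y (r y), h z z = h y z := by
      rintro y hy z ⟨hz, hzy⟩
      obtain ⟨ρ', hρ', hs⟩ := Metric.isOpen_iff.1 ((isOpen_ball (x := z) (ε := r z)).inter (isOpen_ball (x := y) (ε := r y)))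
        z ⟨mem_ball_self (hr z hz), hzy⟩
      have hcz := hdense z ρ' hρ'
      have h1 : ContinuousWithinAt (h z) (ball z ρ' \ K) z :=
        ((hd z hz).continuousOn.continuousAt (isOpen_ball.mem_nhds (mem_ball_self (hr z hz)))).continuousWithinAt
      have h2 : ContinuousWithinAt (h y) (ball z ρ' \ K) z :=
        ((hd y hy).continuousOn.continuousAt (isOpen_ball.mem_nhds hzy)).continuousWithinAt
      have : (𝓝[ball z ρ' \ K] z).NeBot := mem_closure_iff_nhdsWithin_neBot.1 hcz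
      refine tendsto_nhds_unique_of_eventuallyEq h1 h2 ?_
      filter_upwards [self_mem_nhdsWithin] with w hw
      rw [he z hz w ⟨(hs hw.1).1, hw.2⟩, he y hy w ⟨(hs hw.1).2, hw.2⟩]
    have hGd : DifferentiableOn ℂ (fun z => h z z) (ball x₀ ρ \ {x₀}) := by
      intro y hy
      have hopen : IsOpen ((ball x₀ ρ \ {x₀}) ∩ ball y (r y)) :=
        (isOpen_ball.sdiff isClosed_singleton).inter isOpen_ball
      have hmem : y ∈ (ball x₀ ρ \ {x₀}) ∩ ball y (r y) := ⟨hy, mem_ball_self (hr y hy)⟩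
      have h1 : DifferentiableAt ℂ (h y) y := (hd y hy).differentiableAt (isOpen_ball.mem_nhds (mem_ball_self (hr y hy)))
      have h2 : (fun z => h z z) =ᶠ[𝓝 y] h y := by
        filter_upwards [hopen.mem_nhds hmem] with z hz
        exact hval y hy z hz
      exact (h1.congr_of_eventuallyEq h2).differentiableWithinAt
    have hGb : ∀ y ∈ ball x₀ ρ \ {x₀}, ‖h y y‖ ≤ M := by
      intro y hy
      have hcz := hdense y (r y) (hr y hy)
      have h1 : ContinuousWithinAt (fun z => ‖h y z‖) (ball y (r y) \ K) y :=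
        ((hd y hy).continuousOn.continuousAt (isOpen_ball.mem_nhds (mem_ball_self (hr y hy)))).continuousWithinAt.norm
      have : (𝓝[ball y (r y) \ K] y).NeBot := mem_closure_iff_nhdsWithin_neBot.1 hcz
      refine le_of_tendsto h1 ?_
      filter_upwards [self_mem_nhdsWithin] with w hw
      rw [he y hy w hw]
      exact hM w ⟨hb y hy hw.1, hw.2⟩
    have hext := Complex.differentiableOn_update_limUnder_of_bddAbove (isOpen_ball.mem_nhds (mem_ball_self hρ))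
      hGd ⟨M, by
        rintro _ ⟨y, hy, rfl⟩
        exact hGb y hy⟩
    apply hx₀.2
    refine ⟨ρ, _, hρ, (ball_subset_ball (min_le_right _ _)).trans hρ₁s, hext, ?_⟩
    rintro y ⟨hy1, hy2⟩
    have hyne : y ≠ x₀ := fun h => hy2 (h ▸ hK'K hx₀)
    rw [Function.update_of_ne hyne]
    exact he y ⟨hy1, hyne⟩ y ⟨mem_ball_self (hr y ⟨hy1, hyne⟩), hy2⟩
  -- global gluing
  choose! r h hr hb hd he using hP
  have hval : ∀ y ∈ B, ∀ z ∈ B ∩ ball y (r y), h z z = h y z := by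
    rintro y hy z ⟨hz, hzy⟩
    obtain ⟨ρ', hρ', hs⟩ := Metric.isOpen_iff.1 ((isOpen_ball (x := z) (ε := r z)).inter (isOpen_ball (x := y) (ε := r y)))
      z ⟨mem_ball_self (hr z hz), hzy⟩
    have hcz := hdense z ρ' hρ'
    have h1 : ContinuousWithinAt (h z) (ball z ρ' \ K) z :=
      ((hd z hz).continuousOn.continuousAt (isOpen_ball.mem_nhds (mem_ball_self (hr z hz)))).continuousWithinAt
    have h2 : ContinuousWithinAt (h y) (ball z ρ' \ K) z :=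
      ((hd y hy).continuousOn.continuousAt (isOpen_ball.mem_nhds hzy)).continuousWithinAt
    have : (𝓝[ball z ρ' \ K] z).NeBot := mem_closure_iff_nhdsWithin_neBot.1 hcz
    refine tendsto_nhds_unique_of_eventuallyEq h1 h2 ?_
    filter_upwards [self_mem_nhdsWithin] with w hw
    rw [he z hz w ⟨(hs hw.1).1, hw.2⟩, he y hy w ⟨(hs hw.1).2, hw.2⟩]
  refine ⟨fun z => h z z, ?_, ?_⟩
  · refine DifferentiableOn.analyticOnNhd ?_ hB
    intro y hy
    have hopen : IsOpen (B ∩ ball y (r y)) := hB.inter isOpen_ball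
    have hmem : y ∈ B ∩ ball y (r y) := ⟨hy, mem_ball_self (hr y hy)⟩
    have h1 : DifferentiableAt ℂ (h y) y := (hd y hy).differentiableAt (isOpen_ball.mem_nhds (mem_ball_self (hr y hy)))
    have h2 : (fun z => h z z) =ᶠ[𝓝 y] h y := by
      filter_upwards [hopen.mem_nhds hmem] with z hz
      exact hval y hy z hz
    exact (h1.congr_of_eventuallyEq h2).differentiableWithinAt
  · rintro x ⟨hx1, hx2⟩
    exact he x hx1 x ⟨mem_ball_self (hr x hx1), hx2⟩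

/-- Jensen bound for the number of zeros. -/
lemma zeros_card_le {f : ℂ → ℂ} (hf : AnalyticOnNhd ℂ f univ) {c : ℂ} {R M : ℝ} (hR : 0 < R)
    (hM : 1 ≤ M) (hc : f c ≠ 0) (hb : ∀ z ∈ sphere c (2*R), ‖f z‖ ≤ M) (T : Finset ℂ)
    (hT : ∀ z ∈ T, z ∈ closedBall c R ∧ f z = 0) :
    (T.card : ℝ) ≤ Real.log (M / ‖f c‖) / Real.log 2 := by
  have hRabs : |R| = R := abs_of_pos hR
  have h2R : |2 * R| = 2 * R := abs_of_pos (by linarith)
  have key := AnalyticOnNhd.sum_divisor_le (c := c) (r := R) (R := 2 * R) (M := M) (f := f)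
    (by rw [hRabs]; exact hR) (by rw [hRabs, h2R]; linarith) hM (hf.mono (subset_univ _)) hc
    (by rw [h2R]; exact hb)
  have hdiv : (2 * R) / R = 2 := by field_simp
  rw [hdiv, hRabs] at key
  refine le_trans ?_ key
  have hfin : ((MeromorphicOn.divisor f (closedBall c R))).support.Finite :=
    (MeromorphicOn.divisor f (closedBall c R)).finiteSupport (isCompact_closedBall _ _)
  have hle : (T.card : ℤ) ≤ ∑ᶠ u, (MeromorphicOn.divisor f (closedBall c R)) u := by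
    rw [finsum_eq_sum_of_support_subset _ (s := hfin.toFinset) (by simp)]
    have hTs : T ⊆ hfin.toFinset := by
      intro z hz
      rw [Finite.mem_toFinset, Function.mem_support]
      obtain ⟨h1, h2⟩ := hT z hz
      rw [MeromorphicOn.AnalyticOnNhd.divisor_apply (hf.mono (subset_univ (closedBall c R))) h1]
      have ho1 : analyticOrderAt f z ≠ 0 := by
        rw [analyticOrderAt_ne_zero]
        exact ⟨hf z (mem_univ _), h2⟩
      have ho2 : analyticOrderAt f z ≠ ⊤ := by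
        intro htop
        rw [analyticOrderAt_eq_top] at htop
        have := hf.eqOn_zero_of_preconnected_of_eventuallyEq_zero isPreconnected_univ (mem_univ z) htop
          (mem_univ c)
        exact hc this
      lift analyticOrderAt f z to ℕ using ho2 with n hn
      simp at ho1 ⊢
      exact ho1
    calc (T.card : ℤ) = ∑ z ∈ T, 1 := by simp
      _ ≤ ∑ z ∈ T, (MeromorphicOn.divisor f (closedBall c R)) z := by
          apply Finset.sum_le_sum
          intro z hz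
          have hne : (MeromorphicOn.divisor f (closedBall c R)) z ≠ 0 := by
            have := hTs hz
            rwa [Finite.mem_toFinset, Function.mem_support] at this
          have hnn : 0 ≤ (MeromorphicOn.divisor f (closedBall c R)) z :=
            MeromorphicOn.AnalyticOnNhd.divisor_nonneg (hf.mono (subset_univ (closedBall c R))) z
          omega
      _ ≤ _ := Finset.sum_le_sum_of_subset_of_nonneg hTs fun z _ _ =>
          MeromorphicOn.AnalyticOnNhd.divisor_nonneg (hf.mono (subset_univ (closedBall c R))) z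
  exact_mod_cast hle



/-- Dichotomy along analytic discs whose first coordinate stays in `U₀`. -/
def BD (U₀ : Set ℂ) (S : Set (ℂ × ℂ)) : Prop :=
  ∀ (γ : ℂ → ℂ × ℂ) (c : ℂ) (r : ℝ), AnalyticOnNhd ℂ γ (ball c r) → (∀ t ∈ ball c r, (γ t).1 ∈ U₀) →
    ({t | t ∈ ball c r ∧ γ t ∈ S}.Countable ∨ {t | t ∈ ball c r ∧ γ t ∉ S}.Countable)

def Good (U₀ : Set ℂ) (F : ℂ × ℂ → ℂ) (S : Set (ℂ × ℂ)) (x y : ℂ) : Prop :=
  ∃ g δ η, IsChart U₀ F x y g δ η ∧ {x' | x' ∈ ball x δ ∧ (x', g x') ∉ S}.Countable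

def Bad (U₀ : Set ℂ) (F : ℂ × ℂ → ℂ) (S : Set (ℂ × ℂ)) (x y : ℂ) : Prop :=
  ∃ g δ η, IsChart U₀ F x y g δ η ∧ {x' | x' ∈ ball x δ ∧ (x', g x') ∈ S}.Countable

lemma ball_not_countable {x : ℂ} {r : ℝ} (hr : 0 < r) : ¬ (ball x r).Countable := by
  intro h
  have hd : Dense ((ball x r)ᶜ) := h.dense_compl ℝ
  obtain ⟨y, hy1, hy2⟩ := hd.exists_mem_open (isOpen_ball (x := x) (ε := r)) ⟨x, mem_ball_self hr⟩
  exact hy1 hy2

variable {U₀ : Set ℂ} {F : ℂ × ℂ → ℂ}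

lemma IsChart.F_eq_zero {x y : ℂ} {g : ℂ → ℂ} {δ η : ℝ} (h : IsChart U₀ F x y g δ η)
    {x' : ℂ} (hx' : x' ∈ ball x δ) : F (x', g x') = 0 :=
  (h.iff x' hx' _ (h.maps x' hx')).2 rfl

/-- Restricting a chart to another point of the graph. -/
lemma IsChart.at {x y : ℂ} {g : ℂ → ℂ} {δ η : ℝ} (h : IsChart U₀ F x y g δ η)
    {x' : ℂ} (hx' : x' ∈ ball x δ) : ∃ δ' η', IsChart U₀ F x' (g x') g δ' η' ∧ ball x' δ' ⊆ ball x δ := by
  obtain ⟨η', hη', hη's⟩ := Metric.isOpen_iff.1 (isOpen_ball (x := y) (ε := η)) (g x') (h.maps x' hx')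
  have hc : ContinuousAt g x' := (h.an x' hx').continuousAt
  have h1 : ∀ᶠ z in 𝓝 x', g z ∈ ball (g x') η' ∧ z ∈ ball x δ :=
    (hc.eventually_mem (ball_mem_nhds _ hη')).and (isOpen_ball.eventually_mem hx')
  obtain ⟨δ', hδ', hs⟩ := Metric.eventually_nhds_iff_ball.1 h1
  refine ⟨δ', η', ⟨fun z hz => h.sub (hs z hz).2, hδ', hη', ?_, rfl, ?_, ?_⟩, fun z hz => (hs z hz).2⟩
  · exact fun z hz => h.an z (hs z hz).2
  · exact fun z hz => (hs z hz).1
  · intro z hz w hw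
    exact h.iff z (hs z hz).2 w (hη's hw)

/-- Two charts at the same point agree near the point. -/
lemma IsChart.agree {x y : ℂ} {g g' : ℂ → ℂ} {δ η δ' η' : ℝ}
    (h : IsChart U₀ F x y g δ η) (h' : IsChart U₀ F x y g' δ' η') :
    ∃ ρ > 0, ball x ρ ⊆ ball x δ ∧ ball x ρ ⊆ ball x δ' ∧ ∀ z ∈ ball x ρ, g z = g' z := by
  have hc : ContinuousAt g x := (h.an x (mem_ball_self h.δpos)).continuousAt
  have h1 : ∀ᶠ z in 𝓝 x, g z ∈ ball y η' := hc.eventually_mem (by rw [h.gx]; exact ball_mem_nhds _ h'.ηpos)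
  have h2 : ∀ᶠ z in 𝓝 x, z ∈ ball x δ ∧ z ∈ ball x δ' :=
    (isOpen_ball.eventually_mem (mem_ball_self h.δpos)).and (isOpen_ball.eventually_mem (mem_ball_self h'.δpos))
  obtain ⟨ρ, hρ, hs⟩ := Metric.eventually_nhds_iff_ball.1 (h1.and h2)
  refine ⟨ρ, hρ, fun z hz => (hs z hz).2.1, fun z hz => (hs z hz).2.2, ?_⟩
  intro z hz
  exact (h'.iff z (hs z hz).2.2 (g z) (hs z hz).1).1 (h.F_eq_zero (hs z hz).2.1)

variable {S : Set (ℂ × ℂ)}

lemma not_good_and_bad {x y : ℂ} (hg : Good U₀ F S x y)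
    (hb : Bad U₀ F S x y) : False := by
  obtain ⟨g, δ, η, hc, h1⟩ := hg
  obtain ⟨g', δ', η', hc', h2⟩ := hb
  obtain ⟨ρ, hρ, hs1, hs2, he⟩ := hc.agree hc'
  apply ball_not_countable hρ (x := x)
  refine (h1.union h2).mono ?_
  intro z hz
  by_cases hzS : (z, g z) ∈ S
  · right
    refine ⟨hs2 hz, ?_⟩
    rw [← he z hz]; exact hzS
  · left
    exact ⟨hs1 hz, hzS⟩

lemma graph_dichotomy (hS : BD U₀ S) {g : ℂ → ℂ} {x : ℂ} {δ : ℝ}
    (hg : AnalyticOnNhd ℂ g (ball x δ)) (hsub : ball x δ ⊆ U₀) :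
    {x' | x' ∈ ball x δ ∧ (x', g x') ∈ S}.Countable ∨ {x' | x' ∈ ball x δ ∧ (x', g x') ∉ S}.Countable :=
  hS (fun t => (t, g t)) x δ (fun t ht => analyticAt_id.prod (hg t ht)) (fun _ ht => hsub ht)

lemma good_or_bad (hS : BD U₀ S) {x y : ℂ} (h : Reg U₀ F x y) :
    Good U₀ F S x y ∨ Bad U₀ F S x y := by
  obtain ⟨g, δ, η, hc⟩ := h
  rcases graph_dichotomy hS hc.an hc.sub with h1 | h1
  · exact Or.inr ⟨g, δ, η, hc, h1⟩
  · exact Or.inl ⟨g, δ, η, hc, h1⟩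

lemma Good.chart (hS : BD U₀ S) {x y : ℂ} (h : Good U₀ F S x y)
    {g : ℂ → ℂ} {δ η : ℝ} (hc : IsChart U₀ F x y g δ η) :
    {x' | x' ∈ ball x δ ∧ (x', g x') ∉ S}.Countable := by
  rcases graph_dichotomy hS hc.an hc.sub with h1 | h1
  · exact (not_good_and_bad h ⟨g, δ, η, hc, h1⟩).elim
  · exact h1

lemma Bad.chart (hS : BD U₀ S) {x y : ℂ} (h : Bad U₀ F S x y)
    {g : ℂ → ℂ} {δ η : ℝ} (hc : IsChart U₀ F x y g δ η) :
    {x' | x' ∈ ball x δ ∧ (x', g x') ∈ S}.Countable := by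
  rcases graph_dichotomy hS hc.an hc.sub with h1 | h1
  · exact h1
  · exact (not_good_and_bad ⟨g, δ, η, hc, h1⟩ h).elim

lemma Good.along (hS : BD U₀ S) {x y : ℂ} (h : Good U₀ F S x y)
    {g : ℂ → ℂ} {δ η : ℝ} (hc : IsChart U₀ F x y g δ η) {x' : ℂ} (hx' : x' ∈ ball x δ) :
    Good U₀ F S x' (g x') := by
  obtain ⟨δ', η', hc', hsub⟩ := hc.at hx'
  refine ⟨g, δ', η', hc', (h.chart hS hc).mono ?_⟩
  rintro z ⟨hz1, hz2⟩
  exact ⟨hsub hz1, hz2⟩

lemma Bad.along (hS : BD U₀ S) {x y : ℂ} (h : Bad U₀ F S x y)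
    {g : ℂ → ℂ} {δ η : ℝ} (hc : IsChart U₀ F x y g δ η) {x' : ℂ} (hx' : x' ∈ ball x δ) :
    Bad U₀ F S x' (g x') := by
  obtain ⟨δ', η', hc', hsub⟩ := hc.at hx'
  refine ⟨g, δ', η', hc', (h.chart hS hc).mono ?_⟩
  rintro z ⟨hz1, hz2⟩
  exact ⟨hsub hz1, hz2⟩

lemma good_along_iff (hS : BD U₀ S) {x y : ℂ}
    {g : ℂ → ℂ} {δ η : ℝ} (hc : IsChart U₀ F x y g δ η) {x' : ℂ} (hx' : x' ∈ ball x δ) :
    Good U₀ F S x' (g x') ↔ Good U₀ F S x y := by
  constructor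
  · intro h
    rcases good_or_bad hS ⟨g, δ, η, hc⟩ with h1 | h1
    · exact h1
    · exact (not_good_and_bad h (h1.along hS hc hx')).elim
  · intro h
    exact h.along hS hc hx'

lemma Good.zero {x y : ℂ} (h : Good U₀ F S x y) : F (x, y) = 0 := by
  obtain ⟨g, δ, η, hc, _⟩ := h
  have := hc.F_eq_zero (mem_ball_self hc.δpos)
  rwa [hc.gx] at this

lemma Good.mem {x y : ℂ} (h : Good U₀ F S x y) : x ∈ U₀ := by
  obtain ⟨g, δ, η, hc, _⟩ := h
  exact hc.sub (mem_ball_self hc.δpos)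

/-- finiteness of zeros in compact balls -/
lemma finite_zeros (hF : AnalyticOnNhd ℂ F (U₀ ×ˢ univ)) {x : ℂ} (hx : x ∈ U₀)
    (hne : ∃ y, F (x, y) ≠ 0) (c : ℂ) (r : ℝ) : {y | y ∈ closedBall c r ∧ F (x, y) = 0}.Finite := by
  set s := {y | y ∈ closedBall c r ∧ F (x, y) = 0} with hs
  have hfan := slice_analytic hF hx
  have hcont : Continuous (fun y => F (x, y)) := by
    rw [← continuousOn_univ]; exact hfan.continuousOn
  have hclosed : IsClosed s := isClosed_closedBall.inter (isClosed_singleton.preimage hcont)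
  have hcomp : IsCompact s := (isCompact_closedBall c r).of_isClosed_subset hclosed (fun y hy => hy.1)
  have hiso : ∀ p ∈ s, ∃ O ∈ 𝓝 p, O ∩ s ⊆ {p} := by
    rintro p ⟨hp1, hp2⟩
    rcases (hfan p (mem_univ p)).eventually_eq_zero_or_eventually_ne_zero with h | h
    · obtain ⟨y, hy⟩ := hne
      exact absurd (hfan.eqOn_zero_of_preconnected_of_eventuallyEq_zero isPreconnected_univ
        (mem_univ p) h (mem_univ y)) hy
    · rw [eventually_nhdsWithin_iff] at h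
      refine ⟨_, h, ?_⟩
      rintro z ⟨hz1, hz2⟩
      by_contra hzx
      exact hz1 hzx hz2.2
  have key : ∀ x, ∃ O : Set ℂ, x ∈ s → (O ∈ 𝓝 x ∧ O ∩ s ⊆ {x}) := by
    intro x
    by_cases hx : x ∈ s
    · obtain ⟨O, h1, h2⟩ := hiso x hx
      exact ⟨O, fun _ => ⟨h1, h2⟩⟩
    · exact ⟨∅, fun h => absurd h hx⟩
  choose O hO using key
  obtain ⟨t, ht, hcov⟩ := hcomp.elim_nhds_subcover O (fun x hx => (hO x hx).1)
  refine (t.finite_toSet).subset ?_
  intro y hy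
  obtain ⟨z, hz, hyz⟩ := mem_iUnion₂.1 (hcov hy)
  have := (hO z (ht z hz)).2 ⟨hyz, hy⟩
  rw [mem_singleton_iff] at this
  rw [this]; exact hz

/-- the good zeros in a disc -/
def goodIn (U₀ : Set ℂ) (F : ℂ × ℂ → ℂ) (S : Set (ℂ × ℂ)) (x c : ℂ) (r : ℝ) : Set ℂ :=
  {y | Good U₀ F S x y ∧ y ∈ ball c r}

lemma goodIn_finite (hF : AnalyticOnNhd ℂ F (U₀ ×ˢ univ)) {x : ℂ} (hx : x ∈ U₀)
    (hne : ∃ y, F (x, y) ≠ 0) (c : ℂ) (r : ℝ) : (goodIn U₀ F S x c r).Finite := by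
  refine (finite_zeros hF hx hne c r).subset ?_
  rintro y ⟨hy1, hy2⟩
  exact ⟨ball_subset_closedBall hy2, hy1.zero⟩

/-- Upper semicontinuity of the zero set. -/
lemma zeros_near (hF : AnalyticOnNhd ℂ F (U₀ ×ˢ univ)) {x₁ c : ℂ} {r η : ℝ} (hx₁ : x₁ ∈ U₀) (hη : 0 < η) :
    ∀ᶠ x in 𝓝 x₁, ∀ y ∈ closedBall c r, F (x, y) = 0 →
      ∃ w ∈ closedBall c r, F (x₁, w) = 0 ∧ y ∈ ball w η := by
  set U : Set ℂ := ⋃ w ∈ {w | w ∈ closedBall c r ∧ F (x₁, w) = 0}, ball w η with hU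
  have hUo : IsOpen U := isOpen_biUnion fun w _ => isOpen_ball
  have hK : IsCompact (closedBall c r \ U) := (isCompact_closedBall c r).diff hUo
  have := hK.eventually_forall_of_forall_eventually (x₀ := x₁) (P := fun x y => F (x, y) ≠ 0) (by
    rintro y ⟨hy1, hy2⟩
    have : F (x₁, y) ≠ 0 := by
      intro h
      exact hy2 (mem_iUnion₂.2 ⟨y, ⟨hy1, h⟩, mem_ball_self hη⟩)
    exact (hF (x₁, y) ⟨hx₁, mem_univ _⟩).continuousAt.eventually_ne this)
  filter_upwards [this] with x hx y hy h0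
  by_cases hyU : y ∈ U
  · obtain ⟨w, hw, hyw⟩ := mem_iUnion₂.1 hyU
    exact ⟨w, hw.1, hw.2, hyw⟩
  · exact absurd h0 (hx y ⟨hy, hyU⟩)

/-- Local structure of the good zeros in a disc, near a value `x₁` of the parameter for which all
zeros in the disc are regular. -/
lemma local_structure (hF : AnalyticOnNhd ℂ F (U₀ ×ˢ univ)) (hS : BD U₀ S)
    {x₁ c : ℂ} {r : ℝ} (hx₁ : x₁ ∈ U₀) (hne : ∃ y, F (x₁, y) ≠ 0) (hsph : ∀ y ∈ sphere c r, F (x₁, y) ≠ 0)
    (hreg : ∀ y ∈ ball c r, F (x₁, y) = 0 → Reg U₀ F x₁ y) :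
    ∃ (δ : ℝ) (J : Finset ℂ) (g : ℂ → ℂ → ℂ), 0 < δ ∧
      (∀ w ∈ J, AnalyticOnNhd ℂ (g w) (ball x₁ δ)) ∧
      (∀ w ∈ J, ∀ x ∈ ball x₁ δ, g w x ∈ ball c r) ∧
      (∀ x ∈ ball x₁ δ, ∀ w ∈ J, ∀ w' ∈ J, g w x = g w' x → w = w') ∧
      (∀ x ∈ ball x₁ δ, goodIn U₀ F S x c r = (fun w => g w x) '' J) ∧
      (∀ x ∈ ball x₁ δ, ∀ y ∈ ball c r, F (x, y) = 0 → Reg U₀ F x y) := by
  classical
  have hfin := finite_zeros hF hx₁ hne c r
  set Z := hfin.toFinset with hZ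
  have hZmem : ∀ w, w ∈ Z ↔ w ∈ closedBall c r ∧ F (x₁, w) = 0 := by
    intro w; rw [hZ, Finite.mem_toFinset]; rfl
  have hZball : ∀ w ∈ Z, w ∈ ball c r := by
    intro w hw
    have h1 := (hZmem w).1 hw
    by_contra hcon
    have : w ∈ sphere c r := by
      rw [mem_sphere]
      exact le_antisymm (mem_closedBall.1 h1.1) (not_lt.1 (fun h => hcon (mem_ball.2 h)))
    exact hsph w this h1.2
  have hch : ∀ w ∈ Z, ∃ g δ η, IsChart U₀ F x₁ w g δ η := fun w hw =>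
    hreg w (hZball w hw) ((hZmem w).1 hw).2
  choose! g δ η hch using hch
  -- a radius η₀ working for all
  obtain ⟨η₀, hη₀, hη₀1, hη₀2, hη₀3⟩ : ∃ η₀ > 0, (∀ w ∈ Z, η₀ ≤ η w) ∧ (∀ w ∈ Z, ball w η₀ ⊆ ball c r) ∧
      (∀ w ∈ Z, ∀ w' ∈ Z, w ≠ w' → η₀ ≤ dist w w' / 2) := by
    have h1 : ∀ᶠ ε in 𝓝[>] (0:ℝ), ∀ w ∈ Z, ε ≤ η w := by
      rw [Filter.eventually_all_finset]
      intro w hw
      filter_upwards [Ioo_mem_nhdsGT (hch w hw).ηpos] with ε hε using hε.2.le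
    have h2 : ∀ᶠ ε in 𝓝[>] (0:ℝ), ∀ w ∈ Z, ball w ε ⊆ ball c r := by
      rw [Filter.eventually_all_finset]
      intro w hw
      obtain ⟨ε₀, hε₀, hs⟩ := Metric.isOpen_iff.1 isOpen_ball w (hZball w hw)
      filter_upwards [Ioo_mem_nhdsGT hε₀] with ε hε using (ball_subset_ball hε.2.le).trans hs
    have h3 : ∀ᶠ ε in 𝓝[>] (0:ℝ), ∀ w ∈ Z, ∀ w' ∈ Z, w ≠ w' → ε ≤ dist w w' / 2 := by
      rw [Filter.eventually_all_finset]
      intro w hw
      rw [Filter.eventually_all_finset]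
      intro w' hw'
      by_cases hww : w = w'
      · exact Eventually.of_forall fun ε h => absurd hww h
      · have : 0 < dist w w' / 2 := by have := dist_pos.2 hww; linarith
        filter_upwards [Ioo_mem_nhdsGT this] with ε hε _ using hε.2.le
    have h4 : ∀ᶠ ε in 𝓝[>] (0:ℝ), 0 < ε := self_mem_nhdsWithin
    obtain ⟨ε, h1, h2, h3, h4⟩ := (h1.and (h2.and (h3.and h4))).exists
    exact ⟨ε, h4, h1, h2, h3⟩
  -- neighbourhood
  have hev : ∀ᶠ x in 𝓝 x₁, (∀ y ∈ closedBall c r, F (x, y) = 0 →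
      ∃ w ∈ closedBall c r, F (x₁, w) = 0 ∧ y ∈ ball w η₀) ∧
      (∀ w ∈ Z, x ∈ ball x₁ (δ w) ∧ g w x ∈ ball w η₀) := by
    refine (zeros_near hF hx₁ hη₀).and ?_
    rw [Filter.eventually_all_finset]
    intro w hw
    refine (isOpen_ball.eventually_mem (mem_ball_self (hch w hw).δpos)).and ?_
    have : ContinuousAt (g w) x₁ := ((hch w hw).an x₁ (mem_ball_self (hch w hw).δpos)).continuousAt
    exact this.eventually_mem (by rw [(hch w hw).gx]; exact ball_mem_nhds _ hη₀)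
  obtain ⟨δ₀, hδ₀, hs⟩ := Metric.eventually_nhds_iff_ball.1 hev
  -- every zero is on a graph
  have hgraph : ∀ x ∈ ball x₁ δ₀, ∀ y ∈ closedBall c r, F (x, y) = 0 → ∃ w ∈ Z, y = g w x := by
    intro x hx y hy h0
    obtain ⟨w, hw1, hw2, hw3⟩ := (hs x hx).1 y hy h0
    have hwZ : w ∈ Z := (hZmem w).2 ⟨hw1, hw2⟩
    refine ⟨w, hwZ, ?_⟩
    exact ((hch w hwZ).iff x ((hs x hx).2 w hwZ).1 y (ball_subset_ball (hη₀1 w hwZ) hw3)).1 h0
  refine ⟨δ₀, Z.filter (fun w => Good U₀ F S x₁ w), g, hδ₀, ?_, ?_, ?_, ?_, ?_⟩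
  · intro w hw x hx
    have hwZ := (Finset.mem_filter.1 hw).1
    exact (hch w hwZ).an x ((hs x hx).2 w hwZ).1
  · intro w hw x hx
    have hwZ := (Finset.mem_filter.1 hw).1
    exact hη₀2 w hwZ ((hs x hx).2 w hwZ).2
  · intro x hx w hw w' hw' heq
    have hwZ := (Finset.mem_filter.1 hw).1
    have hwZ' := (Finset.mem_filter.1 hw').1
    by_contra hne
    have h1 := mem_ball.1 ((hs x hx).2 w hwZ).2
    have h2 := mem_ball.1 ((hs x hx).2 w' hwZ').2
    have h3 := hη₀3 w hwZ w' hwZ' hne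
    rw [← heq] at h2
    have h4 : dist w w' ≤ dist (g w x) w + dist (g w x) w' := dist_triangle_left _ _ _
    linarith
  · intro x hx
    ext y
    constructor
    · rintro ⟨hgood, hy⟩
      obtain ⟨w, hwZ, rfl⟩ := hgraph x hx y (ball_subset_closedBall hy) hgood.zero
      refine ⟨w, ?_, rfl⟩
      rw [Finset.mem_coe, Finset.mem_filter]
      exact ⟨hwZ, (good_along_iff hS (hch w hwZ) ((hs x hx).2 w hwZ).1).1 hgood⟩
    · rintro ⟨w, hw, rfl⟩
      rw [Finset.mem_coe, Finset.mem_filter] at hw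
      exact ⟨(good_along_iff hS (hch w hw.1) ((hs x hx).2 w hw.1).1).2 hw.2,
        hη₀2 w hw.1 ((hs x hx).2 w hw.1).2⟩
  · intro x hx y hy h0
    obtain ⟨w, hwZ, rfl⟩ := hgraph x hx y (ball_subset_closedBall hy) h0
    obtain ⟨δ', η', hc', _⟩ := (hch w hwZ).at ((hs x hx).2 w hwZ).1
    exact ⟨_, _, _, hc'⟩


end Pool.Agent.Helper23.QM
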