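import Mathlib
import Pool.Agent.Helper23.QMa

set_option autoImplicit false

open Set Metric Filter Topology

namespace Pool.Agent.Helper23.QM


section PartE

variable {U₀ : Set ℂ} {F : ℂ × ℂ → ℂ} {S : Set (ℂ × ℂ)}

/-- exceptional parameters -/
def Exc (U₀ : Set ℂ) (F : ℂ × ℂ → ℂ) : Set ℂ :=
  {x | x ∈ U₀ ∧ ((∀ y, F (x, y) = 0) ∨ ∃ y, F (x, y) = 0 ∧ ¬ Reg U₀ F x y)}

lemma vertical_countable (hc : IsPreconnected U₀) (hF : AnalyticOnNhd ℂ F (U₀ ×ˢ univ))
    (hne : ∃ x ∈ U₀, ∃ y, F (x, y) ≠ 0) : {x | x ∈ U₀ ∧ ∀ y, F (x, y) = 0}.Countable := by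
  obtain ⟨x₀, hx₀, y₀, h0⟩ := hne
  have han : AnalyticOnNhd ℂ (fun x => F (x, y₀)) U₀ := by
    intro x hx
    have : AnalyticAt ℂ (fun x : ℂ => (x, y₀)) x := analyticAt_id.prod analyticAt_const
    exact AnalyticAt.comp (g := F) (hF _ ⟨hx, mem_univ _⟩) this
  refine (countable_zeros han hc ⟨x₀, hx₀, h0⟩).mono ?_
  intro x hx
  exact ⟨hx.1, hx.2 y₀⟩

lemma exc_countable (hU₀ : IsOpen U₀) (hc : IsPreconnected U₀) (hF : AnalyticOnNhd ℂ F (U₀ ×ˢ univ))
    (hne : ∃ x ∈ U₀, ∃ y, F (x, y) ≠ 0) : (Exc U₀ F).Countable := by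
  refine ((vertical_countable hc hF hne).union ((sing_countable hU₀ hF).image Prod.fst)).mono ?_
  rintro x ⟨hxU, hx⟩
  by_cases hv : ∀ y, F (x, y) = 0
  · exact Or.inl ⟨hxU, hv⟩
  · right
    rcases hx with h | ⟨y, h0, hreg⟩
    · exact absurd h hv
    · push Not at hv
      exact ⟨(x, y), ⟨hxU, h0, hv, hreg⟩, rfl⟩

/-- Sums over the good zeros in a disc extend holomorphically. -/
lemma holo_sum (hU₀ : IsOpen U₀) (hF : AnalyticOnNhd ℂ F (U₀ ×ˢ univ)) (hS : BD U₀ S)
    {x₀ c : ℂ} {r : ℝ} (hx₀ : x₀ ∈ U₀) (hne : ∃ y, F (x₀, y) ≠ 0) (hsph : ∀ y ∈ sphere c r, F (x₀, y) ≠ 0) :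
    ∃ (δ₀ : ℝ) (N : ℕ), 0 < δ₀ ∧ ball x₀ δ₀ ⊆ U₀ ∧ (∀ x ∈ ball x₀ δ₀, ∃ y, F (x, y) ≠ 0) ∧
      (∀ x ∈ ball x₀ δ₀, ∀ y ∈ sphere c r, F (x, y) ≠ 0) ∧
      (∀ x ∈ ball x₀ δ₀, ∀ T : Finset ℂ, (∀ y ∈ T, y ∈ ball c r ∧ F (x, y) = 0) → T.card ≤ N) ∧
      ∀ δ ≤ δ₀, ∀ h : ℂ × ℂ → ℂ, (∀ p ∈ ball x₀ δ ×ˢ ball c r, F p = 0 → AnalyticAt ℂ h p) →
        (∃ M, ∀ p ∈ ball x₀ δ ×ˢ ball c r, F p = 0 → ‖h p‖ ≤ M) →
        ∃ H : ℂ → ℂ, AnalyticOnNhd ℂ H (ball x₀ δ) ∧
          ∀ x ∈ ball x₀ δ \ Exc U₀ F, H x = ∑ᶠ y ∈ goodIn U₀ F S x c r, h (x, y) := by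
  classical
  obtain ⟨c', hc'⟩ := hne
  set m : ℝ := ‖F (x₀, c')‖ / 2 with hm
  have hmpos : 0 < m := by have := norm_pos_iff.2 hc'; positivity
  -- parameters near x₀
  have h1 : ∀ᶠ x in 𝓝 x₀, m < ‖F (x, c')‖ := by
    have h1 : ContinuousAt (fun x : ℂ => (x, c')) x₀ := by fun_prop
    have h2 : ContinuousAt (fun x => F (x, c')) x₀ :=
      ContinuousAt.comp (g := F) (hF (x₀, c') ⟨hx₀, mem_univ _⟩).continuousAt h1
    have : ContinuousAt (fun x => ‖F (x, c')‖) x₀ := h2.norm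
    refine this.eventually_const_lt ?_
    have := norm_pos_iff.2 hc'
    rw [hm]; linarith
  have h2 : ∀ᶠ x in 𝓝 x₀, ∀ y ∈ sphere c r, F (x, y) ≠ 0 := by
    refine (isCompact_sphere c r).eventually_forall_of_forall_eventually (x₀ := x₀)
      (P := fun x y => F (x, y) ≠ 0) ?_
    intro y hy
    exact (hF (x₀, y) ⟨hx₀, mem_univ _⟩).continuousAt.eventually_ne (hsph y hy)
  obtain ⟨ρ₁, hρ₁, hρ₁s⟩ : ∃ ρ₁ > 0, closedBall x₀ ρ₁ ⊆ U₀ := Metric.nhds_basis_closedBall.mem_iff.1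
    (hU₀.mem_nhds hx₀)
  have h3 : ∀ᶠ x in 𝓝 x₀, x ∈ ball x₀ ρ₁ := isOpen_ball.eventually_mem (mem_ball_self hρ₁)
  obtain ⟨δ₀, hδ₀, hs⟩ := Metric.eventually_nhds_iff_ball.1 (h1.and (h2.and h3))
  set R : ℝ := dist c c' + |r| + 1 with hR
  have hRpos : 0 < R := by positivity
  have hsub : ball c r ⊆ closedBall c' R := by
    intro y hy
    rw [mem_closedBall]
    have := mem_ball.1 hy
    have h5 := dist_triangle y c c'
    have h6 := le_abs_self r
    rw [hR]; linarith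
  obtain ⟨M₀, hM₀⟩ : ∃ M₀, ∀ p ∈ closedBall x₀ ρ₁ ×ˢ closedBall c' (2 * R), ‖F p‖ ≤ M₀ :=
    ((isCompact_closedBall x₀ ρ₁).prod (isCompact_closedBall c' (2 * R))).exists_bound_of_continuousOn
      (hF.continuousOn.mono (prod_mono hρ₁s (subset_univ _)))
  set M := max 1 M₀ with hM
  obtain ⟨N, hN⟩ := exists_nat_ge (Real.log (M / m) / Real.log 2)
  have hcard : ∀ x ∈ ball x₀ δ₀, ∀ T : Finset ℂ, (∀ y ∈ T, y ∈ ball c r ∧ F (x, y) = 0) → T.card ≤ N := by
    intro x hx T hT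
    have hx' := hs x hx
    have hfan := slice_analytic hF (hρ₁s (ball_subset_closedBall hx'.2.2))
    have hb := zeros_card_le hfan (c := c') (R := R) (M := M) hRpos (le_max_left _ _)
      (fun h0 => by
        have h1 := hx'.1
        have h0' : F (x, c') = 0 := h0
        rw [h0', norm_zero] at h1
        linarith) (fun z hz => by
          refine (hM₀ (x, z) ⟨ball_subset_closedBall hx'.2.2, sphere_subset_closedBall hz⟩).trans
            (le_max_right _ _)) T (fun z hz => ⟨hsub (hT z hz).1, (hT z hz).2⟩)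
    have hlog2 : 0 < Real.log 2 := Real.log_pos one_lt_two
    have hMpos : 0 < M := lt_of_lt_of_le one_pos (le_max_left _ _)
    have h7 : Real.log (M / ‖F (x, c')‖) ≤ Real.log (M / m) := by
      apply Real.log_le_log
      · have : 0 < ‖F (x, c')‖ := hmpos.trans hx'.1
        positivity
      · gcongr
        exact hx'.1.le
    have h8 : (T.card : ℝ) ≤ N := hb.trans ((div_le_div_of_nonneg_right h7 hlog2.le).trans hN)
    exact_mod_cast h8
  have hne' : ∀ x ∈ ball x₀ δ₀, ∃ y, F (x, y) ≠ 0 := fun x hx => ⟨c', fun h0 => by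
    have h1 := (hs x hx).1
    rw [h0, norm_zero] at h1
    linarith⟩
  have hsubU : ball x₀ δ₀ ⊆ U₀ := fun x hx => hρ₁s (ball_subset_closedBall (hs x hx).2.2)
  refine ⟨δ₀, N, hδ₀, hsubU, hne', fun x hx => (hs x hx).2.1, hcard, ?_⟩
  intro δ hδ h hh ⟨Mh, hMh⟩
  have hballs : ball x₀ δ ⊆ ball x₀ δ₀ := ball_subset_ball hδ
  set K : Set ℂ := {x | x ∈ ball x₀ δ ∧ ∃ y ∈ ball c r, F (x, y) = 0 ∧ ¬ Reg U₀ F x y} with hK
  have hKE : K ⊆ Exc U₀ F := fun x hx => by
    obtain ⟨hx1, y, _, h0, hr⟩ := hx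
    exact ⟨hsubU (hballs hx1), Or.inr ⟨y, h0, hr⟩⟩
  have hKc : K.Countable := ((sing_countable hU₀ hF).image Prod.fst).mono (fun x hx => by
    obtain ⟨hx1, y, _, h0, hr⟩ := hx
    exact ⟨(x, y), ⟨hsubU (hballs hx1), h0, hne' x (hballs hx1), hr⟩, rfl⟩)
  set f : ℂ → ℂ := fun x => ∑ᶠ y ∈ goodIn U₀ F S x c r, h (x, y) with hf
  have hloc : ∀ x₁ ∈ ball x₀ δ \ K, ∃ ρ > 0, ball x₁ ρ ⊆ ball x₀ δ \ K ∧ DifferentiableOn ℂ f (ball x₁ ρ) := by
    rintro x₁ ⟨hx₁, hx₁K⟩
    obtain ⟨ρ, J, g, hρ, ha, hb, hc, hd, he⟩ := local_structure hF hS (hsubU (hballs hx₁)) (hne' x₁ (hballs hx₁))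
      (hs x₁ (hballs hx₁)).2.1 (fun y hy h0 => by
        by_contra hcon
        exact hx₁K ⟨hx₁, y, hy, h0, hcon⟩)
    obtain ⟨ρ', hρ', hρ's⟩ := Metric.isOpen_iff.1 isOpen_ball x₁ hx₁
    refine ⟨min ρ ρ', lt_min hρ hρ', ?_, ?_⟩
    · intro x hx
      refine ⟨hρ's (ball_subset_ball (min_le_right _ _) hx), ?_⟩
      rintro ⟨_, y, hy, h0, hr⟩
      exact hr (he x (ball_subset_ball (min_le_left _ _) hx) y hy h0)
    · have hsum : ∀ x ∈ ball x₁ (min ρ ρ'), f x = ∑ w ∈ J, h (x, g w x) := by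
        intro x hx
        have hx' := ball_subset_ball (min_le_left _ _) hx
        simp only [hf]
        rw [hd x hx']
        rw [finsum_mem_image (fun w hw w' hw' heq => hc x hx' w hw w' hw' heq), finsum_mem_coe_finset]
      have hdiff : DifferentiableOn ℂ (fun x => ∑ w ∈ J, h (x, g w x)) (ball x₁ (min ρ ρ')) := by
        apply DifferentiableOn.fun_sum
        intro w hw x hx
        have hx' := ball_subset_ball (min_le_left _ _) hx
        have h9 : AnalyticAt ℂ (fun x : ℂ => (x, g w x)) x := analyticAt_id.prod (ha w hw x hx')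
        have h11 : g w x ∈ goodIn U₀ F S x c r := by rw [hd x hx']; exact ⟨w, hw, rfl⟩
        have h10 : AnalyticAt ℂ (fun x => h (x, g w x)) x := AnalyticAt.comp (g := h)
          (hh _ ⟨hρ's (ball_subset_ball (min_le_right _ _) hx), hb w hw x hx'⟩ h11.1.zero) h9
        exact h10.differentiableAt.differentiableWithinAt
      exact hdiff.congr hsum
  have hopen : IsOpen (ball x₀ δ \ K) := by
    rw [Metric.isOpen_iff]
    intro x hx
    obtain ⟨ρ, hρ, h1, _⟩ := hloc x hx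
    exact ⟨ρ, hρ, h1⟩
  have hdiff : DifferentiableOn ℂ f (ball x₀ δ \ K) := by
    intro x hx
    obtain ⟨ρ, hρ, _, h2⟩ := hloc x hx
    exact (h2.differentiableAt (ball_mem_nhds x hρ)).differentiableWithinAt
  have hbound : ∀ x ∈ ball x₀ δ \ K, ‖f x‖ ≤ N * max Mh 0 := by
    rintro x ⟨hx, _⟩
    have hfin : (goodIn U₀ F S x c r).Finite := by
      refine (finite_zeros hF (hsubU (hballs hx)) (hne' x (hballs hx)) c r).subset ?_
      rintro y ⟨hy1, hy2⟩
      exact ⟨ball_subset_closedBall hy2, hy1.zero⟩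
    simp only [hf]
    rw [finsum_mem_eq_finite_toFinset_sum _ hfin]
    refine (norm_sum_le _ _).trans ?_
    have hle : ∀ y ∈ hfin.toFinset, ‖h (x, y)‖ ≤ max Mh 0 := by
      intro y hy
      rw [Finite.mem_toFinset] at hy
      exact (hMh (x, y) ⟨hx, hy.2⟩ hy.1.zero).trans (le_max_left _ _)
    refine (Finset.sum_le_card_nsmul _ _ _ hle).trans ?_
    rw [nsmul_eq_mul]
    have : (hfin.toFinset.card : ℝ) ≤ N := by
      exact_mod_cast hcard x (hballs hx) hfin.toFinset (fun y hy => by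
        rw [Finite.mem_toFinset] at hy
        exact ⟨hy.2, hy.1.zero⟩)
    exact mul_le_mul_of_nonneg_right this (le_max_right _ _)
  obtain ⟨H, hH1, hH2⟩ := removable_countable isOpen_ball hKc hopen hdiff hbound
  refine ⟨H, hH1, ?_⟩
  rintro x ⟨hx, hxE⟩
  exact hH2 x ⟨hx, fun hxK => hxE (hKE hxK)⟩

end PartE



/-- Uniform approximation of a real continuous function on a circle by real parts of entire functions. -/
lemma approx_re {c : ℂ} {r : ℝ} (hr : 0 < r) {u : ℂ → ℝ} (hu : ContinuousOn u (sphere c r))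
    {ε : ℝ} (hε : 0 < ε) :
    ∃ b : ℂ → ℂ, Differentiable ℂ b ∧ ∀ x ∈ sphere c r, |u x - (b x).re| ≤ ε := by
  have hT : Fact (0 < 2 * Real.pi) := ⟨by positivity⟩
  let P : AddCircle (2 * Real.pi) → ℂ := fun θ => c + r * fourier 1 θ
  have hPc : Continuous P := by
    have : Continuous (fun θ : AddCircle (2 * Real.pi) => (fourier 1 θ : ℂ)) := (fourier 1).continuous
    fun_prop
  have hPs : ∀ θ, P θ ∈ sphere c r := by
    intro θ
    have h1 : ‖(fourier 1 θ : ℂ)‖ = 1 := by simp [fourier_apply]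
    simp [P, norm_mul, h1, abs_of_pos hr]
  let f : C(AddCircle (2 * Real.pi), ℂ) := ⟨fun θ => ((u (P θ) : ℝ) : ℂ), by
    have h1 : Continuous (fun θ => u (P θ)) := hu.comp_continuous hPc hPs
    exact Complex.continuous_ofReal.comp h1⟩
  have hf : f ∈ (Submodule.span ℂ (range (@fourier (2 * Real.pi)))).topologicalClosure := by
    rw [span_fourier_closure_eq_top]; trivial
  rw [← SetLike.mem_coe, Submodule.topologicalClosure_coe, Metric.mem_closure_iff] at hf
  obtain ⟨p, hp, hdist⟩ := hf ε hε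
  have hQ : ∃ b₁ b₂ : ℂ → ℂ, Differentiable ℂ b₁ ∧ Differentiable ℂ b₂ ∧
      ∀ θ, p θ = b₁ (P θ) + starRingEnd ℂ (b₂ (P θ)) := by
    refine Submodule.span_induction (p := fun p _ => ∃ b₁ b₂ : ℂ → ℂ, Differentiable ℂ b₁ ∧
      Differentiable ℂ b₂ ∧ ∀ θ, p θ = b₁ (P θ) + starRingEnd ℂ (b₂ (P θ))) ?_ ?_ ?_ ?_ hp
    · rintro _ ⟨n, rfl⟩
      have hpow : ∀ (k : ℕ) (θ : AddCircle (2 * Real.pi)),
          (fourier (k : ℤ) θ : ℂ) = ((P θ - c) / r) ^ k := by
        intro k θ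
        have hrc : (r : ℂ) ≠ 0 := by exact_mod_cast hr.ne'
        have : (P θ - c) / r = fourier 1 θ := by
          simp only [P, add_sub_cancel_left]
          field_simp
        rw [this]
        simp [fourier_apply, AddCircle.toCircle_nsmul]
      obtain ⟨k, hk⟩ := Int.eq_nat_or_neg n
      rcases hk with rfl | rfl
      · refine ⟨fun x => ((x - c) / r) ^ k, 0, by fun_prop, by fun_prop, fun θ => ?_⟩
        simp [hpow k θ]
      · refine ⟨0, fun x => ((x - c) / r) ^ k, by fun_prop, by fun_prop, fun θ => ?_⟩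
        rw [fourier_neg, hpow k θ]
        simp
    · exact ⟨0, 0, by fun_prop, by fun_prop, fun θ => by simp⟩
    · rintro p q _ _ ⟨b₁, b₂, h1, h2, h3⟩ ⟨b₁', b₂', h1', h2', h3'⟩
      refine ⟨b₁ + b₁', b₂ + b₂', h1.add h1', h2.add h2', fun θ => ?_⟩
      simp [h3 θ, h3' θ]
      ring
    · rintro a p _ ⟨b₁, b₂, h1, h2, h3⟩
      refine ⟨fun x => a * b₁ x, fun x => starRingEnd ℂ a * b₂ x, h1.const_mul a, h2.const_mul _, fun θ => ?_⟩
      simp [h3 θ]
      ring
  obtain ⟨b₁, b₂, h1, h2, h3⟩ := hQ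
  refine ⟨b₁ + b₂, h1.add h2, ?_⟩
  intro x hx
  obtain ⟨θ, hθ⟩ : ∃ θ, P θ = x := by
    have hn : ‖(x - c) / r‖ = 1 := by
      rw [norm_div, mem_sphere_iff_norm.1 hx]
      simp [abs_of_pos hr, hr.ne']
    refine ⟨((Complex.arg ((x - c) / r) : ℝ) : AddCircle (2 * Real.pi)), ?_⟩
    simp only [P, fourier_coe_apply]
    have h4 : (2 * Real.pi * Complex.I * ((1 : ℤ) : ℂ) * ((Complex.arg ((x - c) / r) : ℝ) : ℂ) /
        ((2 * Real.pi : ℝ) : ℂ)) = (Complex.arg ((x - c) / r) : ℝ) * Complex.I := by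
      have : (Real.pi : ℂ) ≠ 0 := by exact_mod_cast Real.pi_ne_zero
      push_cast
      field_simp
    rw [h4]
    have h5 := Complex.norm_mul_exp_arg_mul_I ((x - c) / r)
    rw [hn] at h5
    simp only [Complex.ofReal_one, one_mul] at h5
    rw [h5]
    have : (r : ℂ) ≠ 0 := by exact_mod_cast hr.ne'
    field_simp
    ring
  have h4 : dist (f θ) (p θ) < ε := lt_of_le_of_lt (ContinuousMap.dist_apply_le_dist θ) hdist
  rw [h3 θ, hθ] at h4
  have h5 : f θ = ((u x : ℝ) : ℂ) := by simp only [f, ContinuousMap.coe_mk, hθ]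
  rw [h5, dist_eq_norm] at h4
  have h6 : |(((u x : ℝ) : ℂ) - (b₁ x + starRingEnd ℂ (b₂ x))).re| ≤
      ‖((u x : ℝ) : ℂ) - (b₁ x + starRingEnd ℂ (b₂ x))‖ := Complex.abs_re_le_norm _
  simp only [Complex.sub_re, Complex.add_re, Complex.ofReal_re, Complex.conj_re] at h6
  simp only [Pi.add_apply, Complex.add_re]
  linarith

/-- Viscosity form of the maximum principle. -/
lemma visc_max {c : ℂ} {r : ℝ} {Ψ : ℂ → ℝ} (hΨ : ContinuousOn Ψ (closedBall c r))
    (hv : ∀ x ∈ ball c r, ∃ H : ℂ → ℂ, AnalyticAt ℂ H x ∧ (∀ᶠ y in 𝓝 x, (H y).re ≤ Ψ y) ∧ (H x).re = Ψ x)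
    {M : ℝ} (hM : ∀ x ∈ sphere c r, Ψ x ≤ M) : ∀ x ∈ closedBall c r, Ψ x ≤ M := by
  by_contra hcon
  push Not at hcon
  obtain ⟨x₁, hx₁, hlt⟩ := hcon
  obtain ⟨xm, hxm, hmax⟩ := (isCompact_closedBall c r).exists_isMaxOn ⟨x₁, hx₁⟩ hΨ
  have hmax' : ∀ y ∈ closedBall c r, Ψ y ≤ Ψ xm := fun y hy => hmax hy
  have hMm : M < Ψ xm := lt_of_lt_of_le hlt (hmax' x₁ hx₁)
  set A : Set ℂ := {x | x ∈ closedBall c r ∧ Ψ x = Ψ xm} with hA
  have hAball : A ⊆ ball c r := by
    rintro x ⟨hx1, hx2⟩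
    by_contra hnb
    have : x ∈ sphere c r := by
      rw [mem_sphere]
      exact le_antisymm (mem_closedBall.1 hx1) (not_lt.1 (fun h => hnb (mem_ball.2 h)))
    have := hM x this
    linarith
  have hAclosed : IsClosed A := by
    have := hΨ.preimage_isClosed_of_isClosed isClosed_closedBall (isClosed_singleton (x := Ψ xm))
    exact this
  have hAopen : IsOpen A := by
    rw [isOpen_iff_mem_nhds]
    intro x hx
    have hxb := hAball hx
    obtain ⟨H, hHa, hHle, hHeq⟩ := hv x hxb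
    have hloc : IsLocalMax (norm ∘ fun y => Complex.exp (H y)) x := by
      filter_upwards [hHle, isOpen_ball.mem_nhds hxb] with y hy1 hy2
      simp only [Function.comp, Complex.norm_exp]
      apply Real.exp_le_exp.2
      rw [hHeq, hx.2]
      exact hy1.trans (hmax' y (ball_subset_closedBall hy2))
    have hdiff : ∀ᶠ y in 𝓝 x, DifferentiableAt ℂ (fun y => Complex.exp (H y)) y := by
      filter_upwards [hHa.eventually_analyticAt] with y hy
      exact hy.differentiableAt.cexp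
    have hconst := Complex.eventually_eq_of_isLocalMax_norm hdiff hloc
    filter_upwards [hconst, hHle, isOpen_ball.mem_nhds hxb] with y hy1 hy2 hy3
    refine ⟨ball_subset_closedBall hy3, le_antisymm (hmax' y (ball_subset_closedBall hy3)) ?_⟩
    have h1 : (H y).re = (H x).re := by
      have := congrArg norm hy1
      simp only [Complex.norm_exp] at this
      exact Real.exp_injective this
    rw [← hx.2, ← hHeq, ← h1]
    exact hy2
  have hclopen : IsClopen A := ⟨hAclosed, hAopen⟩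
  rcases isClopen_iff.1 hclopen with h | h
  · have : xm ∈ A := ⟨hxm, rfl⟩
    rw [h] at this
    exact this
  · have h1 : (c + (|r| + 1 : ℝ) : ℂ) ∈ ball c r := hAball (h ▸ mem_univ _)
    rw [mem_ball, dist_eq_norm, add_sub_cancel_left, Complex.norm_real, Real.norm_eq_abs,
      abs_of_pos (by positivity)] at h1
    have := le_abs_self r
    linarith

/-- Maximum principle for all the functions `Re (a s + b)`. -/
def MPc (U : Set ℂ) (s : ℂ → ℂ) : Prop :=
  ∀ (c : ℂ) (r : ℝ), 0 < r → closedBall c r ⊆ U → ∀ a b : ℂ → ℂ, AnalyticOnNhd ℂ a (closedBall c r) →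
    AnalyticOnNhd ℂ b (closedBall c r) → ∀ M : ℝ, (∀ x ∈ sphere c r, (a x * s x + b x).re ≤ M) →
    ∀ x ∈ closedBall c r, (a x * s x + b x).re ≤ M

lemma MPc.re_harmonic {U : Set ℂ} {s : ℂ → ℂ} (hs : ContinuousOn s U) (h : MPc U s)
    {c : ℂ} {r : ℝ} (hr : 0 < r) (hsub : closedBall c r ⊆ U) :
    ∃ G : ℂ → ℂ, AnalyticOnNhd ℂ G (ball c (r/2)) ∧ ∀ x ∈ ball c (r/2), (G x).re = (s x).re := by
  have hu : ContinuousOn (fun x => (s x).re) (sphere c r) :=
    Complex.continuous_re.comp_continuousOn (hs.mono (sphere_subset_closedBall.trans hsub))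
  have hex : ∀ n : ℕ, ∃ b : ℂ → ℂ, Differentiable ℂ b ∧ (b c).im = 0 ∧
      ∀ x ∈ closedBall c r, |(s x).re - (b x).re| ≤ 1 / ((n : ℝ) + 1) := by
    intro n
    obtain ⟨b, hb1, hb2⟩ := approx_re hr hu (ε := 1 / ((n : ℝ) + 1)) (by positivity)
    refine ⟨fun x => b x - (b c).im * Complex.I, by fun_prop, by simp, ?_⟩
    intro x hx
    have hban : AnalyticOnNhd ℂ b (closedBall c r) := fun z _ => hb1.analyticAt z
    have h1 := h c r hr hsub (fun _ => 1) (fun x => - b x) (fun _ _ => analyticAt_const)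
      hban.neg (1 / ((n : ℝ) + 1)) (fun x hx => by
        have := (abs_le.1 (hb2 x hx)).2
        simpa [sub_eq_add_neg] using this) x hx
    have h2 := h c r hr hsub (fun _ => -1) (fun x => b x) (fun _ _ => analyticAt_const)
      hban (1 / ((n : ℝ) + 1)) (fun x hx => by
        have := (abs_le.1 (hb2 x hx)).1
        simp at this ⊢
        linarith) x hx
    simp at h1 h2 ⊢
    rw [abs_le]
    constructor <;> linarith
  choose b hb1 hb2 hb3 using hex
  have hbc : ∀ n, (b n c).im = 0 := hb2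
  -- Cauchy estimate
  have hcau : ∀ m n : ℕ, ∀ x ∈ ball c (r/2), ‖b m x - b n x‖ ≤
      5 * (1 / ((m : ℝ) + 1) + 1 / ((n : ℝ) + 1)) := by
    intro m n x hx
    set M : ℝ := 1 / ((m : ℝ) + 1) + 1 / ((n : ℝ) + 1) with hM
    have hMpos : 0 < M := by positivity
    have hre : ∀ y ∈ closedBall c r, |(b m y - b n y).re| ≤ M := by
      intro y hy
      have h1 := abs_le.1 (hb3 m y hy)
      have h2 := abs_le.1 (hb3 n y hy)
      rw [Complex.sub_re, abs_le]
      constructor <;> linarith [h1.1, h1.2, h2.1, h2.2]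
    have hbc0 := Complex.borelCaratheodory (f := fun z => b m (c + z) - b n (c + z)) (M := M) (R := r)
      (z := x - c) hMpos (by
        have h1 : Differentiable ℂ (fun z => b m (c + z)) := (hb1 m).comp (by fun_prop)
        have h2 : Differentiable ℂ (fun z => b n (c + z)) := (hb1 n).comp (by fun_prop)
        exact (h1.sub h2).differentiableOn) (by
        intro z hz
        have : c + z ∈ closedBall c r := by
          rw [mem_closedBall, dist_eq_norm, add_sub_cancel_left]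
          exact (mem_ball_zero_iff.1 hz).le
        exact (abs_le.1 (hre _ this)).2) hr (by
        rw [mem_ball_zero_iff, ← dist_eq_norm]
        have := mem_ball.1 hx
        linarith)
    simp only [add_sub_cancel, add_zero] at hbc0
    have h0 : ‖b m c - b n c‖ ≤ M := by
      have h1 := hre c (mem_closedBall_self hr.le)
      have h2 : b m c - b n c = (((b m c - b n c).re : ℝ) : ℂ) := by
        apply Complex.ext
        · simp
        · simp [hbc]
      rw [h2, Complex.norm_real, Real.norm_eq_abs]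
      exact h1
    have hxc : ‖x - c‖ ≤ r / 2 := by rw [← dist_eq_norm]; exact (mem_ball.1 hx).le
    have hden : r / 2 ≤ r - ‖x - c‖ := by linarith
    have hden' : 0 < r - ‖x - c‖ := by linarith
    have e1 : 2 * M * ‖x - c‖ / (r - ‖x - c‖) ≤ 2 * M := by
      rw [div_le_iff₀ hden']
      have := norm_nonneg (x - c)
      nlinarith
    have e2 : ‖b m c - b n c‖ * (r + ‖x - c‖) / (r - ‖x - c‖) ≤ 3 * M := by
      rw [div_le_iff₀ hden']
      have h3 := norm_nonneg (x - c)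
      have h4 : r + ‖x - c‖ ≤ 3 * (r - ‖x - c‖) := by linarith
      calc ‖b m c - b n c‖ * (r + ‖x - c‖) ≤ M * (3 * (r - ‖x - c‖)) := by gcongr
        _ = 3 * M * (r - ‖x - c‖) := by ring
    linarith
  have hlim0 : Tendsto (fun n : ℕ => 1 / ((n : ℝ) + 1)) atTop (𝓝 0) := tendsto_one_div_add_atTop_nhds_zero_nat
  have hUC : UniformCauchySeqOn b atTop (ball c (r/2)) := by
    rw [Metric.uniformCauchySeqOn_iff]
    intro ε hε
    obtain ⟨N, hN⟩ := (Metric.tendsto_atTop.1 hlim0) (ε / 11) (by positivity)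
    refine ⟨N, fun m hm n hn x hx => ?_⟩
    rw [dist_eq_norm]
    have h1 := hN m hm
    have h2 := hN n hn
    rw [Real.dist_eq, sub_zero, abs_of_pos (by positivity)] at h1 h2
    have := hcau m n x hx
    linarith
  have hpt : ∀ x ∈ ball c (r/2), ∃ g, Tendsto (fun n => b n x) atTop (𝓝 g) := by
    intro x hx
    exact cauchySeq_tendsto_of_complete (hUC.cauchySeq hx)
  choose! G hG using hpt
  have hTU : TendstoUniformlyOn b G atTop (ball c (r/2)) := hUC.tendstoUniformlyOn_of_tendsto hG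
  have hGd : DifferentiableOn ℂ G (ball c (r/2)) :=
    hTU.tendstoLocallyUniformlyOn.differentiableOn
      (Eventually.of_forall fun n => (hb1 n).differentiableOn) isOpen_ball
  refine ⟨G, hGd.analyticOnNhd isOpen_ball, ?_⟩
  intro x hx
  have hx' : x ∈ closedBall c r := by
    have := mem_ball.1 hx
    rw [mem_closedBall]; linarith
  have h1 : Tendsto (fun n => (b n x).re) atTop (𝓝 (G x).re) :=
    (Complex.continuous_re.tendsto _).comp (hG x hx)
  have h2 : Tendsto (fun n => (b n x).re) atTop (𝓝 (s x).re) := by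
    rw [tendsto_iff_dist_tendsto_zero]
    refine squeeze_zero (fun n => dist_nonneg) (fun n => ?_) hlim0
    rw [Real.dist_eq, abs_sub_comm]
    exact hb3 n x hx'
  exact tendsto_nhds_unique h1 h2

lemma MPc.mul_const {U : Set ℂ} {s : ℂ → ℂ} (h : MPc U s) (k : ℂ) : MPc U (fun x => k * s x) := by
  intro c r hr hsub a b ha hb M hM x hx
  have := h c r hr hsub (fun x => a x * k) b (fun z hz => (ha z hz).mul analyticAt_const) hb M
    (fun x hx => by
      have := hM x hx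
      simpa [mul_assoc] using this) x hx
  simpa [mul_assoc] using this

/-- A continuous function such that all `Re (a s + b)` satisfy the maximum principle is holomorphic. -/
theorem MPc.analytic {U : Set ℂ} (hU : IsOpen U) {s : ℂ → ℂ} (hs : ContinuousOn s U) (h : MPc U s) :
    AnalyticOnNhd ℂ s U := by
  intro x₀ hx₀
  obtain ⟨ρ₀, hρ₀, hsub₀⟩ := Metric.isOpen_iff.1 hU x₀ hx₀
  set r := ρ₀ / 2 with hr
  have hrpos : 0 < r := by positivity
  have hsub : closedBall x₀ r ⊆ U := (closedBall_subset_ball (by rw [hr]; linarith)).trans hsub₀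
  obtain ⟨G₁, hG₁, hre₁⟩ := h.re_harmonic hs hrpos hsub
  have hs' : ContinuousOn (fun x => (-Complex.I) * s x) U := continuousOn_const.mul hs
  obtain ⟨G₂, hG₂, hre₂⟩ := (h.mul_const (-Complex.I)).re_harmonic hs' hrpos hsub
  have him : ∀ x ∈ ball x₀ (r/2), (G₂ x).re = (s x).im := by
    intro x hx
    rw [hre₂ x hx]
    simp
  -- v = Im s - Im G₁ = Re (G₂ + i G₁)
  set Hh : ℂ → ℂ := fun x => G₂ x + Complex.I * G₁ x with hHh
  have hHan : AnalyticOnNhd ℂ Hh (ball x₀ (r/2)) := fun x hx =>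
    (hG₂ x hx).add (analyticAt_const.mul (hG₁ x hx))
  have hsrep : ∀ x ∈ ball x₀ (r/2), s x = G₁ x + Complex.I * ((Hh x).re : ℂ) := by
    intro x hx
    apply Complex.ext
    · simp [hre₁ x hx]
    · simp [hHh, him x hx]
  have hx₀b : x₀ ∈ ball x₀ (r/2) := mem_ball_self (by positivity)
  -- h = H - H x₀
  set hh : ℂ → ℂ := fun x => Hh x - Hh x₀ with hhh
  have hhan : AnalyticOnNhd ℂ hh (ball x₀ (r/2)) := fun x hx => (hHan x hx).sub analyticAt_const
  rcases (hhan x₀ hx₀b).eventually_eq_zero_or_eventually_ne_zero with hz | hnz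
  · -- s = G₁ + const near x₀
    have heq : s =ᶠ[𝓝 x₀] fun x => G₁ x + Complex.I * ((Hh x₀).re : ℂ) := by
      filter_upwards [hz, isOpen_ball.mem_nhds hx₀b] with x hx1 hx2
      rw [hsrep x hx2]
      have : Hh x = Hh x₀ := sub_eq_zero.1 hx1
      rw [this]
    exact ((hG₁ x₀ hx₀b).add analyticAt_const).congr heq.symm
  · exfalso
    rw [eventually_nhdsWithin_iff] at hnz
    obtain ⟨ρ, hρ, hρs⟩ := Metric.eventually_nhds_iff_ball.1 (hnz.and (isOpen_ball.eventually_mem hx₀b))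
    set ρ' := ρ / 2 with hρ'
    have hρ'pos : 0 < ρ' := by positivity
    have hcb : closedBall x₀ ρ' ⊆ ball x₀ ρ := closedBall_subset_ball (by rw [hρ']; linarith)
    have hcb2 : closedBall x₀ ρ' ⊆ ball x₀ (r/2) := fun x hx => (hρs x (hcb hx)).2
    -- minimum of |h| on the sphere
    have hne : ∀ x ∈ sphere x₀ ρ', hh x ≠ 0 := by
      intro x hx
      refine (hρs x (hcb (sphere_subset_closedBall hx))).1 ?_
      rintro rfl
      rw [mem_sphere, dist_self] at hx
      linarith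
    have hsne : (sphere x₀ ρ').Nonempty := NormedSpace.sphere_nonempty.2 hρ'pos.le
    have hcont : ContinuousOn (fun x => ‖hh x‖) (sphere x₀ ρ') :=
      (hhan.continuousOn.mono (sphere_subset_closedBall.trans hcb2)).norm
    obtain ⟨xm, hxm, hmin⟩ := (isCompact_sphere x₀ ρ').exists_isMinOn hsne hcont
    set m := ‖hh xm‖ with hm
    have hmpos : 0 < m := norm_pos_iff.2 (hne xm hxm)
    have hmin' : ∀ x ∈ sphere x₀ ρ', m ≤ ‖hh x‖ := fun x hx => hmin hx
    set v₀ : ℝ := (Hh x₀).re with hv₀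
    -- key computation
    have hcomp : ∀ x ∈ closedBall x₀ ρ', (Complex.I * hh x * s x +
        (- (Complex.I * hh x * G₁ x) + v₀ * hh x + hh x ^ 2 / 2)).re = - ‖hh x‖ ^ 2 / 2 := by
      intro x hx
      rw [hsrep x (hcb2 hx)]
      have hv : (Hh x).re = v₀ + (hh x).re := by simp [hhh, hv₀]
      rw [hv]
      set p := (hh x).re with hp
      set q := (hh x).im with hq
      have hxe : hh x = p + q * Complex.I := (Complex.re_add_im _).symm
      rw [← Complex.normSq_eq_norm_sq, Complex.normSq_apply, ← hp, ← hq]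
      have e : Complex.I * hh x * (G₁ x + Complex.I * ((v₀ + p : ℝ) : ℂ)) +
        (- (Complex.I * hh x * G₁ x) + v₀ * hh x + hh x ^ 2 / 2) =
        -(p : ℂ) * hh x + hh x ^ 2 / 2 := by
        push_cast
        ring_nf
        rw [Complex.I_sq]
        ring
      rw [e, hxe]
      have e2 : -(p : ℂ) * (p + q * Complex.I) + (p + q * Complex.I) ^ 2 / 2 =
          ((- (p * p + q * q) / 2 : ℝ) : ℂ) := by
        push_cast
        ring_nf
        rw [Complex.I_sq]
        ring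
      rw [e2, Complex.ofReal_re]
    have hsubU : closedBall x₀ ρ' ⊆ U := by
      intro x hx
      have := mem_ball.1 (hcb2 hx)
      exact hsub (mem_closedBall.2 (by linarith))
    have hfin := h x₀ ρ' hρ'pos hsubU (fun x => Complex.I * hh x)
      (fun x => - (Complex.I * hh x * G₁ x) + v₀ * hh x + hh x ^ 2 / 2)
      (fun x hx => analyticAt_const.mul (hhan x (hcb2 hx)))
      (fun x hx => (((analyticAt_const.mul (hhan x (hcb2 hx))).mul (hG₁ x (hcb2 hx))).neg.add
        (analyticAt_const.mul (hhan x (hcb2 hx)))).add (((hhan x (hcb2 hx)).pow 2).div analyticAt_const two_ne_zero))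
      (- m ^ 2 / 2) (fun x hx => by
        rw [hcomp x (sphere_subset_closedBall hx)]
        have := hmin' x hx
        have : m ^ 2 ≤ ‖hh x‖ ^ 2 := by gcongr
        linarith) x₀ (mem_closedBall_self hρ'pos.le)
    rw [hcomp x₀ (mem_closedBall_self hρ'pos.le)] at hfin
    have hh0 : hh x₀ = 0 := by simp [hhh]
    rw [hh0, norm_zero] at hfin
    have : 0 < m ^ 2 := by positivity
    linarith


end Pool.Agent.Helper23.QM
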