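import Mathlib
import Pool.Agent.Helper23.QMb

set_option autoImplicit false

open Set Metric Filter Topology

namespace Pool.Agent.Helper23.QM


/-- Local support property for sums over good zeros of a compactly supported kernel. -/
lemma local_support {U₀ : Set ℂ} {F : ℂ × ℂ → ℂ} {S : Set (ℂ × ℂ)} (hU₀ : IsOpen U₀)
    (hF : AnalyticOnNhd ℂ F (U₀ ×ˢ univ)) (hS : BD U₀ S)
    {κ : ℂ × ℂ → ℝ} {R₂ : ℝ} {x₂ : ℂ} (hx₂ : x₂ ∈ U₀) (hne : ∃ y, F (x₂, y) ≠ 0)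
    (hK1 : ∀ᶠ x in 𝓝 x₂, ∀ y, R₂ ≤ ‖y‖ → κ (x, y) = 0)
    (hK2 : ∀ w, F (x₂, w) = 0 → ContinuousAt κ (x₂, w) ∧ ∃ h : ℂ × ℂ → ℂ, AnalyticAt ℂ h (x₂, w) ∧
      (∀ᶠ p in 𝓝 (x₂, w), (h p).re ≤ κ p) ∧ (h (x₂, w)).re = κ (x₂, w)) :
    ∃ H : ℂ → ℂ, AnalyticAt ℂ H x₂ ∧
      (∀ᶠ x in 𝓝 x₂, x ∉ Exc U₀ F → (H x).re ≤ ∑ᶠ y ∈ goodIn U₀ F S x 0 R₂, κ (x, y)) ∧
      (∀ ε > 0, ∀ᶠ x in 𝓝 x₂, x ∉ Exc U₀ F →
        (∑ᶠ y ∈ goodIn U₀ F S x 0 R₂, κ (x, y)) - (H x).re ≤ ε) := by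
  classical
  -- choose a zero-free circle
  obtain ⟨R, hRR, hRsph⟩ : ∃ R, R₂ ≤ R ∧ ∀ y ∈ sphere (0:ℂ) R, F (x₂, y) ≠ 0 := by
    have hfin := (finite_zeros hF hx₂ hne 0 (R₂ + 1)).image (fun y : ℂ => ‖y‖)
    have hinf : (Icc R₂ (R₂ + 1)).Infinite := Icc_infinite (by linarith)
    obtain ⟨R, hR1, hR2⟩ := hinf.exists_notMem_finite hfin
    refine ⟨R, hR1.1, fun y hy h0 => hR2 ⟨y, ⟨?_, h0⟩, ?_⟩⟩
    · rw [mem_closedBall_zero_iff, mem_sphere_zero_iff_norm.1 hy]; exact hR1.2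
    · exact mem_sphere_zero_iff_norm.1 hy
  have hfin := finite_zeros hF hx₂ hne 0 R
  set Z := hfin.toFinset with hZ
  have hZmem : ∀ w, w ∈ Z ↔ w ∈ closedBall 0 R ∧ F (x₂, w) = 0 := by
    intro w; rw [hZ, Finite.mem_toFinset]; rfl
  have hZball : ∀ w ∈ Z, w ∈ ball (0:ℂ) R := by
    intro w hw
    have h1 := (hZmem w).1 hw
    by_contra hcon
    have : w ∈ sphere (0:ℂ) R := by
      rw [mem_sphere]
      exact le_antisymm (mem_closedBall.1 h1.1) (not_lt.1 (fun h => hcon (mem_ball.2 h)))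
    exact hRsph w this h1.2
  have hK2' : ∀ w ∈ Z, ∃ h : ℂ × ℂ → ℂ, AnalyticAt ℂ h (x₂, w) ∧
      (∀ᶠ p in 𝓝 (x₂, w), (h p).re ≤ κ p) ∧ (h (x₂, w)).re = κ (x₂, w) := fun w hw =>
    (hK2 w ((hZmem w).1 hw).2).2
  choose! h hhan hhle hheq using hK2'
  -- a uniform radius
  obtain ⟨η, hη, hη1, hη2, hη3⟩ : ∃ η > 0,
      (∀ w ∈ Z, (∀ p ∈ ball x₂ η ×ˢ ball w η, AnalyticAt ℂ (h w) p ∧ (h w p).re ≤ κ p ∧
        ‖h w p‖ ≤ ‖h w (x₂, w)‖ + 1)) ∧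
      (∀ w ∈ Z, closedBall w η ⊆ ball 0 R) ∧
      (∀ w ∈ Z, ∀ w' ∈ Z, w ≠ w' → 2 * η < dist w w') := by
    have h1 : ∀ᶠ ε in 𝓝[>] (0:ℝ), ∀ w ∈ Z, (∀ p ∈ ball x₂ ε ×ˢ ball w ε, AnalyticAt ℂ (h w) p ∧
        (h w p).re ≤ κ p ∧ ‖h w p‖ ≤ ‖h w (x₂, w)‖ + 1) := by
      rw [Filter.eventually_all_finset]
      intro w hw
      have e1 := (hhan w hw).eventually_analyticAt
      have e2 := hhle w hw
      have e3 : ∀ᶠ p in 𝓝 (x₂, w), ‖h w p‖ < ‖h w (x₂, w)‖ + 1 :=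
        (hhan w hw).continuousAt.norm.eventually_lt_const (by linarith)
      obtain ⟨ε₀, hε₀, hs⟩ := Metric.eventually_nhds_iff_ball.1 (e1.and (e2.and e3))
      filter_upwards [Ioo_mem_nhdsGT hε₀] with ε hε
      rintro ⟨x, y⟩ ⟨hx, hy⟩
      have : (x, y) ∈ ball (x₂, w) ε₀ := by
        rw [mem_ball, Prod.dist_eq]
        exact max_lt ((mem_ball.1 hx).trans hε.2) ((mem_ball.1 hy).trans hε.2)
      exact ⟨(hs _ this).1, (hs _ this).2.1, (hs _ this).2.2.le⟩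
    have h2 : ∀ᶠ ε in 𝓝[>] (0:ℝ), ∀ w ∈ Z, closedBall w ε ⊆ ball 0 R := by
      rw [Filter.eventually_all_finset]
      intro w hw
      obtain ⟨ε₀, hε₀, hs⟩ := Metric.isOpen_iff.1 isOpen_ball w (hZball w hw)
      filter_upwards [Ioo_mem_nhdsGT hε₀] with ε hε using (closedBall_subset_ball hε.2).trans hs
    have h3 : ∀ᶠ ε in 𝓝[>] (0:ℝ), ∀ w ∈ Z, ∀ w' ∈ Z, w ≠ w' → 2 * ε < dist w w' := by
      rw [Filter.eventually_all_finset]
      intro w hw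
      rw [Filter.eventually_all_finset]
      intro w' hw'
      by_cases hww : w = w'
      · exact Eventually.of_forall fun ε h => absurd hww h
      · have : 0 < dist w w' / 2 := by have := dist_pos.2 hww; linarith
        filter_upwards [Ioo_mem_nhdsGT this] with ε hε _
        have := hε.2
        linarith
    have h4 : ∀ᶠ ε in 𝓝[>] (0:ℝ), 0 < ε := self_mem_nhdsWithin
    obtain ⟨ε, h1, h2, h3, h4⟩ := (h1.and (h2.and (h3.and h4))).exists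
    exact ⟨ε, h4, h1, h2, h3⟩
  have honly : ∀ w ∈ Z, ∀ y ∈ closedBall w η, F (x₂, y) = 0 → y = w := by
    intro w hw y hy h0
    by_contra hne'
    have hyZ : y ∈ Z := (hZmem y).2 ⟨ball_subset_closedBall (hη2 w hw hy), h0⟩
    have h1 := hη3 y hyZ w hw hne'
    have h2 := mem_closedBall.1 hy
    linarith
  have hsph : ∀ w ∈ Z, ∀ y ∈ sphere w η, F (x₂, y) ≠ 0 := by
    intro w hw y hy h0
    have := honly w hw y (sphere_subset_closedBall hy) h0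
    subst this
    rw [mem_sphere, dist_self] at hy
    linarith
  have hsum : ∀ w ∈ Z, ∃ (δ₀ : ℝ) (N : ℕ), 0 < δ₀ ∧ ball x₂ δ₀ ⊆ U₀ ∧ (∀ x ∈ ball x₂ δ₀, ∃ y, F (x, y) ≠ 0) ∧
      (∀ x ∈ ball x₂ δ₀, ∀ y ∈ sphere w η, F (x, y) ≠ 0) ∧
      (∀ x ∈ ball x₂ δ₀, ∀ T : Finset ℂ, (∀ y ∈ T, y ∈ ball w η ∧ F (x, y) = 0) → T.card ≤ N) ∧
      ∀ δ ≤ δ₀, ∀ h : ℂ × ℂ → ℂ, (∀ p ∈ ball x₂ δ ×ˢ ball w η, F p = 0 → AnalyticAt ℂ h p) →
        (∃ M, ∀ p ∈ ball x₂ δ ×ˢ ball w η, F p = 0 → ‖h p‖ ≤ M) →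
        ∃ H : ℂ → ℂ, AnalyticOnNhd ℂ H (ball x₂ δ) ∧
          ∀ x ∈ ball x₂ δ \ Exc U₀ F, H x = ∑ᶠ y ∈ goodIn U₀ F S x w η, h (x, y) :=
    fun w hw => holo_sum hU₀ hF hS hx₂ hne (hsph w hw)
  choose! δ₀ N hδ₀ hδsub hA hB hC hD using hsum
  have hH : ∀ w ∈ Z, ∃ H : ℂ → ℂ, AnalyticOnNhd ℂ H (ball x₂ (min (δ₀ w) η)) ∧
      ∀ x ∈ ball x₂ (min (δ₀ w) η) \ Exc U₀ F, H x = ∑ᶠ y ∈ goodIn U₀ F S x w η, h w (x, y) := by
    intro w hw
    refine hD w hw (min (δ₀ w) η) (min_le_left _ _) (h w) ?_ ⟨‖h w (x₂, w)‖ + 1, ?_⟩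
    · rintro ⟨x, y⟩ ⟨hx, hy⟩ _
      exact (hη1 w hw (x, y) ⟨ball_subset_ball (min_le_right _ _) hx, hy⟩).1
    · rintro ⟨x, y⟩ ⟨hx, hy⟩ _
      exact (hη1 w hw (x, y) ⟨ball_subset_ball (min_le_right _ _) hx, hy⟩).2.2
  choose! H hHan hHeq using hH
  -- decomposition of the sum
  have hdec : ∀ᶠ x in 𝓝 x₂, ∀ f : ℂ → ℝ, (∀ y, R₂ ≤ ‖y‖ → f y = 0) →
      (∀ w ∈ Z, (goodIn U₀ F S x w η).Finite) ∧
      ∑ᶠ y ∈ goodIn U₀ F S x 0 R₂, f y =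
        ∑ w ∈ Z, ∑ᶠ y ∈ goodIn U₀ F S x w η, f y := by
    have e1 : ∀ᶠ x in 𝓝 x₂, ∀ y ∈ closedBall 0 R, F (x, y) = 0 →
      ∃ w ∈ closedBall 0 R, F (x₂, w) = 0 ∧ y ∈ ball w η := zeros_near hF hx₂ hη
    have e2 : ∀ᶠ x in 𝓝 x₂, ∃ y, F (x, y) ≠ 0 := by
      obtain ⟨y, hy⟩ := hne
      have h1 : ContinuousAt (fun x : ℂ => (x, y)) x₂ := by fun_prop
      have : ContinuousAt (fun x => F (x, y)) x₂ :=
        ContinuousAt.comp (g := F) (hF (x₂, y) ⟨hx₂, mem_univ _⟩).continuousAt h1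
      filter_upwards [this.eventually_ne hy] with x hx using ⟨y, hx⟩
    filter_upwards [e1, e2, hU₀.eventually_mem hx₂] with x hx1 hx2 hxU f hf
    have hfinx : ∀ w ∈ Z, (goodIn U₀ F S x w η).Finite := by
      intro w hw
      refine (finite_zeros hF hxU hx2 w η).subset ?_
      rintro y ⟨hy1, hy2⟩
      exact ⟨ball_subset_closedBall hy2, hy1.zero⟩
    refine ⟨hfinx, ?_⟩
    have s1 : ∑ᶠ y ∈ goodIn U₀ F S x 0 R₂, f y =
        ∑ᶠ y ∈ goodIn U₀ F S x 0 R, f y := by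
      apply finsum_mem_inter_support_eq
      ext y
      constructor
      · rintro ⟨⟨h1, h2⟩, h3⟩
        exact ⟨⟨h1, ball_subset_ball hRR h2⟩, h3⟩
      · rintro ⟨⟨h1, h2⟩, h3⟩
        refine ⟨⟨h1, ?_⟩, h3⟩
        rw [mem_ball_zero_iff]
        by_contra hcon
        exact h3 (hf y (not_lt.1 hcon))
    have s2 : goodIn U₀ F S x 0 R = ⋃ w ∈ (Z : Set ℂ), goodIn U₀ F S x w η := by
      ext y
      constructor
      · rintro ⟨h1, h2⟩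
        obtain ⟨w, hw1, hw2, hw3⟩ := hx1 y (ball_subset_closedBall h2) h1.zero
        exact mem_iUnion₂.2 ⟨w, (hZmem w).2 ⟨hw1, hw2⟩, h1, hw3⟩
      · intro h1
        obtain ⟨w, hw, h2, h3⟩ := mem_iUnion₂.1 h1
        exact ⟨h2, hη2 w hw (ball_subset_closedBall h3)⟩
    rw [s1, s2, finsum_mem_biUnion ?_ Z.finite_toSet (fun w hw => hfinx w hw), finsum_mem_coe_finset]
    intro w hw w' hw' hww
    rw [Function.onFun, Set.disjoint_left]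
    rintro y ⟨_, hy⟩ ⟨_, hy'⟩
    have h1 := hη3 w hw w' hw' hww
    have h2 := mem_ball.1 hy
    have h3 := mem_ball.1 hy'
    have h4 := dist_triangle_left w w' y
    linarith
  have hnear : ∀ᶠ x in 𝓝 x₂, ∀ w ∈ Z, x ∈ ball x₂ (min (δ₀ w) η) := by
    rw [Filter.eventually_all_finset]
    intro w hw
    exact isOpen_ball.eventually_mem (mem_ball_self (lt_min (hδ₀ w hw) hη))
  -- real part of a finite finsum
  have hre : ∀ (s : Set ℂ) (g : ℂ → ℂ), s.Finite → (∑ᶠ y ∈ s, g y).re = ∑ᶠ y ∈ s, (g y).re := by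
    intro s g hs
    rw [finsum_mem_eq_finite_toFinset_sum _ hs, finsum_mem_eq_finite_toFinset_sum _ hs, Complex.re_sum]
  refine ⟨fun x => ∑ w ∈ Z, H w x, ?_, ?_, ?_⟩
  · apply Finset.analyticAt_fun_sum
    intro w hw
    exact hHan w hw x₂ (mem_ball_self (lt_min (hδ₀ w hw) hη))
  · filter_upwards [hdec, hnear, hK1] with x hx1 hx2 hx3 hxE
    obtain ⟨hfinx, hx1'⟩ := hx1 (fun y => κ (x, y)) (fun y hy => hx3 y hy)
    rw [hx1', Complex.re_sum]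
    apply Finset.sum_le_sum
    intro w hw
    rw [hHeq w hw x ⟨hx2 w hw, hxE⟩, hre _ _ (hfinx w hw)]
    rw [finsum_mem_eq_finite_toFinset_sum _ (hfinx w hw), finsum_mem_eq_finite_toFinset_sum _ (hfinx w hw)]
    apply Finset.sum_le_sum
    intro y hy
    rw [Finite.mem_toFinset] at hy
    exact (hη1 w hw (x, y) ⟨ball_subset_ball (min_le_right _ _) (hx2 w hw), hy.2⟩).2.1
  · intro ε hε
    set Nt : ℝ := ∑ w ∈ Z, (N w : ℝ) with hNt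
    have hNt0 : 0 ≤ Nt := Finset.sum_nonneg fun w _ => Nat.cast_nonneg _
    set ε' : ℝ := ε / (Nt + 1) with hε'
    have hε'pos : 0 < ε' := by positivity
    have hclose : ∀ᶠ x in 𝓝 x₂, ∀ w ∈ Z, ∀ y ∈ ball w η, F (x, y) = 0 → κ (x, y) - (h w (x, y)).re ≤ ε' := by
      rw [Filter.eventually_all_finset]
      intro w hw
      have hc1 : ContinuousAt (fun p => κ p - (h w p).re) (x₂, w) :=
        (hK2 w ((hZmem w).1 hw).2).1.sub (Complex.continuous_re.continuousAt.comp (hhan w hw).continuousAt)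
      have e1 : ∀ᶠ p in 𝓝 (x₂, w), κ p - (h w p).re < ε' := by
        refine hc1.eventually_lt_const ?_
        show κ (x₂, w) - (h w (x₂, w)).re < ε'
        rw [hheq w hw]; simpa using hε'pos
      obtain ⟨ρ, hρ, hs⟩ := Metric.eventually_nhds_iff_ball.1 e1
      have e2 : ∀ᶠ x in 𝓝 x₂, ∀ y ∈ closedBall w η, F (x, y) = 0 →
        ∃ w' ∈ closedBall w η, F (x₂, w') = 0 ∧ y ∈ ball w' ρ := zeros_near hF hx₂ hρ
      filter_upwards [e2, isOpen_ball.eventually_mem (mem_ball_self hρ)] with x hx1 hx2 y hy h0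
      obtain ⟨w', hw'1, hw'2, hw'3⟩ := hx1 y (ball_subset_closedBall hy) h0
      have := honly w hw w' hw'1 hw'2
      subst this
      refine (hs (x, y) ?_).le
      rw [mem_ball, Prod.dist_eq]
      exact max_lt (mem_ball.1 hx2) (mem_ball.1 hw'3)
    filter_upwards [hdec, hnear, hK1, hclose] with x hx1 hx2 hx3 hx4 hxE
    obtain ⟨hfinx, hx1'⟩ := hx1 (fun y => κ (x, y)) (fun y hy => hx3 y hy)
    rw [hx1', Complex.re_sum, ← Finset.sum_sub_distrib]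
    have hb : ∀ w ∈ Z, (∑ᶠ y ∈ goodIn U₀ F S x w η, κ (x, y)) - (H w x).re ≤ N w * ε' := by
      intro w hw
      rw [hHeq w hw x ⟨hx2 w hw, hxE⟩, hre _ _ (hfinx w hw)]
      rw [finsum_mem_eq_finite_toFinset_sum _ (hfinx w hw), finsum_mem_eq_finite_toFinset_sum _ (hfinx w hw),
        ← Finset.sum_sub_distrib]
      have hle : ∀ y ∈ (hfinx w hw).toFinset, κ (x, y) - (h w (x, y)).re ≤ ε' := by
        intro y hy
        rw [Finite.mem_toFinset] at hy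
        exact hx4 w hw y hy.2 hy.1.zero
      refine (Finset.sum_le_card_nsmul _ _ _ hle).trans ?_
      rw [nsmul_eq_mul]
      have : ((hfinx w hw).toFinset.card : ℝ) ≤ N w := by
        exact_mod_cast hC w hw x (ball_subset_ball (min_le_left _ _) (hx2 w hw)) _ (fun y hy => by
          rw [Finite.mem_toFinset] at hy
          exact ⟨hy.2, hy.1.zero⟩)
      exact mul_le_mul_of_nonneg_right this hε'pos.le
    refine (Finset.sum_le_sum hb).trans ?_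
    rw [← Finset.sum_mul, ← hNt, hε']
    rw [mul_div_assoc', div_le_iff₀ (by positivity)]
    nlinarith



/-- Dyadic tail estimate. -/
lemma tail_aux {C : ℝ} (hC : 0 ≤ C) {ρ k : ℕ} (hk : ρ + 1 ≤ k) (n : ℕ) : ∀ (T : Finset ℂ) (R : ℝ), 1 ≤ R →
    (∀ y ∈ T, R ≤ ‖y‖ ∧ ‖y‖ < 2 ^ n * R) →
    (∀ R' ≥ R, ∀ T' ⊆ T, (∀ y ∈ T', ‖y‖ ≤ R') → (T'.card : ℝ) ≤ C * (1 + R') ^ ρ) →
    ∑ y ∈ T, (‖y‖⁻¹) ^ k ≤ 2 * C * 4 ^ ρ / R * (1 - (1 / 2) ^ n) := by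
  classical
  induction n with
  | zero =>
    intro T R hR hT _
    have : T = ∅ := by
      rw [Finset.eq_empty_iff_forall_notMem]
      intro y hy
      have := hT y hy
      simp only [pow_zero, one_mul] at this
      linarith [this.1, this.2]
    simp [this]
  | succ n ih =>
    intro T R hR hT hcard
    have hRpos : 0 < R := by linarith
    rw [← Finset.sum_filter_add_sum_filter_not T (fun y => ‖y‖ < 2 * R)]
    have h1 : ∑ y ∈ T.filter (fun y => ‖y‖ < 2 * R), (‖y‖⁻¹) ^ k ≤ C * 4 ^ ρ / R := by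
      have hb : ∀ y ∈ T.filter (fun y => ‖y‖ < 2 * R), (‖y‖⁻¹) ^ k ≤ (R⁻¹) ^ (ρ + 1) := by
        intro y hy
        have hy' := (Finset.mem_filter.1 hy).1
        have h2 := (hT y hy').1
        have h3 : ‖y‖⁻¹ ≤ R⁻¹ := inv_anti₀ hRpos h2
        have h4 : R⁻¹ ≤ 1 := inv_le_one_of_one_le₀ hR
        calc (‖y‖⁻¹) ^ k ≤ (R⁻¹) ^ k := by
              apply pow_le_pow_left₀ (by positivity) h3
          _ ≤ (R⁻¹) ^ (ρ + 1) := pow_le_pow_of_le_one (by positivity) h4 hk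
      refine (Finset.sum_le_card_nsmul _ _ _ hb).trans ?_
      rw [nsmul_eq_mul]
      have hc := hcard (2 * R) (by linarith) (T.filter (fun y => ‖y‖ < 2 * R)) (Finset.filter_subset _ _)
        (fun y hy => (Finset.mem_filter.1 hy).2.le)
      have h5 : (1 + 2 * R) ^ ρ ≤ (4 * R) ^ ρ := pow_le_pow_left₀ (by positivity) (by linarith) _
      calc ((T.filter (fun y => ‖y‖ < 2 * R)).card : ℝ) * (R⁻¹) ^ (ρ + 1)
          ≤ (C * (4 * R) ^ ρ) * (R⁻¹) ^ (ρ + 1) := by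
            apply mul_le_mul_of_nonneg_right _ (by positivity)
            exact hc.trans (mul_le_mul_of_nonneg_left h5 hC)
        _ = C * 4 ^ ρ / R := by
            rw [mul_pow, pow_succ, inv_pow]
            field_simp
    have h2 : ∑ y ∈ T.filter (fun y => ¬ ‖y‖ < 2 * R), (‖y‖⁻¹) ^ k ≤
        2 * C * 4 ^ ρ / (2 * R) * (1 - (1 / 2) ^ n) := by
      refine ih _ (2 * R) (by linarith) ?_ ?_
      · intro y hy
        obtain ⟨h3, h4⟩ := Finset.mem_filter.1 hy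
        refine ⟨not_lt.1 h4, ?_⟩
        have := (hT y h3).2
        rw [pow_succ] at this
        linarith
      · intro R' hR' T' hT' hb
        exact hcard R' (by linarith) T' (hT'.trans (Finset.filter_subset _ _)) hb
    have h3 : 2 * C * 4 ^ ρ / (2 * R) * (1 - (1 / 2) ^ n) + C * 4 ^ ρ / R =
        2 * C * 4 ^ ρ / R * (1 - (1 / 2) ^ (n + 1)) := by
      rw [pow_succ]
      field_simp
      ring
    linarith

lemma tail_bound {C : ℝ} (hC : 0 ≤ C) {ρ k : ℕ} (hk : ρ + 1 ≤ k) (T : Finset ℂ) {R : ℝ} (hR : 1 ≤ R)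
    (hT : ∀ y ∈ T, R ≤ ‖y‖)
    (hcard : ∀ R' ≥ R, ∀ T' ⊆ T, (∀ y ∈ T', ‖y‖ ≤ R') → (T'.card : ℝ) ≤ C * (1 + R') ^ ρ) :
    ∑ y ∈ T, (‖y‖⁻¹) ^ k ≤ 2 * C * 4 ^ ρ / R := by
  classical
  obtain ⟨n, hn⟩ : ∃ n : ℕ, ∀ y ∈ T, ‖y‖ < 2 ^ n * R := by
    obtain ⟨n, hn⟩ := pow_unbounded_of_one_lt (∑ y ∈ T, ‖y‖) (one_lt_two)
    refine ⟨n, fun y hy => ?_⟩
    have h1 : ‖y‖ ≤ ∑ y ∈ T, ‖y‖ := Finset.single_le_sum (f := fun y => ‖y‖) (fun _ _ => norm_nonneg _) hy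
    have h2 : (2:ℝ) ^ n ≤ 2 ^ n * R := le_mul_of_one_le_right (by positivity) hR
    linarith
  refine (tail_aux hC hk n T R hR (fun y hy => ⟨hT y hy, hn y hy⟩) hcard).trans ?_
  have h1 : 0 ≤ 2 * C * 4 ^ ρ / R := by positivity
  have h2 : (0:ℝ) ≤ (1 / 2) ^ n := by positivity
  nlinarith

/-- In an open set, the complement of a countable set is dense. -/
lemma subset_closure_diff {U E : Set ℂ} (hU : IsOpen U) (hE : E.Countable) : U ⊆ closure (U \ E) := by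
  intro x hx
  rw [mem_closure_iff_nhds]
  intro t ht
  have hd : Dense (Eᶜ) := hE.dense_compl ℝ
  obtain ⟨t', ht't, ht'o, hxt'⟩ := _root_.mem_nhds_iff.1 ht
  obtain ⟨y, hy1, hy2⟩ := hd.exists_mem_open (ht'o.inter hU) ⟨x, hxt', hx⟩
  exact ⟨y, ht't hy2.1, hy2.2, hy1⟩

/-- Uniform limits of functions which locally extend continuously. -/
lemma ext_lemma {U E : Set ℂ} (hU : IsOpen U) (hE : E.Countable) {f : ℝ → ℂ → ℂ} {D : ℝ} (hD : 0 ≤ D)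
    (hCau : ∀ x ∈ U \ E, ∀ R ≥ 1, ∀ R' ≥ R, ‖f R' x - f R x‖ ≤ D / R)
    (hloc : ∀ x₂ ∈ U, ∀ R₀, ∃ R ≥ R₀, ∃ H : ℂ → ℂ, ContinuousAt H x₂ ∧ ∀ᶠ x in 𝓝 x₂, x ∉ E → H x = f R x) :
    ∃ s : ℂ → ℂ, ContinuousOn s U ∧ ∀ x ∈ U \ E, ∀ R ≥ 1, ‖s x - f R x‖ ≤ D / R := by
  classical
  -- pointwise limits
  have hlim : ∀ x ∈ U \ E, ∃ l, Tendsto (fun n : ℕ => f n x) atTop (𝓝 l) := by
    intro x hx
    apply cauchySeq_tendsto_of_complete
    rw [Metric.cauchySeq_iff']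
    intro ε hε
    obtain ⟨N, hN⟩ := exists_nat_gt (D / ε + 1)
    have hN1 : (1:ℝ) ≤ N := by
      have : 0 ≤ D / ε := by positivity
      linarith
    have hNpos : (0:ℝ) < N := by linarith
    refine ⟨N, fun n hn => ?_⟩
    have h1 := hCau x hx N hN1 n (by exact_mod_cast hn)
    rw [dist_eq_norm]
    refine lt_of_le_of_lt h1 ?_
    rw [div_lt_iff₀ hNpos]
    have : D / ε < N := by linarith
    rw [div_lt_iff₀ hε] at this
    linarith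
  choose! s₀ hs₀ using hlim
  have hs₀b : ∀ x ∈ U \ E, ∀ R ≥ 1, ‖s₀ x - f R x‖ ≤ D / R := by
    intro x hx R hR
    have h1 : Tendsto (fun n : ℕ => ‖f n x - f R x‖) atTop (𝓝 ‖s₀ x - f R x‖) :=
      ((hs₀ x hx).sub_const _).norm
    refine le_of_tendsto h1 ?_
    obtain ⟨N, hN⟩ := exists_nat_gt R
    filter_upwards [eventually_ge_atTop N] with n hn
    exact hCau x hx R hR n (le_trans hN.le (by exact_mod_cast hn))
  have hUc : U ⊆ closure (U \ E) := subset_closure_diff hU hE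
  have hNB : ∀ x ∈ U, (𝓝[U \ E] x).NeBot := fun x hx => mem_closure_iff_nhdsWithin_neBot.1 (hUc hx)
  -- limits at all points
  have hlim2 : ∀ x₂ ∈ U, ∃ l, Tendsto s₀ (𝓝[U \ E] x₂) (𝓝 l) := by
    intro x₂ hx₂
    have := hNB x₂ hx₂
    rw [← cauchy_map_iff_exists_tendsto, Metric.cauchy_iff]
    refine ⟨inferInstance, fun ε hε => ?_⟩
    obtain ⟨R, hR, H, hH, hHf⟩ := hloc x₂ hx₂ (max 1 (4 * D / ε + 1))
    have hR1 : 1 ≤ R := (le_max_left _ _).trans hR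
    have hR2 : 4 * D / ε + 1 ≤ R := (le_max_right _ _).trans hR
    have hRpos : 0 < R := by linarith
    have hDR : D / R < ε / 4 := by
      rw [div_lt_iff₀ hRpos]
      have : 4 * D / ε < R := by linarith
      rw [div_lt_iff₀ hε] at this
      linarith
    obtain ⟨δ, hδ, hδs⟩ := Metric.continuousAt_iff.1 hH (ε / 4) (by positivity)
    refine ⟨s₀ '' {x | (x ∈ U \ E) ∧ x ∈ ball x₂ δ ∧ (x ∉ E → H x = f R x)}, ?_, ?_⟩
    · rw [mem_map]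
      filter_upwards [self_mem_nhdsWithin, mem_nhdsWithin_of_mem_nhds (ball_mem_nhds x₂ hδ),
        mem_nhdsWithin_of_mem_nhds hHf] with x h1 h2 h3
      exact ⟨x, ⟨h1, h2, h3⟩, rfl⟩
    · rintro _ ⟨x, ⟨hx1, hx2, hx3⟩, rfl⟩ _ ⟨y, ⟨hy1, hy2, hy3⟩, rfl⟩
      have a1 := hs₀b x hx1 R hR1
      have a2 := hs₀b y hy1 R hR1
      rw [← hx3 hx1.2] at a1
      rw [← hy3 hy1.2] at a2
      have a3 := hδs (mem_ball.1 hx2)
      have a4 := hδs (mem_ball.1 hy2)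
      rw [← dist_eq_norm] at a1 a2
      have a5 := dist_triangle4 (s₀ x) (H x) (H y) (s₀ y)
      have a6 := dist_triangle_right (H x) (H y) (H x₂)
      rw [dist_comm (s₀ y)] at a2
      linarith
  refine ⟨extendFrom (U \ E) s₀, continuousOn_extendFrom hUc hlim2, ?_⟩
  intro x hx R hR
  have hval : extendFrom (U \ E) s₀ x = s₀ x := by
    have := hNB x hx.1
    obtain ⟨l, hl⟩ := hlim2 x hx.1
    have h1 : l = s₀ x := by
      have h2 : Tendsto s₀ (pure x) (𝓝 l) := hl.mono_left (pure_le_nhdsWithin hx)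
      exact (tendsto_nhds_unique h2 (tendsto_pure_nhds s₀ x))
    rw [extendFrom_eq (hUc hx.1) hl, h1]
  rw [hval]
  exact hs₀b x hx R hR

/-- Viscosity extension. -/
lemma visc_ext {V E : Set ℂ} (hV : IsOpen V) (hE : E.Countable) {Ψ₀ : ℂ → ℝ}
    (h : ∀ x₂ ∈ V, ∃ H : ℂ → ℂ, AnalyticAt ℂ H x₂ ∧ (∀ᶠ x in 𝓝 x₂, x ∉ E → (H x).re ≤ Ψ₀ x) ∧
      ∀ ε > 0, ∀ᶠ x in 𝓝 x₂, x ∉ E → Ψ₀ x - (H x).re ≤ ε) :
    ∃ Ψ : ℂ → ℝ, ContinuousOn Ψ V ∧ (∀ x ∈ V \ E, Ψ x = Ψ₀ x) ∧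
      ∀ x₂ ∈ V, ∃ H : ℂ → ℂ, AnalyticAt ℂ H x₂ ∧ (∀ᶠ x in 𝓝 x₂, (H x).re ≤ Ψ x) ∧ (H x₂).re = Ψ x₂ := by
  classical
  have hVc : V ⊆ closure (V \ E) := subset_closure_diff hV hE
  have hNB : ∀ x ∈ V, (𝓝[V \ E] x).NeBot := fun x hx => mem_closure_iff_nhdsWithin_neBot.1 (hVc hx)
  have hlim : ∀ x₂ ∈ V, ∀ H : ℂ → ℂ, AnalyticAt ℂ H x₂ → (∀ᶠ x in 𝓝 x₂, x ∉ E → (H x).re ≤ Ψ₀ x) →
      (∀ ε > 0, ∀ᶠ x in 𝓝 x₂, x ∉ E → Ψ₀ x - (H x).re ≤ ε) → Tendsto Ψ₀ (𝓝[V \ E] x₂) (𝓝 (H x₂).re) := by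
    intro x₂ hx₂ H h1 h2 h3
    rw [Metric.tendsto_nhds]
    intro ε hε
    have hc : ContinuousAt (fun x => (H x).re) x₂ := Complex.continuous_re.continuousAt.comp h1.continuousAt
    have hc' := Metric.tendsto_nhds.1 hc (ε / 2) (by positivity)
    filter_upwards [self_mem_nhdsWithin, mem_nhdsWithin_of_mem_nhds h2,
      mem_nhdsWithin_of_mem_nhds (h3 (ε / 2 / 2) (by positivity)), mem_nhdsWithin_of_mem_nhds hc'] with x a1 a2 a3 a4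
    have b2 := a2 a1.2
    have b3 := a3 a1.2
    rw [Real.dist_eq, abs_lt] at a4 ⊢
    constructor <;> linarith [a4.1, a4.2]
  have hex : ∀ x₂ ∈ V, ∃ l, Tendsto Ψ₀ (𝓝[V \ E] x₂) (𝓝 l) := by
    intro x₂ hx₂
    obtain ⟨H, h1, h2, h3⟩ := h x₂ hx₂
    exact ⟨_, hlim x₂ hx₂ H h1 h2 h3⟩
  refine ⟨extendFrom (V \ E) Ψ₀, continuousOn_extendFrom hVc hex, ?_, ?_⟩
  · intro x hx
    have := hNB x hx.1
    obtain ⟨l, hl⟩ := hex x hx.1
    have h1 : l = Ψ₀ x := by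
      have h2 : Tendsto Ψ₀ (pure x) (𝓝 l) := hl.mono_left (pure_le_nhdsWithin hx)
      exact (tendsto_nhds_unique h2 (tendsto_pure_nhds Ψ₀ x))
    rw [extendFrom_eq (hVc hx.1) hl, h1]
  · intro x₂ hx₂
    obtain ⟨H, h1, h2, h3⟩ := h x₂ hx₂
    refine ⟨H, h1, ?_, (extendFrom_eq (hVc hx₂) (hlim x₂ hx₂ H h1 h2 h3)).symm⟩
    have h4 : ∀ᶠ x in 𝓝 x₂, ∀ᶠ x' in 𝓝 x, x' ∉ E → (H x').re ≤ Ψ₀ x' := eventually_eventually_nhds.2 h2
    filter_upwards [h4, hV.eventually_mem hx₂, h1.eventually_analyticAt] with x a1 a2 a3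
    have := hNB x a2
    obtain ⟨l, hl⟩ := hex x a2
    rw [extendFrom_eq (hVc a2) hl]
    have hc : Tendsto (fun x => (H x).re) (𝓝[V \ E] x) (𝓝 (H x).re) :=
      (Complex.continuous_re.continuousAt.comp a3.continuousAt).mono_left nhdsWithin_le_nhds
    refine le_of_tendsto_of_tendsto hc hl ?_
    filter_upwards [self_mem_nhdsWithin, mem_nhdsWithin_of_mem_nhds a1] with x' b1 b2
    exact b2 b1.2


end Pool.Agent.Helper23.QM
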