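import Mathlib
import Pool.Agent.Helper23.QMc

set_option autoImplicit false

open Set Metric Filter Topology

namespace Pool.Agent.Helper23.QM

/-- Local normalisation: over `U` the function `F(x, ·)` has no zero of norm `< r₀` and at most
`C (1 + R) ^ ρ` zeros of norm at most `R`. -/
structure Loc (U₀ U : Set ℂ) (F : ℂ × ℂ → ℂ) (r₀ C : ℝ) (ρ : ℕ) : Prop where
  hU₀ : IsOpen U₀
  hU : IsOpen U
  sub : U ⊆ U₀
  an : AnalyticOnNhd ℂ F (U₀ ×ˢ univ)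
  r₀pos : 0 < r₀
  Cnn : 0 ≤ C
  nz : ∀ x ∈ U, ∀ y, ‖y‖ < r₀ → F (x, y) ≠ 0
  card : ∀ x ∈ U, ∀ R ≥ 1, ∀ T : Finset ℂ, (∀ y ∈ T, ‖y‖ ≤ R ∧ F (x, y) = 0) →
    (T.card : ℝ) ≤ C * (1 + R) ^ ρ

/-- Truncated power sums over the good zeros. -/
noncomputable def psum (U₀ : Set ℂ) (F : ℂ × ℂ → ℂ) (S : Set (ℂ × ℂ)) (k : ℕ) (R : ℝ) (x : ℂ) : ℂ :=
  ∑ᶠ y ∈ goodIn U₀ F S x 0 R, (y⁻¹) ^ k

section PartI

variable {U₀ U : Set ℂ} {F : ℂ × ℂ → ℂ} {S : Set (ℂ × ℂ)} {r₀ C : ℝ} {ρ : ℕ}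

lemma Loc.ne (hL : Loc U₀ U F r₀ C ρ) {x : ℂ} (hx : x ∈ U) : ∃ y, F (x, y) ≠ 0 :=
  ⟨0, hL.nz x hx 0 (by simpa using hL.r₀pos)⟩

lemma Loc.exc_countable (hL : Loc U₀ U F r₀ C ρ) : (Exc U₀ F ∩ U).Countable := by
  refine ((sing_countable hL.hU₀ hL.an).image Prod.fst).mono ?_
  rintro x ⟨⟨hxU, hx⟩, hxU'⟩
  rcases hx with h | ⟨y, h0, hreg⟩
  · obtain ⟨y, hy⟩ := hL.ne hxU'
    exact absurd (h y) hy
  · exact ⟨(x, y), ⟨hxU, h0, hL.ne hxU', hreg⟩, rfl⟩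

lemma Loc.goodIn_finite (hL : Loc U₀ U F r₀ C ρ) {x : ℂ} (hx : x ∈ U) (R : ℝ) :
    (goodIn U₀ F S x 0 R).Finite :=
  QM.goodIn_finite hL.an (hL.sub hx) (hL.ne hx) 0 R

lemma Loc.norm_ge (hL : Loc U₀ U F r₀ C ρ) {x y : ℂ} (hx : x ∈ U) (h : F (x, y) = 0) : r₀ ≤ ‖y‖ := by
  by_contra hcon
  exact hL.nz x hx y (not_le.1 hcon) h

/-- The total sum of `‖y‖ ^ (-k)` over all zeros is bounded. -/
lemma Loc.total (hL : Loc U₀ U F r₀ C ρ) {x : ℂ} (hx : x ∈ U) {k : ℕ} (hk : ρ + 1 ≤ k) (T : Finset ℂ)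
    (hT : ∀ y ∈ T, F (x, y) = 0) :
    ∑ y ∈ T, (‖y‖⁻¹) ^ k ≤ C * 2 ^ ρ * (r₀⁻¹) ^ k + 2 * C * 4 ^ ρ := by
  classical
  rw [← Finset.sum_filter_add_sum_filter_not T (fun y => ‖y‖ < 1)]
  have hr := hL.r₀pos
  have hC := hL.Cnn
  apply add_le_add
  · have hb : ∀ y ∈ T.filter (fun y => ‖y‖ < 1), (‖y‖⁻¹) ^ k ≤ (r₀⁻¹) ^ k := by
      intro y hy
      have hy' := (Finset.mem_filter.1 hy).1
      exact pow_le_pow_left₀ (by positivity) (inv_anti₀ hr (hL.norm_ge hx (hT y hy'))) _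
    refine (Finset.sum_le_card_nsmul _ _ _ hb).trans ?_
    rw [nsmul_eq_mul]
    have := hL.card x hx 1 le_rfl (T.filter (fun y => ‖y‖ < 1)) (fun y hy => by
      obtain ⟨h1, h2⟩ := Finset.mem_filter.1 hy
      exact ⟨h2.le, hT y h1⟩)
    have h2 : (1 + 1 : ℝ) = 2 := by norm_num
    rw [h2] at this
    exact mul_le_mul_of_nonneg_right this (by positivity)
  · have := tail_bound hC hk (T.filter (fun y => ¬ ‖y‖ < 1)) le_rfl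
      (fun y hy => not_lt.1 (Finset.mem_filter.1 hy).2) (fun R' hR' T' hT' hb => by
        refine hL.card x hx R' hR' T' (fun y hy => ⟨hb y hy, ?_⟩)
        exact hT y (Finset.mem_filter.1 (hT' hy)).1)
    simpa using this

lemma Loc.psum_cauchy (hL : Loc U₀ U F r₀ C ρ) {k : ℕ} (hk : ρ + 1 ≤ k) {x : ℂ} (hx : x ∈ U) {R R' : ℝ}
    (hR : 1 ≤ R) (hR' : R ≤ R') :
    ‖psum U₀ F S k R' x - psum U₀ F S k R x‖ ≤ 2 * C * 4 ^ ρ / R := by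
  classical
  have h1 := hL.goodIn_finite (S := S) hx R
  have h2 := hL.goodIn_finite (S := S) hx R'
  have hsub : h1.toFinset ⊆ h2.toFinset := by
    intro y hy
    rw [Finite.mem_toFinset] at hy ⊢
    exact ⟨hy.1, ball_subset_ball hR' hy.2⟩
  rw [psum, psum, finsum_mem_eq_finite_toFinset_sum _ h1, finsum_mem_eq_finite_toFinset_sum _ h2,
    ← Finset.sum_sdiff hsub, add_sub_cancel_right]
  refine (norm_sum_le _ _).trans ?_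
  have h3 : ∀ y ∈ h2.toFinset \ h1.toFinset, R ≤ ‖y‖ := by
    intro y hy
    rw [Finset.mem_sdiff, Finite.mem_toFinset, Finite.mem_toFinset] at hy
    by_contra hcon
    exact hy.2 ⟨hy.1.1, mem_ball_zero_iff.2 (not_le.1 hcon)⟩
  have h4 := tail_bound hL.Cnn hk (h2.toFinset \ h1.toFinset) hR h3 (fun R'' hR'' T' hT' hb => by
    refine hL.card x hx R'' (hR.trans hR'') T' (fun y hy => ⟨hb y hy, ?_⟩)
    have := Finset.mem_sdiff.1 (hT' hy)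
    rw [Finite.mem_toFinset] at this
    exact this.1.1.zero)
  refine le_trans (le_of_eq ?_) h4
  apply Finset.sum_congr rfl
  intro y _
  rw [norm_pow, norm_inv]

/-- zero-free circles of arbitrarily large radius -/
lemma exists_radius (hF : AnalyticOnNhd ℂ F (U₀ ×ˢ univ)) {x₂ : ℂ} (hx₂ : x₂ ∈ U₀)
    (hne : ∃ y, F (x₂, y) ≠ 0) (R₀ : ℝ) : ∃ R, R₀ ≤ R ∧ ∀ y ∈ sphere (0:ℂ) R, F (x₂, y) ≠ 0 := by
  have hfin := (finite_zeros hF hx₂ hne 0 (R₀ + 1)).image (fun y : ℂ => ‖y‖)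
  have hinf : (Icc R₀ (R₀ + 1)).Infinite := Icc_infinite (by linarith)
  obtain ⟨R, hR1, hR2⟩ := hinf.exists_notMem_finite hfin
  refine ⟨R, hR1.1, fun y hy h0 => hR2 ⟨y, ⟨?_, h0⟩, ?_⟩⟩
  · rw [mem_closedBall_zero_iff, mem_sphere_zero_iff_norm.1 hy]; exact hR1.2
  · exact mem_sphere_zero_iff_norm.1 hy

lemma Loc.limit (hL : Loc U₀ U F r₀ C ρ) (hS : BD U₀ S) {k : ℕ} (hk : ρ + 1 ≤ k) :
    ∃ s : ℂ → ℂ, ContinuousOn s U ∧ ∀ x ∈ U, x ∉ Exc U₀ F → ∀ R ≥ 1,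
      ‖s x - psum U₀ F S k R x‖ ≤ 2 * C * 4 ^ ρ / R := by
  have hC := hL.Cnn
  obtain ⟨s, hs1, hs2⟩ := ext_lemma (U := U) (E := Exc U₀ F ∩ U) hL.hU hL.exc_countable
    (f := fun R x => psum U₀ F S k R x) (D := 2 * C * 4 ^ ρ) (by positivity)
    (fun x hx R hR R' hR' => hL.psum_cauchy hk hx.1 hR hR') (by
      intro x₂ hx₂ R₀
      obtain ⟨R, hR, hsph⟩ := exists_radius hL.an (hL.sub hx₂) (hL.ne hx₂) R₀
      obtain ⟨δ₀, N, hδ₀, hsub, h1, h2, h3, h4⟩ := holo_sum hL.hU₀ hL.an hS (hL.sub hx₂) (hL.ne hx₂) hsph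
      obtain ⟨δ₁, hδ₁, hδ₁s⟩ := Metric.isOpen_iff.1 hL.hU x₂ hx₂
      obtain ⟨H, hH1, hH2⟩ := h4 (min δ₀ δ₁) (min_le_left _ _) (fun p => (p.2⁻¹) ^ k) (by
        rintro ⟨x, y⟩ ⟨hx, _⟩ h0
        have hy : r₀ ≤ ‖y‖ := hL.norm_ge (hδ₁s (ball_subset_ball (min_le_right _ _) hx)) h0
        have hy0 : y ≠ 0 := norm_pos_iff.1 (lt_of_lt_of_le hL.r₀pos hy)
        exact (analyticAt_snd.inv hy0).pow k) ⟨(r₀⁻¹) ^ k, by
        rintro ⟨x, y⟩ ⟨hx, _⟩ h0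
        have hy : r₀ ≤ ‖y‖ := hL.norm_ge (hδ₁s (ball_subset_ball (min_le_right _ _) hx)) h0
        rw [norm_pow, norm_inv]
        exact pow_le_pow_left₀ (by positivity) (inv_anti₀ hL.r₀pos hy) _⟩
      refine ⟨R, hR, H, (hH1 x₂ (mem_ball_self (lt_min hδ₀ hδ₁))).continuousAt, ?_⟩
      filter_upwards [isOpen_ball.eventually_mem (mem_ball_self (lt_min hδ₀ hδ₁))] with x hx hxE
      refine hH2 x ⟨hx, fun h => hxE ⟨h, ?_⟩⟩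
      exact hδ₁s (ball_subset_ball (min_le_right _ _) hx))
  refine ⟨s, hs1, fun x hx hxE R hR => hs2 x ⟨hx, fun h => hxE h.1⟩ R hR⟩

end PartI

end Pool.Agent.Helper23.QM
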