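import Mathlib
import Pool.Agent.Helper23.QMd

set_option autoImplicit false

open Set Metric Filter Topology

namespace Pool.Agent.Helper23.QM

section PartJ

variable {U₀ U : Set ℂ} {F : ℂ × ℂ → ℂ} {S : Set (ℂ × ℂ)} {r₀ C : ℝ} {ρ : ℕ}

/-- bounds pass from a dense subset -/
lemma le_of_dense {V E : Set ℂ} (hV : IsOpen V) (hE : E.Countable) {g : ℂ → ℝ} (hg : ContinuousOn g V)
    {B : ℝ} (hb : ∀ x ∈ V \ E, g x ≤ B) : ∀ x ∈ V, g x ≤ B := by
  intro x hx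
  have : (𝓝[V \ E] x).NeBot := mem_closure_iff_nhdsWithin_neBot.1 (subset_closure_diff hV hE hx)
  have h1 : Tendsto g (𝓝[V \ E] x) (𝓝 (g x)) := (hg x hx).mono_left (nhdsWithin_mono _ sdiff_subset)
  refine le_of_tendsto h1 ?_
  filter_upwards [self_mem_nhdsWithin] with y hy using hb y hy

/-- the elementary inequality `2 Re (conj c z) - |c|^2 ≤ |z|^2` -/
lemma quad_le (c z : ℂ) : 2 * ((starRingEnd ℂ) c * z).re - ‖c‖ ^ 2 ≤ ‖z‖ ^ 2 := by
  have h : 0 ≤ ‖z - c‖ ^ 2 := by positivity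
  have e1 : ‖z - c‖ ^ 2 = (z.re - c.re) ^ 2 + (z.im - c.im) ^ 2 := by
    rw [← Complex.normSq_eq_norm_sq, Complex.normSq_apply]; simp; ring
  have e2 : ‖z‖ ^ 2 = z.re ^ 2 + z.im ^ 2 := by
    rw [← Complex.normSq_eq_norm_sq, Complex.normSq_apply]; ring
  have e3 : ‖c‖ ^ 2 = c.re ^ 2 + c.im ^ 2 := by
    rw [← Complex.normSq_eq_norm_sq, Complex.normSq_apply]; ring
  have e4 : ((starRingEnd ℂ) c * z).re = c.re * z.re + c.im * z.im := by
    simp [Complex.mul_re]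
  rw [e2, e3, e4]
  rw [e1] at h
  nlinarith

lemma quad_eq (c : ℂ) : 2 * ((starRingEnd ℂ) c * c).re - ‖c‖ ^ 2 = ‖c‖ ^ 2 := by
  have e3 : ‖c‖ ^ 2 = c.re ^ 2 + c.im ^ 2 := by
    rw [← Complex.normSq_eq_norm_sq, Complex.normSq_apply]; ring
  have e4 : ((starRingEnd ℂ) c * c).re = c.re * c.re + c.im * c.im := by
    simp [Complex.mul_re]
  rw [e3, e4]; ring

theorem Loc.mp (hL : Loc U₀ U F r₀ C ρ) (hS : BD U₀ S) {k : ℕ} (hk : 2 * ρ + 3 ≤ k) {s : ℂ → ℂ}
    (hs : ContinuousOn s U) {D : ℝ} (hD : 0 ≤ D) (hsp : ∀ x ∈ U, x ∉ Exc U₀ F → ∀ R ≥ 1,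
      ‖s x - psum U₀ F S k R x‖ ≤ D / R) : MPc U s := by
  classical
  intro c r hr hsub a b ha hb M hM
  have hC := hL.Cnn
  have hr₀ := hL.r₀pos
  set q := ρ + 1 with hq
  set K₀ : ℝ := C * 2 ^ ρ * (r₀⁻¹) ^ (2 * q) + 2 * C * 4 ^ ρ with hK₀
  have hK₀nn : 0 ≤ K₀ := by positivity
  set K : ℝ := K₀ + (3 / 2) * (C * 2 ^ ρ) with hK
  have hKnn : 0 ≤ K := by positivity
  -- a slightly larger disc
  obtain ⟨r', hrr', hsub', ha'⟩ : ∃ r' > r, closedBall c r' ⊆ U ∧ AnalyticOnNhd ℂ a (closedBall c r') := by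
    have hopen : IsOpen (U ∩ {x | AnalyticAt ℂ a x}) := hL.hU.inter (isOpen_analyticAt ℂ a)
    obtain ⟨δ, hδ, hδs⟩ := (isCompact_closedBall c r).exists_cthickening_subset_open hopen
      (fun x hx => ⟨hsub hx, ha x hx⟩)
    rw [cthickening_closedBall hδ.le hr.le] at hδs
    exact ⟨δ + r, by linarith, fun x hx => (hδs hx).1, fun x hx => (hδs hx).2⟩
  obtain ⟨A, hA0, hA⟩ : ∃ A : ℝ, 0 ≤ A ∧ ∀ x ∈ closedBall c r', ‖a x‖ ≤ A := by
    obtain ⟨A, hA⟩ := (isCompact_closedBall c r').exists_bound_of_continuousOn ha'.continuousOn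
    exact ⟨max A 0, le_max_right _ _, fun x hx => (hA x hx).trans (le_max_left _ _)⟩
  set E : Set ℂ := Exc U₀ F ∩ U with hE
  have hEc : E.Countable := hL.exc_countable
  -- main estimate
  suffices main : ∀ ε > 0, ∀ x ∈ closedBall c r, (a x * s x + b x).re ≤ M + 2 * (ε * (K + 1)) by
    intro x hx
    refine le_of_forall_pos_le_add fun ε hε => ?_
    have := main (ε / (2 * (K + 1))) (by positivity) x hx
    have e : 2 * (ε / (2 * (K + 1)) * (K + 1)) = ε := by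
      have : K + 1 ≠ 0 := by positivity
      field_simp
    rwa [e] at this
  intro ε hε
  set R₁ : ℝ := max 1 (2 * A / ε) with hR₁
  have hR₁1 : 1 ≤ R₁ := le_max_left _ _
  have hR₁A : 2 * A / ε ≤ R₁ := le_max_right _ _
  set R₂ : ℝ := max (4 * R₁) (A * D / ε) with hR₂
  have hR₂1 : 4 * R₁ ≤ R₂ := le_max_left _ _
  have hR₂D : A * D / ε ≤ R₂ := le_max_right _ _
  have hR₁pos : 0 < R₁ := by linarith
  have hR₂pos : 0 < R₂ := by linarith
  set θ : ℝ := (3 * ε / 2) * (R₂⁻¹) ^ (2 * q) with hθ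
  have hθnn : 0 ≤ θ := by positivity
  set lam : ℂ × ℂ → ℝ := fun p => (a p.1 * (p.2⁻¹) ^ k).re + ε * (‖p.2‖⁻¹) ^ (2 * q) with hlam
  set κ : ℂ × ℂ → ℝ := fun p => if ‖p.2‖ < 2 * R₁ then lam p - θ else max (lam p - θ) 0 with hκ
  -- bound of the first term of lam
  have hbnd : ∀ x ∈ closedBall c r', ∀ w : ℂ, R₁ ≤ ‖w‖ →
      |(a x * (w⁻¹) ^ k).re| ≤ (ε / 2) * (‖w‖⁻¹) ^ (2 * q) := by
    intro x hx w hw
    have hwpos : 0 < ‖w‖ := by linarith
    have hw1 : ‖w‖⁻¹ ≤ 1 := inv_le_one_of_one_le₀ (by linarith)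
    refine (Complex.abs_re_le_norm _).trans ?_
    rw [norm_mul, norm_pow, norm_inv]
    have h1 : (‖w‖⁻¹) ^ k ≤ (‖w‖⁻¹) ^ (2 * q + 1) := pow_le_pow_of_le_one (by positivity) hw1 (by omega)
    have h2 : A * ‖w‖⁻¹ ≤ ε / 2 := by
      rw [← div_eq_mul_inv, div_le_iff₀ hwpos]
      rw [div_le_iff₀ hε] at hR₁A
      nlinarith
    calc ‖a x‖ * (‖w‖⁻¹) ^ k ≤ A * (‖w‖⁻¹) ^ (2 * q + 1) :=
          mul_le_mul (hA x hx) h1 (by positivity) hA0
      _ = (A * ‖w‖⁻¹) * (‖w‖⁻¹) ^ (2 * q) := by rw [pow_succ]; ring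
      _ ≤ (ε / 2) * (‖w‖⁻¹) ^ (2 * q) := mul_le_mul_of_nonneg_right h2 (by positivity)
  have hlam_up : ∀ x ∈ closedBall c r', ∀ w : ℂ, R₁ ≤ ‖w‖ → lam (x, w) ≤ (3 * ε / 2) * (‖w‖⁻¹) ^ (2 * q) := by
    intro x hx w hw
    have := (abs_le.1 (hbnd x hx w hw)).2
    simp only [hlam]
    linarith
  have hlam_lo : ∀ x ∈ closedBall c r', ∀ w : ℂ, R₁ ≤ ‖w‖ → (ε / 2) * (‖w‖⁻¹) ^ (2 * q) ≤ lam (x, w) := by
    intro x hx w hw
    have := (abs_le.1 (hbnd x hx w hw)).1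
    simp only [hlam]
    linarith
  have hF2 : ∀ x ∈ closedBall c r', ∀ w : ℂ, R₂ ≤ ‖w‖ → lam (x, w) ≤ θ := by
    intro x hx w hw
    refine (hlam_up x hx w (by linarith)).trans ?_
    rw [hθ]
    have : ‖w‖⁻¹ ≤ R₂⁻¹ := inv_anti₀ hR₂pos hw
    have := pow_le_pow_left₀ (by positivity) this (2 * q)
    exact mul_le_mul_of_nonneg_left this (by positivity)
  have hF3 : ∀ x ∈ closedBall c r', ∀ w : ℂ, R₁ ≤ ‖w‖ → ‖w‖ < 2 * R₁ → 0 ≤ lam (x, w) - θ := by
    intro x hx w hw1 hw2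
    have h1 := hlam_lo x hx w hw1
    have hwpos : 0 < ‖w‖ := by linarith
    have h2 : ((2 * R₁)⁻¹) ^ (2 * q) ≤ (‖w‖⁻¹) ^ (2 * q) :=
      pow_le_pow_left₀ (by positivity) (inv_anti₀ hwpos hw2.le) _
    have h3 : (R₂⁻¹) ^ (2 * q) ≤ ((4 * R₁)⁻¹) ^ (2 * q) :=
      pow_le_pow_left₀ (by positivity) (inv_anti₀ (by positivity) hR₂1) _
    have h4 : ((4 * R₁)⁻¹) ^ (2 * q) = (1 / 2) ^ (2 * q) * ((2 * R₁)⁻¹) ^ (2 * q) := by
      rw [← mul_pow]; congr 1; field_simp; norm_num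
    have h5 : (1 / 2 : ℝ) ^ (2 * q) ≤ 1 / 4 := by
      calc (1 / 2 : ℝ) ^ (2 * q) ≤ (1 / 2) ^ 2 := pow_le_pow_of_le_one (by norm_num) (by norm_num) (by omega)
        _ = 1 / 4 := by norm_num
    have h6 : 0 ≤ ((2 * R₁)⁻¹) ^ (2 * q) := by positivity
    have h7 : (R₂⁻¹) ^ (2 * q) ≤ (1 / 4) * ((2 * R₁)⁻¹) ^ (2 * q) := by
      rw [h4] at h3
      exact h3.trans (mul_le_mul_of_nonneg_right h5 h6)
    have h8 : θ ≤ (3 * ε / 2) * ((1 / 4) * ((2 * R₁)⁻¹) ^ (2 * q)) :=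
      mul_le_mul_of_nonneg_left h7 (by positivity)
    have h9 : (ε / 2) * ((2 * R₁)⁻¹) ^ (2 * q) ≤ (ε / 2) * (‖w‖⁻¹) ^ (2 * q) :=
      mul_le_mul_of_nonneg_left h2 (by positivity)
    nlinarith
  set V : Set ℂ := ball c r' with hV
  have hVU : V ⊆ U := ball_subset_closedBall.trans hsub'
  have hVcl : ∀ x ∈ V, x ∈ closedBall c r' := fun x hx => ball_subset_closedBall hx
  set Ψ₀ : ℂ → ℝ := fun x => ∑ᶠ y ∈ goodIn U₀ F S x 0 R₂, κ (x, y) with hΨ₀
  -- the viscosity property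
  obtain ⟨Ψ, hΨc, hΨe, hΨv⟩ := visc_ext (V := V) (E := E) isOpen_ball hEc (Ψ₀ := Ψ₀) (by
    intro x₂ hx₂
    have hx₂U := hVU hx₂
    have hK1 : ∀ᶠ x in 𝓝 x₂, ∀ y, R₂ ≤ ‖y‖ → κ (x, y) = 0 := by
      filter_upwards [isOpen_ball.eventually_mem hx₂] with x hx y hy
      have h1 : ¬ ‖y‖ < 2 * R₁ := by linarith
      simp only [hκ, h1, if_false]
      exact max_eq_right (by linarith [hF2 x (hVcl x hx) y hy])
    have hK2 : ∀ w, F (x₂, w) = 0 → ContinuousAt κ (x₂, w) ∧ ∃ h : ℂ × ℂ → ℂ, AnalyticAt ℂ h (x₂, w) ∧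
        (∀ᶠ p in 𝓝 (x₂, w), (h p).re ≤ κ p) ∧ (h (x₂, w)).re = κ (x₂, w) := by
      intro w hw0
      have hwr : r₀ ≤ ‖w‖ := hL.norm_ge hx₂U hw0
      have hwne : w ≠ 0 := norm_pos_iff.1 (lt_of_lt_of_le hr₀ hwr)
      have haan : AnalyticAt ℂ (fun p : ℂ × ℂ => a p.1) (x₂, w) :=
        AnalyticAt.comp (g := a) (ha' x₂ (hVcl x₂ hx₂)) analyticAt_fst
      have hinv : AnalyticAt ℂ (fun p : ℂ × ℂ => p.2⁻¹) (x₂, w) := analyticAt_snd.inv hwne
      have hlamc : ContinuousAt lam (x₂, w) := by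
        have h1 : ContinuousAt (fun p : ℂ × ℂ => (a p.1 * (p.2⁻¹) ^ k).re) (x₂, w) :=
          Complex.continuous_re.continuousAt.comp (haan.mul (hinv.pow k)).continuousAt
        have h2 : ContinuousAt (fun p : ℂ × ℂ => ε * (‖p.2‖⁻¹) ^ (2 * q)) (x₂, w) := by
          have h3 : ContinuousAt (fun p : ℂ × ℂ => ‖p.2‖) (x₂, w) := by fun_prop
          have h4 : ContinuousAt (fun p : ℂ × ℂ => ‖p.2‖⁻¹) (x₂, w) := h3.inv₀ (by simpa using hwne)
          exact continuousAt_const.mul (h4.pow _)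
        exact h1.add h2
      set c₀ : ℂ := (w⁻¹) ^ q with hc₀
      set h : ℂ × ℂ → ℂ := fun p => a p.1 * (p.2⁻¹) ^ k + (2 * ε : ℝ) * ((starRingEnd ℂ) c₀ * (p.2⁻¹) ^ q)
        - ((ε * ‖c₀‖ ^ 2 + θ : ℝ) : ℂ) with hh
      have hhan : AnalyticAt ℂ h (x₂, w) :=
        ((haan.mul (hinv.pow k)).add (analyticAt_const.mul (analyticAt_const.mul (hinv.pow q)))).sub
          analyticAt_const
      have hhre : ∀ p : ℂ × ℂ, (h p).re = (a p.1 * (p.2⁻¹) ^ k).re +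
          ε * (2 * ((starRingEnd ℂ) c₀ * (p.2⁻¹) ^ q).re - ‖c₀‖ ^ 2) - θ := by
        intro p
        simp only [hh, Complex.sub_re, Complex.add_re, Complex.ofReal_re, Complex.re_ofReal_mul]
        ring
      have hnq : ∀ p : ℂ × ℂ, ‖(p.2⁻¹) ^ q‖ ^ 2 = (‖p.2‖⁻¹) ^ (2 * q) := by
        intro p
        rw [norm_pow, norm_inv, ← pow_mul, mul_comm q 2]
      have hhle : ∀ p : ℂ × ℂ, (h p).re ≤ lam p - θ := by
        intro p
        rw [hhre]
        have h1 := quad_le c₀ ((p.2⁻¹) ^ q)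
        rw [hnq] at h1
        have h2 := mul_le_mul_of_nonneg_left h1 hε.le
        simp only [hlam]
        linarith
      have hheq : (h (x₂, w)).re = lam (x₂, w) - θ := by
        rw [hhre]
        have h1 := quad_eq c₀
        have h2 : ‖c₀‖ ^ 2 = (‖w‖⁻¹) ^ (2 * q) := by
          have := hnq (x₂, w)
          exact this
        simp only [hlam]
        rw [← h2]
        show (a x₂ * (w⁻¹) ^ k).re + ε * (2 * ((starRingEnd ℂ) c₀ * c₀).re - ‖c₀‖ ^ 2) - θ = _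
        rw [h1]
      have hnc : ContinuousAt (fun p : ℂ × ℂ => ‖p.2‖) (x₂, w) := by fun_prop
      by_cases hw1 : ‖w‖ < 2 * R₁
      · have hev : ∀ᶠ p in 𝓝 (x₂, w), κ p = lam p - θ := by
          filter_upwards [hnc.eventually_lt_const hw1] with p hp
          simp only [hκ, hp, if_true]
        refine ⟨(hlamc.sub continuousAt_const).congr (hev.mono fun p hp => hp.symm), h, hhan, ?_, ?_⟩
        · filter_upwards [hev] with p hp
          rw [hp]; exact hhle p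
        · rw [hheq, hev.self_of_nhds]
      · have hw2 : R₁ < ‖w‖ := by linarith [not_lt.1 hw1]
        have hev : ∀ᶠ p in 𝓝 (x₂, w), κ p = max (lam p - θ) 0 := by
          have hfst : ContinuousAt (fun p : ℂ × ℂ => p.1) (x₂, w) := continuousAt_fst
          filter_upwards [hnc.eventually_const_lt hw2,
            hfst.eventually (isOpen_ball.eventually_mem hx₂)] with p hp1 hp2
          by_cases hp : ‖p.2‖ < 2 * R₁
          · simp only [hκ, hp, if_true]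
            exact (max_eq_left (hF3 p.1 (hVcl _ hp2) p.2 hp1.le hp)).symm
          · simp only [hκ, hp, if_false]
        have hmx : ContinuousAt (fun p : ℂ × ℂ => max (lam p - θ) 0) (x₂, w) :=
          ContinuousAt.comp (g := fun t : ℝ => max t 0) (by fun_prop) (hlamc.sub continuousAt_const)
        refine ⟨ContinuousAt.congr hmx (hev.mono fun p hp => hp.symm), ?_⟩
        by_cases hpos : 0 ≤ lam (x₂, w) - θ
        · refine ⟨h, hhan, ?_, ?_⟩
          · filter_upwards [hev] with p hp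
            rw [hp]; exact (hhle p).trans (le_max_left _ _)
          · rw [hheq, hev.self_of_nhds]
            exact (max_eq_left hpos).symm
        · refine ⟨fun _ => 0, analyticAt_const, ?_, ?_⟩
          · filter_upwards [hev] with p hp
            rw [hp]; exact le_max_right _ _
          · rw [hev.self_of_nhds]
            exact (max_eq_right (not_le.1 hpos).le).symm
    obtain ⟨H, hH1, hH2, hH3⟩ := local_support hL.hU₀ hL.an hS (hL.sub hx₂U) (hL.ne hx₂U) hK1 hK2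
    refine ⟨H, hH1, ?_, ?_⟩
    · filter_upwards [hH2, hL.hU.eventually_mem hx₂U] with x hx1 hx2 hxE
      exact hx1 fun hexc => hxE ⟨hexc, hx2⟩
    · intro ε' hε'
      filter_upwards [hH3 ε' hε', hL.hU.eventually_mem hx₂U] with x hx1 hx2 hxE
      exact hx1 fun hexc => hxE ⟨hexc, hx2⟩)
  -- comparison
  have hcomp₀ : ∀ x ∈ V \ E, |Ψ₀ x - (a x * psum U₀ F S k R₂ x).re| ≤ ε * K := by
    rintro x ⟨hxV, hxE⟩
    have hxU := hVU hxV
    have hfin := hL.goodIn_finite (S := S) hxU R₂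
    set T := hfin.toFinset with hT
    have hTm : ∀ y ∈ T, Good U₀ F S x y ∧ ‖y‖ < R₂ := by
      intro y hy
      rw [hT, Finite.mem_toFinset] at hy
      exact ⟨hy.1, mem_ball_zero_iff.1 hy.2⟩
    have e1 : Ψ₀ x = ∑ y ∈ T, κ (x, y) := by
      simp only [hΨ₀]
      rw [finsum_mem_eq_finite_toFinset_sum _ hfin]
    have e2 : (a x * psum U₀ F S k R₂ x).re = ∑ y ∈ T, (a x * (y⁻¹) ^ k).re := by
      rw [psum, finsum_mem_eq_finite_toFinset_sum _ hfin, Finset.mul_sum, Complex.re_sum]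
    rw [e1, e2, ← Finset.sum_sub_distrib]
    have hup : ∀ y ∈ T, κ (x, y) - (a x * (y⁻¹) ^ k).re ≤ ε * (‖y‖⁻¹) ^ (2 * q) := by
      intro y hy
      by_cases hy1 : ‖y‖ < 2 * R₁
      · simp only [hκ, hy1, if_true, hlam]
        linarith
      · have h1 := hlam_lo x (hVcl x hxV) y (by linarith [not_lt.1 hy1])
        have h2 : 0 ≤ lam (x, y) := le_trans (by positivity) h1
        have h3 : κ (x, y) ≤ lam (x, y) := by
          simp only [hκ, hy1, if_false]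
          exact max_le (by linarith) h2
        have h4 : lam (x, y) = (a x * (y⁻¹) ^ k).re + ε * (‖y‖⁻¹) ^ (2 * q) := rfl
        linarith
    have hlo : ∀ y ∈ T, -θ ≤ κ (x, y) - (a x * (y⁻¹) ^ k).re := by
      intro y hy
      have h0 : 0 ≤ ε * (‖y‖⁻¹) ^ (2 * q) := by positivity
      have h4 : lam (x, y) = (a x * (y⁻¹) ^ k).re + ε * (‖y‖⁻¹) ^ (2 * q) := rfl
      have h5 : lam (x, y) - θ ≤ κ (x, y) := by
        by_cases hy1 : ‖y‖ < 2 * R₁
        · simp only [hκ, hy1, if_true]; exact le_rfl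
        · simp only [hκ, hy1, if_false]; exact le_max_left _ _
      linarith
    rw [abs_le]
    constructor
    · have h1 : ∑ y ∈ T, (-θ) ≤ ∑ y ∈ T, (κ (x, y) - (a x * (y⁻¹) ^ k).re) := Finset.sum_le_sum hlo
      rw [Finset.sum_const, nsmul_eq_mul] at h1
      have h2 : (T.card : ℝ) ≤ C * (1 + R₂) ^ ρ :=
        hL.card x hxU R₂ (by linarith) T (fun y hy => ⟨(hTm y hy).2.le, (hTm y hy).1.zero⟩)
      have h3 : θ * (C * (1 + R₂) ^ ρ) ≤ ε * ((3 / 2) * (C * 2 ^ ρ)) := by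
        have h4 : (1 + R₂) ^ ρ ≤ (2 * R₂) ^ ρ := pow_le_pow_left₀ (by positivity) (by linarith) _
        have h5 : (R₂⁻¹) ^ (2 * q) ≤ (R₂⁻¹) ^ ρ :=
          pow_le_pow_of_le_one (by positivity) (inv_le_one_of_one_le₀ (by linarith)) (by omega)
        have h6 : (R₂⁻¹) ^ (2 * q) * (1 + R₂) ^ ρ ≤ 2 ^ ρ := by
          calc (R₂⁻¹) ^ (2 * q) * (1 + R₂) ^ ρ ≤ (R₂⁻¹) ^ ρ * (2 * R₂) ^ ρ :=
                mul_le_mul h5 h4 (by positivity) (by positivity)
            _ = 2 ^ ρ := by rw [← mul_pow]; congr 1; field_simp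
        calc θ * (C * (1 + R₂) ^ ρ) = (3 * ε / 2) * C * ((R₂⁻¹) ^ (2 * q) * (1 + R₂) ^ ρ) := by
              rw [hθ]; ring
          _ ≤ (3 * ε / 2) * C * 2 ^ ρ := mul_le_mul_of_nonneg_left h6 (by positivity)
          _ = ε * ((3 / 2) * (C * 2 ^ ρ)) := by ring
      have h4 : θ * (T.card : ℝ) ≤ θ * (C * (1 + R₂) ^ ρ) := mul_le_mul_of_nonneg_left h2 hθnn
      have h5 : ε * K = ε * K₀ + ε * ((3 / 2) * (C * 2 ^ ρ)) := by rw [hK]; ring
      have h6 : 0 ≤ ε * K₀ := by positivity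
      nlinarith
    · refine (Finset.sum_le_sum hup).trans ?_
      rw [← Finset.mul_sum]
      have h1 := hL.total hxU (k := 2 * q) (by omega) T (fun y hy => (hTm y hy).1.zero)
      have h2 : K₀ ≤ K := by rw [hK]; have : 0 ≤ (3 / 2) * (C * 2 ^ ρ) := by positivity
                             linarith
      exact mul_le_mul_of_nonneg_left (h1.trans h2) hε.le
  have hcomp₁ : ∀ x ∈ V \ E, |Ψ x - (a x * s x).re| ≤ ε * (K + 1) := by
    intro x hx
    have h1 := hcomp₀ x hx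
    rw [← hΨe x hx] at h1
    have hxU := hVU hx.1
    have h2 := hsp x hxU (fun h => hx.2 ⟨h, hxU⟩) R₂ (by linarith)
    have h3 : |(a x * psum U₀ F S k R₂ x).re - (a x * s x).re| ≤ ε := by
      rw [← Complex.sub_re, ← mul_sub]
      refine (Complex.abs_re_le_norm _).trans ?_
      rw [norm_mul, norm_sub_rev]
      have h4 : ‖a x‖ * ‖s x - psum U₀ F S k R₂ x‖ ≤ A * (D / R₂) :=
        mul_le_mul (hA x (hVcl x hx.1)) h2 (norm_nonneg _) hA0
      refine h4.trans ?_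
      rw [div_le_iff₀ hε] at hR₂D
      rw [mul_div_assoc', div_le_iff₀ hR₂pos]
      linarith
    have h4 := abs_sub_le (Ψ x) ((a x * psum U₀ F S k R₂ x).re) ((a x * s x).re)
    calc |Ψ x - (a x * s x).re| ≤ ε * K + ε := by linarith
      _ = ε * (K + 1) := by ring
  have hasc : ContinuousOn (fun x => (a x * s x).re) V :=
    Complex.continuous_re.comp_continuousOn
      ((ha'.continuousOn.mono ball_subset_closedBall).mul (hs.mono hVU))
  have hcomp : ∀ x ∈ V, |Ψ x - (a x * s x).re| ≤ ε * (K + 1) :=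
    le_of_dense isOpen_ball hEc ((hΨc.sub hasc).abs) hcomp₁
  have hBV : closedBall c r ⊆ V := closedBall_subset_ball hrr'
  have hbc : ContinuousOn (fun x => (b x).re) (closedBall c r) :=
    Complex.continuous_re.comp_continuousOn hb.continuousOn
  have hmax := visc_max (Ψ := fun x => Ψ x + (b x).re) (c := c) (r := r) (M := M + ε * (K + 1))
    ((hΨc.mono hBV).add hbc) (by
      intro x hx
      have hxcb := ball_subset_closedBall hx
      obtain ⟨H, h1, h2, h3⟩ := hΨv x (hBV hxcb)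
      refine ⟨fun y => H y + b y, h1.add (hb x hxcb), ?_, ?_⟩
      · filter_upwards [h2] with y hy
        simp only [Complex.add_re]
        linarith
      · simp only [Complex.add_re]
        rw [h3]) (by
      intro x hx
      have h1 := hM x hx
      have h2 := (abs_le.1 (hcomp x (hBV (sphere_subset_closedBall hx)))).2
      rw [Complex.add_re] at h1
      linarith)
  intro x hx
  have h1 := hmax x hx
  have h2 := (abs_le.1 (hcomp x (hBV hx))).1
  rw [Complex.add_re]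
  linarith

/-- Power sums over good zeros are holomorphic. -/
theorem Loc.power_sum (hL : Loc U₀ U F r₀ C ρ) (hS : BD U₀ S) {k : ℕ} (hk : 2 * ρ + 3 ≤ k) :
    ∃ s : ℂ → ℂ, AnalyticOnNhd ℂ s U ∧ ∀ x ∈ U, x ∉ Exc U₀ F → ∀ R ≥ 1,
      ‖s x - psum U₀ F S k R x‖ ≤ 2 * C * 4 ^ ρ / R := by
  obtain ⟨s, hs1, hs2⟩ := hL.limit (S := S) hS (k := k) (by omega)
  have hC := hL.Cnn
  exact ⟨s, MPc.analytic hL.hU hs1 (hL.mp hS hk hs1 (by positivity) hs2), hs2⟩

end PartJ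

end Pool.Agent.Helper23.QM
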