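import Mathlib
import Pool.Agent.Helper23.QMe

set_option autoImplicit false

open Set Metric Filter Topology

namespace Pool.Agent.Helper23.QM

section PartK

variable {U₀ U : Set ℂ} {F : ℂ × ℂ → ℂ} {S : Set (ℂ × ℂ)} {r₀ C : ℝ} {ρ : ℕ}

/-- If all high power sums of the good zeros vanish, there are no good zeros. -/
lemma Loc.no_good (hL : Loc U₀ U F r₀ C ρ) {x : ℂ} (hx : x ∈ U) {k₀ : ℕ} (hk₀ : ρ + 1 ≤ k₀) {D : ℝ}
    (h0 : ∀ k, k₀ ≤ k → ∀ R ≥ 1, ‖psum U₀ F S k R x‖ ≤ D / R) (w₁ : ℂ) : ¬ Good U₀ F S x w₁ := by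
  classical
  intro hg
  have hr₀ := hL.r₀pos
  have hC := hL.Cnn
  have hw₁r := hL.norm_ge hx hg.zero
  have hw₁pos : 0 < ‖w₁‖ := lt_of_lt_of_le hr₀ hw₁r
  have hw₁ne : w₁ ≠ 0 := norm_pos_iff.1 hw₁pos
  set W : Finset ℂ := ((hL.goodIn_finite (S := S) hx (2 * ‖w₁‖ + 1)).toFinset).filter (fun w => w ≠ w₁) with hW
  set q : Polynomial ℂ := ∏ w ∈ W, (Polynomial.X - Polynomial.C (w⁻¹)) with hq
  have hqe : ∀ z, q.eval z = ∏ w ∈ W, (z - w⁻¹) := by
    intro z; rw [hq, Polynomial.eval_prod]; simp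
  have hq1 : q.eval (w₁⁻¹) ≠ 0 := by
    rw [hqe, Finset.prod_ne_zero_iff]
    intro w hw
    have h1 := (Finset.mem_filter.1 hw).2
    exact sub_ne_zero.2 fun h => h1 (inv_injective h).symm
  -- bound for q on the inverses of zeros
  obtain ⟨Q, hQ⟩ := (isCompact_closedBall (0:ℂ) (r₀⁻¹)).exists_bound_of_continuousOn
    (q.continuous.continuousOn (s := closedBall (0:ℂ) (r₀⁻¹)))
  have hQ0 : 0 ≤ Q := (norm_nonneg _).trans (hQ 0 (mem_closedBall_self (by positivity)))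
  set K₀ : ℝ := C * 2 ^ ρ * (r₀⁻¹) ^ k₀ + 2 * C * 4 ^ ρ with hK₀
  have hK₀nn : 0 ≤ K₀ := by positivity
  -- the truncated functional
  have key : ∀ n : ℕ, ‖(w₁⁻¹) ^ k₀ * q.eval (w₁⁻¹)‖ ≤ (1 / 2) ^ n * (Q * K₀) := by
    intro n
    set P : Polynomial ℂ := (Polynomial.C w₁ * Polynomial.X) ^ n * q with hP
    have hPe : ∀ z, P.eval z = (w₁ * z) ^ n * q.eval z := by
      intro z; simp [hP]
    set B : ℝ := ∑ i ∈ Finset.range (P.natDegree + 1), ‖P.coeff i‖ with hB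
    have hlim : ∀ R : ℝ, max 1 (‖w₁‖ + 1) ≤ R → ‖(w₁⁻¹) ^ k₀ * q.eval (w₁⁻¹)‖ ≤ B * (D / R) + (1 / 2) ^ n * (Q * K₀) := by
      intro R hR
      have hR1 : 1 ≤ R := (le_max_left _ _).trans hR
      have hR2 : ‖w₁‖ + 1 ≤ R := (le_max_right _ _).trans hR
      have hfin := hL.goodIn_finite (S := S) hx R
      set T := hfin.toFinset with hT
      have hTm : ∀ y ∈ T, Good U₀ F S x y ∧ ‖y‖ < R := by
        intro y hy
        rw [hT, Finite.mem_toFinset] at hy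
        exact ⟨hy.1, mem_ball_zero_iff.1 hy.2⟩
      have hw₁T : w₁ ∈ T := by
        rw [hT, Finite.mem_toFinset]
        exact ⟨hg, mem_ball_zero_iff.2 (by linarith)⟩
      have e1 : ∑ y ∈ T, (y⁻¹) ^ k₀ * P.eval (y⁻¹) =
          ∑ i ∈ Finset.range (P.natDegree + 1), P.coeff i * psum U₀ F S (k₀ + i) R x := by
        have : ∀ y : ℂ, (y⁻¹) ^ k₀ * P.eval (y⁻¹) =
            ∑ i ∈ Finset.range (P.natDegree + 1), P.coeff i * (y⁻¹) ^ (k₀ + i) := by
          intro y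
          rw [Polynomial.eval_eq_sum_range, Finset.mul_sum]
          apply Finset.sum_congr rfl
          intro i _
          rw [pow_add]; ring
        simp_rw [this]
        rw [Finset.sum_comm]
        apply Finset.sum_congr rfl
        intro i _
        rw [psum, finsum_mem_eq_finite_toFinset_sum _ hfin, Finset.mul_sum]
      have e2 : ‖∑ y ∈ T, (y⁻¹) ^ k₀ * P.eval (y⁻¹)‖ ≤ B * (D / R) := by
        rw [e1, hB, Finset.sum_mul]
        refine (norm_sum_le _ _).trans (Finset.sum_le_sum fun i _ => ?_)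
        rw [norm_mul]
        exact mul_le_mul_of_nonneg_left (h0 (k₀ + i) (by omega) R hR1) (norm_nonneg _)
      rw [← Finset.add_sum_erase T _ hw₁T] at e2
      have e3 : (w₁⁻¹) ^ k₀ * P.eval (w₁⁻¹) = (w₁⁻¹) ^ k₀ * q.eval (w₁⁻¹) := by
        rw [hPe, mul_inv_cancel₀ hw₁ne, one_pow, one_mul]
      rw [e3] at e2
      have e4 : ‖∑ y ∈ T.erase w₁, (y⁻¹) ^ k₀ * P.eval (y⁻¹)‖ ≤ (1 / 2) ^ n * (Q * K₀) := by
        refine (norm_sum_le _ _).trans ?_
        have hb : ∀ y ∈ T.erase w₁, ‖(y⁻¹) ^ k₀ * P.eval (y⁻¹)‖ ≤ (1 / 2) ^ n * Q * (‖y‖⁻¹) ^ k₀ := by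
          intro y hy
          obtain ⟨hyne, hyT⟩ := Finset.mem_erase.1 hy
          obtain ⟨hy1, hy2⟩ := hTm y hyT
          have hyr := hL.norm_ge hx hy1.zero
          have hypos : 0 < ‖y‖ := lt_of_lt_of_le hr₀ hyr
          rw [norm_mul, norm_pow, norm_inv, hPe, norm_mul, norm_pow, norm_mul, norm_inv]
          by_cases hyW : y ∈ W
          · have : q.eval (y⁻¹) = 0 := by
              rw [hqe]; exact Finset.prod_eq_zero hyW (sub_self _)
            rw [this, norm_zero, mul_zero, mul_zero]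
            positivity
          · have h1 : 2 * ‖w₁‖ + 1 ≤ ‖y‖ := by
              by_contra hcon
              apply hyW
              rw [hW, Finset.mem_filter, Finite.mem_toFinset]
              exact ⟨⟨hy1, mem_ball_zero_iff.2 (not_le.1 hcon)⟩, hyne⟩
            have h2 : ‖w₁‖ * ‖y‖⁻¹ ≤ 1 / 2 := by
              rw [← div_eq_mul_inv, div_le_iff₀ hypos]; linarith
            have h3 : (‖w₁‖ * ‖y‖⁻¹) ^ n ≤ (1 / 2) ^ n := pow_le_pow_left₀ (by positivity) h2 n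
            have h4 : ‖q.eval (y⁻¹)‖ ≤ Q := by
              apply hQ
              rw [mem_closedBall_zero_iff, norm_inv]
              exact inv_anti₀ hr₀ hyr
            calc (‖y‖⁻¹) ^ k₀ * ((‖w₁‖ * ‖y‖⁻¹) ^ n * ‖q.eval (y⁻¹)‖)
                ≤ (‖y‖⁻¹) ^ k₀ * ((1 / 2) ^ n * Q) := by
                  apply mul_le_mul_of_nonneg_left _ (by positivity)
                  exact mul_le_mul h3 h4 (norm_nonneg _) (by positivity)
              _ = (1 / 2) ^ n * Q * (‖y‖⁻¹) ^ k₀ := by ring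
        refine (Finset.sum_le_sum hb).trans ?_
        rw [← Finset.mul_sum, ← mul_assoc]
        apply mul_le_mul_of_nonneg_left _ (by positivity)
        exact hL.total hx hk₀ (T.erase w₁) (fun y hy => (hTm y (Finset.mem_of_mem_erase hy)).1.zero)
      have e5 := norm_sub_le ((w₁⁻¹) ^ k₀ * q.eval (w₁⁻¹) + ∑ y ∈ T.erase w₁, (y⁻¹) ^ k₀ * P.eval (y⁻¹))
        (∑ y ∈ T.erase w₁, (y⁻¹) ^ k₀ * P.eval (y⁻¹))
      rw [add_sub_cancel_right] at e5
      linarith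
    have ht : Tendsto (fun R : ℝ => B * (D / R) + (1 / 2) ^ n * (Q * K₀)) atTop
        (𝓝 (B * 0 + (1 / 2) ^ n * (Q * K₀))) :=
      ((tendsto_const_nhds.div_atTop tendsto_id).const_mul B).add_const _
    rw [mul_zero, zero_add] at ht
    refine ge_of_tendsto ht ?_
    filter_upwards [eventually_ge_atTop (max 1 (‖w₁‖ + 1))] with R hR
    exact hlim R hR
  have ht : Tendsto (fun n : ℕ => (1 / 2 : ℝ) ^ n * (Q * K₀)) atTop (𝓝 (0 * (Q * K₀))) :=
    (tendsto_pow_atTop_nhds_zero_of_lt_one (by norm_num) (by norm_num)).mul_const _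
  rw [zero_mul] at ht
  have h1 : ‖(w₁⁻¹) ^ k₀ * q.eval (w₁⁻¹)‖ ≤ 0 := ge_of_tendsto' ht key
  have h2 : (w₁⁻¹) ^ k₀ * q.eval (w₁⁻¹) ≠ 0 := mul_ne_zero (pow_ne_zero _ (inv_ne_zero hw₁ne)) hq1
  exact h2 (norm_le_zero_iff.1 h1)

/-- Local dichotomy. -/
lemma Loc.dichotomy (hL : Loc U₀ U F r₀ C ρ) (hS : BD U₀ S) (hUc : IsPreconnected U) :
    (U \ {x | ∃ y, Good U₀ F S x y}).Countable ∨ (U ∩ {x | ∃ y, Good U₀ F S x y}).Countable := by
  classical
  have hC := hL.Cnn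
  set k₀ := 2 * ρ + 3 with hk₀
  have hex : ∀ k, ∃ s : ℂ → ℂ, k₀ ≤ k → (AnalyticOnNhd ℂ s U ∧ ∀ x ∈ U, x ∉ Exc U₀ F → ∀ R ≥ 1,
      ‖s x - psum U₀ F S k R x‖ ≤ 2 * C * 4 ^ ρ / R) := by
    intro k
    by_cases hk : k₀ ≤ k
    · obtain ⟨s, h1, h2⟩ := hL.power_sum hS hk
      exact ⟨s, fun _ => ⟨h1, h2⟩⟩
    · exact ⟨0, fun h => absurd h hk⟩
  choose s hs using hex
  by_cases hz : ∃ k, k₀ ≤ k ∧ ∃ x ∈ U, s k x ≠ 0
  · left
    obtain ⟨k, hk, x₀, hx₀, hne⟩ := hz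
    refine (hL.exc_countable.union (countable_zeros (hs k hk).1 hUc ⟨x₀, hx₀, hne⟩)).mono ?_
    rintro x ⟨hxU, hxN⟩
    by_cases hxE : x ∈ Exc U₀ F
    · exact Or.inl ⟨hxE, hxU⟩
    · right
      refine ⟨hxU, ?_⟩
      have hempty : ∀ R, psum U₀ F S k R x = 0 := by
        intro R
        rw [psum]
        have : goodIn U₀ F S x 0 R = ∅ := by
          rw [eq_empty_iff_forall_notMem]
          intro y hy
          exact hxN ⟨y, hy.1⟩
        rw [this, finsum_mem_empty]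
      have ht : Tendsto (fun R : ℝ => 2 * C * 4 ^ ρ / R) atTop (𝓝 0) :=
        tendsto_const_nhds.div_atTop tendsto_id
      have h1 : ‖s k x‖ ≤ 0 := by
        refine ge_of_tendsto ht ?_
        filter_upwards [eventually_ge_atTop 1] with R hR
        have := (hs k hk).2 x hxU hxE R hR
        rwa [hempty, sub_zero] at this
      exact norm_le_zero_iff.1 h1
  · right
    push Not at hz
    refine hL.exc_countable.mono ?_
    rintro x ⟨hxU, y, hy⟩
    by_contra hxE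
    have hxE' : x ∉ Exc U₀ F := fun h => hxE ⟨h, hxU⟩
    refine hL.no_good hxU (k₀ := k₀) (by omega) (D := 2 * C * 4 ^ ρ) ?_ y hy
    intro k hk R hR
    have := (hs k hk).2 x hxU hxE' R hR
    rwa [hz k hk x hxU, zero_sub, norm_neg] at this

end PartK

/-- A disc minus a countable set is connected. -/
lemma ball_diff_preconnected (c : ℂ) {r : ℝ} (hr : 0 < r) {E : Set ℂ} (hE : E.Countable) :
    IsPreconnected (ball c r \ E) := by
  set Φ := OpenPartialHomeomorph.univBall (E := ℂ) c r with hΦ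
  have hsrc : Φ.source = univ := OpenPartialHomeomorph.univBall_source c r
  have htgt : Φ.target = ball c r := OpenPartialHomeomorph.univBall_target c hr
  have hinj : Function.Injective Φ := by
    intro x y hxy
    exact Φ.injOn (by rw [hsrc]; trivial) (by rw [hsrc]; trivial) hxy
  have hpre : (Φ ⁻¹' E).Countable := hE.preimage_of_injOn hinj.injOn
  have hconn : IsPreconnected ((Φ ⁻¹' E)ᶜ) :=
    (hpre.isConnected_compl_of_one_lt_rank (E := ℂ) (by simp)).isPreconnected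
  have himg : Φ '' ((Φ ⁻¹' E)ᶜ) = ball c r \ E := by
    ext y
    constructor
    · rintro ⟨x, hx, rfl⟩
      refine ⟨?_, fun h => hx h⟩
      rw [← htgt]
      exact Φ.map_source (by rw [hsrc]; trivial)
    · rintro ⟨hy, hyE⟩
      rw [← htgt] at hy
      refine ⟨Φ.symm y, ?_, Φ.right_inv hy⟩
      intro h
      apply hyE
      have : Φ (Φ.symm y) ∈ E := h
      rwa [Φ.right_inv hy] at this
  rw [← himg]
  exact hconn.image _ (OpenPartialHomeomorph.continuous_univBall c r).continuousOn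

/-- Globalisation of a local dichotomy. -/
lemma glob {U₀ N E : Set ℂ} (hU₀ : IsOpen U₀) (hc : IsPreconnected U₀) (hE : E.Countable)
    (hloc : ∀ x ∈ U₀ \ E, ∃ r > 0, (ball x r \ N).Countable ∨ (ball x r ∩ N).Countable) :
    (U₀ \ N).Countable ∨ (U₀ ∩ N).Countable := by
  set A : Set ℂ := {x | ∃ r > 0, (ball x r \ N).Countable} with hA
  set B : Set ℂ := {x | ∃ r > 0, (ball x r ∩ N).Countable} with hB
  have hAo : IsOpen A := by
    rw [Metric.isOpen_iff]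
    rintro x ⟨r, hr, h⟩
    refine ⟨r, hr, fun y hy => ?_⟩
    obtain ⟨r', hr', hs⟩ := Metric.isOpen_iff.1 isOpen_ball y hy
    exact ⟨r', hr', h.mono (sdiff_subset_sdiff_left hs)⟩
  have hBo : IsOpen B := by
    rw [Metric.isOpen_iff]
    rintro x ⟨r, hr, h⟩
    refine ⟨r, hr, fun y hy => ?_⟩
    obtain ⟨r', hr', hs⟩ := Metric.isOpen_iff.1 isOpen_ball y hy
    exact ⟨r', hr', h.mono (inter_subset_inter_left _ hs)⟩
  have hdisj : ∀ x, x ∈ A → x ∈ B → False := by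
    rintro x ⟨r, hr, h⟩ ⟨r', hr', h'⟩
    apply ball_not_countable (x := x) (lt_min hr hr')
    refine (h.union h').mono ?_
    intro z hz
    by_cases hzN : z ∈ N
    · exact Or.inr ⟨ball_subset_ball (min_le_right _ _) hz, hzN⟩
    · exact Or.inl ⟨ball_subset_ball (min_le_left _ _) hz, hzN⟩
  have hLA : ∀ W : Set ℂ, W ⊆ A → (W \ N).Countable := by
    intro W hW
    have hW' : ∀ x ∈ W, ∃ r > 0, (ball x r \ N).Countable := fun x hx => hW hx
    choose! r hr h using hW'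
    obtain ⟨t, ht1, ht2, ht3⟩ := TopologicalSpace.countable_cover_nhdsWithin (f := fun x => ball x (r x))
      (s := W) (fun x hx => mem_nhdsWithin_of_mem_nhds (ball_mem_nhds _ (hr x hx)))
    refine (ht2.biUnion fun x hx => h x (ht1 hx)).mono ?_
    rintro x ⟨hx, hxN⟩
    obtain ⟨y, hy, hxy⟩ := mem_iUnion₂.1 (ht3 hx)
    exact mem_iUnion₂.2 ⟨y, hy, hxy, hxN⟩
  have hLB : ∀ W : Set ℂ, W ⊆ B → (W ∩ N).Countable := by
    intro W hW
    have hW' : ∀ x ∈ W, ∃ r > 0, (ball x r ∩ N).Countable := fun x hx => hW hx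
    choose! r hr h using hW'
    obtain ⟨t, ht1, ht2, ht3⟩ := TopologicalSpace.countable_cover_nhdsWithin (f := fun x => ball x (r x))
      (s := W) (fun x hx => mem_nhdsWithin_of_mem_nhds (ball_mem_nhds _ (hr x hx)))
    refine (ht2.biUnion fun x hx => h x (ht1 hx)).mono ?_
    rintro x ⟨hx, hxN⟩
    obtain ⟨y, hy, hxy⟩ := mem_iUnion₂.1 (ht3 hx)
    exact mem_iUnion₂.2 ⟨y, hy, hxy, hxN⟩
  have hABE : ∀ x ∈ U₀ \ E, x ∈ A ∪ B := by
    intro x hx
    obtain ⟨r, hr, h | h⟩ := hloc x hx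
    · exact Or.inl ⟨r, hr, h⟩
    · exact Or.inr ⟨r, hr, h⟩
  have hsplit : ∀ P : Set ℂ, IsPreconnected P → P ⊆ A ∪ B → P ⊆ A ∨ P ⊆ B := by
    intro P hP hPAB
    by_cases h1 : (P ∩ A).Nonempty
    · by_cases h2 : (P ∩ B).Nonempty
      · obtain ⟨z, _, hz1, hz2⟩ := hP A B hAo hBo hPAB h1 h2
        exact (hdisj z hz1 hz2).elim
      · left
        intro z hz
        rcases hPAB hz with h | h
        · exact h
        · exact absurd ⟨z, hz, h⟩ h2
    · right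
      intro z hz
      rcases hPAB hz with h | h
      · exact absurd ⟨z, hz, h⟩ h1
      · exact h
  have hAB : U₀ ⊆ A ∪ B := by
    intro x hx
    obtain ⟨r, hr, hrs⟩ := Metric.isOpen_iff.1 hU₀ x hx
    rcases hsplit (ball x r \ E) (ball_diff_preconnected x hr hE)
      (fun z hz => hABE z ⟨hrs hz.1, hz.2⟩) with h | h
    · left
      refine ⟨r, hr, ((hLA _ h).union hE).mono ?_⟩
      rintro z ⟨hz1, hz2⟩
      by_cases hzE : z ∈ E
      · exact Or.inr hzE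
      · exact Or.inl ⟨⟨hz1, hzE⟩, hz2⟩
    · right
      refine ⟨r, hr, ((hLB _ h).union hE).mono ?_⟩
      rintro z ⟨hz1, hz2⟩
      by_cases hzE : z ∈ E
      · exact Or.inr hzE
      · exact Or.inl ⟨⟨hz1, hzE⟩, hz2⟩
  rcases hsplit U₀ hc hAB with h | h
  · exact Or.inl (hLA _ h)
  · exact Or.inr (hLB _ h)

section PartL

variable {U₀ : Set ℂ} {F : ℂ × ℂ → ℂ} {S : Set (ℂ × ℂ)}

/-- Outside a countable set of parameters, a zero lies in `S` iff it is a good zero. -/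
lemma generic_membership (hU₀ : IsOpen U₀) (hc : IsPreconnected U₀) (hF : AnalyticOnNhd ℂ F (U₀ ×ˢ univ))
    (hne : ∃ x ∈ U₀, ∃ y, F (x, y) ≠ 0) (hS : BD U₀ S) :
    ∃ E' : Set ℂ, E'.Countable ∧ Exc U₀ F ⊆ E' ∧ ∀ x ∈ U₀, x ∉ E' → ∀ y, F (x, y) = 0 →
      ((x, y) ∈ S ↔ Good U₀ F S x y) := by
  classical
  set Rg : Set (ℂ × ℂ) := {p | p.1 ∈ U₀ ∧ Reg U₀ F p.1 p.2} with hRg
  have hch : ∀ p : ℂ × ℂ, ∃ (g : ℂ → ℂ) (δ η : ℝ), p ∈ Rg → IsChart U₀ F p.1 p.2 g δ η := by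
    intro p
    by_cases hp : p ∈ Rg
    · obtain ⟨g, δ, η, h⟩ := hp.2
      exact ⟨g, δ, η, fun _ => h⟩
    · exact ⟨0, 0, 0, fun h => absurd h hp⟩
  choose g δ η hch using hch
  obtain ⟨t, ht1, ht2, ht3⟩ := TopologicalSpace.countable_cover_nhdsWithin
    (f := fun p : ℂ × ℂ => ball p.1 (δ p) ×ˢ ball p.2 (η p)) (s := Rg)
    (fun p hp => mem_nhdsWithin_of_mem_nhds
      (prod_mem_nhds (ball_mem_nhds _ (hch p hp).δpos) (ball_mem_nhds _ (hch p hp).ηpos)))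
  set X : ℂ × ℂ → Set ℂ := fun p => if Good U₀ F S p.1 p.2 then
    {x' | x' ∈ ball p.1 (δ p) ∧ (x', g p x') ∉ S} else {x' | x' ∈ ball p.1 (δ p) ∧ (x', g p x') ∈ S} with hX
  have hXc : ∀ p ∈ t, (X p).Countable := by
    intro p hp
    have hcp := hch p (ht1 hp)
    by_cases hg : Good U₀ F S p.1 p.2
    · simp only [hX, hg, if_true]
      exact hg.chart hS hcp
    · simp only [hX, hg, if_false]
      rcases good_or_bad hS ⟨_, _, _, hcp⟩ with h | h
      · exact absurd h hg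
      · exact h.chart hS hcp
  refine ⟨Exc U₀ F ∪ ⋃ p ∈ t, X p, (exc_countable hU₀ hc hF hne).union (ht2.biUnion hXc),
    subset_union_left, ?_⟩
  intro x hx hxE y hy
  have hreg : Reg U₀ F x y := by
    by_contra hcon
    exact hxE (Or.inl ⟨hx, Or.inr ⟨y, hy, hcon⟩⟩)
  obtain ⟨p, hp, hxy⟩ := mem_iUnion₂.1 (ht3 (⟨hx, hreg⟩ : (x, y) ∈ Rg))
  have hxp : x ∈ ball p.1 (δ p) := hxy.1
  have hyp : y ∈ ball p.2 (η p) := hxy.2
  have hcp := hch p (ht1 hp)
  have hyg : y = g p x := (hcp.iff x hxp y hyp).1 hy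
  have hgi : Good U₀ F S x y ↔ Good U₀ F S p.1 p.2 := by
    rw [hyg]; exact good_along_iff hS hcp hxp
  have hxX : x ∉ X p := fun h => hxE (Or.inr (mem_iUnion₂.2 ⟨p, hp, h⟩))
  rw [hgi]
  by_cases hg : Good U₀ F S p.1 p.2
  · simp only [hX, hg, if_true] at hxX
    refine ⟨fun _ => hg, fun _ => ?_⟩
    by_contra hcon
    exact hxX ⟨hxp, by rwa [← hyg]⟩
  · simp only [hX, hg, if_false] at hxX
    refine ⟨fun h => (hxX ⟨hxp, by rwa [← hyg]⟩).elim, fun h => absurd h hg⟩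

/-- Translation of charts in the second variable. -/
lemma IsChart.translate {x y : ℂ} {g : ℂ → ℂ} {δ η : ℝ} (h : IsChart U₀ F x y g δ η) (c : ℂ) :
    IsChart U₀ (fun p => F (p.1, p.2 + c)) x (y - c) (fun z => g z - c) δ η := by
  refine ⟨h.sub, h.δpos, h.ηpos, fun z hz => (h.an z hz).sub analyticAt_const, by simp [h.gx], ?_, ?_⟩
  · intro x' hx'
    have := h.maps x' hx'
    rw [mem_ball, dist_eq_norm] at this ⊢
    simpa using this
  · intro x' hx' y' hy'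
    have h1 : y' + c ∈ ball y η := by
      rw [mem_ball, dist_eq_norm] at hy' ⊢
      have : y' + c - y = y' - (y - c) := by ring
      rwa [this]
    have := h.iff x' hx' (y' + c) h1
    rw [this]
    exact ⟨fun h => by rw [← h]; ring, fun h => by rw [h]; ring⟩

lemma Good.translate {x y : ℂ} (h : Good U₀ F S x y) (c : ℂ) :
    Good U₀ (fun p => F (p.1, p.2 + c)) {p | (p.1, p.2 + c) ∈ S} x (y - c) := by
  obtain ⟨g, δ, η, hc, h1⟩ := h
  refine ⟨fun z => g z - c, δ, η, hc.translate c, h1.mono ?_⟩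
  rintro z ⟨hz1, hz2⟩
  refine ⟨hz1, fun h => hz2 ?_⟩
  show (z, g z - c + c) ∈ S
  rw [sub_add_cancel]; exact h

lemma good_translate_iff (x c : ℂ) :
    (∃ y, Good U₀ (fun p => F (p.1, p.2 + c)) {p | (p.1, p.2 + c) ∈ S} x y) ↔
      ∃ y, Good U₀ F S x y := by
  constructor
  · rintro ⟨y, hy⟩
    have h := hy.translate (-c)
    refine ⟨y - -c, ?_⟩
    convert h using 1
    · funext p; simp
    · ext p; simp
  · rintro ⟨y, hy⟩
    exact ⟨y - c, hy.translate c⟩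

lemma BD.translate (hS : BD U₀ S) (c : ℂ) : BD U₀ {p | (p.1, p.2 + c) ∈ S} := by
  intro γ c' r hγ hU
  exact hS (fun t => ((γ t).1, (γ t).2 + c)) c' r (fun t ht =>
    (analyticAt_fst.comp (hγ t ht)).prod ((analyticAt_snd.comp (hγ t ht)).add analyticAt_const)) hU

/-- Growth of finite order in the second variable, locally uniformly in the first one. -/
def FinOrd (U₀ : Set ℂ) (F : ℂ × ℂ → ℂ) : Prop :=
  ∀ x₀ ∈ U₀, ∃ δ > 0, ∃ (C : ℝ) (ρ : ℕ), ∀ x ∈ ball x₀ δ, ∀ y, ‖F (x, y)‖ ≤ Real.exp (C * (1 + ‖y‖) ^ ρ)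

lemma exists_loc (hU₀ : IsOpen U₀) (hF : AnalyticOnNhd ℂ F (U₀ ×ˢ univ)) (hG : FinOrd U₀ F) {x₀ : ℂ}
    (hx₀ : x₀ ∈ U₀) {c : ℂ} (hc : F (x₀, c) ≠ 0) :
    ∃ δ > 0, ∃ (r₀ C : ℝ) (ρ : ℕ), Loc U₀ (ball x₀ δ) (fun p => F (p.1, p.2 + c)) r₀ C ρ := by
  obtain ⟨δ₁, hδ₁, C₀, ρ, hb⟩ := hG x₀ hx₀
  set F' : ℂ × ℂ → ℂ := fun p => F (p.1, p.2 + c) with hF'
  have hF'an : AnalyticOnNhd ℂ F' (U₀ ×ˢ univ) := by
    rintro ⟨x, y⟩ ⟨hx, _⟩
    have h1 : AnalyticAt ℂ (fun p : ℂ × ℂ => (p.1, p.2 + c)) (x, y) :=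
      analyticAt_fst.prod (analyticAt_snd.add analyticAt_const)
    exact AnalyticAt.comp (g := F) (hF _ ⟨hx, mem_univ _⟩) h1
  have hF'0 : F' (x₀, 0) ≠ 0 := by simpa [hF'] using hc
  have hcont : ContinuousAt F' (x₀, 0) := (hF'an _ ⟨hx₀, mem_univ _⟩).continuousAt
  set m : ℝ := ‖F' (x₀, 0)‖ / 2 with hm
  have hmpos : 0 < m := by have := norm_pos_iff.2 hF'0; positivity
  have h1 : ∀ᶠ p in 𝓝 (x₀, (0:ℂ)), m < ‖F' p‖ := by
    refine hcont.norm.eventually_const_lt ?_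
    have := norm_pos_iff.2 hF'0
    rw [hm]; linarith
  obtain ⟨δ₂, hδ₂, hs₂⟩ := Metric.eventually_nhds_iff_ball.1 h1
  obtain ⟨δ₃, hδ₃, hs₃⟩ := Metric.isOpen_iff.1 hU₀ x₀ hx₀
  set δ := min δ₁ (min δ₂ δ₃) with hδ
  have hδpos : 0 < δ := lt_min hδ₁ (lt_min hδ₂ hδ₃)
  have hd1 : ball x₀ δ ⊆ ball x₀ δ₁ := ball_subset_ball (min_le_left _ _)
  have hd2 : ball x₀ δ ⊆ ball x₀ δ₂ := ball_subset_ball ((min_le_right _ _).trans (min_le_left _ _))
  have hd3 : ball x₀ δ ⊆ ball x₀ δ₃ := ball_subset_ball ((min_le_right _ _).trans (min_le_right _ _))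
  have hnear : ∀ x ∈ ball x₀ δ, ∀ y, ‖y‖ < δ₂ → m < ‖F' (x, y)‖ := by
    intro x hx y hy
    apply hs₂
    rw [mem_ball, Prod.dist_eq]
    refine max_lt (mem_ball.1 (hd2 hx)) ?_
    simpa [dist_eq_norm] using hy
  set C₁ : ℝ := max C₀ 0 * (1 + ‖c‖) ^ ρ with hC₁
  have hC₁nn : 0 ≤ C₁ := by positivity
  have hb' : ∀ x ∈ ball x₀ δ, ∀ y, ‖F' (x, y)‖ ≤ Real.exp (C₁ * (1 + ‖y‖) ^ ρ) := by
    intro x hx y
    refine (hb x (hd1 hx) (y + c)).trans (Real.exp_le_exp.2 ?_)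
    have h2 : 1 + ‖y + c‖ ≤ (1 + ‖c‖) * (1 + ‖y‖) := by
      have := norm_add_le y c
      nlinarith [norm_nonneg y, norm_nonneg c, mul_nonneg (norm_nonneg y) (norm_nonneg c)]
    calc C₀ * (1 + ‖y + c‖) ^ ρ ≤ max C₀ 0 * (1 + ‖y + c‖) ^ ρ :=
          mul_le_mul_of_nonneg_right (le_max_left _ _) (by positivity)
      _ ≤ max C₀ 0 * ((1 + ‖c‖) * (1 + ‖y‖)) ^ ρ := by
          apply mul_le_mul_of_nonneg_left _ (le_max_right _ _)
          exact pow_le_pow_left₀ (by positivity) h2 _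
      _ = C₁ * (1 + ‖y‖) ^ ρ := by rw [hC₁, mul_pow]; ring
  have hlog2 : 0 < Real.log 2 := Real.log_pos one_lt_two
  refine ⟨δ, hδpos, δ₂, (C₁ * 2 ^ ρ + |Real.log m|) / Real.log 2, ρ, ?_⟩
  refine ⟨hU₀, isOpen_ball, hd3.trans hs₃, hF'an, hδ₂, by positivity, ?_, ?_⟩
  · intro x hx y hy h0
    have := hnear x hx y hy
    rw [h0, norm_zero] at this
    linarith
  · intro x hx R hR T hT
    have hxU : x ∈ U₀ := hs₃ (hd3 hx)
    have hm' : m < ‖F' (x, 0)‖ := hnear x hx 0 (by simpa using hδ₂)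
    have hRpos : 0 < R := by linarith
    set Mx : ℝ := Real.exp (C₁ * (1 + 2 * R) ^ ρ) with hMx
    have hM1 : 1 ≤ Mx := by
      rw [hMx]; exact Real.one_le_exp (by positivity)
    have hb2 := zeros_card_le (slice_analytic hF'an hxU) (c := 0) (R := R) (M := Mx) hRpos hM1
      (fun h0 => by
        have h0' : F' (x, 0) = 0 := h0
        rw [h0', norm_zero] at hm'
        linarith) (fun z hz => by
        refine (hb' x hx z).trans ?_
        rw [mem_sphere_zero_iff_norm.1 hz]) T (fun z hz => ⟨by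
          rw [mem_closedBall_zero_iff]; exact (hT z hz).1, (hT z hz).2⟩)
    refine hb2.trans ?_
    have hpow : (1 : ℝ) ≤ (1 + R) ^ ρ := one_le_pow₀ (by linarith)
    have h3 : Real.log (Mx / ‖F' (x, 0)‖) ≤ (C₁ * 2 ^ ρ + |Real.log m|) * (1 + R) ^ ρ := by
      have hpos : 0 < ‖F' (x, 0)‖ := hmpos.trans hm'
      rw [Real.log_div (by positivity) hpos.ne', hMx, Real.log_exp]
      have h4 : Real.log m ≤ Real.log ‖F' (x, 0)‖ := Real.log_le_log hmpos hm'.le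
      have h5 : (1 + 2 * R) ^ ρ ≤ 2 ^ ρ * (1 + R) ^ ρ := by
        rw [← mul_pow]
        exact pow_le_pow_left₀ (by positivity) (by linarith) _
      have h6 : C₁ * (1 + 2 * R) ^ ρ ≤ C₁ * (2 ^ ρ * (1 + R) ^ ρ) := mul_le_mul_of_nonneg_left h5 hC₁nn
      have h7 : -Real.log m ≤ |Real.log m| := neg_le_abs _
      have h8 : |Real.log m| ≤ |Real.log m| * (1 + R) ^ ρ := le_mul_of_one_le_right (abs_nonneg _) hpow
      nlinarith
    rw [div_mul_eq_mul_div]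
    exact div_le_div_of_nonneg_right h3 hlog2.le

/-- Dichotomy for the projection of the good zeros. -/
theorem good_dichotomy (hU₀ : IsOpen U₀) (hc : IsPreconnected U₀) (hF : AnalyticOnNhd ℂ F (U₀ ×ˢ univ))
    (hne : ∃ x ∈ U₀, ∃ y, F (x, y) ≠ 0) (hG : FinOrd U₀ F) (hS : BD U₀ S) :
    (U₀ \ {x | ∃ y, Good U₀ F S x y}).Countable ∨ (U₀ ∩ {x | ∃ y, Good U₀ F S x y}).Countable := by
  apply glob hU₀ hc (vertical_countable hc hF hne)
  rintro x₀ ⟨hx₀, hx₀E⟩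
  have : ∃ c, F (x₀, c) ≠ 0 := by
    by_contra hcon
    push Not at hcon
    exact hx₀E ⟨hx₀, hcon⟩
  obtain ⟨c, hc'⟩ := this
  obtain ⟨δ, hδ, r₀, C, ρ, hL⟩ := exists_loc hU₀ hF hG hx₀ hc'
  refine ⟨δ, hδ, ?_⟩
  have := hL.dichotomy (hS.translate c) (convex_ball x₀ δ).isPreconnected
  have heq : {x | ∃ y, Good U₀ (fun p => F (p.1, p.2 + c)) {p | (p.1, p.2 + c) ∈ S} x y} =
      {x | ∃ y, Good U₀ F S x y} := by
    ext x; exact good_translate_iff x c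
  rwa [heq] at this

/-- **Main theorem** (guarded projection in one variable). -/
theorem main_K (hU₀ : IsOpen U₀) (hc : IsPreconnected U₀) (hF : AnalyticOnNhd ℂ F (U₀ ×ˢ univ))
    (hne : ∃ x ∈ U₀, ∃ y, F (x, y) ≠ 0) (hG : FinOrd U₀ F) (hS : BD U₀ S) :
    {x | x ∈ U₀ ∧ ∃ y, F (x, y) = 0 ∧ (x, y) ∈ S}.Countable ∨
      {x | x ∈ U₀ ∧ ¬ ∃ y, F (x, y) = 0 ∧ (x, y) ∈ S}.Countable := by
  obtain ⟨E', hE', _, hE'2⟩ := generic_membership hU₀ hc hF hne hS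
  rcases good_dichotomy hU₀ hc hF hne hG hS with h | h
  · right
    refine (h.union hE').mono ?_
    rintro x ⟨hx, hno⟩
    by_cases hxE : x ∈ E'
    · exact Or.inr hxE
    · left
      refine ⟨hx, ?_⟩
      rintro ⟨y, hy⟩
      exact hno ⟨y, hy.zero, (hE'2 x hx hxE y hy.zero).2 hy⟩
  · left
    refine (h.union hE').mono ?_
    rintro x ⟨hx, y, hy1, hy2⟩
    by_cases hxE : x ∈ E'
    · exact Or.inr hxE
    · left
      exact ⟨hx, y, (hE'2 x hx hxE y hy1).1 hy2⟩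

end PartL

end Pool.Agent.Helper23.QM
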