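import Mathlib
import Pool.Agent.Helper23.QMf

set_option autoImplicit false

open Set Metric Filter Topology

namespace Pool.Agent.Helper23.QM

/-- Dichotomy along analytic discs in a normed space. -/
def DD {E : Type*} [NormedAddCommGroup E] [NormedSpace ℂ E] (S : Set E) : Prop :=
  ∀ (γ : ℂ → E) (c : ℂ) (r : ℝ), AnalyticOnNhd ℂ γ (ball c r) →
    ({t | t ∈ ball c r ∧ γ t ∈ S}.Countable ∨ {t | t ∈ ball c r ∧ γ t ∉ S}.Countable)

section DDbasic

variable {E E' : Type*} [NormedAddCommGroup E] [NormedSpace ℂ E] [NormedAddCommGroup E'] [NormedSpace ℂ E']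

lemma DD.zero {f : E → ℂ} (hf : AnalyticOnNhd ℂ f univ) : DD {x | f x = 0} := by
  intro γ c r hγ
  have han : AnalyticOnNhd ℂ (fun t => f (γ t)) (ball c r) := fun t ht =>
    AnalyticAt.comp (g := f) (hf _ (mem_univ _)) (hγ t ht)
  by_cases h : ∃ t ∈ ball c r, f (γ t) ≠ 0
  · left
    exact countable_zeros han (convex_ball c r).isPreconnected h
  · right
    push Not at h
    have : {t | t ∈ ball c r ∧ γ t ∉ {x | f x = 0}} = ∅ := by
      rw [eq_empty_iff_forall_notMem]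
      rintro t ⟨ht, ht'⟩
      exact ht' (h t ht)
    rw [this]; exact countable_empty

lemma DD.compl {S : Set E} (hS : DD S) : DD Sᶜ := by
  intro γ c r hγ
  rcases hS γ c r hγ with h | h
  · right
    refine h.mono ?_
    rintro t ⟨ht, ht'⟩
    exact ⟨ht, not_not.1 ht'⟩
  · left
    exact h

lemma DD.iUnion {ι : Type*} [Countable ι] {S : ι → Set E} (hS : ∀ i, DD (S i)) : DD (⋃ i, S i) := by
  intro γ c r hγ
  by_cases h : ∃ i, {t | t ∈ ball c r ∧ γ t ∉ S i}.Countable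
  · right
    obtain ⟨i, hi⟩ := h
    refine hi.mono ?_
    rintro t ⟨ht, ht'⟩
    exact ⟨ht, fun h => ht' (mem_iUnion.2 ⟨i, h⟩)⟩
  · left
    push Not at h
    have : {t | t ∈ ball c r ∧ γ t ∈ ⋃ i, S i} = ⋃ i, {t | t ∈ ball c r ∧ γ t ∈ S i} := by
      ext t; simp [mem_iUnion]
    rw [this]
    exact countable_iUnion fun i => (hS i γ c r hγ).resolve_right (h i)

lemma DD.iInter {ι : Type*} [Countable ι] {S : ι → Set E} (hS : ∀ i, DD (S i)) : DD (⋂ i, S i) := by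
  have := (DD.iUnion fun i => (hS i).compl).compl
  rwa [← compl_iInter, compl_compl] at this

lemma DD.union {S T : Set E} (hS : DD S) (hT : DD T) : DD (S ∪ T) := by
  rw [union_eq_iUnion]
  exact DD.iUnion fun b => by cases b <;> assumption

lemma DD.inter {S T : Set E} (hS : DD S) (hT : DD T) : DD (S ∩ T) := by
  rw [inter_eq_iInter]
  exact DD.iInter fun b => by cases b <;> assumption

lemma DD.comp {S : Set E} (hS : DD S) {φ : E' → E} (hφ : AnalyticOnNhd ℂ φ univ) : DD (φ ⁻¹' S) := by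
  intro γ c r hγ
  exact hS (fun t => φ (γ t)) c r fun t ht => AnalyticAt.comp (g := φ) (hφ _ (mem_univ _)) (hγ t ht)

lemma DD.const (p : Prop) : DD {_x : E | p} := by
  intro γ c r _
  by_cases hp : p
  · right; simp [hp]
  · left; simp [hp]

/-- A disc-dichotomous set is countable or cocountable along entire curves. -/
lemma DD.entire {S : Set E} (hS : DD S) {γ : ℂ → E} (hγ : AnalyticOnNhd ℂ γ univ) :
    {t | γ t ∈ S}.Countable ∨ {t | γ t ∉ S}.Countable := by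
  have h := fun n : ℕ => hS γ 0 n (hγ.mono (subset_univ _))
  have hcov : ∀ t : ℂ, ∃ n : ℕ, t ∈ ball (0:ℂ) n := by
    intro t
    obtain ⟨n, hn⟩ := exists_nat_gt ‖t‖
    exact ⟨n, mem_ball_zero_iff.2 hn⟩
  by_cases h1 : ∀ n : ℕ, {t | t ∈ ball (0:ℂ) n ∧ γ t ∈ S}.Countable
  · left
    refine (countable_iUnion h1).mono ?_
    intro t ht
    obtain ⟨n, hn⟩ := hcov t
    exact mem_iUnion.2 ⟨n, hn, ht⟩
  · right
    push Not at h1
    obtain ⟨n₀, hn₀⟩ := h1
    have h2 : ∀ n : ℕ, {t | t ∈ ball (0:ℂ) n ∧ γ t ∉ S}.Countable := by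
      intro n
      have h3 := (h (max n n₀)).resolve_left (fun hc => hn₀ (hc.mono (by
        rintro t ⟨ht, ht'⟩
        exact ⟨ball_subset_ball (by exact_mod_cast le_max_right n n₀) ht, ht'⟩)))
      refine h3.mono ?_
      rintro t ⟨ht, ht'⟩
      exact ⟨ball_subset_ball (by exact_mod_cast le_max_left n n₀) ht, ht'⟩
    refine (countable_iUnion h2).mono ?_
    intro t ht
    obtain ⟨n, hn⟩ := hcov t
    exact mem_iUnion.2 ⟨n, hn, ht⟩

lemma DD.dichotomy {S : Set ℂ} (hS : DD S) : S.Countable ∨ Sᶜ.Countable :=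
  hS.entire (γ := fun t => t) fun _ _ => analyticAt_id

/-- Growth of finite order in the second variable, locally uniformly in the first one. -/
def FO (F : E × ℂ → ℂ) : Prop :=
  ∀ x₀ : E, ∃ δ > 0, ∃ (C : ℝ) (ρ : ℕ), ∀ x ∈ ball x₀ δ, ∀ y : ℂ,
    ‖F (x, y)‖ ≤ Real.exp (C * (1 + ‖y‖) ^ ρ)

/-- The set of parameters where `F(x, ·)` is not identically zero. -/
lemma DD.nonvertical {F : E × ℂ → ℂ} (hF : AnalyticOnNhd ℂ F univ) : DD {x | ∃ y, F (x, y) ≠ 0} := by
  intro γ c r hγ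
  -- direct argument along the disc
  set G : ℂ × ℂ → ℂ := fun p => F (γ p.1, p.2) with hG
  have hGan : AnalyticOnNhd ℂ G (ball c r ×ˢ univ) := by
    rintro ⟨t, y⟩ ⟨ht, _⟩
    have h1 : AnalyticAt ℂ (fun p : ℂ × ℂ => (γ p.1, p.2)) (t, y) :=
      (AnalyticAt.comp (g := γ) (hγ t ht) analyticAt_fst).prod analyticAt_snd
    exact AnalyticAt.comp (g := F) (hF _ (mem_univ _)) h1
  by_cases h : ∃ t ∈ ball c r, ∃ y, G (t, y) ≠ 0
  · right
    refine (vertical_countable (convex_ball c r).isPreconnected hGan h).mono ?_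
    rintro t ⟨ht, ht'⟩
    refine ⟨ht, fun y => ?_⟩
    by_contra hne
    exact ht' ⟨y, hne⟩
  · left
    have : {t | t ∈ ball c r ∧ γ t ∈ {x | ∃ y, F (x, y) ≠ 0}} = ∅ := by
      rw [eq_empty_iff_forall_notMem]
      rintro t ⟨ht, y, hy⟩
      exact h ⟨t, ht, y, hy⟩
    rw [this]; exact countable_empty

/-- Guarded projections preserve the disc dichotomy. -/
theorem DD.proj {F : E × ℂ → ℂ} (hF : AnalyticOnNhd ℂ F univ) (hG : FO F) {S : Set (E × ℂ)}
    (hS : DD S) : DD {x | (∃ y, F (x, y) ≠ 0) ∧ ∃ y, F (x, y) = 0 ∧ (x, y) ∈ S} := by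
  intro γ c r hγ
  set G : ℂ × ℂ → ℂ := fun p => F (γ p.1, p.2) with hGdef
  have hGan : AnalyticOnNhd ℂ G (ball c r ×ˢ univ) := by
    rintro ⟨t, y⟩ ⟨ht, _⟩
    have h1 : AnalyticAt ℂ (fun p : ℂ × ℂ => (γ p.1, p.2)) (t, y) :=
      (AnalyticAt.comp (g := γ) (hγ t ht) analyticAt_fst).prod analyticAt_snd
    exact AnalyticAt.comp (g := F) (hF _ (mem_univ _)) h1
  by_cases h : ∃ t ∈ ball c r, ∃ y, G (t, y) ≠ 0
  swap
  · left
    have : {t | t ∈ ball c r ∧ γ t ∈ {x | (∃ y, F (x, y) ≠ 0) ∧ ∃ y, F (x, y) = 0 ∧ (x, y) ∈ S}} = ∅ := by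
      rw [eq_empty_iff_forall_notMem]
      rintro t ⟨ht, ⟨y, hy⟩, _⟩
      exact h ⟨t, ht, y, hy⟩
    rw [this]; exact countable_empty
  have hGfo : FinOrd (ball c r) G := by
    intro t₀ ht₀
    obtain ⟨δ, hδ, C, ρ, hb⟩ := hG (γ t₀)
    have hc : ContinuousAt γ t₀ := (hγ t₀ ht₀).continuousAt
    obtain ⟨δ', hδ', hs⟩ := Metric.eventually_nhds_iff_ball.1 (hc.eventually_mem (ball_mem_nhds _ hδ))
    exact ⟨δ', hδ', C, ρ, fun t ht y => hb (γ t) (hs t ht) y⟩
  have hSγ : BD (ball c r) {p | (γ p.1, p.2) ∈ S} := by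
    intro γ' c' r' hγ' hsub
    refine hS (fun s => (γ (γ' s).1, (γ' s).2)) c' r' fun s hs => ?_
    have e1 : AnalyticAt ℂ (fun s => (γ' s).1) s := analyticAt_fst.comp (hγ' s hs)
    have e2 : AnalyticAt ℂ (fun s => (γ' s).2) s := analyticAt_snd.comp (hγ' s hs)
    exact (AnalyticAt.comp (g := γ) (f := fun s => (γ' s).1) (hγ _ (hsub s hs)) e1).prod e2
  have hv := vertical_countable (convex_ball c r).isPreconnected hGan h
  rcases main_K isOpen_ball (convex_ball c r).isPreconnected hGan h hGfo hSγ with h1 | h1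
  · left
    refine h1.mono ?_
    rintro t ⟨ht, _, y, hy1, hy2⟩
    exact ⟨ht, y, hy1, hy2⟩
  · right
    refine (h1.union hv).mono ?_
    rintro t ⟨ht, ht'⟩
    by_cases hne : ∃ y, F (γ t, y) ≠ 0
    · left
      refine ⟨ht, fun ⟨y, hy1, hy2⟩ => ht' ⟨hne, y, hy1, hy2⟩⟩
    · right
      push Not at hne
      exact ⟨ht, hne⟩

end DDbasic

end Pool.Agent.Helper23.QM
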