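import Mathlib
import Pool.Agent.Helper23.QMg

set_option autoImplicit false

open Set Metric Filter Topology

namespace Pool.Agent.Helper23.QM

lemma succ_le_encard_iff {α : Type*} (A : Set α) (n : ℕ) :
    ((n + 1 : ℕ) : ℕ∞) ≤ A.encard ↔ ∃ y ∈ A, (n : ℕ∞) ≤ (A \ {y}).encard := by
  have hcancel : ∀ y ∈ A, ((n + 1 : ℕ) : ℕ∞) ≤ A.encard ↔ (n : ℕ∞) ≤ (A \ {y}).encard := by
    intro y hy
    rw [← encard_sdiff_singleton_add_one hy, Nat.cast_add, Nat.cast_one]
    exact ENat.add_le_add_iff_right ENat.one_ne_top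
  constructor
  · intro h
    have hne : A.Nonempty := by
      rw [nonempty_iff_ne_empty]
      rintro rfl
      rw [encard_empty] at h
      have : ((n + 1 : ℕ) : ℕ∞) ≠ 0 := by exact_mod_cast (Nat.succ_ne_zero n)
      exact this (nonpos_iff_eq_zero.1 h)
    obtain ⟨y, hy⟩ := hne
    exact ⟨y, hy, (hcancel y hy).1 h⟩
  · rintro ⟨y, hy, h⟩
    exact (hcancel y hy).2 h

/-- Counting quantifiers over the zeros of countably many finite order functions. -/
theorem DD.count (n : ℕ) : ∀ (E : Type) [NormedAddCommGroup E] [NormedSpace ℂ E] (f : ℕ → E × ℂ → ℂ),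
    (∀ i, AnalyticOnNhd ℂ (f i) univ) → (∀ i, FO (f i)) → ∀ S : Set (E × ℂ), DD S →
    DD {x : E | (∀ i, ∃ y, f i (x, y) ≠ 0) ∧
      (n : ℕ∞) ≤ {y | (∃ i, f i (x, y) = 0) ∧ (x, y) ∈ S}.encard} := by
  induction n with
  | zero =>
    intro E _ _ f hf _ S _
    have : {x : E | (∀ i, ∃ y, f i (x, y) ≠ 0) ∧
        ((0 : ℕ) : ℕ∞) ≤ {y | (∃ i, f i (x, y) = 0) ∧ (x, y) ∈ S}.encard} =
        ⋂ i, {x : E | ∃ y, f i (x, y) ≠ 0} := by
      ext x; simp
    rw [this]
    exact DD.iInter fun i => DD.nonvertical (hf i)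
  | succ n ih =>
    intro E _ _ f hf hFO S hS
    -- the auxiliary set of pairs
    set P : Set (E × ℂ) := {p | (∀ i, ∃ y, f i (p.1, y) ≠ 0) ∧
      (n : ℕ∞) ≤ {y | (∃ i, f i (p.1, y) = 0) ∧ ((p.1, y) ∈ S ∧ y ≠ p.2)}.encard} with hP
    have hPD : DD P := by
      have hfst : AnalyticOnNhd ℂ (fun q : (E × ℂ) × ℂ => (q.1.1, q.2)) univ := fun q _ =>
        (analyticAt_fst.comp analyticAt_fst).prod analyticAt_snd
      have h1 : ∀ i, AnalyticOnNhd ℂ (fun q : (E × ℂ) × ℂ => f i (q.1.1, q.2)) univ := fun i q _ =>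
        AnalyticAt.comp (g := f i) (hf i _ (mem_univ _)) (hfst q (mem_univ _))
      have h2 : ∀ i, FO (fun q : (E × ℂ) × ℂ => f i (q.1.1, q.2)) := by
        intro i x₀
        obtain ⟨δ, hδ, C, ρ, hb⟩ := hFO i x₀.1
        refine ⟨δ, hδ, C, ρ, fun x hx y => hb x.1 ?_ y⟩
        rw [mem_ball, Prod.dist_eq] at hx
        exact mem_ball.2 (lt_of_le_of_lt (le_max_left _ _) hx)
      have h3 : DD {q : (E × ℂ) × ℂ | (q.1.1, q.2) ∈ S ∧ q.2 ≠ q.1.2} := by
        have e1 : DD {q : (E × ℂ) × ℂ | (q.1.1, q.2) ∈ S} := hS.comp hfst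
        have e2 : DD {q : (E × ℂ) × ℂ | q.2 - q.1.2 = 0} := DD.zero fun q _ =>
          analyticAt_snd.sub (analyticAt_snd.comp analyticAt_fst)
        have e3 : {q : (E × ℂ) × ℂ | (q.1.1, q.2) ∈ S ∧ q.2 ≠ q.1.2} =
            {q : (E × ℂ) × ℂ | (q.1.1, q.2) ∈ S} ∩ {q : (E × ℂ) × ℂ | q.2 - q.1.2 = 0}ᶜ := by
          ext q; simp [sub_eq_zero]
        rw [e3]; exact e1.inter e2.compl
      exact ih (E × ℂ) (fun i q => f i (q.1.1, q.2)) h1 h2 _ h3
    have hset : {x : E | (∀ i, ∃ y, f i (x, y) ≠ 0) ∧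
        ((n + 1 : ℕ) : ℕ∞) ≤ {y | (∃ i, f i (x, y) = 0) ∧ (x, y) ∈ S}.encard} =
        ⋃ i, {x : E | (∃ y, f i (x, y) ≠ 0) ∧ ∃ y, f i (x, y) = 0 ∧ (x, y) ∈ S ∩ P} := by
      ext x
      simp only [mem_ofPred_eq, mem_iUnion, mem_inter_iff]
      rw [succ_le_encard_iff]
      have hsub : ∀ y, ({y | (∃ i, f i (x, y) = 0) ∧ (x, y) ∈ S} \ {y}) =
          {y' | (∃ i, f i (x, y') = 0) ∧ ((x, y') ∈ S ∧ y' ≠ y)} := by
        intro y; ext y'; simp [and_assoc]
      constructor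
      · rintro ⟨hne, y, ⟨⟨i, hi⟩, hyS⟩, hn⟩
        rw [hsub] at hn
        exact ⟨i, hne i, y, hi, hyS, hne, hn⟩
      · rintro ⟨i, _, y, hi, hyS, hne, hn⟩
        refine ⟨hne, y, ⟨⟨i, hi⟩, hyS⟩, ?_⟩
        rw [hsub]; exact hn
    rw [hset]
    exact DD.iUnion fun i => DD.proj (hf i) (hFO i) (hS.inter hPD)

/-- Finite order of growth in each of the two variables, uniformly for bounded values of the other
variable. -/
def FiniteOrder (f : ℂ × ℂ → ℂ) : Prop :=
  (∀ r : ℝ, ∃ (C : ℝ) (ρ : ℕ), ∀ x y : ℂ, ‖x‖ ≤ r → ‖f (x, y)‖ ≤ Real.exp (C * (1 + ‖y‖) ^ ρ)) ∧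
  (∀ r : ℝ, ∃ (C : ℝ) (ρ : ℕ), ∀ x y : ℂ, ‖y‖ ≤ r → ‖f (x, y)‖ ≤ Real.exp (C * (1 + ‖x‖) ^ ρ))

lemma FiniteOrder.swap {f : ℂ × ℂ → ℂ} (h : FiniteOrder f) : FiniteOrder (fun p => f p.swap) :=
  ⟨fun r => by
    obtain ⟨C, ρ, h'⟩ := h.2 r
    exact ⟨C, ρ, fun x y hx => h' y x hx⟩, fun r => by
    obtain ⟨C, ρ, h'⟩ := h.1 r
    exact ⟨C, ρ, fun x y hx => h' y x hx⟩⟩

lemma FiniteOrder.FO {f : ℂ × ℂ → ℂ} (h : FiniteOrder f) : FO f := by
  intro x₀
  obtain ⟨C, ρ, h'⟩ := h.1 (‖x₀‖ + 1)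
  refine ⟨1, one_pos, C, ρ, fun x hx y => h' x y ?_⟩
  have h1 : ‖x - x₀‖ < 1 := by rwa [← dist_eq_norm]
  have h2 := norm_sub_norm_le x x₀
  linarith

lemma finiteOrder_sub_const (a : ℂ) : FiniteOrder (fun p => p.1 - a) := by
  have key : ∀ t : ℝ, 0 ≤ t → t + ‖a‖ ≤ Real.exp ((1 + ‖a‖) * (1 + t) ^ 1) := by
    intro t ht
    have h1 := Real.add_one_le_exp ((1 + ‖a‖) * (1 + t) ^ 1)
    have h2 : 0 ≤ ‖a‖ := norm_nonneg a
    nlinarith [mul_nonneg h2 ht]
  refine ⟨fun r => ?_, fun r => ?_⟩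
  · refine ⟨(1 + ‖a‖) * (1 + |r|), 0, fun x y hx => ?_⟩
    have h1 : ‖x - a‖ ≤ ‖x‖ + ‖a‖ := norm_sub_le x a
    have h2 := key |r| (abs_nonneg r)
    have h3 : ‖x‖ ≤ |r| := hx.trans (le_abs_self r)
    simp only [pow_one] at h2
    simp only [pow_zero, mul_one]
    linarith
  · refine ⟨1 + ‖a‖, 1, fun x y _ => ?_⟩
    have h1 : ‖x - a‖ ≤ ‖x‖ + ‖a‖ := norm_sub_le x a
    exact h1.trans (key ‖x‖ (norm_nonneg x))

/-- The normal form: constant outside countably many zero sets, and dichotomy along discs. -/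
def NF (S : Set (ℂ × ℂ)) : Prop :=
  DD S ∧ ∃ (f : ℕ → ℂ × ℂ → ℂ) (b : Prop), (∀ i, AnalyticOnNhd ℂ (f i) univ ∧ FiniteOrder (f i) ∧
    ∃ p, f i p ≠ 0) ∧ ∀ p, (∀ i, f i p ≠ 0) → (p ∈ S ↔ b)

lemma NF.zero {f : ℂ × ℂ → ℂ} (hf : AnalyticOnNhd ℂ f univ) (hfo : FiniteOrder f) : NF {p | f p = 0} := by
  refine ⟨DD.zero hf, ?_⟩
  by_cases h : ∃ p, f p ≠ 0
  · exact ⟨fun _ => f, False, fun _ => ⟨hf, hfo, h⟩, fun p hp => by simpa using hp 0⟩
  · push Not at h
    refine ⟨fun _ p => p.1 - 0, True, fun _ => ⟨fun p _ => analyticAt_fst.sub analyticAt_const,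
      finiteOrder_sub_const 0, (1, 0), by simp⟩, fun p _ => by simp [h p]⟩

lemma NF.compl {S : Set (ℂ × ℂ)} (hS : NF S) : NF Sᶜ := by
  obtain ⟨h, f, b, h1, h2⟩ := hS
  exact ⟨h.compl, f, ¬ b, h1, fun p hp => not_congr (h2 p hp)⟩

lemma NF.iUnion {S : ℕ → Set (ℂ × ℂ)} (hS : ∀ i, NF (S i)) : NF (⋃ i, S i) := by
  refine ⟨DD.iUnion fun i => (hS i).1, ?_⟩
  choose f b h1 h2 using fun i => (hS i).2
  refine ⟨fun n => f n.unpair.1 n.unpair.2, ∃ i, b i, fun n => h1 _ _, fun p hp => ?_⟩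
  rw [mem_iUnion]
  refine exists_congr fun i => h2 i p fun j => ?_
  have := hp (Nat.pair i j)
  simpa using this

lemma NF.swap {S : Set (ℂ × ℂ)} (hS : NF S) : NF (Prod.swap ⁻¹' S) := by
  obtain ⟨h, f, b, h1, h2⟩ := hS
  have hsw : AnalyticOnNhd ℂ (Prod.swap : ℂ × ℂ → ℂ × ℂ) univ := fun p _ => analyticAt_snd.prod analyticAt_fst
  refine ⟨h.comp hsw, fun i p => f i p.swap, b, fun i => ⟨fun p _ => ?_, (h1 i).2.1.swap, ?_⟩, fun p hp => h2 _ hp⟩
  · exact AnalyticAt.comp (g := f i) ((h1 i).1 _ (mem_univ _)) (hsw p (mem_univ _))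
  · obtain ⟨p, hp⟩ := (h1 i).2.2
    exact ⟨p.swap, by simpa using hp⟩

/-- Sets depending on the first coordinate only, countable or cocountable. -/
lemma NF.cyl {T : Set ℂ} (hT : T.Countable ∨ Tᶜ.Countable) : NF {p : ℂ × ℂ | p.1 ∈ T} := by
  have key : ∀ T : Set ℂ, T.Countable → NF {p : ℂ × ℂ | p.1 ∈ T} := by
    intro T hT
    have hT' : (insert 0 T).Countable := hT.insert 0
    obtain ⟨a, ha⟩ := hT'.exists_eq_range ⟨0, mem_insert _ _⟩
    constructor
    · have : {p : ℂ × ℂ | p.1 ∈ T} = ⋃ x : T, {p : ℂ × ℂ | p.1 - x = 0} := by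
        ext p
        simp only [mem_ofPred_eq, mem_iUnion, Subtype.exists, exists_prop, sub_eq_zero]
        exact ⟨fun h => ⟨p.1, h, rfl⟩, fun ⟨x, hx, he⟩ => he ▸ hx⟩
      rw [this]
      have : Countable T := hT.to_subtype
      exact DD.iUnion fun x => DD.zero fun p _ => analyticAt_fst.sub analyticAt_const
    · refine ⟨fun n p => p.1 - a n, False, fun n => ⟨fun p _ => analyticAt_fst.sub analyticAt_const,
        finiteOrder_sub_const (a n), (a n + 1, 0), by simp⟩, fun p hp => ?_⟩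
      simp only [mem_ofPred_eq, iff_false]
      intro hpT
      have : p.1 ∈ range a := ha ▸ mem_insert_of_mem _ hpT
      obtain ⟨n, hn⟩ := this
      exact hp n (by show p.1 - a n = 0; rw [hn, sub_self])
  rcases hT with h | h
  · exact key T h
  · have := (key Tᶜ h).compl
    have e : {p : ℂ × ℂ | p.1 ∈ Tᶜ}ᶜ = {p : ℂ × ℂ | p.1 ∈ T} := by ext p; simp
    rwa [e] at this

open Cardinal in
/-- The cardinality of the fibres is constant outside a countable set. -/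
theorem NF.card_const {S : Set (ℂ × ℂ)} (hS : NF S) :
    ∃ κ : Cardinal, {x : ℂ | Cardinal.mk {y // (x, y) ∈ S} ≠ κ}.Countable := by
  obtain ⟨hD, f, b, h1, h2⟩ := hS
  set X₀ : Set ℂ := ⋃ i, {x | x ∈ (univ : Set ℂ) ∧ ∀ y, f i (x, y) = 0} with hX₀
  have hX₀c : X₀.Countable := countable_iUnion fun i => by
    obtain ⟨⟨x, y⟩, hp⟩ := (h1 i).2.2
    exact vertical_countable (U₀ := univ) isPreconnected_univ (by rw [univ_prod_univ]; exact (h1 i).1)
      ⟨x, mem_univ _, y, hp⟩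
  have hX₀n : ∀ x, x ∉ X₀ → ∀ i, ∃ y, f i (x, y) ≠ 0 := by
    intro x hx i
    by_contra hcon
    push Not at hcon
    exact hx (mem_iUnion.2 ⟨i, mem_univ _, hcon⟩)
  -- the fibres of the exceptional set are countable
  have hGc : ∀ x, x ∉ X₀ → {y | ∃ i, f i (x, y) = 0}.Countable := by
    intro x hx
    have : {y | ∃ i, f i (x, y) = 0} = ⋃ i, {y | y ∈ (univ : Set ℂ) ∧ f i (x, y) = 0} := by
      ext y; simp
    rw [this]
    refine countable_iUnion fun i => ?_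
    have hfan : AnalyticOnNhd ℂ (fun y => f i (x, y)) univ := by
      intro y _
      have : AnalyticAt ℂ (fun y : ℂ => (x, y)) y := analyticAt_const.prod analyticAt_id
      exact AnalyticAt.comp (g := f i) ((h1 i).1 _ (mem_univ _)) this
    obtain ⟨y, hy⟩ := hX₀n x hx i
    exact countable_zeros hfan isPreconnected_univ ⟨y, mem_univ _, hy⟩
  by_cases hb : b
  · -- generic value true: the fibres have the cardinality of the continuum
    refine ⟨#ℂ, hX₀c.mono ?_⟩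
    intro x hx
    by_contra hxX
    apply hx
    have hsub : {y | (x, y) ∈ S}ᶜ ⊆ {y | ∃ i, f i (x, y) = 0} := by
      intro y hy
      by_contra hcon
      apply hy
      refine (h2 (x, y) fun i h0 => hcon ⟨i, h0⟩).2 hb
    have hc : ({y | (x, y) ∈ S}ᶜ).Countable := (hGc x hxX).mono hsub
    have h3 : #({y | (x, y) ∈ S}ᶜ : Set ℂ) < #ℂ := by
      refine lt_of_le_of_lt (Cardinal.le_aleph0_iff_set_countable.2 hc) ?_
      rw [Cardinal.mk_complex]
      exact Cardinal.aleph0_lt_continuum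
    have h4 := Cardinal.mk_compl_of_infinite ({y | (x, y) ∈ S}ᶜ) h3
    rw [compl_compl] at h4
    exact h4
  · -- generic value false
    set D : ℕ → Set ℂ := fun n => {x : ℂ | (∀ i, ∃ y, f i (x, y) ≠ 0) ∧
      (n : ℕ∞) ≤ {y | (∃ i, f i (x, y) = 0) ∧ (x, y) ∈ S}.encard} with hDdef
    have hDD : ∀ n, DD (D n) := fun n =>
      DD.count n ℂ f (fun i => (h1 i).1) (fun i => (h1 i).2.1.FO) S hD
    have hfib : ∀ x, {y | (∃ i, f i (x, y) = 0) ∧ (x, y) ∈ S} = {y | (x, y) ∈ S} := by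
      intro x
      ext y
      refine ⟨fun h => h.2, fun h => ⟨?_, h⟩⟩
      by_contra hcon
      push Not at hcon
      exact hb ((h2 (x, y) hcon).1 h)
    have hunc : ¬ (univ : Set ℂ).Countable := not_countable_complex
    have hD0 : (D 0)ᶜ.Countable := by
      refine hX₀c.mono ?_
      intro x hx
      by_contra hxX
      exact hx ⟨hX₀n x hxX, by simp⟩
    by_cases hall : ∀ n, (D n)ᶜ.Countable
    · refine ⟨ℵ₀, ((countable_iUnion hall).union hX₀c).mono ?_⟩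
      intro x hx
      by_contra hcon
      apply hx
      have hx0 : x ∉ X₀ := fun h => hcon (Or.inr h)
      have hxn : ∀ n : ℕ, (n : ℕ∞) ≤ {y | (x, y) ∈ S}.encard := by
        intro n
        have : x ∈ D n := by
          by_contra h
          exact hcon (Or.inl (mem_iUnion.2 ⟨n, h⟩))
        rw [← hfib]; exact this.2
      have htop : {y | (x, y) ∈ S}.encard = ⊤ := ENat.eq_top_iff_forall_ge.2 hxn
      have hinf : {y | (x, y) ∈ S}.Infinite := encard_eq_top_iff.1 htop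
      have hcount : {y | (x, y) ∈ S}.Countable := by
        rw [← hfib]; exact (hGc x hx0).mono fun y hy => hy.1
      have : Infinite {y // (x, y) ∈ S} := hinf.to_subtype
      have : Countable {y // (x, y) ∈ S} := hcount.to_subtype
      exact Cardinal.mk_eq_aleph0 _
    · have hex : ∃ n, (D n).Countable := by
        push Not at hall
        obtain ⟨n, hn⟩ := hall
        exact ⟨n, (hDD n).dichotomy.resolve_right hn⟩
      classical
      have hfind := Nat.find_spec hex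
      have hmin : ∀ m < Nat.find hex, ¬ (D m).Countable := fun m hm => Nat.find_min hex hm
      have hne0 : Nat.find hex ≠ 0 := by
        intro h
        rw [h] at hfind
        apply hunc
        refine (hfind.union hD0).mono ?_
        intro x _
        by_cases hx : x ∈ D 0
        · exact Or.inl hx
        · exact Or.inr hx
      obtain ⟨M, hM⟩ := Nat.exists_eq_succ_of_ne_zero hne0
      have hDM : (D M)ᶜ.Countable := (hDD M).dichotomy.resolve_left (hmin M (by omega))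
      rw [hM] at hfind
      refine ⟨(M : Cardinal), ((hfind.union hDM).union hX₀c).mono ?_⟩
      intro x hx
      by_contra hcon
      apply hx
      have hx0 : x ∉ X₀ := fun h => hcon (Or.inr h)
      have hxM : x ∈ D M := by
        by_contra h
        exact hcon (Or.inl (Or.inr h))
      have hxM' : x ∉ D (M + 1) := fun h => hcon (Or.inl (Or.inl h))
      have e1 : (M : ℕ∞) ≤ {y | (x, y) ∈ S}.encard := by rw [← hfib]; exact hxM.2
      have e2 : {y | (x, y) ∈ S}.encard < ((M + 1 : ℕ) : ℕ∞) := by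
        rw [← hfib]
        by_contra h
        exact hxM' ⟨hX₀n x hx0, not_lt.1 h⟩
      have e3 : {y | (x, y) ∈ S}.encard = (M : ℕ∞) := by
        refine le_antisymm ?_ e1
        rw [Nat.cast_add, Nat.cast_one] at e2
        exact ENat.lt_add_one_iff (by exact ENat.natCast_ne_top M) |>.1 e2
      have hfin : {y | (x, y) ∈ S}.Finite := by
        rw [← encard_ne_top_iff, e3]; exact ENat.natCast_ne_top M
      have e4 : {y | (x, y) ∈ S}.ncard = M := by
        have := hfin.cast_ncard_eq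
        rw [e3] at this
        exact_mod_cast this
      have e5 : ((({y | (x, y) ∈ S} : Set ℂ).ncard : ℕ) : Cardinal) = #({y | (x, y) ∈ S} : Set ℂ) :=
        Set.cast_ncard hfin
      rw [e4] at e5
      exact e5.symm

/-- Cylinders over cardinality conditions on the fibres. -/
theorem NF.card {S : Set (ℂ × ℂ)} (hS : NF S) (K : Set Cardinal) :
    NF {p : ℂ × ℂ | Cardinal.mk {y // (p.1, y) ∈ S} ∈ K} := by
  obtain ⟨κ, hκ⟩ := hS.card_const
  have : {p : ℂ × ℂ | Cardinal.mk {y // (p.1, y) ∈ S} ∈ K} =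
      {p : ℂ × ℂ | p.1 ∈ {x : ℂ | Cardinal.mk {y // (x, y) ∈ S} ∈ K}} := rfl
  rw [this]
  apply NF.cyl
  by_cases hK : κ ∈ K
  · right
    refine hκ.mono ?_
    intro x hx h
    apply hx
    show Cardinal.mk {y // (x, y) ∈ S} ∈ K
    rw [h]; exact hK
  · left
    refine hκ.mono ?_
    intro x hx h
    apply hK
    have : Cardinal.mk {y // (x, y) ∈ S} ∈ K := hx
    rwa [h] at this

end Pool.Agent.Helper23.QM
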