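import Mathlib

/-!
Definitions for a fragment of the infinitary logic of entire functions with the quantifier
expressing that there are uncountably many values of a variable, and with cardinality
quantifiers controlled by zero sets of finite order.
-/

namespace Pool.Agent.Helper23.Guarded

/-- `F : ℂ^(n+1) → ℂ` has finite order of growth in its first variable `y`, locally uniformly
in the remaining variables `x ∈ ℂ^n`: near every `x₀` one has `|F(y, x)| ≤ exp (C (1 + |y|)^ρ)`
for all `y`, with constants `C`, `ρ` which may depend on `x₀`. -/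
def FiniteOrderFirst {n : ℕ} (F : (Fin (n + 1) → ℂ) → ℂ) : Prop :=
  ∀ x₀ : Fin n → ℂ, ∃ δ > 0, ∃ (C : ℝ) (ρ : ℕ), ∀ x ∈ Metric.ball x₀ δ, ∀ y : ℂ,
    ‖F (Fin.cons y x)‖ ≤ Real.exp (C * (1 + ‖y‖) ^ ρ)

/-- The union of the zero sets of those functions `F i (·, x)` which are not identically zero. -/
def zerosAt {n : ℕ} (F : ℕ → (Fin (n + 1) → ℂ) → ℂ) (x : Fin n → ℂ) : Set ℂ :=
  {y | ∃ i, F i (Fin.cons y x) = 0 ∧ ∃ z : ℂ, F i (Fin.cons z x) ≠ 0}

/-- The smallest family of subsets of the spaces `ℂ^n` which contains the zero sets of entire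
functions and is closed under complements, countable unions, the quantifier
`there are uncountably many y`, and the quantifiers `the cardinality of the set of all y with
(y, x) in S is in K`, for any class `K` of cardinals, the latter applied to sets `S` controlled
by countably many entire functions `F i` of finite order in `y`: for every `x`, the fibre of `S`
over `x` or its complement is contained in `zerosAt F x`. -/
inductive Def : (n : ℕ) → Set (Fin n → ℂ) → Prop
  | zeroSet {n : ℕ} (f : (Fin n → ℂ) → ℂ) (hf : AnalyticOnNhd ℂ f Set.univ) :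
      Def n {x | f x = 0}
  | compl {n : ℕ} {S : Set (Fin n → ℂ)} (hS : Def n S) : Def n Sᶜ
  | iUnion {n : ℕ} {S : ℕ → Set (Fin n → ℂ)} (hS : ∀ i, Def n (S i)) : Def n (⋃ i, S i)
  | uncountablyMany {n : ℕ} {S : Set (Fin (n + 1) → ℂ)} (hS : Def (n + 1) S) :
      Def n {x | ¬ {y : ℂ | Fin.cons y x ∈ S}.Countable}
  | controlledCard {n : ℕ} (K : Set Cardinal.{0}) (F : ℕ → (Fin (n + 1) → ℂ) → ℂ)
      (hF : ∀ i, AnalyticOnNhd ℂ (F i) Set.univ) (hG : ∀ i, FiniteOrderFirst (F i))
      {S : Set (Fin (n + 1) → ℂ)} (hS : Def (n + 1) S)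
      (hc : ∀ x : Fin n → ℂ, {y : ℂ | Fin.cons y x ∈ S} ⊆ zerosAt F x ∨
        {y : ℂ | Fin.cons y x ∉ S} ⊆ zerosAt F x) :
      Def n {x | Cardinal.mk {y : ℂ // Fin.cons y x ∈ S} ∈ K}

end Pool.Agent.Helper23.Guarded
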