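import Mathlib

/-!
Definitions for the positive existential fragment of the infinitary logic of entire functions,
with nondegenerate equations of finite order in the quantified block of variables.
-/

namespace Pool.Agent.Helper23.Positive

/-- `F : ℂ^(n+m) → ℂ` has finite order of growth in its last `m` variables `y`, locally uniformly
in the first `n` variables `x`: near every `x₀` one has `|F(x, y)| ≤ exp (C (1 + |y|)^ρ)`
for all `y`, with constants `C`, `ρ` which may depend on `x₀`. -/
def FiniteOrderLast {n m : ℕ} (F : (Fin (n + m) → ℂ) → ℂ) : Prop :=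
  ∀ x₀ : Fin n → ℂ, ∃ δ > 0, ∃ (C : ℝ) (ρ : ℕ), ∀ x ∈ Metric.ball x₀ δ, ∀ y : Fin m → ℂ,
    ‖F (Fin.append x y)‖ ≤ Real.exp (C * (1 + ‖y‖) ^ ρ)

/-- The smallest family of subsets of the spaces `ℂ^n` which contains the sets `{f ≠ 0}` with `f`
entire and is closed under countable intersections, arbitrary unions, preimages under entire
maps, unrestricted existential quantification over any number of variables, and existential
quantification over the zeros `y ∈ ℂ^m` of an entire function `F(x, ·)` of finite order, for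
those `x` for which `F(x, ·)` is not identically zero. -/
inductive Pos : (n : ℕ) → Set (Fin n → ℂ) → Prop
  | nonzero {n : ℕ} (f : (Fin n → ℂ) → ℂ) (hf : AnalyticOnNhd ℂ f Set.univ) :
      Pos n {x | f x ≠ 0}
  | iInter {n : ℕ} {S : ℕ → Set (Fin n → ℂ)} (hS : ∀ i, Pos n (S i)) : Pos n (⋂ i, S i)
  | iUnion {n : ℕ} {ι : Type} {S : ι → Set (Fin n → ℂ)} (hS : ∀ i, Pos n (S i)) :
      Pos n (⋃ i, S i)
  | preimage {n m : ℕ} (φ : (Fin n → ℂ) → Fin m → ℂ) (hφ : AnalyticOnNhd ℂ φ Set.univ)
      {S : Set (Fin m → ℂ)} (hS : Pos m S) : Pos n (φ ⁻¹' S)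
  | ex {n m : ℕ} {S : Set (Fin (n + m) → ℂ)} (hS : Pos (n + m) S) :
      Pos n {x | ∃ y : Fin m → ℂ, Fin.append x y ∈ S}
  | zeros {n m : ℕ} (F : (Fin (n + m) → ℂ) → ℂ) (hF : AnalyticOnNhd ℂ F Set.univ)
      (hG : FiniteOrderLast F) {S : Set (Fin (n + m) → ℂ)} (hS : Pos (n + m) S) :
      Pos n {x | (∃ y : Fin m → ℂ, F (Fin.append x y) ≠ 0) ∧
        ∃ y : Fin m → ℂ, F (Fin.append x y) = 0 ∧ Fin.append x y ∈ S}

end Pool.Agent.Helper23.Positive
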