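import Mathlib
import Pool.Agent.Helper23.QMg

set_option autoImplicit false

open Set Metric Filter Topology

namespace Pool.Agent.Helper23.QM

section PartO

variable {U₀ : Set ℂ} {F : ℂ × ℂ → ℂ}

/-- Hurwitz: zeros persist. -/
lemma hurwitz (hU₀ : IsOpen U₀) (hF : AnalyticOnNhd ℂ F (U₀ ×ˢ univ)) {x₀ : ℂ} (hx₀ : x₀ ∈ U₀) {c y₀ : ℂ}
    {r : ℝ} (hy₀ : y₀ ∈ ball c r) (h0 : F (x₀, y₀) = 0) (hsph : ∀ y ∈ sphere c r, F (x₀, y) ≠ 0) :
    ∀ᶠ x in 𝓝 x₀, ∃ y ∈ ball c r, F (x, y) = 0 := by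
  have hr : 0 < r := lt_of_le_of_lt dist_nonneg (mem_ball.1 hy₀)
  -- minimum on the sphere
  have hcont : ContinuousOn (fun y => ‖F (x₀, y)‖) (sphere c r) := by
    have := (slice_analytic hF hx₀).continuousOn (s := univ)
    exact (this.mono (subset_univ _)).norm
  have hne : (sphere c r).Nonempty := NormedSpace.sphere_nonempty.2 hr.le
  obtain ⟨y₁, hy₁, hmin⟩ := (isCompact_sphere c r).exists_isMinOn hne hcont
  set m : ℝ := ‖F (x₀, y₁)‖ / 2 with hm
  have hmpos : 0 < m := by have := norm_pos_iff.2 (hsph y₁ hy₁); positivity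
  have h1 : ∀ᶠ x in 𝓝 x₀, ∀ y ∈ sphere c r, m < ‖F (x, y)‖ := by
    refine (isCompact_sphere c r).eventually_forall_of_forall_eventually (x₀ := x₀)
      (P := fun x y => m < ‖F (x, y)‖) ?_
    intro y hy
    have hle : ‖F (x₀, y₁)‖ ≤ ‖F (x₀, y)‖ := hmin hy
    refine (hF (x₀, y) ⟨hx₀, mem_univ _⟩).continuousAt.norm.eventually_const_lt ?_
    have := norm_pos_iff.2 (hsph y₁ hy₁)
    rw [hm]; linarith
  have h2 : ∀ᶠ x in 𝓝 x₀, ‖F (x, y₀)‖ < m := by
    have h3 : ContinuousAt (fun x : ℂ => (x, y₀)) x₀ := by fun_prop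
    have h4 : ContinuousAt (fun x => F (x, y₀)) x₀ :=
      ContinuousAt.comp (g := F) (hF (x₀, y₀) ⟨hx₀, mem_univ _⟩).continuousAt h3
    refine h4.norm.eventually_lt_const ?_
    show ‖F (x₀, y₀)‖ < m
    rw [h0, norm_zero]; exact hmpos
  filter_upwards [h1, h2, hU₀.eventually_mem hx₀] with x hx1 hx2 hxU
  by_contra hcon
  push Not at hcon
  have hnz : ∀ y ∈ closedBall c r, F (x, y) ≠ 0 := by
    intro y hy
    rcases eq_or_lt_of_le (mem_closedBall.1 hy) with h | h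
    · have := hx1 y (mem_sphere.2 h)
      intro h0
      rw [h0, norm_zero] at this
      linarith
    · exact hcon y (mem_ball.2 h)
  have hfan := slice_analytic hF hxU
  have hd : DiffContOnCl ℂ (fun y => (F (x, y))⁻¹) (ball c r) := by
    apply DifferentiableOn.diffContOnCl
    rw [closure_ball c hr.ne']
    intro y hy
    exact ((hfan y (mem_univ _)).differentiableAt.inv (hnz y hy)).differentiableWithinAt
  have hb := Complex.norm_le_of_forall_mem_frontier_norm_le (U := ball c r) isBounded_ball hd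
    (C := m⁻¹) (fun y hy => by
      rw [frontier_ball c hr.ne'] at hy
      rw [norm_inv]
      exact inv_anti₀ hmpos (hx1 y hy).le) (subset_closure hy₀)
  rw [norm_inv] at hb
  have h5 : 0 < ‖F (x, y₀)‖ := norm_pos_iff.2 (hcon y₀ hy₀)
  have h6 := (inv_le_inv₀ h5 hmpos).1 hb
  linarith

lemma BD.univ : BD U₀ (univ : Set (ℂ × ℂ)) := by
  intro γ c r _ _
  right
  have : {t | t ∈ ball c r ∧ γ t ∉ (Set.univ : Set (ℂ × ℂ))} = ∅ := by ext t; simp
  rw [this]; exact countable_empty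

/-- Over nonexceptional parameters all zeros are good for the full set. -/
lemma goodIn_univ {x : ℂ} (hx : x ∈ U₀) (hxE : x ∉ Exc U₀ F) (c : ℂ) (r : ℝ) :
    goodIn U₀ F univ x c r = {y | y ∈ ball c r ∧ F (x, y) = 0} := by
  ext y
  constructor
  · rintro ⟨h1, h2⟩
    exact ⟨h2, h1.zero⟩
  · rintro ⟨h1, h2⟩
    refine ⟨?_, h1⟩
    have hreg : Reg U₀ F x y := by
      by_contra hcon
      exact hxE ⟨hx, Or.inr ⟨y, h2, hcon⟩⟩
    obtain ⟨g, δ, η, hc⟩ := hreg
    refine ⟨g, δ, η, hc, ?_⟩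
    have : {x' | x' ∈ ball x δ ∧ (x', g x') ∉ (Set.univ : Set (ℂ × ℂ))} = ∅ := by ext t; simp
    rw [this]; exact countable_empty

open Polynomial in
/-- the monic polynomial with given simple roots -/
noncomputable def rootPoly (T : Finset ℂ) : ℂ[X] := ∏ y ∈ T, (X - C y)

lemma rootPoly_monic (T : Finset ℂ) : (rootPoly T).Monic :=
  Polynomial.monic_prod_of_monic _ _ fun y _ => Polynomial.monic_X_sub_C y

lemma rootPoly_natDegree (T : Finset ℂ) : (rootPoly T).natDegree = T.card := by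
  rw [rootPoly, Polynomial.natDegree_prod_of_monic _ _ fun y _ => Polynomial.monic_X_sub_C y]
  simp

lemma rootPoly_eval (T : Finset ℂ) (z : ℂ) : (rootPoly T).eval z = 0 ↔ z ∈ T := by
  rw [rootPoly, Polynomial.eval_prod, Finset.prod_eq_zero_iff]
  constructor
  · rintro ⟨y, hy, h⟩
    have : z = y := by simpa [sub_eq_zero] using h
    rw [this]; exact hy
  · intro h
    exact ⟨z, h, by simp⟩

lemma rootPoly_coeff_norm (T : Finset ℂ) {B : ℝ} (hB : 0 ≤ B) (hT : ∀ y ∈ T, ‖y‖ ≤ B) (j : ℕ) :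
    ‖(rootPoly T).coeff j‖ ≤ (1 + B) ^ T.card := by
  classical
  induction T using Finset.induction_on generalizing j with
  | empty =>
    simp only [rootPoly, Finset.prod_empty, Finset.card_empty, pow_zero]
    rw [Polynomial.coeff_one]
    split_ifs <;> simp
  | insert a T ha ih =>
    have hT' : ∀ y ∈ T, ‖y‖ ≤ B := fun y hy => hT y (Finset.mem_insert_of_mem hy)
    have haB := hT a (Finset.mem_insert_self a T)
    have e : rootPoly (insert a T) = (Polynomial.X - Polynomial.C a) * rootPoly T := by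
      rw [rootPoly, Finset.prod_insert ha, ← rootPoly]
    rw [e, sub_mul, Polynomial.coeff_sub, Polynomial.coeff_C_mul, Finset.card_insert_of_notMem ha, pow_succ]
    have h1 : ‖(Polynomial.X * rootPoly T).coeff j‖ ≤ (1 + B) ^ T.card := by
      cases j with
      | zero => simp; positivity
      | succ j => rw [Polynomial.coeff_X_mul]; exact ih hT' j
    have h2 : ‖a * (rootPoly T).coeff j‖ ≤ B * (1 + B) ^ T.card := by
      rw [norm_mul]; exact mul_le_mul haB (ih hT' j) (norm_nonneg _) hB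
    calc ‖(Polynomial.X * rootPoly T).coeff j - a * (rootPoly T).coeff j‖
        ≤ ‖(Polynomial.X * rootPoly T).coeff j‖ + ‖a * (rootPoly T).coeff j‖ := norm_sub_le _ _
      _ ≤ (1 + B) ^ T.card + B * (1 + B) ^ T.card := add_le_add h1 h2
      _ = (1 + B) ^ T.card * (1 + B) := by ring

lemma rootPoly_coeff_diff {J : Finset ℂ} {g : ℂ → ℂ → ℂ} {D : Set ℂ}
    (hg : ∀ w ∈ J, DifferentiableOn ℂ (g w) D) (j : ℕ) :
    DifferentiableOn ℂ (fun x => (∏ w ∈ J, (Polynomial.X - Polynomial.C (g w x))).coeff j) D := by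
  classical
  induction J using Finset.induction_on generalizing j with
  | empty => simp only [Finset.prod_empty]; exact differentiableOn_const _
  | insert a J ha ih =>
    have hJ : ∀ w ∈ J, DifferentiableOn ℂ (g w) D := fun w hw => hg w (Finset.mem_insert_of_mem hw)
    simp only [Finset.prod_insert ha, sub_mul, Polynomial.coeff_sub, Polynomial.coeff_C_mul]
    refine DifferentiableOn.sub ?_ ((hg a (Finset.mem_insert_self a J)).mul (ih hJ j))
    cases j with
    | zero => simp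
    | succ j => simp only [Polynomial.coeff_X_mul]; exact ih hJ j

/-- Cluster polynomial: the monic polynomial whose roots are the zeros in a disc extends
holomorphically. -/
lemma cluster (hU₀ : IsOpen U₀) (hF : AnalyticOnNhd ℂ F (U₀ ×ˢ univ))
    {x₀ c : ℂ} {r : ℝ} (hx₀ : x₀ ∈ U₀) (hne : ∃ y, F (x₀, y) ≠ 0)
    (hsph : ∀ y ∈ sphere c r, F (x₀, y) ≠ 0) :
    ∃ (δ : ℝ) (d : ℕ) (a : ℕ → ℂ → ℂ), 0 < δ ∧ ball x₀ δ ⊆ U₀ ∧ (∀ j, AnalyticOnNhd ℂ (a j) (ball x₀ δ)) ∧
      (Exc U₀ F ∩ ball x₀ δ).Countable ∧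
      ∀ x ∈ ball x₀ δ, x ∉ Exc U₀ F → ∃ T : Finset ℂ, T.card = d ∧
        (∀ y, y ∈ T ↔ y ∈ ball c r ∧ F (x, y) = 0) ∧ ∀ j, (rootPoly T).coeff j = a j x := by
  classical
  obtain ⟨δ, N, hδ, hsub, hne', hsph', hcard, hsum⟩ := holo_sum hU₀ hF (BD.univ) hx₀ hne hsph
  have hexc : (Exc U₀ F ∩ ball x₀ δ).Countable := by
    refine ((sing_countable hU₀ hF).image Prod.fst).mono ?_
    rintro x ⟨⟨hxU, hx⟩, hxb⟩
    rcases hx with h | ⟨y, h0, hreg⟩
    · obtain ⟨y, hy⟩ := hne' x hxb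
      exact absurd (h y) hy
    · exact ⟨(x, y), ⟨hxU, h0, hne' x hxb, hreg⟩, rfl⟩
  -- the number of zeros
  obtain ⟨H₀, hH₀an, hH₀⟩ := hsum δ le_rfl (fun _ => 1) (fun _ _ _ => analyticAt_const) ⟨1, fun _ _ _ => by simp⟩
  have hfin : ∀ x ∈ ball x₀ δ, (goodIn U₀ F univ x c r).Finite := fun x hx =>
    goodIn_finite hF (hsub hx) (hne' x hx) c r
  have hH₀card : ∀ x (hx : x ∈ ball x₀ δ), x ∉ Exc U₀ F → H₀ x = ((hfin x hx).toFinset.card : ℂ) := by
    intro x hx hxE
    rw [hH₀ x ⟨hx, hxE⟩, finsum_mem_eq_finite_toFinset_sum _ (hfin x hx)]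
    simp
  obtain ⟨d, hd⟩ : ∃ d : ℕ, ∀ x (hx : x ∈ ball x₀ δ), x ∉ Exc U₀ F → (hfin x hx).toFinset.card = d := by
    rcases hH₀an.is_constant_or_isOpen (convex_ball x₀ δ).isPreconnected with ⟨w, hw⟩ | hopen
    · by_cases hex : ∃ x₁ ∈ ball x₀ δ, x₁ ∉ Exc U₀ F
      · obtain ⟨x₁, hx₁, hx₁E⟩ := hex
        refine ⟨(hfin x₁ hx₁).toFinset.card, fun x hx hxE => ?_⟩
        have e1 := hH₀card x hx hxE
        have e2 := hH₀card x₁ hx₁ hx₁E
        rw [hw x hx] at e1
        rw [hw x₁ hx₁] at e2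
        rw [e1] at e2
        exact_mod_cast e2
      · push Not at hex
        exact ⟨0, fun x hx hxE => absurd (hex x hx) hxE⟩
    · exfalso
      have h1 := hopen (ball x₀ δ) subset_rfl isOpen_ball
      have h2 : (H₀ '' ball x₀ δ).Countable := by
        refine ((countable_range (fun n : ℕ => (n : ℂ))).union (hexc.image H₀)).mono ?_
        rintro _ ⟨x, hx, rfl⟩
        by_cases hxE : x ∈ Exc U₀ F
        · exact Or.inr ⟨x, ⟨hxE, hx⟩, rfl⟩
        · exact Or.inl ⟨_, (hH₀card x hx hxE).symm⟩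
      obtain ⟨ρ, hρ, hρs⟩ := Metric.isOpen_iff.1 h1 (H₀ x₀) ⟨x₀, mem_ball_self hδ, rfl⟩
      exact ball_not_countable hρ (h2.mono hρs)
  -- the coefficients
  set K : Set ℂ := {x | x ∈ ball x₀ δ ∧ ∃ y ∈ ball c r, F (x, y) = 0 ∧ ¬ Reg U₀ F x y} with hK
  have hKE : K ⊆ Exc U₀ F ∩ ball x₀ δ := fun x hx => by
    obtain ⟨hx1, y, _, h0, hr⟩ := hx
    exact ⟨⟨hsub hx1, Or.inr ⟨y, h0, hr⟩⟩, hx1⟩
  have hKc : K.Countable := hexc.mono hKE
  have hKE' : ∀ x ∈ ball x₀ δ, x ∉ K → ∀ y ∈ ball c r, F (x, y) = 0 → Reg U₀ F x y := by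
    intro x hx hxK y hy h0
    by_contra hcon
    exact hxK ⟨hx, y, hy, h0, hcon⟩
  have hcoef : ∀ j, ∃ a : ℂ → ℂ, AnalyticOnNhd ℂ a (ball x₀ δ) ∧
      ∀ x (hx : x ∈ ball x₀ δ), x ∉ Exc U₀ F → a x = (rootPoly (hfin x hx).toFinset).coeff j := by
    intro j
    set f : ℂ → ℂ := fun x => if hx : x ∈ ball x₀ δ then (rootPoly (hfin x hx).toFinset).coeff j else 0 with hf
    have hloc : ∀ x₁ ∈ ball x₀ δ \ K, ∃ ρ > 0, ball x₁ ρ ⊆ ball x₀ δ \ K ∧ DifferentiableOn ℂ f (ball x₁ ρ) := by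
      rintro x₁ ⟨hx₁, hx₁K⟩
      obtain ⟨ρ, J, g, hρ, ha, hb, hc, hd, he⟩ := local_structure hF (BD.univ) (hsub hx₁) (hne' x₁ hx₁)
        (hsph' x₁ hx₁) (hKE' x₁ hx₁ hx₁K)
      obtain ⟨ρ', hρ', hρ's⟩ := Metric.isOpen_iff.1 isOpen_ball x₁ hx₁
      refine ⟨min ρ ρ', lt_min hρ hρ', ?_, ?_⟩
      · intro x hx
        refine ⟨hρ's (ball_subset_ball (min_le_right _ _) hx), ?_⟩
        rintro ⟨_, y, hy, h0, hr⟩
        exact hr (he x (ball_subset_ball (min_le_left _ _) hx) y hy h0)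
      · have hdiff : DifferentiableOn ℂ (fun x => (∏ w ∈ J, (Polynomial.X - Polynomial.C (g w x))).coeff j)
            (ball x₁ (min ρ ρ')) :=
          rootPoly_coeff_diff (fun w hw => (ha w hw).differentiableOn.mono
            (ball_subset_ball (min_le_left _ _))) j
        refine hdiff.congr ?_
        intro x hx
        have hx' := ball_subset_ball (min_le_left _ _) hx
        have hxb : x ∈ ball x₀ δ := hρ's (ball_subset_ball (min_le_right _ _) hx)
        simp only [hf, hxb, dif_pos]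
        have himg : (hfin x hxb).toFinset = J.image (fun w => g w x) := by
          ext y
          rw [Finite.mem_toFinset, hd x hx', Finset.mem_image]
          simp
        rw [himg, rootPoly, Finset.prod_image]
        intro w hw w' hw' heq
        exact hc x hx' w hw w' hw' heq
    have hopen : IsOpen (ball x₀ δ \ K) := by
      rw [Metric.isOpen_iff]
      intro x hx
      obtain ⟨ρ, hρ, h1, _⟩ := hloc x hx
      exact ⟨ρ, hρ, h1⟩
    have hdiff : DifferentiableOn ℂ f (ball x₀ δ \ K) := by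
      intro x hx
      obtain ⟨ρ, hρ, _, h2⟩ := hloc x hx
      exact (h2.differentiableAt (ball_mem_nhds x hρ)).differentiableWithinAt
    have hbound : ∀ x ∈ ball x₀ δ \ K, ‖f x‖ ≤ (1 + (‖c‖ + |r|)) ^ N := by
      rintro x ⟨hx, _⟩
      simp only [hf, hx, dif_pos]
      have h1 := rootPoly_coeff_norm (hfin x hx).toFinset (B := ‖c‖ + |r|) (by positivity) (fun y hy => by
        rw [Finite.mem_toFinset] at hy
        have h2 := mem_ball.1 hy.2
        rw [dist_eq_norm] at h2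
        have h3 : ‖y‖ ≤ ‖y - c‖ + ‖c‖ := by simpa using norm_add_le (y - c) c
        have h4 := le_abs_self r
        linarith) j
      refine h1.trans (pow_le_pow_right₀ (by have := norm_nonneg c; have := abs_nonneg r; linarith) ?_)
      exact hcard x hx _ (fun y hy => by
        rw [Finite.mem_toFinset] at hy
        exact ⟨hy.2, hy.1.zero⟩)
    obtain ⟨H, hH1, hH2⟩ := removable_countable isOpen_ball hKc hopen hdiff hbound
    refine ⟨H, hH1, ?_⟩
    intro x hx hxE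
    rw [hH2 x ⟨hx, fun hxK => hxE (hKE hxK).1⟩]
    simp only [hf, hx, dif_pos]
  choose a ha1 ha2 using hcoef
  refine ⟨δ, d, a, hδ, hsub, ha1, hexc, ?_⟩
  intro x hx hxE
  refine ⟨(hfin x hx).toFinset, hd x hx hxE, ?_, fun j => (ha2 j x hx hxE).symm⟩
  intro y
  rw [Finite.mem_toFinset, goodIn_univ (hsub hx) hxE]
  rfl

end PartO

end Pool.Agent.Helper23.QM
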