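import Mathlib
import Pool.Agent.Helper23.QMj

set_option autoImplicit false

open Set Metric Filter Topology Polynomial

namespace Pool.Agent.Helper23.QM

/-- the monic polynomial of degree `d` with given lower coefficients -/
noncomputable def mkPoly (d : ℕ) (b : ℕ → ℂ) : ℂ[X] := X ^ d + ∑ j ∈ Finset.range d, C (b j) * X ^ j

lemma mkPoly_degree_lt (d : ℕ) (b : ℕ → ℂ) : (∑ j ∈ Finset.range d, C (b j) * X ^ j : ℂ[X]).degree < d := by
  rw [Polynomial.degree_lt_iff_coeff_zero]
  intro m hm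
  rw [finsetSum_coeff]
  apply Finset.sum_eq_zero
  intro j hj
  rw [coeff_C_mul, coeff_X_pow, if_neg, mul_zero]
  have := Finset.mem_range.1 hj
  omega

lemma mkPoly_monic (d : ℕ) (b : ℕ → ℂ) : (mkPoly d b).Monic := monic_X_pow_add (mkPoly_degree_lt d b)

lemma mkPoly_natDegree (d : ℕ) (b : ℕ → ℂ) : (mkPoly d b).natDegree = d := by
  apply natDegree_eq_of_degree_eq_some
  rw [mkPoly, degree_add_eq_left_of_degree_lt]
  · exact degree_X_pow d
  · rw [degree_X_pow]; exact mkPoly_degree_lt d b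

lemma mkPoly_coeff (d : ℕ) (b : ℕ → ℂ) {j : ℕ} (hj : j < d) : (mkPoly d b).coeff j = b j := by
  rw [mkPoly, coeff_add, coeff_X_pow, if_neg hj.ne, zero_add, finsetSum_coeff]
  rw [Finset.sum_eq_single j]
  · simp
  · intro i _ hij
    rw [coeff_C_mul, coeff_X_pow, if_neg hij.symm, mul_zero]
  · intro h
    exact absurd (Finset.mem_range.2 hj) h

lemma mkPoly_eval (d : ℕ) (b : ℕ → ℂ) (z : ℂ) :
    (mkPoly d b).eval z = z ^ d + ∑ j ∈ Finset.range d, b j * z ^ j := by
  rw [mkPoly, eval_add, eval_pow, eval_X, eval_finsetSum]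
  simp

lemma eq_mkPoly {P : ℂ[X]} {d : ℕ} (hP : P.Monic) (hd : P.natDegree = d) : P = mkPoly d P.coeff := by
  ext j
  rcases lt_trichotomy j d with h | h | h
  · rw [mkPoly_coeff d _ h]
  · subst h
    have h1 : P.coeff P.natDegree = 1 := hP.coeff_natDegree
    have h2 : (mkPoly P.natDegree P.coeff).coeff P.natDegree = 1 := by
      have := (mkPoly_monic P.natDegree P.coeff).coeff_natDegree
      rwa [mkPoly_natDegree] at this
    rw [← hd, h1, h2]
  · rw [coeff_eq_zero_of_natDegree_lt (by omega), coeff_eq_zero_of_natDegree_lt (by rw [mkPoly_natDegree]; omega)]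

/-- preimages of countable sets under powers -/
lemma pow_preimage_countable {E : Set ℂ} (hE : E.Countable) {k : ℕ} (hk : 1 ≤ k) :
    {s : ℂ | s ^ k ∈ E}.Countable := by
  have : {s : ℂ | s ^ k ∈ E} = ⋃ a ∈ E, {s | s ∈ (univ : Set ℂ) ∧ s ^ k - a = 0} := by
    ext s; simp [sub_eq_zero]
  rw [this]
  refine hE.biUnion fun a _ => ?_
  have han : AnalyticOnNhd ℂ (fun s : ℂ => s ^ k - a) univ := fun s _ =>
    (analyticAt_id.pow k).sub analyticAt_const
  refine countable_zeros han isPreconnected_univ ?_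
  by_cases ha : a = 0
  · exact ⟨1, mem_univ _, by simp [ha]⟩
  · refine ⟨0, mem_univ _, ?_⟩
    rw [zero_pow (by omega), zero_sub]
    exact neg_ne_zero.2 ha

/-- A continuous function vanishing off a countable set near a point vanishes near the point. -/
lemma eventually_zero_of_countable {f : ℂ → ℂ} {x₀ : ℂ} (hf : AnalyticAt ℂ f x₀) {E : Set ℂ}
    (hE : E.Countable) (h : ∀ᶠ x in 𝓝 x₀, x ∉ E → f x = 0) : ∀ᶠ x in 𝓝 x₀, f x = 0 := by
  obtain ⟨ρ, hρ, hs⟩ := Metric.eventually_nhds_iff_ball.1 (h.and hf.eventually_analyticAt)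
  have hcont : ContinuousOn f (ball x₀ ρ) := fun x hx => (hs x hx).2.continuousAt.continuousWithinAt
  have hz : ∀ x ∈ ball x₀ ρ, ‖f x‖ ≤ 0 := by
    intro x hx
    have hNB : (𝓝[ball x₀ ρ \ E] x).NeBot :=
      mem_closure_iff_nhdsWithin_neBot.1 (subset_closure_diff isOpen_ball hE hx)
    have h1 : Tendsto (fun x => ‖f x‖) (𝓝[ball x₀ ρ \ E] x) (𝓝 ‖f x‖) :=
      ((hcont x hx).norm).mono_left (nhdsWithin_mono _ sdiff_subset)
    refine le_of_tendsto h1 ?_
    filter_upwards [self_mem_nhdsWithin] with y hy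
    rw [(hs y hy.1).1 hy.2, norm_zero]
  filter_upwards [ball_mem_nhds x₀ hρ] with x hx
  exact norm_le_zero_iff.1 (hz x hx)

/-- Analyticity of evaluations of polynomials with analytic coefficients. -/
lemma eval_analytic {d : ℕ} {P : ℂ → ℂ[X]} (hd : ∀ t, (P t).natDegree ≤ d)
    (hP : ∀ j, AnalyticAt ℂ (fun t => (P t).coeff j) 0) {c : ℂ → ℂ} (hc : AnalyticAt ℂ c 0) :
    AnalyticAt ℂ (fun t => (P t).eval (c t)) 0 := by
  have : (fun t => (P t).eval (c t)) = fun t => ∑ i ∈ Finset.range (d + 1), (P t).coeff i * c t ^ i := by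
    funext t
    exact eval_eq_sum_range' (Nat.lt_succ_of_le (hd t)) (c t)
  rw [this]
  exact Finset.analyticAt_fun_sum _ fun i _ => (hP i).mul (hc.pow i)

/-- A monic polynomial of degree `≥ 1` with vanishing subleading coefficient and some nonvanishing
lower coefficient has two distinct roots. -/
lemma two_roots {Q : ℂ[X]} {d : ℕ} (hd : 2 ≤ d) (hQ : Q.Monic) (hQd : Q.natDegree = d)
    (h1 : Q.coeff (d - 1) = 0) {j : ℕ} (hj : j < d) (hj0 : Q.coeff j ≠ 0) :
    ∃ z₀ z₁, z₀ ≠ z₁ ∧ Q.eval z₀ = 0 ∧ Q.eval z₁ = 0 := by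
  have hdeg : Q.degree ≠ 0 := by
    rw [degree_eq_natDegree hQ.ne_zero, hQd]
    exact_mod_cast (by omega : d ≠ 0)
  obtain ⟨z₀, hz₀⟩ := IsAlgClosed.exists_root Q hdeg
  by_contra hcon
  push Not at hcon
  have hall : ∀ z ∈ Q.roots, z = z₀ := by
    intro z hz
    by_contra hne
    exact hcon z₀ z (Ne.symm hne) hz₀ ((mem_roots hQ.ne_zero).1 hz)
  have hrep : Q.roots = Multiset.replicate (Multiset.card Q.roots) z₀ := Multiset.eq_replicate_card.2 hall
  have hsplit : Q.Splits := IsAlgClosed.splits Q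
  have hcard : Multiset.card Q.roots = d := by
    rw [← hQd]; exact hsplit.natDegree_eq_card_roots.symm
  rw [hcard] at hrep
  have hnext := hsplit.nextCoeff_eq_neg_sum_roots_of_monic hQ
  rw [nextCoeff_of_natDegree_pos (by omega), hQd, h1, hrep, Multiset.sum_replicate, nsmul_eq_mul] at hnext
  have hz0 : z₀ = 0 := by
    have h2 : (d : ℂ) * z₀ = 0 := by
      have := neg_eq_zero.1 hnext.symm
      exact this
    rcases mul_eq_zero.1 h2 with h | h
    · exfalso
      have : d = 0 := by exact_mod_cast h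
      omega
    · exact h
  have hprod : Q = X ^ d := by
    have := hsplit.eq_prod_roots_of_monic hQ
    rw [hrep, hz0] at this
    rw [this]; simp
  rw [hprod, coeff_X_pow, if_neg hj.ne] at hj0
  exact hj0 rfl

theorem puiseux_poly (d : ℕ) : 1 ≤ d → ∀ P : ℂ → ℂ[X], (∀ t, (P t).Monic ∧ (P t).natDegree = d) →
    (∀ j, AnalyticAt ℂ (fun t => (P t).coeff j) 0) →
    ∃ k : ℕ, 1 ≤ k ∧ ∃ g : ℂ → ℂ, AnalyticAt ℂ g 0 ∧ ∀ᶠ s in 𝓝 (0:ℂ), (P (s ^ k)).eval (g s) = 0 := by
  classical
  induction d using Nat.strong_induction_on with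
  | _ d ih =>
  intro hd1 P₀ hP₀ hP₀an
  -- Tschirnhaus transformation
  suffices main : ∀ P : ℂ → ℂ[X], (∀ t, (P t).Monic ∧ (P t).natDegree = d) →
      (∀ j, AnalyticAt ℂ (fun t => (P t).coeff j) 0) → (∀ t, (P t).coeff (d - 1) = 0) →
      ∃ k : ℕ, 1 ≤ k ∧ ∃ g : ℂ → ℂ, AnalyticAt ℂ g 0 ∧ ∀ᶠ s in 𝓝 (0:ℂ), (P (s ^ k)).eval (g s) = 0 by
    set c : ℂ → ℂ := fun t => -(P₀ t).coeff (d - 1) / d with hc
    have hcan : AnalyticAt ℂ c 0 := ((hP₀an (d - 1)).neg).div_const
    have hd0 : (d : ℂ) ≠ 0 := by exact_mod_cast (by omega : d ≠ 0)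
    have hform : ∀ t n, (taylor (c t) (P₀ t)).coeff n =
        ∑ m ∈ Finset.range (d + 1), ((m + n).choose n : ℂ) * (P₀ t).coeff (m + n) * c t ^ m := by
      intro t n
      rw [taylor_coeff, eval_eq_sum_range' (n := d + 1)]
      · apply Finset.sum_congr rfl
        intro m _
        rw [hasseDeriv_coeff]
      · refine Nat.lt_succ_of_le ((natDegree_hasseDeriv_le _ _).trans ?_)
        rw [(hP₀ t).2]; omega
    obtain ⟨k, hk, g, hg, hgz⟩ := main (fun t => taylor (c t) (P₀ t)) (fun t => by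
        constructor
        · rw [Monic, leadingCoeff, natDegree_taylor, coeff_taylor_natDegree]
          exact (hP₀ t).1
        · rw [natDegree_taylor]; exact (hP₀ t).2) (fun j => by
        have : (fun t => (taylor (c t) (P₀ t)).coeff j) = fun t =>
            ∑ m ∈ Finset.range (d + 1), ((m + j).choose j : ℂ) * (P₀ t).coeff (m + j) * c t ^ m :=
          funext fun t => hform t j
        rw [this]
        exact Finset.analyticAt_fun_sum _ fun m _ =>
          (analyticAt_const.mul (hP₀an (m + j))).mul (hcan.pow m)) (fun t => by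
        rw [hform]
        have hzero : ∀ m ∈ Finset.range (d + 1), m ∉ ({0, 1} : Finset ℕ) →
            ((m + (d - 1)).choose (d - 1) : ℂ) * (P₀ t).coeff (m + (d - 1)) * c t ^ m = 0 := by
          intro m _ hm
          simp only [Finset.mem_insert, Finset.mem_singleton, not_or] at hm
          rw [coeff_eq_zero_of_natDegree_lt (by rw [(hP₀ t).2]; omega)]
          ring
        rw [← Finset.sum_subset (s₁ := ({0, 1} : Finset ℕ)) ?_ hzero]
        · rw [Finset.sum_pair (by norm_num)]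
          have e1 : (P₀ t).coeff (1 + (d - 1)) = 1 := by
            have : 1 + (d - 1) = (P₀ t).natDegree := by rw [(hP₀ t).2]; omega
            rw [this]; exact (hP₀ t).1.coeff_natDegree
          have e2 : ((1 + (d - 1)).choose (d - 1) : ℂ) = d := by
            have : 1 + (d - 1) = (d - 1) + 1 := by omega
            rw [this, Nat.choose_succ_self_right]
            push_cast
            have : ((d - 1 : ℕ) : ℂ) = (d : ℂ) - 1 := by
              rw [Nat.cast_sub hd1]; simp
            rw [this]; ring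
          rw [e1, e2, zero_add, Nat.choose_self, pow_zero, pow_one]
          simp only [hc]
          field_simp
          simp
        · intro m hm
          simp only [Finset.mem_insert, Finset.mem_singleton] at hm
          rw [Finset.mem_range]
          omega)
    refine ⟨k, hk, fun s => g s + c (s ^ k), ?_, ?_⟩
    · have h1 : AnalyticAt ℂ (fun s : ℂ => s ^ k) 0 := analyticAt_id.pow k
      have h2 : AnalyticAt ℂ (fun s : ℂ => c (s ^ k)) 0 :=
        AnalyticAt.comp (g := c) (by rw [zero_pow (by omega)]; exact hcan) h1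
      exact hg.add h2
    · filter_upwards [hgz] with s hs
      rw [taylor_eval] at hs
      exact hs
  -- the reduced case
  intro P hP hPan hPd
  set J : Finset ℕ := (Finset.range d).filter (fun j => analyticOrderAt (fun t => (P t).coeff j) 0 ≠ ⊤) with hJ
  by_cases hJe : J.Nonempty
  swap
  · -- all lower coefficients vanish identically
    refine ⟨1, le_rfl, fun _ => 0, analyticAt_const, ?_⟩
    rw [Finset.not_nonempty_iff_eq_empty] at hJe
    have h0 : analyticOrderAt (fun t => (P t).coeff 0) 0 = ⊤ := by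
      by_contra hcon
      have : 0 ∈ J := Finset.mem_filter.2 ⟨Finset.mem_range.2 (by omega), hcon⟩
      rw [hJe] at this
      exact absurd this (Finset.notMem_empty 0)
    rw [analyticOrderAt_eq_top] at h0
    filter_upwards [h0] with s hs
    rw [pow_one, ← coeff_zero_eq_eval_zero]
    exact hs
  -- factorisations of the coefficients
  have hfac : ∀ j ∈ J, ∃ h : ℂ → ℂ, AnalyticAt ℂ h 0 ∧ h 0 ≠ 0 ∧
      ∀ᶠ t in 𝓝 (0:ℂ), (P t).coeff j = t ^ analyticOrderNatAt (fun t => (P t).coeff j) 0 * h t := by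
    intro j hj
    obtain ⟨h, h1, h2, h3⟩ := (hPan j).analyticOrderAt_ne_top.1 (Finset.mem_filter.1 hj).2
    refine ⟨h, h1, h2, ?_⟩
    filter_upwards [h3] with t ht
    rw [ht, sub_zero, smul_eq_mul]
  choose! h han hne hfac using hfac
  set m : ℕ → ℕ := fun j => analyticOrderNatAt (fun t => (P t).coeff j) 0 with hm
  obtain ⟨j₀, hj₀, hmin⟩ := J.exists_min_image (fun j => (m j : ℚ) / ((d - j : ℕ) : ℚ)) hJe
  have hJlt : ∀ j ∈ J, j < d := fun j hj => Finset.mem_range.1 (Finset.mem_filter.1 hj).1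
  have hJd : d - 1 ∉ J := by
    intro hmem
    have h2 := hne (d - 1) hmem
    have h3 := hfac (d - 1) hmem
    have hcont : ContinuousAt (h (d - 1)) 0 := (han (d - 1) hmem).continuousAt
    have h4 : (Finset.mem_filter.1 hmem).2 = (Finset.mem_filter.1 hmem).2 := rfl
    have h5 := (Finset.mem_filter.1 hmem).2
    apply h5
    rw [analyticOrderAt_eq_top]
    exact Eventually.of_forall fun t => hPd t
  set p : ℕ := m j₀ with hp
  set q : ℕ := d - j₀ with hq
  have hj₀d := hJlt j₀ hj₀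
  have hq1 : 1 ≤ q := by omega
  have hj₀ne : j₀ ≠ d - 1 := fun h => hJd (h ▸ hj₀)
  have hd2 : 2 ≤ d := by omega
  have hcross : ∀ j ∈ J, p * (d - j) ≤ q * m j := by
    intro j hj
    have h1 := hmin j hj
    have h2 : (0 : ℚ) < ((d - j : ℕ) : ℚ) := by
      have := hJlt j hj
      exact_mod_cast (by omega : 0 < d - j)
    have h3 : (0 : ℚ) < ((d - j₀ : ℕ) : ℚ) := by exact_mod_cast (by omega : 0 < d - j₀)
    rw [div_le_div_iff₀ h3 h2] at h1
    have h4 : m j₀ * (d - j) ≤ m j * (d - j₀) := by exact_mod_cast h1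
    rw [hp, hq, mul_comm (d - j₀)]
    exact h4
  set b : ℕ → ℂ → ℂ := fun j u => if j ∈ J then u ^ (q * m j - p * (d - j)) * h j (u ^ q) else 0 with hb
  have hban : ∀ j, AnalyticAt ℂ (b j) 0 := by
    intro j
    by_cases hj : j ∈ J
    · simp only [hb, hj, if_true]
      refine (analyticAt_id.pow _).mul ?_
      have h1 : AnalyticAt ℂ (fun u : ℂ => u ^ q) 0 := analyticAt_id.pow q
      exact AnalyticAt.comp (g := h j) (by rw [zero_pow (by omega)]; exact han j hj) h1
    · simp only [hb, hj, if_false]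
      exact analyticAt_const
  set Q : ℂ → ℂ[X] := fun u => mkPoly d (fun j => b j u) with hQ
  -- the relation between P and Q
  have hrel : ∀ᶠ u in 𝓝 (0:ℂ), ∀ z, (P (u ^ q)).eval (u ^ p * z) = u ^ (p * d) * (Q u).eval z := by
    have hpow : Tendsto (fun u : ℂ => u ^ q) (𝓝 0) (𝓝 0) := by
      have : ContinuousAt (fun u : ℂ => u ^ q) 0 := by fun_prop
      have h2 : (0:ℂ) ^ q = 0 := zero_pow (by omega)
      rw [ContinuousAt, h2] at this
      exact this
    have e1 : ∀ᶠ t in 𝓝 (0:ℂ), ∀ j ∈ Finset.range d, (j ∈ J → (P t).coeff j = t ^ m j * h j t) ∧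
        (j ∉ J → (P t).coeff j = 0) := by
      rw [Filter.eventually_all_finset]
      intro j hj
      by_cases hjJ : j ∈ J
      · filter_upwards [hfac j hjJ] with t ht
        exact ⟨fun _ => ht, fun h => absurd hjJ h⟩
      · have : analyticOrderAt (fun t => (P t).coeff j) 0 = ⊤ := by
          by_contra hcon
          exact hjJ (Finset.mem_filter.2 ⟨hj, hcon⟩)
        rw [analyticOrderAt_eq_top] at this
        filter_upwards [this] with t ht
        exact ⟨fun h => absurd h hjJ, fun _ => ht⟩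
    filter_upwards [hpow.eventually e1] with u hu z
    have e2 : (P (u ^ q)).eval (u ^ p * z) =
        (u ^ p * z) ^ d + ∑ j ∈ Finset.range d, (P (u ^ q)).coeff j * (u ^ p * z) ^ j := by
      conv_lhs => rw [eq_mkPoly (hP (u ^ q)).1 (hP (u ^ q)).2]
      exact mkPoly_eval _ _ _
    rw [e2, mkPoly_eval, mul_add, Finset.mul_sum]
    congr 1
    · rw [mul_pow, ← pow_mul]
    · apply Finset.sum_congr rfl
      intro j hj
      have hjd := Finset.mem_range.1 hj
      by_cases hjJ : j ∈ J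
      · rw [(hu j hj).1 hjJ]
        simp only [hb, hjJ, if_true]
        have h1 := hcross j hjJ
        have h2 : (u ^ q) ^ m j * (u ^ p) ^ j = u ^ (p * d) * u ^ (q * m j - p * (d - j)) := by
          rw [← pow_mul, ← pow_mul, ← pow_add, ← pow_add]
          congr 1
          have h3 : p * d = p * (d - j) + p * j := by rw [← mul_add]; congr 1; omega
          rw [h3]; omega
        calc (u ^ q) ^ m j * h j (u ^ q) * (u ^ p * z) ^ j
            = ((u ^ q) ^ m j * (u ^ p) ^ j) * (h j (u ^ q) * z ^ j) := by rw [mul_pow]; ring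
          _ = u ^ (p * d) * (u ^ (q * m j - p * (d - j)) * h j (u ^ q) * z ^ j) := by rw [h2]; ring
      · rw [(hu j hj).2 hjJ]
        simp only [hb, hjJ, if_false]
        ring
  -- two distinct roots of Q 0
  have hQmon : ∀ u, (Q u).Monic := fun u => mkPoly_monic _ _
  have hQdeg : ∀ u, (Q u).natDegree = d := fun u => mkPoly_natDegree _ _
  obtain ⟨z₀, z₁, hz01, hz₀, hz₁⟩ : ∃ z₀ z₁, z₀ ≠ z₁ ∧ (Q 0).eval z₀ = 0 ∧ (Q 0).eval z₁ = 0 := by
    refine two_roots hd2 (hQmon 0) (hQdeg 0) ?_ hj₀d ?_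
    · rw [hQ]
      simp only
      rw [mkPoly_coeff d _ (by omega)]
      simp only [hb, hJd, if_false]
    · rw [hQ]
      simp only
      rw [mkPoly_coeff d _ hj₀d]
      simp only [hb, hj₀, if_true]
      have h1 : q * m j₀ - p * (d - j₀) = 0 := by rw [hp, hq, mul_comm]; simp
      rw [h1, pow_zero, one_mul, zero_pow (by omega)]
      exact hne j₀ hj₀
  -- the function of two variables
  obtain ⟨ρ₀, hρ₀, hρ₀s⟩ : ∃ ρ₀ > 0, ∀ j ∈ Finset.range d, AnalyticOnNhd ℂ (b j) (ball 0 ρ₀) := by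
    have : ∀ᶠ u in 𝓝 (0:ℂ), ∀ j ∈ Finset.range d, AnalyticAt ℂ (b j) u := by
      rw [Filter.eventually_all_finset]
      intro j _
      exact (hban j).eventually_analyticAt
    obtain ⟨ρ₀, hρ₀, hs⟩ := Metric.eventually_nhds_iff_ball.1 this
    exact ⟨ρ₀, hρ₀, fun j hj u hu => hs u hu j hj⟩
  set U₀ : Set ℂ := ball 0 ρ₀ with hU₀
  set F : ℂ × ℂ → ℂ := fun x => (Q x.1).eval x.2 with hF
  have hFan : AnalyticOnNhd ℂ F (U₀ ×ˢ univ) := by
    rintro ⟨u, z⟩ ⟨hu, _⟩
    have : F = fun x : ℂ × ℂ => x.2 ^ d + ∑ j ∈ Finset.range d, b j x.1 * x.2 ^ j := by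
      funext x; simp only [hF, hQ]; exact mkPoly_eval _ _ _
    rw [this]
    refine (analyticAt_snd.pow d).add (Finset.analyticAt_fun_sum _ fun j hj => ?_)
    have h1 : AnalyticAt ℂ (fun x : ℂ × ℂ => b j x.1) (u, z) :=
      AnalyticAt.comp (g := b j) (hρ₀s j hj u hu) analyticAt_fst
    exact h1.mul (analyticAt_snd.pow j)
  have h0U : (0:ℂ) ∈ U₀ := mem_ball_self hρ₀
  -- radius
  have hrootfin : (Q 0).rootSet ℂ |>.Finite := rootSet_finite _ _
  obtain ⟨r, hr, hrz⟩ : ∃ r > 0, ∀ w, (Q 0).eval w = 0 → ∀ z ∈ ({z₀, z₁} : Finset ℂ), w ≠ z → 2 * r < dist w z := by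
    have : ∀ᶠ ε in 𝓝[>] (0:ℝ), ∀ w ∈ (Q 0).roots.toFinset, ∀ z ∈ ({z₀, z₁} : Finset ℂ), w ≠ z → 2 * ε < dist w z := by
      rw [Filter.eventually_all_finset]
      intro w _
      rw [Filter.eventually_all_finset]
      intro z _
      by_cases hwz : w = z
      · exact Eventually.of_forall fun ε h => absurd hwz h
      · have : 0 < dist w z / 2 := by have := dist_pos.2 hwz; linarith
        filter_upwards [Ioo_mem_nhdsGT this] with ε hε _
        linarith [hε.2]
    have h4 : ∀ᶠ ε in 𝓝[>] (0:ℝ), 0 < ε := self_mem_nhdsWithin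
    obtain ⟨ε, h1, h2⟩ := (this.and h4).exists
    refine ⟨ε, h2, fun w hw => h1 w ?_⟩
    rw [Multiset.mem_toFinset, mem_roots (hQmon 0).ne_zero]
    exact hw
  have hsph : ∀ z ∈ ({z₀, z₁} : Finset ℂ), ∀ y ∈ sphere z r, F (0, y) ≠ 0 := by
    intro z hz y hy h0
    by_cases hyz : y = z
    · subst hyz
      rw [mem_sphere, dist_self] at hy
      linarith
    · have := hrz y h0 z hz hyz
      rw [mem_sphere.1 hy] at this
      linarith
  have hz₀m : z₀ ∈ ({z₀, z₁} : Finset ℂ) := by simp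
  have hz₁m : z₁ ∈ ({z₀, z₁} : Finset ℂ) := by simp
  have hdist : 2 * r < dist z₀ z₁ := hrz z₀ hz₀ z₁ hz₁m hz01
  have hFne : ∃ y, F (0, y) ≠ 0 := by
    have hne : (sphere z₀ r).Nonempty := NormedSpace.sphere_nonempty.2 hr.le
    obtain ⟨y, hy⟩ := hne
    exact ⟨y, hsph z₀ hz₀m y hy⟩
  obtain ⟨δ, e, a, hδ, hδU, haan, hexc, hT⟩ := cluster isOpen_ball hFan h0U hFne (hsph z₀ hz₀m)
  have hur₀ := hurwitz isOpen_ball hFan h0U (mem_ball_self hr) hz₀ (hsph z₀ hz₀m)
  have hur₁ := hurwitz isOpen_ball hFan h0U (mem_ball_self hr) hz₁ (hsph z₁ hz₁m)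
  -- a good parameter
  obtain ⟨he1, hed⟩ : 1 ≤ e ∧ e < d := by
    obtain ⟨δ', hδ', hs⟩ := Metric.eventually_nhds_iff_ball.1
      ((hur₀.and hur₁).and (isOpen_ball.eventually_mem (mem_ball_self hδ)))
    have hd' : Dense ((Exc U₀ F ∩ ball 0 δ)ᶜ) := hexc.dense_compl ℝ
    obtain ⟨u, hu1, hu2⟩ := hd'.exists_mem_open (isOpen_ball (x := (0:ℂ)) (ε := δ')) ⟨0, mem_ball_self hδ'⟩
    obtain ⟨⟨⟨y₀, hy₀, hy₀0⟩, ⟨y₁, hy₁, hy₁0⟩⟩, hub⟩ := hs u hu2
    have huE : u ∉ Exc U₀ F := fun h => hu1 ⟨h, hub⟩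
    obtain ⟨T, hTc, hTm, _⟩ := hT u hub huE
    constructor
    · rw [← hTc]
      exact Finset.card_pos.2 ⟨y₀, (hTm y₀).2 ⟨hy₀, hy₀0⟩⟩
    · have hy₁T : y₁ ∉ T := by
        intro h
        have h1 := mem_ball.1 ((hTm y₁).1 h).1
        have h2 := mem_ball.1 hy₁
        have h3 := dist_triangle_left z₀ z₁ y₁
        linarith
      have hsub : insert y₁ T ⊆ (Q u).roots.toFinset := by
        intro y hy
        rw [Multiset.mem_toFinset, mem_roots (hQmon u).ne_zero]
        rcases Finset.mem_insert.1 hy with h | h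
        · rw [h]; exact hy₁0
        · exact ((hTm y).1 h).2
      have h1 := Finset.card_le_card hsub
      rw [Finset.card_insert_of_notMem hy₁T, hTc] at h1
      have h2 := Multiset.toFinset_card_le (Q u).roots
      have h3 := card_roots' (Q u)
      rw [hQdeg] at h3
      omega
  -- induction hypothesis
  set P₂ : ℂ → ℂ[X] := fun u => mkPoly e (fun j => a j u) with hP₂
  obtain ⟨k', hk', g', hg', hg'z⟩ := ih e hed he1 P₂ (fun u => ⟨mkPoly_monic _ _, mkPoly_natDegree _ _⟩) (by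
    intro j
    rcases lt_trichotomy j e with hj | hj | hj
    · have : (fun u => (P₂ u).coeff j) = a j := by
        funext u; exact mkPoly_coeff e _ hj
      rw [this]; exact haan j 0 (mem_ball_self hδ)
    · have : (fun u => (P₂ u).coeff j) = fun _ => 1 := by
        funext u
        have h1 := (mkPoly_monic e (fun j => a j u)).coeff_natDegree
        rw [mkPoly_natDegree] at h1
        rw [hj]; exact h1
      rw [this]; exact analyticAt_const
    · have : (fun u => (P₂ u).coeff j) = fun _ => 0 := by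
        funext u
        exact coeff_eq_zero_of_natDegree_lt (by rw [mkPoly_natDegree]; exact hj)
      rw [this]; exact analyticAt_const)
  have hpow' : Tendsto (fun s : ℂ => s ^ k') (𝓝 0) (𝓝 0) := by
    have : ContinuousAt (fun s : ℂ => s ^ k') 0 := by fun_prop
    have h2 : (0:ℂ) ^ k' = 0 := zero_pow (by omega)
    rw [ContinuousAt, h2] at this
    exact this
  have hFz : ∀ᶠ s in 𝓝 (0:ℂ), F (s ^ k', g' s) = 0 := by
    have han' : AnalyticAt ℂ (fun s : ℂ => F (s ^ k', g' s)) 0 := by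
      have h1 : AnalyticAt ℂ (fun s : ℂ => (s ^ k', g' s)) 0 := (analyticAt_id.pow k').prod hg'
      refine AnalyticAt.comp (g := F) (hFan _ ⟨?_, mem_univ _⟩) h1
      show (0:ℂ) ^ k' ∈ U₀
      rw [zero_pow (by omega)]; exact h0U
    refine eventually_zero_of_countable han' (pow_preimage_countable hexc hk') ?_
    filter_upwards [hg'z, hpow'.eventually (isOpen_ball.eventually_mem (mem_ball_self hδ))] with s hs1 hs2 hs3
    have hsE : s ^ k' ∉ Exc U₀ F := fun h => hs3 ⟨h, hs2⟩
    obtain ⟨T, hTc, hTm, hTco⟩ := hT (s ^ k') hs2 hsE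
    have hTP : rootPoly T = P₂ (s ^ k') := by
      rw [eq_mkPoly (rootPoly_monic T) (by rw [rootPoly_natDegree, hTc] : (rootPoly T).natDegree = e)]
      simp only [hP₂]
      congr 1
      funext j
      exact hTco j
    rw [← hTP, rootPoly_eval] at hs1
    exact ((hTm _).1 hs1).2
  refine ⟨k' * q, Nat.mul_pos hk' hq1, fun s => (s ^ k') ^ p * g' s, ?_, ?_⟩
  · exact ((analyticAt_id.pow k').pow p).mul hg'
  · filter_upwards [hFz, hpow'.eventually hrel] with s hs1 hs2
    have := hs2 (g' s)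
    rw [pow_mul, this]
    have h1 : (Q (s ^ k')).eval (g' s) = 0 := hs1
    rw [h1, mul_zero]

end Pool.Agent.Helper23.QM
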