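import Mathlib
import Pool.Agent.Helper23.QMk

set_option autoImplicit false

open Set Metric Filter Topology

namespace Pool.Agent.Helper23.QM

/-- Puiseux discs through the points of the zero set. -/
theorem puiseux_disc {U₀ : Set ℂ} {F : ℂ × ℂ → ℂ} (hU₀ : IsOpen U₀)
    (hF : AnalyticOnNhd ℂ F (U₀ ×ˢ univ)) {x₀ y₀ : ℂ} (hx₀ : x₀ ∈ U₀) (h0 : F (x₀, y₀) = 0)
    (hne : ∃ y, F (x₀, y) ≠ 0) :
    ∃ k : ℕ, 1 ≤ k ∧ ∃ ρ > 0, ∃ g : ℂ → ℂ, AnalyticOnNhd ℂ g (ball 0 ρ) ∧ g 0 = y₀ ∧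
      ∀ s ∈ ball (0:ℂ) ρ, x₀ + s ^ k ∈ U₀ ∧ F (x₀ + s ^ k, g s) = 0 := by
  classical
  have hfan := slice_analytic hF hx₀
  -- an isolating circle
  have hiso : ∀ᶠ y' in 𝓝 y₀, y' ≠ y₀ → F (x₀, y') ≠ 0 := by
    rcases (hfan y₀ (mem_univ y₀)).eventually_eq_zero_or_eventually_ne_zero with h | h
    · obtain ⟨y₁, hy₁⟩ := hne
      exact absurd (hfan.eqOn_zero_of_preconnected_of_eventuallyEq_zero isPreconnected_univ
        (mem_univ y₀) h (mem_univ y₁)) hy₁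
    · exact eventually_nhdsWithin_iff.1 h
  obtain ⟨ε, hε, hεs⟩ := Metric.eventually_nhds_iff_ball.1 hiso
  set η := ε / 2 with hη
  have hηpos : 0 < η := by positivity
  have honly : ∀ y ∈ closedBall y₀ η, F (x₀, y) = 0 → y = y₀ := by
    intro y hy hy0
    by_contra hne'
    exact hεs y (closedBall_subset_ball (by rw [hη]; linarith) hy) hne' hy0
  have hsph : ∀ y ∈ sphere y₀ η, F (x₀, y) ≠ 0 := by
    intro y hy hy0
    have := honly y (sphere_subset_closedBall hy) hy0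
    rw [this, mem_sphere, dist_self] at hy
    linarith
  obtain ⟨δ, d, a, hδ, hδU, haan, hexc, hT⟩ := cluster hU₀ hF hx₀ hne hsph
  have hur := hurwitz hU₀ hF hx₀ (mem_ball_self hηpos) h0 hsph
  have hd1 : 1 ≤ d := by
    obtain ⟨δ', hδ', hs⟩ := Metric.eventually_nhds_iff_ball.1
      (hur.and (isOpen_ball.eventually_mem (mem_ball_self hδ)))
    have hd' : Dense ((Exc U₀ F ∩ ball x₀ δ)ᶜ) := hexc.dense_compl ℝ
    obtain ⟨u, hu1, hu2⟩ := hd'.exists_mem_open (isOpen_ball (x := x₀) (ε := δ')) ⟨x₀, mem_ball_self hδ'⟩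
    obtain ⟨⟨y, hy, hy0⟩, hub⟩ := hs u hu2
    obtain ⟨T, hTc, hTm, _⟩ := hT u hub (fun h => hu1 ⟨h, hub⟩)
    rw [← hTc]
    exact Finset.card_pos.2 ⟨y, (hTm y).2 ⟨hy, hy0⟩⟩
  set P : ℂ → Polynomial ℂ := fun t => mkPoly d (fun j => a j (x₀ + t)) with hP
  have hshift : AnalyticAt ℂ (fun t : ℂ => x₀ + t) 0 := analyticAt_const.add analyticAt_id
  obtain ⟨k, hk, g, hg, hgz⟩ := puiseux_poly d hd1 P
    (fun u => ⟨mkPoly_monic _ _, mkPoly_natDegree _ _⟩) (by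
    intro j
    rcases lt_trichotomy j d with hj | hj | hj
    · have : (fun u => (P u).coeff j) = fun u => a j (x₀ + u) := by
        funext u; exact mkPoly_coeff d _ hj
      rw [this]
      exact AnalyticAt.comp (g := a j) (haan j _ (by simpa using hδ)) hshift
    · have : (fun u => (P u).coeff j) = fun _ => 1 := by
        funext u
        have h1 := (mkPoly_monic d (fun j => a j (x₀ + u))).coeff_natDegree
        rw [mkPoly_natDegree] at h1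
        rw [hj]; exact h1
      rw [this]; exact analyticAt_const
    · have : (fun u => (P u).coeff j) = fun _ => 0 := by
        funext u
        exact Polynomial.coeff_eq_zero_of_natDegree_lt (by rw [mkPoly_natDegree]; exact hj)
      rw [this]; exact analyticAt_const)
  have hpow : Tendsto (fun s : ℂ => x₀ + s ^ k) (𝓝 0) (𝓝 x₀) := by
    have : ContinuousAt (fun s : ℂ => x₀ + s ^ k) 0 := by fun_prop
    have h2 : x₀ + (0:ℂ) ^ k = x₀ := by rw [zero_pow (by omega), add_zero]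
    rw [ContinuousAt, h2] at this
    exact this
  have hcnt : {s : ℂ | x₀ + s ^ k ∈ Exc U₀ F ∩ ball x₀ δ}.Countable := by
    have h1 : ((fun t => x₀ + t) ⁻¹' (Exc U₀ F ∩ ball x₀ δ)).Countable :=
      hexc.preimage_of_injOn (add_right_injective x₀).injOn
    exact pow_preimage_countable h1 hk
  -- values off the exceptional set
  have hoff : ∀ᶠ s in 𝓝 (0:ℂ), s ∉ {s : ℂ | x₀ + s ^ k ∈ Exc U₀ F ∩ ball x₀ δ} →
      g s ∈ ball y₀ η ∧ F (x₀ + s ^ k, g s) = 0 := by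
    filter_upwards [hgz, hpow.eventually (isOpen_ball.eventually_mem (mem_ball_self hδ))] with s hs1 hs2 hs3
    have hsE : x₀ + s ^ k ∉ Exc U₀ F := fun h => hs3 ⟨h, hs2⟩
    obtain ⟨T, hTc, hTm, hTco⟩ := hT (x₀ + s ^ k) hs2 hsE
    have hTP : rootPoly T = P (s ^ k) := by
      rw [eq_mkPoly (rootPoly_monic T) (by rw [rootPoly_natDegree, hTc] : (rootPoly T).natDegree = d)]
      simp only [hP]
      congr 1
      funext j
      exact hTco j
    rw [← hTP, rootPoly_eval] at hs1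
    exact (hTm _).1 hs1
  have hz : ∀ᶠ s in 𝓝 (0:ℂ), F (x₀ + s ^ k, g s) = 0 := by
    have han' : AnalyticAt ℂ (fun s : ℂ => F (x₀ + s ^ k, g s)) 0 := by
      have h1 : AnalyticAt ℂ (fun s : ℂ => (x₀ + s ^ k, g s)) 0 :=
        (analyticAt_const.add (analyticAt_id.pow k)).prod hg
      refine AnalyticAt.comp (g := F) (hF _ ⟨?_, mem_univ _⟩) h1
      show x₀ + (0:ℂ) ^ k ∈ U₀
      rw [zero_pow (by omega), add_zero]; exact hx₀
    refine eventually_zero_of_countable han' hcnt ?_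
    filter_upwards [hoff] with s hs1 hs2
    exact (hs1 hs2).2
  have hg0 : g 0 = y₀ := by
    apply honly
    · -- closedness
      obtain ⟨ρ', hρ', hs⟩ := Metric.eventually_nhds_iff_ball.1 hoff
      have hNB : (𝓝[ball (0:ℂ) ρ' \ {s : ℂ | x₀ + s ^ k ∈ Exc U₀ F ∩ ball x₀ δ}] 0).NeBot :=
        mem_closure_iff_nhdsWithin_neBot.1 (subset_closure_diff isOpen_ball hcnt (mem_ball_self hρ'))
      have h1 : Tendsto g (𝓝[ball (0:ℂ) ρ' \ {s : ℂ | x₀ + s ^ k ∈ Exc U₀ F ∩ ball x₀ δ}] 0) (𝓝 (g 0)) :=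
        hg.continuousAt.mono_left nhdsWithin_le_nhds
      refine isClosed_closedBall.mem_of_tendsto h1 ?_
      filter_upwards [self_mem_nhdsWithin] with s hs'
      exact ball_subset_closedBall (hs s hs'.1 hs'.2).1
    · have := hz.self_of_nhds
      rwa [zero_pow (by omega), add_zero] at this
  obtain ⟨ρ, hρ, hρs⟩ := Metric.eventually_nhds_iff_ball.1
    ((hz.and (hpow.eventually (hU₀.eventually_mem hx₀))).and hg.eventually_analyticAt)
  exact ⟨k, hk, ρ, hρ, g, fun s hs => (hρs s hs).2, hg0, fun s hs => ⟨(hρs s hs).1.2, (hρs s hs).1.1⟩⟩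

/-- `S` is curve-open: an analytic disc meeting `S` is contained in `S` up to a countable set. -/
def CO {E : Type*} [NormedAddCommGroup E] [NormedSpace ℂ E] (S : Set E) : Prop :=
  ∀ (γ : ℂ → E) (c : ℂ) (r : ℝ), AnalyticOnNhd ℂ γ (ball c r) → (∃ t ∈ ball c r, γ t ∈ S) →
    {t | t ∈ ball c r ∧ γ t ∉ S}.Countable

section COsec

variable {E E' : Type*} [NormedAddCommGroup E] [NormedSpace ℂ E] [NormedAddCommGroup E'] [NormedSpace ℂ E']

lemma CO.dd {S : Set E} (hS : CO S) : DD S := by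
  intro γ c r hγ
  by_cases h : ∃ t ∈ ball c r, γ t ∈ S
  · exact Or.inr (hS γ c r hγ h)
  · left
    have : {t | t ∈ ball c r ∧ γ t ∈ S} = ∅ := by
      rw [eq_empty_iff_forall_notMem]
      rintro t ⟨ht, ht'⟩
      exact h ⟨t, ht, ht'⟩
    rw [this]; exact countable_empty

lemma CO.nonzero {f : E → ℂ} (hf : AnalyticOnNhd ℂ f univ) : CO {x | f x ≠ 0} := by
  intro γ c r hγ h
  have han : AnalyticOnNhd ℂ (fun t => f (γ t)) (ball c r) := fun t ht =>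
    AnalyticAt.comp (g := f) (hf _ (mem_univ _)) (hγ t ht)
  refine (countable_zeros han (convex_ball c r).isPreconnected h).mono ?_
  rintro t ⟨ht, ht'⟩
  exact ⟨ht, not_not.1 ht'⟩

lemma CO.iInter {ι : Type*} [Countable ι] {S : ι → Set E} (hS : ∀ i, CO (S i)) : CO (⋂ i, S i) := by
  rintro γ c r hγ ⟨t₀, ht₀, h₀⟩
  have := fun i => hS i γ c r hγ ⟨t₀, ht₀, mem_iInter.1 h₀ i⟩
  refine (countable_iUnion this).mono ?_
  rintro t ⟨ht, ht'⟩
  rw [mem_iInter, not_forall] at ht'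
  obtain ⟨i, hi⟩ := ht'
  exact mem_iUnion.2 ⟨i, ht, hi⟩

lemma CO.iUnion {ι : Sort*} {S : ι → Set E} (hS : ∀ i, CO (S i)) : CO (⋃ i, S i) := by
  rintro γ c r hγ ⟨t₀, ht₀, h₀⟩
  obtain ⟨i, hi⟩ := mem_iUnion.1 h₀
  refine (hS i γ c r hγ ⟨t₀, ht₀, hi⟩).mono ?_
  rintro t ⟨ht, ht'⟩
  exact ⟨ht, fun h => ht' (mem_iUnion.2 ⟨i, h⟩)⟩

lemma CO.comp {S : Set E} (hS : CO S) {φ : E' → E} (hφ : AnalyticOnNhd ℂ φ univ) : CO (φ ⁻¹' S) := by
  intro γ c r hγ h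
  exact hS (fun t => φ (γ t)) c r (fun t ht => AnalyticAt.comp (g := φ) (hφ _ (mem_univ _)) (hγ t ht)) h

lemma CO.ex {S : Set (E × ℂ)} (hS : CO S) : CO {x | ∃ y, (x, y) ∈ S} := by
  have : {x | ∃ y, (x, y) ∈ S} = ⋃ y : ℂ, (fun x : E => (x, y)) ⁻¹' S := by ext x; simp
  rw [this]
  exact CO.iUnion fun y => hS.comp fun x _ => analyticAt_id.prod analyticAt_const

/-- Zeros of finite order equations over curve-open sets. -/
theorem CO.root {F : E × ℂ → ℂ} (hF : AnalyticOnNhd ℂ F univ) (hG : FO F) {S : Set (E × ℂ)}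
    (hS : CO S) : CO {x | (∃ y, F (x, y) ≠ 0) ∧ ∃ y, F (x, y) = 0 ∧ (x, y) ∈ S} := by
  rintro γ c r hγ ⟨t₀, ht₀, hne, y₀, h0, hy₀⟩
  refine (DD.proj hF hG hS.dd γ c r hγ).resolve_left ?_
  intro hcount
  set G : ℂ × ℂ → ℂ := fun p => F (γ p.1, p.2) with hGdef
  have hGan : AnalyticOnNhd ℂ G (ball c r ×ˢ univ) := by
    rintro ⟨t, y⟩ ⟨ht, _⟩
    have h1 : AnalyticAt ℂ (fun p : ℂ × ℂ => (γ p.1, p.2)) (t, y) :=
      (AnalyticAt.comp (g := γ) (hγ t ht) analyticAt_fst).prod analyticAt_snd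
    exact AnalyticAt.comp (g := F) (hF _ (mem_univ _)) h1
  obtain ⟨k, hk, ρ, hρ, g, hg, hg0, hgz⟩ := puiseux_disc isOpen_ball hGan ht₀ h0 hne
  have hv := vertical_countable (convex_ball c r).isPreconnected hGan ⟨t₀, ht₀, hne⟩
  have hdisc : {s | s ∈ ball (0:ℂ) ρ ∧ (γ (t₀ + s ^ k), g s) ∉ S}.Countable := by
    refine hS (fun s => (γ (t₀ + s ^ k), g s)) 0 ρ (fun s hs => ?_) ⟨0, mem_ball_self hρ, ?_⟩
    · have h1 : AnalyticAt ℂ (fun s : ℂ => t₀ + s ^ k) s := analyticAt_const.add (analyticAt_id.pow k)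
      exact (AnalyticAt.comp (g := γ) (f := fun s : ℂ => t₀ + s ^ k) (hγ _ (hgz s hs).1) h1).prod (hg s hs)
    · show (γ (t₀ + (0:ℂ) ^ k), g 0) ∈ S
      rw [zero_pow (by omega), add_zero, hg0]
      exact hy₀
  have hpre : ∀ A : Set ℂ, A.Countable → {s : ℂ | t₀ + s ^ k ∈ A}.Countable := by
    intro A hA
    have h1 : ((fun t => t₀ + t) ⁻¹' A).Countable := hA.preimage_of_injOn (add_right_injective t₀).injOn
    exact pow_preimage_countable h1 hk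
  apply ball_not_countable hρ (x := (0:ℂ))
  refine ((hdisc.union (hpre _ hv)).union (hpre _ hcount)).mono ?_
  intro s hs
  by_cases h1 : (γ (t₀ + s ^ k), g s) ∈ S
  · by_cases h2 : t₀ + s ^ k ∈ {x | x ∈ ball c r ∧ ∀ y, G (x, y) = 0}
    · exact Or.inl (Or.inr h2)
    · right
      refine ⟨(hgz s hs).1, ?_, g s, (hgz s hs).2, h1⟩
      by_contra hcon
      push Not at hcon
      exact h2 ⟨(hgz s hs).1, hcon⟩
  · exact Or.inl (Or.inl ⟨hs, h1⟩)

/-- Along entire curves a curve-open set is empty or cocountable. -/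
lemma CO.entire {S : Set E} (hS : CO S) {γ : ℂ → E} (hγ : AnalyticOnNhd ℂ γ univ) :
    (∀ t, γ t ∉ S) ∨ {t | γ t ∉ S}.Countable := by
  by_cases h : ∃ t₀, γ t₀ ∈ S
  · right
    obtain ⟨t₀, ht₀⟩ := h
    obtain ⟨n₀, hn₀⟩ := exists_nat_gt ‖t₀‖
    have h1 : ∀ n : ℕ, {t | t ∈ ball (0:ℂ) (n₀ + n : ℕ) ∧ γ t ∉ S}.Countable := fun n =>
      hS γ 0 _ (hγ.mono (subset_univ _)) ⟨t₀, by
        rw [mem_ball_zero_iff]
        push_cast
        have : (0:ℝ) ≤ n := Nat.cast_nonneg n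
        linarith, ht₀⟩
    refine (countable_iUnion h1).mono ?_
    intro t ht
    obtain ⟨n, hn⟩ := exists_nat_gt ‖t‖
    refine mem_iUnion.2 ⟨n, ?_, ht⟩
    rw [mem_ball_zero_iff]
    push_cast
    have : (0:ℝ) ≤ n₀ := Nat.cast_nonneg n₀
    linarith
  · left
    push Not at h
    exact h

end COsec

/-- Growth of finite order in the second variable, for a block of variables. -/
def FOB {E V : Type*} [NormedAddCommGroup E] [NormedAddCommGroup V] (F : E × V → ℂ) : Prop :=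
  ∀ x₀ : E, ∃ δ > 0, ∃ (C : ℝ) (ρ : ℕ), ∀ x ∈ ball x₀ δ, ∀ y : V,
    ‖F (x, y)‖ ≤ Real.exp (C * (1 + ‖y‖) ^ ρ)

/-- Zeros of finite order equations in a block of unknowns over curve-open sets. -/
theorem CO.rootBlock {E V : Type*} [NormedAddCommGroup E] [NormedSpace ℂ E]
    [NormedAddCommGroup V] [NormedSpace ℂ V] {F : E × V → ℂ} (hF : AnalyticOnNhd ℂ F univ)
    (hG : FOB F) {S : Set (E × V)} (hS : CO S) :
    CO {x | (∃ y, F (x, y) ≠ 0) ∧ ∃ y, F (x, y) = 0 ∧ (x, y) ∈ S} := by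
  have hφ : ∀ y₀ v : V, AnalyticOnNhd ℂ (fun p : E × ℂ => (p.1, y₀ + p.2 • v)) univ := fun y₀ v p _ =>
    analyticAt_fst.prod (analyticAt_const.add (analyticAt_snd.smul analyticAt_const))
  have hset : {x | (∃ y, F (x, y) ≠ 0) ∧ ∃ y, F (x, y) = 0 ∧ (x, y) ∈ S} =
      ⋃ y₀ : V, ⋃ v : V, {x | (∃ z : ℂ, F (x, y₀ + z • v) ≠ 0) ∧
        ∃ z : ℂ, F (x, y₀ + z • v) = 0 ∧ (x, z) ∈ (fun p : E × ℂ => (p.1, y₀ + p.2 • v)) ⁻¹' S} := by
    ext x
    simp only [mem_iUnion]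
    constructor
    · rintro ⟨⟨y₁, h1⟩, y₀, h0, hy⟩
      refine ⟨y₀, y₁ - y₀, ⟨1, by simpa using h1⟩, 0, by simpa using h0, by simpa using hy⟩
    · rintro ⟨y₀, v, ⟨z, hz⟩, w, hw, hwS⟩
      exact ⟨⟨_, hz⟩, _, hw, hwS⟩
  rw [hset]
  refine CO.iUnion fun y₀ => CO.iUnion fun v => ?_
  refine CO.root (F := fun p : E × ℂ => F (p.1, y₀ + p.2 • v)) (fun p _ =>
    AnalyticAt.comp (g := F) (hF _ (mem_univ _)) (hφ y₀ v p (mem_univ _))) ?_ (hS.comp (hφ y₀ v))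
  intro x₀
  obtain ⟨δ, hδ, C, ρ, hb⟩ := hG x₀
  refine ⟨δ, hδ, |C| * (1 + ‖y₀‖ + ‖v‖) ^ ρ, ρ, fun x hx z => (hb x hx _).trans ?_⟩
  apply Real.exp_le_exp.2
  have h1 : 1 + ‖y₀ + z • v‖ ≤ (1 + ‖y₀‖ + ‖v‖) * (1 + ‖z‖) := by
    have h2 : ‖y₀ + z • v‖ ≤ ‖y₀‖ + ‖z‖ * ‖v‖ := (norm_add_le _ _).trans (by rw [norm_smul])
    nlinarith [norm_nonneg y₀, norm_nonneg v, norm_nonneg z, mul_nonneg (norm_nonneg y₀) (norm_nonneg z)]
  calc C * (1 + ‖y₀ + z • v‖) ^ ρ ≤ |C| * (1 + ‖y₀ + z • v‖) ^ ρ :=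
        mul_le_mul_of_nonneg_right (le_abs_self C) (by positivity)
    _ ≤ |C| * ((1 + ‖y₀‖ + ‖v‖) * (1 + ‖z‖)) ^ ρ :=
        mul_le_mul_of_nonneg_left (pow_le_pow_left₀ (by positivity) h1 ρ) (abs_nonneg C)
    _ = |C| * (1 + ‖y₀‖ + ‖v‖) ^ ρ * (1 + ‖z‖) ^ ρ := by rw [mul_pow, mul_assoc]

/-- Unrestricted existential quantification over a block of variables. -/
lemma CO.exBlock {E V : Type*} [NormedAddCommGroup E] [NormedSpace ℂ E]
    [NormedAddCommGroup V] [NormedSpace ℂ V] {S : Set (E × V)} (hS : CO S) :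
    CO {x | ∃ y, (x, y) ∈ S} := by
  have : {x | ∃ y, (x, y) ∈ S} = ⋃ y : V, (fun x : E => (x, y)) ⁻¹' S := by ext x; simp
  rw [this]
  exact CO.iUnion fun y => hS.comp fun x _ => analyticAt_id.prod analyticAt_const

end Pool.Agent.Helper23.QM
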