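import Mathlib
import Pool.Agent.Helper23.QMg

set_option autoImplicit false
set_option linter.unusedSectionVars false

open Set Metric Filter Topology MeasureTheory

namespace Pool.Agent.Helper23.QM

/-- Projection of a closed set along a compact set is closed. -/
lemma closed_ex {E Z : Type*} [TopologicalSpace E] [TopologicalSpace Z] {K : Set Z} (hK : IsCompact K)
    {A : Set (E × Z)} (hA : IsClosed A) : IsClosed {x | ∃ z ∈ K, (x, z) ∈ A} := by
  rw [← isOpen_compl_iff, isOpen_iff_mem_nhds]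
  intro x hx
  have hx' : ∀ z ∈ K, (x, z) ∉ A := fun z hz h => hx ⟨z, hz, h⟩
  have := hK.eventually_forall_of_forall_eventually (x₀ := x) (P := fun x z => (x, z) ∉ A)
    (fun z hz => hA.isOpen_compl.eventually_mem (hx' z hz))
  filter_upwards [this] with x' h1
  rintro ⟨z, hz, h2⟩
  exact h1 z hz h2

section Meas

variable {E : Type*} [NormedAddCommGroup E] [NormedSpace ℂ E]

/-- parameters with exactly one zero in the closed disc -/
def oneZero (F : E × ℂ → ℂ) (b : ℂ) (ρ : ℝ) : Set E :=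
  {x | ∃ y ∈ closedBall b ρ, F (x, y) = 0 ∧ ∀ y' ∈ closedBall b ρ, F (x, y') = 0 → y' = y}

lemma oneZero_eq (F : E × ℂ → ℂ) (b : ℂ) (ρ : ℝ) : oneZero F b ρ =
    {x | ∃ z ∈ closedBall b ρ, (x, z) ∈ {p : E × ℂ | F p = 0}} \
      ⋃ m : ℕ, {x | ∃ z ∈ (closedBall b ρ ×ˢ closedBall b ρ : Set (ℂ × ℂ)),
        (x, z) ∈ {p : E × (ℂ × ℂ) | F (p.1, p.2.1) = 0 ∧ F (p.1, p.2.2) = 0 ∧
          1 / ((m : ℝ) + 1) ≤ dist p.2.1 p.2.2}} := by
  ext x
  constructor
  · rintro ⟨y, hy, h0, huniq⟩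
    refine ⟨⟨y, hy, h0⟩, ?_⟩
    intro hcon
    obtain ⟨m, ⟨z1, z2⟩, ⟨hz1, hz2⟩, h1, h2, h3⟩ := mem_iUnion.1 hcon
    have e1 : z1 = y := huniq z1 hz1 h1
    have e2 : z2 = y := huniq z2 hz2 h2
    have h3' : 1 / ((m : ℝ) + 1) ≤ dist z1 z2 := h3
    rw [e1, e2, dist_self] at h3'
    have : 0 < 1 / ((m : ℝ) + 1) := by positivity
    linarith
  · rintro ⟨⟨y, hy, h0⟩, hno⟩
    refine ⟨y, hy, h0, ?_⟩
    intro y' hy' h0'
    by_contra hne
    apply hno
    obtain ⟨m, hm⟩ := exists_nat_one_div_lt (dist_pos.2 hne)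
    exact mem_iUnion.2 ⟨m, (y', y), ⟨hy', hy⟩, h0', h0, hm.le⟩

variable [MeasurableSpace E] [BorelSpace E] [SecondCountableTopology E]

lemma oneZero_meas {F : E × ℂ → ℂ} (hF : Continuous F) (b : ℂ) (ρ : ℝ) : MeasurableSet (oneZero F b ρ) := by
  rw [oneZero_eq]
  refine (closed_ex (isCompact_closedBall b ρ) (isClosed_singleton.preimage hF)).measurableSet.diff
    (MeasurableSet.iUnion fun m => IsClosed.measurableSet ?_)
  refine closed_ex ((isCompact_closedBall b ρ).prod (isCompact_closedBall b ρ)) ?_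
  have h1 : IsClosed {p : E × (ℂ × ℂ) | F (p.1, p.2.1) = 0} :=
    isClosed_singleton.preimage (by fun_prop : Continuous fun p : E × (ℂ × ℂ) => F (p.1, p.2.1))
  have h2 : IsClosed {p : E × (ℂ × ℂ) | F (p.1, p.2.2) = 0} :=
    isClosed_singleton.preimage (by fun_prop : Continuous fun p : E × (ℂ × ℂ) => F (p.1, p.2.2))
  have h3 : IsClosed {p : E × (ℂ × ℂ) | 1 / ((m : ℝ) + 1) ≤ dist p.2.1 p.2.2} :=
    isClosed_le continuous_const (by fun_prop)
  exact h1.inter (h2.inter h3)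

/-- The branch of a measurable set over the parameters with exactly one zero is measurable. -/
lemma branch_meas {F : E × ℂ → ℂ} (hF : Continuous F) (b : ℂ) (ρ : ℝ) {S : Set (E × ℂ)}
    (hS : MeasurableSet S) :
    MeasurableSet (oneZero F b ρ ∩ {x | ∃ y ∈ closedBall b ρ, F (x, y) = 0 ∧ (x, y) ∈ S}) := by
  rw [BorelSpace.measurable_eq (α := E × ℂ), borel_eq_generateFrom_isClosed] at hS
  induction S, hS using MeasurableSpace.generateFrom_induction with
  | hC A hA _ =>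
    refine (oneZero_meas hF b ρ).inter (IsClosed.measurableSet ?_)
    have : {x : E | ∃ y ∈ closedBall b ρ, F (x, y) = 0 ∧ (x, y) ∈ A} =
        {x | ∃ y ∈ closedBall b ρ, (x, y) ∈ ({p : E × ℂ | F p = 0} ∩ A)} := rfl
    rw [this]
    exact closed_ex (isCompact_closedBall b ρ) ((isClosed_singleton.preimage hF).inter hA)
  | empty => simp
  | compl A _ ih =>
    have : oneZero F b ρ ∩ {x | ∃ y ∈ closedBall b ρ, F (x, y) = 0 ∧ (x, y) ∈ Aᶜ} =
        oneZero F b ρ \ (oneZero F b ρ ∩ {x | ∃ y ∈ closedBall b ρ, F (x, y) = 0 ∧ (x, y) ∈ A}) := by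
      ext x
      constructor
      · rintro ⟨hx, y, hy, h0, hA⟩
        refine ⟨hx, ?_⟩
        rintro ⟨_, y', hy', h0', hA'⟩
        obtain ⟨z, _, _, huniq⟩ := hx
        rw [huniq y' hy' h0', ← huniq y hy h0] at hA'
        exact hA hA'
      · rintro ⟨hx, hno⟩
        refine ⟨hx, ?_⟩
        obtain ⟨z, hz, h0, huniq⟩ := id hx
        exact ⟨z, hz, h0, fun hA => hno ⟨hx, z, hz, h0, hA⟩⟩
    rw [this]
    exact (oneZero_meas hF b ρ).diff ih
  | iUnion A _ ih =>
    have : oneZero F b ρ ∩ {x | ∃ y ∈ closedBall b ρ, F (x, y) = 0 ∧ (x, y) ∈ ⋃ i, A i} =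
        ⋃ i, oneZero F b ρ ∩ {x | ∃ y ∈ closedBall b ρ, F (x, y) = 0 ∧ (x, y) ∈ A i} := by
      ext x
      simp only [mem_inter_iff, mem_ofPred_eq, mem_iUnion]
      constructor
      · rintro ⟨hx, y, hy, h0, i, hi⟩
        exact ⟨i, hx, y, hy, h0, hi⟩
      · rintro ⟨i, hx, y, hy, h0, hi⟩
        exact ⟨hx, y, hy, h0, i, hi⟩
    rw [this]
    exact MeasurableSet.iUnion ih

/-- Guarded projections of Borel sets are Borel. -/
theorem proj_meas {F : E × ℂ → ℂ} (hF : AnalyticOnNhd ℂ F univ) {S : Set (E × ℂ)}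
    (hS : MeasurableSet S) : MeasurableSet {x | (∃ y, F (x, y) ≠ 0) ∧ ∃ y, F (x, y) = 0 ∧ (x, y) ∈ S} := by
  have hFc : Continuous F := by rw [← continuousOn_univ]; exact hF.continuousOn
  have hopen : IsOpen {x : E | ∃ y, F (x, y) ≠ 0} := by
    have : {x : E | ∃ y, F (x, y) ≠ 0} = ⋃ y, {x | F (x, y) ≠ 0} := by ext x; simp
    rw [this]
    exact isOpen_iUnion fun y => (isOpen_compl_singleton (x := (0:ℂ))).preimage
      (by fun_prop : Continuous fun x => F (x, y))
  have : {x : E | (∃ y, F (x, y) ≠ 0) ∧ ∃ y, F (x, y) = 0 ∧ (x, y) ∈ S} =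
      {x | ∃ y, F (x, y) ≠ 0} ∩ ⋃ q : ℕ × ℕ, (oneZero F (TopologicalSpace.denseSeq ℂ q.1) (1 / ((q.2 : ℝ) + 1)) ∩
        {x | ∃ y ∈ closedBall (TopologicalSpace.denseSeq ℂ q.1) (1 / ((q.2 : ℝ) + 1)), F (x, y) = 0 ∧ (x, y) ∈ S}) := by
    ext x
    constructor
    · rintro ⟨hne, y, h0, hyS⟩
      refine ⟨hne, ?_⟩
      have hfan : AnalyticOnNhd ℂ (fun y => F (x, y)) univ := by
        intro y _
        have : AnalyticAt ℂ (fun y : ℂ => (x, y)) y := analyticAt_const.prod analyticAt_id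
        exact AnalyticAt.comp (g := F) (hF _ (mem_univ _)) this
      have hiso : ∀ᶠ y' in 𝓝 y, y' ≠ y → F (x, y') ≠ 0 := by
        rcases (hfan y (mem_univ y)).eventually_eq_zero_or_eventually_ne_zero with h | h
        · obtain ⟨y₁, hy₁⟩ := hne
          exact absurd (hfan.eqOn_zero_of_preconnected_of_eventuallyEq_zero isPreconnected_univ
            (mem_univ y) h (mem_univ y₁)) hy₁
        · exact eventually_nhdsWithin_iff.1 h
      obtain ⟨ε, hε, hεs⟩ := Metric.eventually_nhds_iff_ball.1 hiso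
      obtain ⟨m, hm⟩ := exists_nat_one_div_lt (show 0 < ε / 2 by positivity)
      have hmpos : 0 < 1 / ((m : ℝ) + 1) := by positivity
      obtain ⟨q, hq⟩ := (TopologicalSpace.denseRange_denseSeq ℂ).exists_dist_lt y hmpos
      have hyB : y ∈ closedBall (TopologicalSpace.denseSeq ℂ q) (1 / ((m : ℝ) + 1)) :=
        mem_closedBall.2 hq.le
      refine mem_iUnion.2 ⟨(q, m), ⟨y, hyB, h0, ?_⟩, ⟨y, hyB, h0, hyS⟩⟩
      intro y' hy' h0'
      by_contra hne'
      refine hεs y' ?_ hne' h0'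
      rw [mem_ball]
      have h1 := dist_triangle_right y' y (TopologicalSpace.denseSeq ℂ q)
      have h2 := mem_closedBall.1 hy'
      simp only at h2
      linarith
    · rintro ⟨hne, hx⟩
      obtain ⟨q, _, y, _, h0, hyS⟩ := mem_iUnion.1 hx
      exact ⟨hne, y, h0, hyS⟩
  rw [this]
  exact hopen.measurableSet.inter (MeasurableSet.iUnion fun q => branch_meas hFc _ _ hS)

end Meas

/-- Existence of a finite atomless measure on an uncountable Borel set. -/
lemma exists_measure {A : Set ℂ} (hA : MeasurableSet A) (hunc : ¬ A.Countable) :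
    ∃ μ : Measure ℂ, IsFiniteMeasure μ ∧ μ Aᶜ = 0 ∧ μ ≠ 0 ∧ ∀ B : Set ℂ, B.Countable → μ B = 0 := by
  have hsb : StandardBorelSpace A := hA.standardBorel
  have h1 : ¬ Countable A := fun h => hunc h.to_set
  have h2 : ¬ Countable ℝ := by
    rw [← not_uncountable_iff, not_not]; infer_instance
  let e : A ≃ᵐ ℝ := PolishSpace.measurableEquivOfNotCountable h1 h2
  let φ : ℝ → ℂ := fun r => (e.symm r : ℂ)
  have hφm : Measurable φ := measurable_subtype_coe.comp e.symm.measurable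
  have hφi : Function.Injective φ := Subtype.val_injective.comp e.symm.injective
  let μ : Measure ℂ := (volume.restrict (Icc (0:ℝ) 1)).map φ
  refine ⟨μ, inferInstance, ?_, ?_, ?_⟩
  · rw [Measure.map_apply hφm hA.compl]
    have : φ ⁻¹' Aᶜ = ∅ := by
      rw [eq_empty_iff_forall_notMem]
      intro r hr
      exact hr (e.symm r).2
    rw [this, measure_empty]
  · intro h0
    have h3 : μ univ = 0 := by rw [h0]; simp
    rw [Measure.map_apply hφm MeasurableSet.univ] at h3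
    simp at h3
  · intro B hB
    rw [Measure.map_apply hφm hB.measurableSet]
    exact (hB.preimage_of_injOn hφi.injOn).measure_zero _

section Q

variable {E : Type*} [NormedAddCommGroup E] [NormedSpace ℂ E]

lemma DD.fiber {S : Set (E × ℂ)} (hS : DD S) (x : E) :
    {y | (x, y) ∈ S}.Countable ∨ {y | (x, y) ∉ S}.Countable :=
  hS.entire (γ := fun y => (x, y)) fun _ _ => analyticAt_const.prod analyticAt_id

lemma unc_eq {S : Set (E × ℂ)} (hS : DD S) :
    {x : E | ¬ {y | (x, y) ∈ S}.Countable} = {x | volume (Prod.mk x ⁻¹' Sᶜ) = 0} := by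
  ext x
  constructor
  · intro hx
    have h := (hS.fiber x).resolve_left hx
    exact h.measure_zero volume
  · intro hx hc
    have h1 : volume {y : ℂ | (x, y) ∈ S} = 0 := hc.measure_zero volume
    have h2 : volume (univ : Set ℂ) ≤ volume {y : ℂ | (x, y) ∈ S} + volume (Prod.mk x ⁻¹' Sᶜ) := by
      refine (measure_mono ?_).trans (measure_union_le _ _)
      intro y _
      by_cases hy : (x, y) ∈ S
      · exact Or.inl hy
      · exact Or.inr hy
    have h3 : volume (Prod.mk x ⁻¹' Sᶜ) = 0 := hx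
    rw [h1, h3] at h2
    have h4 : volume (univ : Set ℂ) ≠ 0 := by
      exact (isOpen_univ.measure_pos volume ⟨0, mem_univ _⟩).ne'
    rw [add_zero] at h2
    exact h4 (nonpos_iff_eq_zero.1 h2)

variable [MeasurableSpace E] [BorelSpace E] [SecondCountableTopology E]

lemma unc_meas {S : Set (E × ℂ)} (hSm : MeasurableSet S) (hS : DD S) :
    MeasurableSet {x : E | ¬ {y | (x, y) ∈ S}.Countable} := by
  rw [unc_eq hS]
  exact (measurable_measure_prodMk_left hSm.compl) (measurableSet_singleton 0)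

/-- The quantifier for uncountably many preserves the disc dichotomy for Borel sets. -/
theorem DD.unc {S : Set (E × ℂ)} (hSm : MeasurableSet S) (hS : DD S) :
    DD {x : E | ¬ {y | (x, y) ∈ S}.Countable} := by
  classical
  intro γ c r hγ
  by_contra hcon
  push Not at hcon
  obtain ⟨hc1, hc2⟩ := hcon
  set T : Set E := {x : E | ¬ {y | (x, y) ∈ S}.Countable} with hT
  have hTm : MeasurableSet T := unc_meas hSm hS
  set γ' : ℂ → E := (ball c r).piecewise γ (fun _ => 0) with hγ'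
  have hγ'm : Measurable γ' := ContinuousOn.measurable_piecewise hγ.continuousOn continuousOn_const
    measurableSet_ball
  have hγ'e : ∀ t ∈ ball c r, γ' t = γ t := fun t ht => piecewise_eq_of_mem _ _ _ ht
  set Sγ : Set (ℂ × ℂ) := {p | (γ' p.1, p.2) ∈ S} with hSγ
  have hSγm : MeasurableSet Sγ := hSm.preimage ((hγ'm.comp measurable_fst).prodMk measurable_snd)
  set T₁ : Set ℂ := ball c r ∩ γ' ⁻¹' T with hT₁
  set T₂ : Set ℂ := ball c r ∩ γ' ⁻¹' Tᶜ with hT₂
  have hT₁m : MeasurableSet T₁ := measurableSet_ball.inter (hTm.preimage hγ'm)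
  have hT₂m : MeasurableSet T₂ := measurableSet_ball.inter (hTm.compl.preimage hγ'm)
  have hT₁u : ¬ T₁.Countable := by
    intro h
    apply hc1
    refine h.mono ?_
    rintro t ⟨ht, ht'⟩
    refine ⟨ht, ?_⟩
    rw [mem_preimage, hγ'e t ht]; exact ht'
  have hT₂u : ¬ T₂.Countable := by
    intro h
    apply hc2
    refine h.mono ?_
    rintro t ⟨ht, ht'⟩
    refine ⟨ht, ?_⟩
    rw [mem_preimage, hγ'e t ht]; exact ht'
  obtain ⟨μ₁, hμ₁f, hμ₁s, hμ₁n, hμ₁c⟩ := exists_measure hT₁m hT₁u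
  obtain ⟨μ₂, hμ₂f, hμ₂s, hμ₂n, hμ₂c⟩ := exists_measure hT₂m hT₂u
  have a1 : ∀ᵐ t ∂μ₁, ∀ᵐ y ∂(volume : Measure ℂ), (t, y) ∈ Sγ := by
    have : ∀ᵐ t ∂μ₁, t ∈ T₁ := by
      rw [ae_iff]; exact hμ₁s
    filter_upwards [this] with t ht
    have h1 : ¬ {y | (γ' t, y) ∈ S}.Countable := ht.2
    have h2 := (hS.fiber (γ' t)).resolve_left h1
    rw [ae_iff]
    exact h2.measure_zero _
  have a2 : ∀ᵐ t ∂μ₂, ∀ᵐ y ∂(volume : Measure ℂ), (t, y) ∉ Sγ := by
    have : ∀ᵐ t ∂μ₂, t ∈ T₂ := by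
      rw [ae_iff]; exact hμ₂s
    filter_upwards [this] with t ht
    have h1 : {y | (γ' t, y) ∈ S}.Countable := by
      have := ht.2
      rw [mem_preimage, mem_compl_iff, hT, mem_ofPred_eq, not_not] at this
      exact this
    rw [ae_iff]
    have : {y | ¬ (t, y) ∉ Sγ} = {y | (γ' t, y) ∈ S} := by ext y; simp [hSγ]
    rw [this]
    exact h1.measure_zero _
  have b1 := (Measure.ae_ae_comm (μ := μ₁) (ν := (volume : Measure ℂ)) (p := fun t y => (t, y) ∈ Sγ) hSγm).1 a1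
  have b2 := (Measure.ae_ae_comm (μ := μ₂) (ν := (volume : Measure ℂ)) (p := fun t y => (t, y) ∉ Sγ)
    hSγm.compl).1 a2
  obtain ⟨y, hy1, hy2⟩ := (b1.and b2).exists
  rcases hS (fun t => (γ t, y)) c r (fun t ht => (hγ t ht).prod analyticAt_const) with h | h
  · apply hμ₁n
    rw [← Measure.measure_univ_eq_zero]
    have h3 : μ₁ {t | t ∈ ball c r ∧ (γ t, y) ∈ S} = 0 := hμ₁c _ h
    have h4 : μ₁ {t | ¬ (t, y) ∈ Sγ} = 0 := ae_iff.1 hy1
    have h5 : (univ : Set ℂ) ⊆ ({t | t ∈ ball c r ∧ (γ t, y) ∈ S} ∪ {t | ¬ (t, y) ∈ Sγ}) ∪ T₁ᶜ := by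
      intro t _
      by_cases ht1 : t ∈ T₁
      · left
        by_cases ht2 : (t, y) ∈ Sγ
        · left
          refine ⟨ht1.1, ?_⟩
          rw [← hγ'e t ht1.1]; exact ht2
        · exact Or.inr ht2
      · exact Or.inr ht1
    exact measure_mono_null h5 (measure_union_null (measure_union_null h3 h4) hμ₁s)
  · apply hμ₂n
    rw [← Measure.measure_univ_eq_zero]
    have h3 : μ₂ {t | t ∈ ball c r ∧ (γ t, y) ∉ S} = 0 := hμ₂c _ h
    have h4 : μ₂ {t | ¬ (t, y) ∉ Sγ} = 0 := ae_iff.1 hy2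
    have h5 : (univ : Set ℂ) ⊆ ({t | t ∈ ball c r ∧ (γ t, y) ∉ S} ∪ {t | ¬ (t, y) ∉ Sγ}) ∪ T₂ᶜ := by
      intro t _
      by_cases ht1 : t ∈ T₂
      · left
        by_cases ht2 : (t, y) ∈ Sγ
        · right
          exact fun h => h ht2
        · left
          refine ⟨ht1.1, ?_⟩
          rw [← hγ'e t ht1.1]; exact ht2
      · exact Or.inr ht1
    exact measure_mono_null h5 (measure_union_null (measure_union_null h3 h4) hμ₂s)

end Q

end Pool.Agent.Helper23.QM
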