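import Mathlib
import Pool.Agent.Helper23.QMh
import Pool.Agent.Helper23.QMi

set_option autoImplicit false

open Set Metric Filter Topology MeasureTheory Cardinal

namespace Pool.Agent.Helper23.QM

/-- The points of the fibre of `S` which are zeros of some `f i (x, ·)` that is not identically
zero. -/
def ctl {E : Type} (f : ℕ → E × ℂ → ℂ) (S : Set (E × ℂ)) (x : E) : Set ℂ :=
  {y | (∃ i, f i (x, y) = 0 ∧ ∃ z, f i (x, z) ≠ 0) ∧ (x, y) ∈ S}

/-- Counting quantifiers over the controlled zeros. -/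
theorem count_tame (n : ℕ) : ∀ (E : Type) [NormedAddCommGroup E] [NormedSpace ℂ E]
    [MeasurableSpace E] [BorelSpace E] [SecondCountableTopology E] (f : ℕ → E × ℂ → ℂ),
    (∀ i, AnalyticOnNhd ℂ (f i) univ) → (∀ i, FO (f i)) → ∀ S : Set (E × ℂ), MeasurableSet S →
    DD S → MeasurableSet {x : E | (n : ℕ∞) ≤ (ctl f S x).encard} ∧
      DD {x : E | (n : ℕ∞) ≤ (ctl f S x).encard} := by
  induction n with
  | zero =>
    intro E _ _ _ _ _ f hf _ S _ _
    have : {x : E | ((0 : ℕ) : ℕ∞) ≤ (ctl f S x).encard} = {_x : E | True} := by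
      ext x; simp
    rw [this]
    exact ⟨by simp, DD.const True⟩
  | succ n ih =>
    intro E _ _ _ _ _ f hf hFO S hSm hS
    set g : ℕ → (E × ℂ) × ℂ → ℂ := fun i q => f i (q.1.1, q.2) with hg
    set T : Set ((E × ℂ) × ℂ) := {q | (q.1.1, q.2) ∈ S ∧ q.2 ≠ q.1.2} with hT
    have hfst : AnalyticOnNhd ℂ (fun q : (E × ℂ) × ℂ => (q.1.1, q.2)) univ := fun q _ =>
      (analyticAt_fst.comp analyticAt_fst).prod analyticAt_snd
    have h1 : ∀ i, AnalyticOnNhd ℂ (g i) univ := fun i q _ =>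
      AnalyticAt.comp (g := f i) (hf i _ (mem_univ _)) (hfst q (mem_univ _))
    have h2 : ∀ i, FO (g i) := by
      intro i x₀
      obtain ⟨δ, hδ, C, ρ, hb⟩ := hFO i x₀.1
      refine ⟨δ, hδ, C, ρ, fun x hx y => hb x.1 ?_ y⟩
      rw [mem_ball, Prod.dist_eq] at hx
      exact mem_ball.2 (lt_of_le_of_lt (le_max_left _ _) hx)
    have e3 : T = {q : (E × ℂ) × ℂ | (q.1.1, q.2) ∈ S} ∩ {q : (E × ℂ) × ℂ | q.2 - q.1.2 = 0}ᶜ := by
      ext q; simp [hT, sub_eq_zero]
    have h3 : DD T := by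
      have e1 : DD {q : (E × ℂ) × ℂ | (q.1.1, q.2) ∈ S} := hS.comp hfst
      have e2 : DD {q : (E × ℂ) × ℂ | q.2 - q.1.2 = 0} := DD.zero fun q _ =>
        analyticAt_snd.sub (analyticAt_snd.comp analyticAt_fst)
      rw [e3]; exact e1.inter e2.compl
    have h4 : MeasurableSet T := by
      rw [e3]
      refine MeasurableSet.inter ?_ (MeasurableSet.compl ?_)
      · exact hSm.preimage (by fun_prop : Measurable fun q : (E × ℂ) × ℂ => (q.1.1, q.2))
      · exact (measurableSet_singleton (0:ℂ)).preimage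
          (by fun_prop : Measurable fun q : (E × ℂ) × ℂ => q.2 - q.1.2)
    obtain ⟨hPm, hPD⟩ := ih (E × ℂ) g h1 h2 T h4 h3
    have hset : {x : E | ((n + 1 : ℕ) : ℕ∞) ≤ (ctl f S x).encard} =
        ⋃ i, {x : E | (∃ y, f i (x, y) ≠ 0) ∧ ∃ y, f i (x, y) = 0 ∧
          (x, y) ∈ S ∩ {p : E × ℂ | (n : ℕ∞) ≤ (ctl g T p).encard}} := by
      ext x
      simp only [mem_ofPred_eq, mem_iUnion, mem_inter_iff]
      rw [succ_le_encard_iff]
      have hsub : ∀ y, (ctl f S x \ {y}) = ctl g T (x, y) := by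
        intro y; ext y'; simp [ctl, hg, hT, and_assoc]
      constructor
      · rintro ⟨y, ⟨⟨i, hi, hne⟩, hyS⟩, hn⟩
        rw [hsub] at hn
        exact ⟨i, hne, y, hi, hyS, hn⟩
      · rintro ⟨i, hne, y, hi, hyS, hn⟩
        refine ⟨y, ⟨⟨i, hi, hne⟩, hyS⟩, ?_⟩
        rw [hsub]; exact hn
    rw [hset]
    exact ⟨MeasurableSet.iUnion fun i => proj_meas (hf i) (hSm.inter hPm),
      DD.iUnion fun i => DD.proj (hf i) (hFO i) (hS.inter hPD)⟩

/-- The cardinality of a countable set in terms of its extended cardinality. -/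
lemma mk_of_countable {A : Set ℂ} (hA : A.Countable) (K : Set Cardinal.{0}) :
    #A ∈ K ↔ (∃ n : ℕ, (n : Cardinal) ∈ K ∧ (n : ℕ∞) ≤ A.encard ∧ ¬ ((n + 1 : ℕ) : ℕ∞) ≤ A.encard) ∨
      (ℵ₀ ∈ K ∧ ∀ n : ℕ, (n : ℕ∞) ≤ A.encard) := by
  by_cases hfin : A.Finite
  · have e1 : ((A.ncard : ℕ) : ℕ∞) = A.encard := hfin.cast_ncard_eq
    have e2 : ((A.ncard : ℕ) : Cardinal) = #A := Set.cast_ncard hfin
    constructor
    · intro h
      left
      refine ⟨A.ncard, by rwa [e2], e1.le, ?_⟩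
      rw [← e1, not_le]
      exact_mod_cast Nat.lt_succ_self _
    · rintro (⟨n, hn, h1, h2⟩ | ⟨_, h⟩)
      · rw [← e1] at h1 h2
        have h3 : n ≤ A.ncard := by exact_mod_cast h1
        have h4 : A.ncard < n + 1 := by
          rw [not_le] at h2
          exact_mod_cast h2
        have h5 : A.ncard = n := by omega
        rw [← e2, h5]; exact hn
      · exfalso
        have := h (A.ncard + 1)
        rw [← e1] at this
        have h3 : A.ncard + 1 ≤ A.ncard := by exact_mod_cast this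
        omega
  · have htop : A.encard = ⊤ := encard_eq_top_iff.2 hfin
    have : Infinite A := Set.Infinite.to_subtype hfin
    have : Countable A := hA.to_subtype
    have e : #A = ℵ₀ := Cardinal.mk_eq_aleph0 _
    rw [e]
    constructor
    · intro h
      exact Or.inr ⟨h, fun n => by rw [htop]; exact le_top⟩
    · rintro (⟨n, _, _, h2⟩ | ⟨h, _⟩)
      · exact absurd (by rw [htop]; exact le_top) h2
      · exact h

/-- Cardinality quantifiers over controlled fibres. -/
theorem card_tame {E : Type} [NormedAddCommGroup E] [NormedSpace ℂ E]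
    [MeasurableSpace E] [BorelSpace E] [SecondCountableTopology E] (f : ℕ → E × ℂ → ℂ)
    (hf : ∀ i, AnalyticOnNhd ℂ (f i) univ) (hFO : ∀ i, FO (f i)) {S : Set (E × ℂ)}
    (hSm : MeasurableSet S) (hS : DD S)
    (hc : ∀ x, {y | (x, y) ∈ S} ⊆ {y | ∃ i, f i (x, y) = 0 ∧ ∃ z, f i (x, z) ≠ 0} ∨
      {y | (x, y) ∉ S} ⊆ {y | ∃ i, f i (x, y) = 0 ∧ ∃ z, f i (x, z) ≠ 0}) (K : Set Cardinal.{0}) :
    MeasurableSet {x : E | #{y // (x, y) ∈ S} ∈ K} ∧ DD {x : E | #{y // (x, y) ∈ S} ∈ K} := by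
  -- zero sets of the slices are countable
  have hGc : ∀ x, {y | ∃ i, f i (x, y) = 0 ∧ ∃ z, f i (x, z) ≠ 0}.Countable := by
    intro x
    have : {y | ∃ i, f i (x, y) = 0 ∧ ∃ z, f i (x, z) ≠ 0} =
        ⋃ i, {y | f i (x, y) = 0 ∧ ∃ z, f i (x, z) ≠ 0} := by
      ext y; simp
    rw [this]
    refine countable_iUnion fun i => ?_
    have hfan : AnalyticOnNhd ℂ (fun y => f i (x, y)) univ := by
      intro y _
      have : AnalyticAt ℂ (fun y : ℂ => (x, y)) y := analyticAt_const.prod analyticAt_id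
      exact AnalyticAt.comp (g := f i) (hf i _ (mem_univ _)) this
    by_cases h : ∃ z, f i (x, z) ≠ 0
    · obtain ⟨y, hy⟩ := h
      refine (countable_zeros hfan isPreconnected_univ ⟨y, mem_univ _, hy⟩).mono ?_
      intro y hy
      exact ⟨mem_univ _, hy.1⟩
    · have : {y | f i (x, y) = 0 ∧ ∃ z, f i (x, z) ≠ 0} = ∅ := by
        rw [eq_empty_iff_forall_notMem]
        rintro y ⟨_, h'⟩
        exact h h'
      rw [this]; exact countable_empty
  have hunc : ¬ (univ : Set ℂ).Countable := not_countable_complex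
  -- the two alternatives
  have hctl : ∀ x, {y | (x, y) ∈ S}.Countable → {y | (x, y) ∈ S} = ctl f S x := by
    intro x hx
    rcases hc x with h | h
    · ext y
      exact ⟨fun hy => ⟨h hy, hy⟩, fun hy => hy.2⟩
    · exfalso
      apply hunc
      refine (hx.union ((hGc x).mono h)).mono ?_
      intro y _
      by_cases hy : (x, y) ∈ S
      · exact Or.inl hy
      · exact Or.inr hy
  have hcont : ∀ x, ¬ {y | (x, y) ∈ S}.Countable → #{y // (x, y) ∈ S} = #ℂ := by
    intro x hx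
    have hc' : ({y | (x, y) ∈ S}ᶜ).Countable := (hS.fiber x).resolve_left hx
    have h3 : #({y | (x, y) ∈ S}ᶜ : Set ℂ) < #ℂ := by
      refine lt_of_le_of_lt (Cardinal.le_aleph0_iff_set_countable.2 hc') ?_
      rw [Cardinal.mk_complex]
      exact Cardinal.aleph0_lt_continuum
    have h4 := Cardinal.mk_compl_of_infinite ({y | (x, y) ∈ S}ᶜ) h3
    rw [compl_compl] at h4
    exact h4
  set A : ℕ → Set E := fun n => {x : E | (n : ℕ∞) ≤ (ctl f S x).encard} with hA
  have hAm : ∀ n, MeasurableSet (A n) := fun n => (count_tame n E f hf hFO S hSm hS).1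
  have hAD : ∀ n, DD (A n) := fun n => (count_tame n E f hf hFO S hSm hS).2
  set U : Set E := {x | ¬ {y | (x, y) ∈ S}.Countable} with hU
  have hset : {x : E | #{y // (x, y) ∈ S} ∈ K} =
      (U ∩ {_x : E | #ℂ ∈ K}) ∪ (Uᶜ ∩ ((⋃ n : ℕ, ({_x : E | (n : Cardinal.{0}) ∈ K} ∩ (A n ∩ (A (n + 1))ᶜ))) ∪
        ({_x : E | ℵ₀ ∈ K} ∩ ⋂ n, A n))) := by
    ext x
    by_cases hx : {y | (x, y) ∈ S}.Countable
    · have h1 : #{y // (x, y) ∈ S} = #({y | (x, y) ∈ S} : Set ℂ) := rfl
      have h2 := mk_of_countable hx K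
      have h3 : x ∉ U := fun h => h hx
      rw [hctl x hx] at h2 h1
      simp only [mem_ofPred_eq, mem_union, mem_inter_iff, mem_compl_iff, h3, not_false_eq_true,
        false_and, true_and, false_or, mem_iUnion, mem_iInter]
      rw [h1, h2]
      simp only [hA, mem_ofPred_eq]
    · have h3 : x ∈ U := hx
      have h4 : x ∉ Uᶜ := fun h => h h3
      simp only [mem_ofPred_eq, mem_union, mem_inter_iff, h3, h4, false_and, true_and, or_false]
      rw [hcont x hx]
  have hUm : MeasurableSet U := unc_meas hSm hS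
  have hUD : DD U := DD.unc hSm hS
  have hconst : ∀ p : Prop, MeasurableSet {_x : E | p} := fun p => MeasurableSet.const p
  rw [hset]
  refine ⟨(hUm.inter (hconst _)).union (hUm.compl.inter ((MeasurableSet.iUnion fun n =>
      (hconst _).inter ((hAm n).inter (hAm (n + 1)).compl)).union ((hconst _).inter
      (MeasurableSet.iInter hAm)))), ?_⟩
  refine (hUD.inter (DD.const _)).union (hUD.compl.inter ((DD.iUnion fun n =>
      (DD.const _).inter ((hAD n).inter (hAD (n + 1)).compl)).union ((DD.const _).inter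
      (DD.iInter hAD))))

end Pool.Agent.Helper23.QM
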