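import Mathlib

/-!
Definitions for the two-variable fragment of the infinitary logic of entire functions of finite
order, with arbitrary cardinality quantifiers.
-/

namespace Pool.Agent.Helper23.TwoVariable

/-- `f : ℂ² → ℂ` has finite order of growth in each of its two variables, uniformly for bounded
values of the other variable. -/
def FiniteOrderEach (f : ℂ × ℂ → ℂ) : Prop :=
  (∀ r : ℝ, ∃ (C : ℝ) (ρ : ℕ), ∀ x y : ℂ, ‖x‖ ≤ r → ‖f (x, y)‖ ≤ Real.exp (C * (1 + ‖y‖) ^ ρ)) ∧
  (∀ r : ℝ, ∃ (C : ℝ) (ρ : ℕ), ∀ x y : ℂ, ‖y‖ ≤ r → ‖f (x, y)‖ ≤ Real.exp (C * (1 + ‖x‖) ^ ρ))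

/-- The smallest family of subsets of `ℂ²` which contains the zero sets of entire functions of
finite order in each variable and is closed under complements, countable unions, and the
unrestricted quantifiers `the number of y (resp. x) with (x, y) in S is a member of K`, for any
class `K` of cardinals.  The case `K = {κ | κ ≠ 0}` is the existential quantifier. -/
inductive Def : Set (ℂ × ℂ) → Prop
  | zeroSet (f : ℂ × ℂ → ℂ) (hf : AnalyticOnNhd ℂ f Set.univ) (hG : FiniteOrderEach f) :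
      Def {p | f p = 0}
  | compl {S : Set (ℂ × ℂ)} (hS : Def S) : Def Sᶜ
  | iUnion {S : ℕ → Set (ℂ × ℂ)} (hS : ∀ i, Def (S i)) : Def (⋃ i, S i)
  | cardSecond (K : Set Cardinal.{0}) {S : Set (ℂ × ℂ)} (hS : Def S) :
      Def {p | Cardinal.mk {y : ℂ // (p.1, y) ∈ S} ∈ K}
  | cardFirst (K : Set Cardinal.{0}) {S : Set (ℂ × ℂ)} (hS : Def S) :
      Def {p | Cardinal.mk {x : ℂ // (x, p.2) ∈ S} ∈ K}

end Pool.Agent.Helper23.TwoVariable
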