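import Mathlib
import Pool.Agent.Helper23.TwoVarDefs
import Pool.Agent.Helper23.QMi

/-!
# Quasiminimality for the two-variable fragment

Every relation obtained from zero sets of entire functions `f(x, y)` of finite order in each
variable by complements, countable unions and unrestricted quantification over one of the two
variables (existential quantifiers, counting quantifiers, and all other quantifiers that depend
on the cardinality of the fibre) is countable or cocountable along every entire curve.
-/

set_option autoImplicit false

open Set Metric Filter Topology

namespace Pool.Agent.Results.MP_a12702_lc.TwoVariable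

open Pool.Agent.Helper23.TwoVariable Pool.Agent.Helper23.QM

lemma normal_form {S : Set (ℂ × ℂ)} (hS : Def S) : NF S := by
  induction hS with
  | zeroSet f hf hG => exact NF.zero hf hG
  | compl _ ih => exact ih.compl
  | iUnion _ ih => exact NF.iUnion ih
  | cardSecond K _ ih => exact ih.card K
  | cardFirst K _ ih => exact (ih.swap.card K).swap

theorem result {S : Set (ℂ × ℂ)} (hS : Def S) (γ : ℂ → ℂ × ℂ) (hγ : AnalyticOnNhd ℂ γ univ) :
    {t | γ t ∈ S}.Countable ∨ {t | γ t ∉ S}.Countable :=
  (normal_form hS).1.entire hγ

end Pool.Agent.Results.MP_a12702_lc.TwoVariable
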